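import Mathlib

/-!
# MP_43d240_ag, project PI (ramified counterexample of H84/Paper.md): definitions and main statements

Everything at a prime is expressed by predicates on elements of the fraction field `K` of a
unique factorization domain `B` (given by an injective ring homomorphism `φ : B →+* K`).
-/

set_option autoImplicit false
set_option linter.unusedVariables false

open scoped TensorProduct Polynomial
open Matrix

namespace Pool.Agent.PI

/-! ### Quaternion symbols -/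

/-- The tensor product of the quaternion algebras `(a j, b j)` over `K` is split. -/
def SplitSyms {K : Type} [Field K] {r : ℕ} (a b : Fin r → K) : Prop :=
  ∃ X Y : Fin r → Matrix (Fin (2 ^ r)) (Fin (2 ^ r)) K,
    (∀ j, X j * X j = a j • 1) ∧ (∀ j, Y j * Y j = b j • 1) ∧ (∀ j, X j * Y j = - (Y j * X j)) ∧
    (∀ i j, i ≠ j → X i * X j = X j * X i ∧ X i * Y j = Y j * X i ∧ Y i * Y j = Y j * Y i)

/-- CHAPTER 1 (ALG): if no product of two quaternion algebras is equivalent to the product of the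
three given ones, then that product is a division algebra of degree 8 and period 2. -/
def AlgStatement : Prop :=
  ∀ (K : Type) [Field K], (2 : K) ≠ 0 → ∀ (a b : Fin 3 → K), (∀ j, a j ≠ 0) → (∀ j, b j ≠ 0) →
    (∀ a' b' : Fin 2 → K, (∀ j, a' j ≠ 0) → (∀ j, b' j ≠ 0) →
      ¬ SplitSyms (Fin.append a a') (Fin.append b b')) →
    ∃ (D : Type) (_ : DivisionRing D) (_ : Algebra K D), Algebra.IsCentral K D ∧
      Module.finrank K D = 64 ∧ Nonempty (D ⊗[K] D ≃ₐ[K] Matrix (Fin 64) (Fin 64) K)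

/-! ### Predicates at a prime -/

section preds

variable {B K : Type} [CommRing B] [Field K] (φ : B →+* K)

/-- `K` is the fraction field of `B` through `φ` -/
def FracMap : Prop := Function.Injective φ ∧ ∀ x : K, ∃ a s : B, φ s ≠ 0 ∧ φ s * x = φ a

/-- `x` is integral at the prime `p` (lies in the image of `B_(p)`) -/
def IntAt (p : B) (x : K) : Prop := ∃ a s : B, ¬ p ∣ s ∧ φ s * x = φ a

/-- `x` is a unit at the prime `p` -/
def UnitAt (p : B) (x : K) : Prop := ∃ a s : B, ¬ p ∣ a ∧ ¬ p ∣ s ∧ φ s * x = φ a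

/-- `x ≡ y` modulo `p` -/
def CongAt (p : B) (x y : K) : Prop := ∃ t : K, IntAt φ p t ∧ x - y = φ p * t

/-- `x` (a unit at `p`) is a square modulo `p` -/
def SqAt (p : B) (x : K) : Prop := ∃ w : K, UnitAt φ p w ∧ CongAt φ p x (w ^ 2)

/-- the quadratic form with matrix `D` has a unimodular lattice at `p` -/
def Uni (p : B) (D : Matrix (Fin 6) (Fin 6) K) : Prop :=
  ∃ P : Matrix (Fin 6) (Fin 6) K, P.det ≠ 0 ∧ (∀ i j, IntAt φ p ((Pᵀ * D * P) i j)) ∧
    UnitAt φ p (Pᵀ * D * P).det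

/-- the quadratic form with matrix `D` is `<u0,u1,u2,u3> ⊥ p <v1,v2>` at `p` (units) -/
def Ram (p : B) (D : Matrix (Fin 6) (Fin 6) K) (v1 v2 : K) : Prop :=
  UnitAt φ p v1 ∧ UnitAt φ p v2 ∧ ∃ P : Matrix (Fin 6) (Fin 6) K, P.det ≠ 0 ∧
    ∃ u : Fin 4 → K, (∀ i, UnitAt φ p (u i)) ∧
      Pᵀ * D * P = diagonal ![u 0, u 1, u 2, u 3, φ p * v1, φ p * v2]

end preds

/-- the six entries of the Albert form of `(a 0, b 0) ⊗ (a 1, b 1)` -/
def albert {K : Type} [Field K] (a b : Fin 2 → K) : Fin 6 → K :=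
  ![a 0, b 0, a 0 * b 0, a 1, b 1, a 1 * b 1]

/-- CHAPTER 2 (RNF): residues of a relation between quaternion algebras and normal form of the Albert
form at a prime. -/
def RnfStatement : Prop :=
  ∀ (B K : Type) [CommRing B] [IsDomain B] [UniqueFactorizationMonoid B] [Field K]
    (φ : B →+* K), FracMap φ → IsUnit (2 : B) → (∃ i0 : B, i0 ^ 2 = -1) →
    ∀ p : B, Prime p → ∀ (a b : Fin 3 → K) (a' b' : Fin 2 → K),
    (∀ j, a j ≠ 0) → (∀ j, b j ≠ 0) → (∀ j, a' j ≠ 0) → (∀ j, b' j ≠ 0) →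
    SplitSyms (Fin.append a a') (Fin.append b b') →
    ∀ (m n : Fin 3 → ℤ) (u v : Fin 3 → K), (∀ j, UnitAt φ p (u j)) → (∀ j, UnitAt φ p (v j)) →
    (∀ j, a j = φ p ^ m j * u j) → (∀ j, b j = φ p ^ n j * v j) →
    (SqAt φ p (∏ j, u j ^ n j * v j ^ m j) →
      ∃ ε : ℕ, ε ≤ 1 ∧ Uni φ p (diagonal fun i => φ p ^ ε * albert a' b' i)) ∧
    (¬ SqAt φ p (∏ j, u j ^ n j * v j ^ m j) →
      ∃ ε : ℕ, ε ≤ 1 ∧ ∃ v1 v2 : K, Ram φ p (diagonal fun i => φ p ^ ε * albert a' b' i) v1 v2 ∧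
        SqAt φ p ((∏ j, u j ^ n j * v j ^ m j) * (v1 * v2)))

/-- CHAPTER 3 (LOC): local lemma (Corollary 5) over a two-dimensional regular local ring. -/
def LocStatement : Prop :=
  ∀ (R K : Type) [CommRing R] [IsDomain R] [IsLocalRing R] [IsNoetherianRing R]
    [UniqueFactorizationMonoid R] [Field K] (φ : R →+* K), FracMap φ → IsUnit (2 : R) →
    (∃ i0 : R, i0 ^ 2 = -1) →
    ∀ Z g : R, Prime Z → Prime g → ¬ Z ∣ g → IsLocalRing.maximalIdeal R = Ideal.span {Z, g} →
    ∀ d : Fin 6 → K, (∀ i, d i ≠ 0) →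
    (∀ p : R, Prime p → ¬ Associated p Z → ¬ Associated p g → Uni φ p (diagonal d)) →
    ∀ (c f : R) (v1 v2 : K), ¬ Z ∣ c → Ram φ Z (diagonal d) v1 v2 →
    SqAt φ Z (φ c * v1) → SqAt φ Z (φ f * (v1 * v2)) →
    ¬ IsSquare (IsLocalRing.residue R f) →
    (Uni φ g (diagonal d) ∨ ∃ (h : R) (w1 w2 : K), Ram φ g (diagonal d) w1 w2 ∧
      SqAt φ g (φ h * (w1 * w2)) ∧ ¬ IsSquare (IsLocalRing.residue R (f * h))) →
    ∃ (n : ℕ) (e r : R), IsUnit e ∧ c = g ^ (2 * n) * e + Z * r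

/-- `f` is not a square in the fraction field of `C/γ` (and not zero) -/
def NonSq {C : Type} [CommRing C] (γ f : C) : Prop :=
  ∀ p q : C, ¬ γ ∣ q → ¬ γ ∣ f * q ^ 2 - p ^ 2

/-- CHAPTER 4 (CHART): the local lemma for the localization of `C[X]` at `(X, γ)`. -/
def ChartStatement : Prop :=
  ∀ (C K : Type) [CommRing C] [IsDomain C] [IsNoetherianRing C] [UniqueFactorizationMonoid C]
    [Field K] (φ : C[X] →+* K), FracMap φ → IsUnit (2 : C) → (∃ i0 : C, i0 ^ 2 = -1) →
    ∀ γ : C, Prime γ → ∀ g : C[X], Prime g → Associated (g.coeff 0) γ →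
    ∀ d : Fin 6 → K, (∀ i, d i ≠ 0) →
    (∀ p : C[X], Prime p → γ ∣ p.coeff 0 → ¬ Associated p Polynomial.X → ¬ Associated p g →
      Uni φ p (diagonal d)) →
    ∀ (c f : C) (v1 v2 : K), c ≠ 0 → Ram φ Polynomial.X (diagonal d) v1 v2 →
    SqAt φ Polynomial.X (φ (Polynomial.C c) * v1) →
    SqAt φ Polynomial.X (φ (Polynomial.C f) * (v1 * v2)) → NonSq γ f →
    (Uni φ g (diagonal d) ∨ ∃ (h : C[X]) (w1 w2 : K), Ram φ g (diagonal d) w1 w2 ∧
      SqAt φ g (φ h * (w1 * w2)) ∧ NonSq γ (f * h.coeff 0)) →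
    ∃ (n : ℕ) (e : C), ¬ γ ∣ e ∧ c = γ ^ (2 * n) * e

/-! ### The explicit class -/

/-- the equation of the dual curve of `Y^2 = X^3 - X` in the coordinates `x = X 0`, `y = X 1`
(`m = y`, `c = x - 2 y`) -/
noncomputable def bpoly (k : Type) [CommRing k] : MvPolynomial (Fin 2) k :=
  let m : MvPolynomial (Fin 2) k := MvPolynomial.X 1
  let c : MvPolynomial (Fin 2) k := MvPolynomial.X 0 - 2 * MvPolynomial.X 1
  4 * m ^ 5 * c - 4 * m ^ 3 * c ^ 3 + m ^ 4 + 30 * m ^ 2 * c ^ 2 - 27 * c ^ 4 + 24 * m * c + 4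

/-- CHAPTER 6 (NL): `b` is not a square (or zero) on a plane curve of odd degree. -/
def NLStatement : Prop :=
  ∀ (k : Type) [Field k] [IsAlgClosed k] [CharZero k] (γ : MvPolynomial (Fin 2) k),
    Irreducible γ → Odd γ.totalDegree → NonSq γ (bpoly k)

/-- the function field `k(x,y)(z)` -/
abbrev KK (k : Type) [Field k] : Type := FractionRing (Polynomial (MvPolynomial (Fin 2) k))

section
variable (k : Type) [Field k]

noncomputable def xx : KK k := algebraMap (Polynomial (MvPolynomial (Fin 2) k)) (KK k)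
  (Polynomial.C (MvPolynomial.X 0))
noncomputable def yy : KK k := algebraMap (Polynomial (MvPolynomial (Fin 2) k)) (KK k)
  (Polynomial.C (MvPolynomial.X 1))
noncomputable def zz : KK k := algebraMap (Polynomial (MvPolynomial (Fin 2) k)) (KK k)
  Polynomial.X
noncomputable def bb : KK k := algebraMap (Polynomial (MvPolynomial (Fin 2) k)) (KK k)
  (Polynomial.C (bpoly k))

/-- left slots -/
noncomputable def aS : Fin 3 → KK k := ![zz k, xx k + zz k, yy k]
/-- right slots -/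
noncomputable def bS : Fin 3 → KK k := ![bb k, zz k - 1, zz k - 2]

end

/-- CHAPTER 5 (GLOB): the class is not a product of two quaternion algebras. -/
def GlobStatement : Prop :=
  ∀ (k : Type) [Field k] [IsAlgClosed k] [CharZero k] (a' b' : Fin 2 → KK k),
    (∀ j, a' j ≠ 0) → (∀ j, b' j ≠ 0) →
    ¬ SplitSyms (Fin.append (aS k) a') (Fin.append (bS k) b')

/-- The final theorem. -/
def FinalStatement : Prop :=
  ∀ (k : Type) [Field k] [IsAlgClosed k] [CharZero k],
    Algebra.trdeg k (KK k) = 3 ∧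
    ∃ (D : Type) (_ : DivisionRing D) (_ : Algebra (KK k) D), Algebra.IsCentral (KK k) D ∧
      Module.finrank (KK k) D = 64 ∧
      Nonempty (D ⊗[KK k] D ≃ₐ[KK k] Matrix (Fin 64) (Fin 64) (KK k))

end Pool.Agent.PI
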