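import Pool.Agent.Lib.MP_43d240_ag.PI.Base

/-!
# Project PI: function fields of one variable: definitions and statements of chapters FF and PAR
-/

set_option autoImplicit false
set_option linter.unusedVariables false

open scoped Polynomial IntermediateField

namespace Pool.Agent.PI

/-- a place (normalized discrete valuation, trivial on `k`) of the field `κ` -/
@[ext] structure Pl (k κ : Type) [Field k] [Field κ] [Algebra k κ] where
  v : κ → ℤ
  v_zero : v 0 = 0
  v_mul : ∀ x y, x ≠ 0 → y ≠ 0 → v (x * y) = v x + v y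
  v_add : ∀ x y, x ≠ 0 → y ≠ 0 → x + y ≠ 0 → min (v x) (v y) ≤ v (x + y)
  v_triv : ∀ c : k, v (algebraMap k κ c) = 0
  v_surj : ∃ x, x ≠ 0 ∧ v x = 1

section
variable {k κ : Type} [Field k] [Field κ] [Algebra k κ]

/-- pole order -/
def pp (v : Pl k κ) (f : κ) : ℕ := (- v.v f).toNat

variable (k κ) in
/-- `κ / k` is a function field of one variable -/
def FF1 : Prop := ∃ x : κ, Transcendental k x ∧ FiniteDimensional k⟮x⟯ κ

variable (k) in
/-- the height of a function: degree of `κ` over `k(f)` (it is `0` for constants because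
`κ / k` is infinite) -/
noncomputable def ht (f : κ) : ℕ := Module.finrank k⟮f⟯ κ

end

/-- CHAPTER FF: the degree of the divisor of poles. -/
def F1Statement : Prop :=
  ∀ (k κ : Type) [Field k] [IsAlgClosed k] [CharZero k] [Field κ] [Algebra k κ], FF1 k κ →
    ∀ f : κ, (Function.support fun v : Pl k κ => pp v f).Finite ∧
      ∑ᶠ v : Pl k κ, pp v f = ht k f

/-- CHAPTER PAR: three collinear points of `Y^2 = X^3 - X`: the sum of the heights of their
abscissae is divisible by four (the sum of their degrees is even). -/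
def PARStatement : Prop :=
  ∀ (k κ : Type) [Field k] [IsAlgClosed k] [CharZero k] [Field κ] [Algebra k κ], FF1 k κ →
    ∀ m c t1 t2 t3 : κ, t1 + t2 + t3 = m ^ 2 → t1 * t2 + t1 * t3 + t2 * t3 = - (1 + 2 * m * c) →
      t1 * t2 * t3 = c ^ 2 → 4 ∣ ht k t1 + ht k t2 + ht k t3

end Pool.Agent.PI
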