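import Pool.Agent.Lib.MP_43d240_ag.PI.AlgBase

/-!
# Project PI, chapter ALG, module A1

A tensor product of three quaternion algebras which has zero divisors acts on a space of dimension
`32`.
-/

set_option autoImplicit false
set_option linter.unusedVariables false

open scoped TensorProduct Quaternion

namespace Pool.Agent.PI.AlgA

section simple

variable {K : Type} [Field K]

/-- the quaternion algebra `(a, b)` -/
abbrev QA (K : Type) [CommRing K] (a b : K) : Type := QuaternionAlgebra K a 0 b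

def qi (a b : K) : QA K a b := ⟨0, 1, 0, 0⟩
def qj (a b : K) : QA K a b := ⟨0, 0, 1, 0⟩
def qk (a b : K) : QA K a b := ⟨0, 0, 0, 1⟩

lemma qi_sq (a b : K) : qi a b * qi a b = a • 1 := by
  ext <;> simp [qi]

lemma qj_sq (a b : K) : qj a b * qj a b = b • 1 := by
  ext <;> simp [qj]

lemma qi_qj (a b : K) : qi a b * qj a b = -(qj a b * qi a b) := by
  ext <;> simp [qi, qj]

variable {A : Type} [Ring A] [Algebra K A]

lemma exists_repr (a b : K) (z : QA K a b ⊗[K] A) : ∃ x0 x1 x2 x3 : A,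
    z = 1 ⊗ₜ[K] x0 + qi a b ⊗ₜ[K] x1 + qj a b ⊗ₜ[K] x2 + qk a b ⊗ₜ[K] x3 := by
  induction z using TensorProduct.induction_on with
  | zero => exact ⟨0, 0, 0, 0, by simp⟩
  | tmul q x =>
    refine ⟨q.re • x, q.imI • x, q.imJ • x, q.imK • x, ?_⟩
    have hq : q = q.re • 1 + q.imI • qi a b + q.imJ • qj a b + q.imK • qk a b := by
      ext <;> simp [qi, qj, qk]
    conv_lhs => rw [hq]
    simp only [TensorProduct.add_tmul, TensorProduct.smul_tmul]
  | add z w hz hw =>
    obtain ⟨x0, x1, x2, x3, rfl⟩ := hz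
    obtain ⟨y0, y1, y2, y3, rfl⟩ := hw
    refine ⟨x0 + y0, x1 + y1, x2 + y2, x3 + y3, ?_⟩
    simp only [TensorProduct.tmul_add]
    abel

/-- main step: `(a, b) ⊗ A` is simple if `A` is -/
theorem isSimple_tensor [IsSimpleRing A] (h2 : (2 : K) ≠ 0) {a b : K} (ha : a ≠ 0) (hb : b ≠ 0) :
    IsSimpleRing (QA K a b ⊗[K] A) := by
  have : Nontrivial (QA K a b ⊗[K] A) := inferInstance
  refine IsSimpleRing.of_eq_bot_or_eq_top fun I => ?_
  by_cases hI : I = ⊥
  · exact Or.inl hI
  right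
  obtain ⟨z, hz1, hz2⟩ := SetLike.exists_of_lt (bot_lt_iff_ne_bot.mpr hI : ⊥ < I)
  have hz0 : z ≠ 0 := by simpa using hz2
  -- averaging
  have key : ∀ x0 x1 x2 x3 : A, 1 ⊗ₜ[K] x0 + qi a b ⊗ₜ[K] x1 + qj a b ⊗ₜ[K] x2 +
      qk a b ⊗ₜ[K] x3 ∈ I → (1 : QA K a b) ⊗ₜ[K] x0 ∈ I := by
    intro x0 x1 x2 x3 hz
    set z := (1 : QA K a b) ⊗ₜ[K] x0 + qi a b ⊗ₜ[K] x1 + qj a b ⊗ₜ[K] x2 +
      qk a b ⊗ₜ[K] x3 with hzdef
    have s1 : (a⁻¹ • ((qi a b ⊗ₜ[K] (1 : A)) * z * (qi a b ⊗ₜ[K] (1 : A)))) ∈ I := by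
      rw [← smul_mul_assoc, ← smul_mul_assoc]
      exact I.mul_mem_right _ _ (I.mul_mem_left _ _ hz)
    have e1 : z + a⁻¹ • ((qi a b ⊗ₜ[K] (1 : A)) * z * (qi a b ⊗ₜ[K] (1 : A))) =
        (2 : K) • ((1 : QA K a b) ⊗ₜ[K] x0 + qi a b ⊗ₜ[K] x1) := by
      have i3 : qi a b * qj a b * qi a b = -(a • qj a b) := by ext <;> simp [qi, qj]
      have i4 : qi a b * qk a b * qi a b = -(a • qk a b) := by ext <;> simp [qi, qk]
      rw [hzdef]
      simp only [mul_add, add_mul, Algebra.TensorProduct.tmul_mul_tmul, one_mul, mul_one,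
        i3, i4, qi_sq, smul_mul_assoc, TensorProduct.neg_tmul, smul_add, smul_neg, ← TensorProduct.smul_tmul',
        smul_smul, inv_mul_cancel₀ ha, one_smul, two_smul]
      abel
    have m1 : (1 : QA K a b) ⊗ₜ[K] x0 + qi a b ⊗ₜ[K] x1 ∈ I := by
      have h := I.add_mem hz s1
      rw [e1] at h
      have h' := I.mul_mem_left ((2 : K)⁻¹ • 1) _ h
      rwa [smul_mul_assoc, one_mul, smul_smul, inv_mul_cancel₀ h2, one_smul] at h'
    set w := (1 : QA K a b) ⊗ₜ[K] x0 + qi a b ⊗ₜ[K] x1 with hwdef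
    have s2 : (b⁻¹ • ((qj a b ⊗ₜ[K] (1 : A)) * w * (qj a b ⊗ₜ[K] (1 : A)))) ∈ I := by
      rw [← smul_mul_assoc, ← smul_mul_assoc]
      exact I.mul_mem_right _ _ (I.mul_mem_left _ _ m1)
    have e2 : w + b⁻¹ • ((qj a b ⊗ₜ[K] (1 : A)) * w * (qj a b ⊗ₜ[K] (1 : A))) =
        (2 : K) • ((1 : QA K a b) ⊗ₜ[K] x0) := by
      have i2 : qj a b * qi a b * qj a b = -(b • qi a b) := by ext <;> simp [qi, qj]
      rw [hwdef]
      simp only [mul_add, add_mul, Algebra.TensorProduct.tmul_mul_tmul, one_mul, mul_one, i2,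
        qj_sq, TensorProduct.neg_tmul, smul_add, smul_neg, ← TensorProduct.smul_tmul',
        smul_smul, inv_mul_cancel₀ hb, one_smul, two_smul]
      abel
    have h := I.add_mem m1 s2
    rw [e2] at h
    have h' := I.mul_mem_left ((2 : K)⁻¹ • 1) _ h
    rwa [smul_mul_assoc, one_mul, smul_smul, inv_mul_cancel₀ h2, one_smul] at h'
  obtain ⟨x0, x1, x2, x3, hz⟩ := exists_repr a b z
  -- all four components
  have c0 : (1 : QA K a b) ⊗ₜ[K] x0 ∈ I := key x0 x1 x2 x3 (hz ▸ hz1)
  have c1 : (1 : QA K a b) ⊗ₜ[K] x1 ∈ I := by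
    have h := I.mul_mem_left (a⁻¹ • (qi a b ⊗ₜ[K] (1 : A))) _ hz1
    refine key x1 (a⁻¹ • x0) x3 (a⁻¹ • x2) ?_
    convert h using 1
    have i1 : qi a b * qj a b = qk a b := by ext <;> simp [qi, qj, qk]
    have i2 : qi a b * qk a b = a • qj a b := by ext <;> simp [qi, qj, qk]
    rw [hz]
    simp only [smul_mul_assoc, mul_add, Algebra.TensorProduct.tmul_mul_tmul, one_mul, mul_one, i1,
      i2, qi_sq, smul_add, ← TensorProduct.smul_tmul', smul_smul, inv_mul_cancel₀ ha, one_smul,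
      TensorProduct.tmul_smul]
    abel
  have c2 : (1 : QA K a b) ⊗ₜ[K] x2 ∈ I := by
    have h := I.mul_mem_left (b⁻¹ • (qj a b ⊗ₜ[K] (1 : A))) _ hz1
    refine key x2 (-x3) (b⁻¹ • x0) (-(b⁻¹ • x1)) ?_
    convert h using 1
    have i1 : qj a b * qi a b = -qk a b := by ext <;> simp [qi, qj, qk]
    have i2 : qj a b * qk a b = -(b • qi a b) := by ext <;> simp [qi, qj, qk]
    rw [hz]
    simp only [smul_mul_assoc, mul_add, Algebra.TensorProduct.tmul_mul_tmul, one_mul, mul_one, i1,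
      i2, qj_sq, smul_add, ← TensorProduct.smul_tmul', smul_smul, inv_mul_cancel₀ hb, one_smul,
      TensorProduct.tmul_smul, TensorProduct.neg_tmul, TensorProduct.tmul_neg, smul_neg]
    abel
  have c3 : (1 : QA K a b) ⊗ₜ[K] x3 ∈ I := by
    have h := I.mul_mem_left ((a * b)⁻¹ • (qk a b ⊗ₜ[K] (1 : A))) _ hz1
    have h3 : (1 : QA K a b) ⊗ₜ[K] (-x3) ∈ I := by
      refine key (-x3) (a⁻¹ • x2) (-(b⁻¹ • x1)) ((a * b)⁻¹ • x0) ?_
      convert h using 1
      have i1 : qk a b * qi a b = -(a • qj a b) := by ext <;> simp [qi, qj, qk]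
      have i2 : qk a b * qj a b = b • qi a b := by ext <;> simp [qi, qj, qk]
      have i3 : qk a b * qk a b = -((a * b) • 1) := by ext <;> simp [qk]
      have hab : a * b ≠ 0 := mul_ne_zero ha hb
      have j1 : (a * b)⁻¹ * a = b⁻¹ := by field_simp
      have j2 : (a * b)⁻¹ * b = a⁻¹ := by field_simp
      rw [hz]
      simp only [smul_mul_assoc, mul_add, Algebra.TensorProduct.tmul_mul_tmul,
        one_mul, mul_one, i1, i2, i3, ← TensorProduct.smul_tmul', smul_smul,
        inv_mul_cancel₀ hab, one_smul, TensorProduct.tmul_smul, TensorProduct.neg_tmul,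
        TensorProduct.tmul_neg, smul_neg, j1, j2]
      abel
    rw [TensorProduct.tmul_neg] at h3
    have h4 := I.neg_mem h3
    rwa [neg_neg] at h4
  -- pull back to `A`
  let f : A →+* QA K a b ⊗[K] A := (Algebra.TensorProduct.includeRight : A →ₐ[K] _).toRingHom
  let J : TwoSidedIdeal A := TwoSidedIdeal.comap f I
  have hJ : ∀ x : A, x ∈ J ↔ (1 : QA K a b) ⊗ₜ[K] x ∈ I := by
    intro x
    exact TwoSidedIdeal.mem_comap f
  have hne : ∃ x : A, x ≠ 0 ∧ x ∈ J := by
    by_contra hcon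
    push Not at hcon
    have d0 : x0 = 0 := by by_contra h; exact hcon x0 h ((hJ _).2 c0)
    have d1 : x1 = 0 := by by_contra h; exact hcon x1 h ((hJ _).2 c1)
    have d2 : x2 = 0 := by by_contra h; exact hcon x2 h ((hJ _).2 c2)
    have d3 : x3 = 0 := by by_contra h; exact hcon x3 h ((hJ _).2 c3)
    apply hz0
    rw [hz, d0, d1, d2, d3]
    simp
  obtain ⟨x, hx, hxJ⟩ := hne
  have h1 := IsSimpleRing.one_mem_of_ne_zero_mem J hx hxJ
  rw [← I.one_mem_iff]
  exact (hJ 1).1 h1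

theorem simple_QA (h2 : (2 : K) ≠ 0) {a b : K} (ha : a ≠ 0) (hb : b ≠ 0) :
    IsSimpleRing (QA K a b) :=
  have := isSimple_tensor (A := K) h2 ha hb
  IsSimpleRing.of_ringEquiv (Algebra.TensorProduct.rid K K (QA K a b)).toRingEquiv inferInstance

theorem simple_Q3 (h2 : (2 : K) ≠ 0) {a b : Fin 3 → K} (ha : ∀ j, a j ≠ 0) (hb : ∀ j, b j ≠ 0) :
    IsSimpleRing (Q3 K a b) := by
  have := simple_QA h2 (ha 2) (hb 2)
  have := isSimple_tensor (A := QA K (a 2) (b 2)) h2 (ha 1) (hb 1)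
  exact isSimple_tensor h2 (ha 0) (hb 0)

theorem finrank_Q3 (a b : Fin 3 → K) : Module.finrank K (Q3 K a b) = 64 := by
  rw [Module.finrank_tensorProduct, Module.finrank_tensorProduct,
    QuaternionAlgebra.finrank_eq_four, QuaternionAlgebra.finrank_eq_four,
    QuaternionAlgebra.finrank_eq_four]

/-! ### Generators -/

/-- the three left generators -/
def xg (a b : Fin 3 → K) : Fin 3 → Q3 K a b :=
  ![qi (a 0) (b 0) ⊗ₜ[K] (1 ⊗ₜ[K] 1), 1 ⊗ₜ[K] (qi (a 1) (b 1) ⊗ₜ[K] 1),
    1 ⊗ₜ[K] (1 ⊗ₜ[K] qi (a 2) (b 2))]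

/-- the three right generators -/
def yg (a b : Fin 3 → K) : Fin 3 → Q3 K a b :=
  ![qj (a 0) (b 0) ⊗ₜ[K] (1 ⊗ₜ[K] 1), 1 ⊗ₜ[K] (qj (a 1) (b 1) ⊗ₜ[K] 1),
    1 ⊗ₜ[K] (1 ⊗ₜ[K] qj (a 2) (b 2))]

lemma mem_of_gen {B : Type} [Ring B] [Algebra K B] {a b : K} (f : QA K a b →ₐ[K] B)
    (T : Subalgebra K B) (h1 : f (qi a b) ∈ T) (h2 : f (qj a b) ∈ T) (q : QA K a b) :
    f q ∈ T := by
  have hq : q = q.re • 1 + q.imI • qi a b + q.imJ • qj a b + q.imK • (qi a b * qj a b) := by
    ext <;> simp [qi, qj]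
  rw [hq]
  simp only [map_add, map_smul, map_mul, map_one]
  exact T.add_mem (T.add_mem (T.add_mem (T.smul_mem T.one_mem _) (T.smul_mem h1 _))
    (T.smul_mem h2 _)) (T.smul_mem (T.mul_mem h1 h2) _)

lemma gen_Q3 (a b : Fin 3 → K) (T : Subalgebra K (Q3 K a b)) (hX : ∀ j, xg a b j ∈ T)
    (hY : ∀ j, yg a b j ∈ T) (r : Q3 K a b) : r ∈ T := by
  have m0 : ∀ q : QA K (a 0) (b 0), q ⊗ₜ[K] ((1 : QA K (a 1) (b 1)) ⊗ₜ[K]
      (1 : QA K (a 2) (b 2))) ∈ T := fun q =>
    mem_of_gen (Algebra.TensorProduct.includeLeft : QA K (a 0) (b 0) →ₐ[K] Q3 K a b) T (hX 0)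
      (hY 0) q
  have m1 : ∀ q : QA K (a 1) (b 1), (1 : QA K (a 0) (b 0)) ⊗ₜ[K] (q ⊗ₜ[K]
      (1 : QA K (a 2) (b 2))) ∈ T := fun q =>
    mem_of_gen ((Algebra.TensorProduct.includeRight :
        (QA K (a 1) (b 1) ⊗[K] QA K (a 2) (b 2)) →ₐ[K] Q3 K a b).comp
      (Algebra.TensorProduct.includeLeft)) T (hX 1) (hY 1) q
  have m2 : ∀ q : QA K (a 2) (b 2), (1 : QA K (a 0) (b 0)) ⊗ₜ[K]
      ((1 : QA K (a 1) (b 1)) ⊗ₜ[K] q) ∈ T := fun q =>
    mem_of_gen ((Algebra.TensorProduct.includeRight :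
        (QA K (a 1) (b 1) ⊗[K] QA K (a 2) (b 2)) →ₐ[K] Q3 K a b).comp
      (Algebra.TensorProduct.includeRight)) T (hX 2) (hY 2) q
  induction r using TensorProduct.induction_on with
  | zero => exact T.zero_mem
  | add x y hx hy => exact T.add_mem hx hy
  | tmul q0 s =>
    induction s using TensorProduct.induction_on with
    | zero => rw [TensorProduct.tmul_zero]; exact T.zero_mem
    | add x y hx hy => rw [TensorProduct.tmul_add]; exact T.add_mem hx hy
    | tmul q1 q2 =>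
      have h := T.mul_mem (m0 q0) (T.mul_mem (m1 q1) (m2 q2))
      simpa only [Algebra.TensorProduct.tmul_mul_tmul, one_mul, mul_one] using h

lemma xg_sq (a b : Fin 3 → K) (j : Fin 3) : xg a b j * xg a b j = a j • 1 := by
  fin_cases j <;>
  simp [xg, Algebra.TensorProduct.tmul_mul_tmul, qi_sq, Algebra.TensorProduct.one_def,
    ← TensorProduct.smul_tmul', TensorProduct.tmul_smul]

lemma yg_sq (a b : Fin 3 → K) (j : Fin 3) : yg a b j * yg a b j = b j • 1 := by
  fin_cases j <;>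
  simp [yg, Algebra.TensorProduct.tmul_mul_tmul, qj_sq, Algebra.TensorProduct.one_def,
    ← TensorProduct.smul_tmul', TensorProduct.tmul_smul]

lemma xg_yg (a b : Fin 3 → K) (j : Fin 3) : xg a b j * yg a b j = -(yg a b j * xg a b j) := by
  fin_cases j <;>
  simp [xg, yg, Algebra.TensorProduct.tmul_mul_tmul, qi_qj, TensorProduct.neg_tmul,
    TensorProduct.tmul_neg]

lemma xg_comm (a b : Fin 3 → K) (i j : Fin 3) (h : i ≠ j) :
    xg a b i * xg a b j = xg a b j * xg a b i ∧ xg a b i * yg a b j = yg a b j * xg a b i ∧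
      yg a b i * yg a b j = yg a b j * yg a b i := by
  fin_cases i <;> fin_cases j <;> first | exact absurd rfl h |
    simp [xg, yg, Algebra.TensorProduct.tmul_mul_tmul]

end simple

end Pool.Agent.PI.AlgA

namespace Pool.Agent.PI.Alg

open Pool.Agent.PI.AlgA

section wedd

variable {K R : Type} [Field K] [Ring R] [Algebra K R] [Module.Finite K R] [IsSimpleRing R]

theorem exists_simple (hfr : Module.finrank K R = 64) (hz : ∃ x y : R, x * y = 0 ∧ x ≠ 0 ∧ y ≠ 0) :
    ∃ (S : Submodule R R), IsSimpleModule R S ∧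
      (Module.finrank K S = 8 ∨ Module.finrank K S = 16 ∨ Module.finrank K S = 32) := by
  have hart : IsArtinianRing R := IsArtinianRing.of_finite K R
  obtain ⟨n, hn, S, hS, ⟨e⟩⟩ := (IsSimpleRing.isIsotypic R R).linearEquiv_fun
  have e1 : R ≃ₐ[K] Matrix (Fin n) (Fin n) (Module.End R S)ᵐᵒᵖ :=
    .trans (.opOp K R) <| .trans (.op (.trans (.moduleEndSelf K) <|
      .trans (e.conjAlgEquiv K) (endVecAlgEquivMatrixEnd ..))) (.symm .mopMatrix)
  refine ⟨S, hS, ?_⟩
  have hfS : Module.Finite K S :=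
    Module.Finite.of_injective (S.subtype.restrictScalars K) S.injective_subtype
  have f1 : Module.finrank K R = n * Module.finrank K S := by
    have := (e.restrictScalars K).finrank_eq
    rw [this, Module.finrank_pi_fintype]
    simp
  have f2 : Module.finrank K R = n * n * Module.finrank K (Module.End R S)ᵐᵒᵖ := by
    rw [e1.toLinearEquiv.finrank_eq]
    have := Module.finrank_matrix K (Module.End R S)ᵐᵒᵖ (Fin n) (Fin n)
    simpa using this
  have hn1 : n ≠ 1 := by
    rintro rfl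
    obtain ⟨x, y, hxy, hx, hy⟩ := hz
    have e2 : R ≃ₗ[R] S := e.trans (LinearEquiv.funUnique (Fin 1) R S)
    have hsR : IsSimpleModule R R := IsSimpleModule.congr e2
    -- the left ideal of all elements killed from the right by `y`
    let L : Submodule R R := LinearMap.ker (LinearMap.toSpanSingleton R R y)
    rcases eq_bot_or_eq_top L with hL | hL
    · have : x ∈ L := by simpa [L, LinearMap.toSpanSingleton_apply] using hxy
      rw [hL] at this
      exact hx (by simpa using this)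
    · have : (1 : R) ∈ L := by rw [hL]; trivial
      exact hy (by simpa [L, LinearMap.toSpanSingleton_apply] using this)
  rw [hfr] at f1 f2
  set s := Module.finrank K S
  set d := Module.finrank K (Module.End R S)ᵐᵒᵖ
  have hn0 : n ≠ 0 := NeZero.ne n
  have hnle : n ≤ 8 := by
    by_contra hcon
    push Not at hcon
    have hd : 1 ≤ d := by
      rcases Nat.eq_zero_or_pos d with h | h
      · rw [h] at f2; omega
      · exact h
    have : 9 * 9 * 1 ≤ n * n * d := Nat.mul_le_mul (Nat.mul_le_mul hcon hcon) hd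
    omega
  interval_cases n <;> omega

theorem exists_matrix (hfr : Module.finrank K R = 64)
    (hz : ∃ x y : R, x * y = 0 ∧ x ≠ 0 ∧ y ≠ 0) :
    ∃ (N : ℕ) (M : R →ₐ[K] Matrix (Fin N) (Fin N) K), (N = 8 ∨ N = 16 ∨ N = 32) ∧
      ∀ W : Submodule K (Fin N → K), (∀ r, ∀ w ∈ W, (M r).mulVec w ∈ W) → W = ⊥ ∨ W = ⊤ := by
  obtain ⟨S, hS, hfin⟩ := exists_simple hfr hz
  have hfd : Module.Finite K S :=
    Module.Finite.of_injective (S.subtype.restrictScalars K) S.injective_subtype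
  refine ⟨Module.finrank K S, ?_⟩
  let B : Module.Basis (Fin (Module.finrank K S)) K S := Module.finBasis K S
  -- left multiplication
  let L : R →ₐ[K] Module.End K S := Algebra.lsmul K K S
  let M : R →ₐ[K] Matrix (Fin (Module.finrank K S)) (Fin (Module.finrank K S)) K :=
    (LinearMap.toMatrixAlgEquiv B).toAlgHom.comp L
  have hM : ∀ (r : R) (v : Fin (Module.finrank K S) → K),
      (M r).mulVec v = B.equivFun (r • B.equivFun.symm v) := by
    intro r v
    have h := LinearMap.toMatrix_mulVec_repr B B (L r) (B.equivFun.symm v)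
    have h3 : (B.repr (B.equivFun.symm v) : Fin (Module.finrank K S) → K) = v := by
      have := B.equivFun.apply_symm_apply v
      rwa [Module.Basis.equivFun_apply] at this
    rw [h3] at h
    exact h
  refine ⟨M, hfin, ?_⟩
  intro W hW
  let W' : Submodule R S :=
    { carrier := {s | B.equivFun s ∈ W}
      add_mem' := by
        intro x y hx hy
        change B.equivFun (x + y) ∈ W
        rw [map_add]
        exact W.add_mem hx hy
      zero_mem' := by
        change B.equivFun 0 ∈ W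
        rw [map_zero]
        exact W.zero_mem
      smul_mem' := by
        intro r s hs
        change B.equivFun (r • s) ∈ W
        have h := hW r (B.equivFun s) hs
        rwa [hM, B.equivFun.symm_apply_apply] at h }
  rcases eq_bot_or_eq_top W' with h | h
  · left
    rw [eq_bot_iff]
    intro w hw
    have : B.equivFun.symm w ∈ W' := by
      change B.equivFun (B.equivFun.symm w) ∈ W
      rwa [B.equivFun.apply_symm_apply]
    rw [h, Submodule.mem_bot] at this
    rw [Submodule.mem_bot]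
    have h4 := congrArg B.equivFun this
    rwa [B.equivFun.apply_symm_apply, map_zero] at h4
  · right
    rw [eq_top_iff]
    intro w _
    have : B.equivFun.symm w ∈ W' := by rw [h]; trivial
    have h4 : B.equivFun (B.equivFun.symm w) ∈ W := this
    rwa [B.equivFun.apply_symm_apply] at h4

end wedd

theorem a1 : A1Statement := by
  intro K _ _ a b ha hb hz
  have h2 : (2 : K) ≠ 0 := two_ne_zero
  have hsimp : IsSimpleRing (Q3 K a b) := simple_Q3 h2 ha hb
  obtain ⟨N, M, hN, hM⟩ := exists_matrix (K := K) (R := Q3 K a b) (finrank_Q3 a b) hz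
  have hone : M 1 = 1 := M.map_one'
  refine ⟨N, fun j => M (xg a b j), fun j => M (yg a b j), hN, ⟨?_, ?_, ?_, ?_⟩, ?_⟩
  · intro j
    rw [← map_mul, xg_sq, map_smul]
    exact congrArg _ hone
  · intro j
    rw [← map_mul, yg_sq, map_smul]
    exact congrArg _ hone
  · intro j
    rw [← map_mul, xg_yg, map_neg, map_mul]
  · intro i j hij
    obtain ⟨h1, h2, h3⟩ := xg_comm a b i j hij
    refine ⟨?_, ?_, ?_⟩
    · rw [← map_mul, h1, map_mul]
    · rw [← map_mul, h2, map_mul]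
    · rw [← map_mul, h3, map_mul]
  · intro W hW
    let T : Subalgebra K (Q3 K a b) :=
      { carrier := {r | ∀ w ∈ W, (M r).mulVec w ∈ W}
        mul_mem' := by
          intro r t hr ht w hw
          rw [map_mul, ← Matrix.mulVec_mulVec]
          exact hr _ (ht _ hw)
        add_mem' := by
          intro r t hr ht w hw
          rw [map_add, Matrix.add_mulVec]
          exact W.add_mem (hr _ hw) (ht _ hw)
        algebraMap_mem' := by
          intro c w hw
          rw [AlgHom.commutes, Algebra.algebraMap_eq_smul_one, Matrix.smul_mulVec,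
            Matrix.one_mulVec]
          exact W.smul_mem c hw }
    exact hM W fun r => gen_Q3 a b T (fun j w hw => (hW j w hw).1) (fun j w hw => (hW j w hw).2) r

end Pool.Agent.PI.Alg
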