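import Pool.Agent.Lib.MP_43d240_ag.PI.AlgBase

/-!
# Project PI, chapter ALG, module ALG2: the commutant of three commuting pairs
-/

set_option autoImplicit false
set_option linter.unusedVariables false
set_option linter.unusedSectionVars false

open Matrix

namespace Pool.Agent.PI.Alg

section half

variable {K : Type} [Field K] {A : Type} [Ring A] [Algebra K A]

/-- elements commuting with `X` -/
def cm (K : Type) [Field K] {A : Type} [Ring A] [Algebra K A] (X : A) : Submodule K A where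
  carrier := {u | u * X = X * u}
  zero_mem' := by
    change 0 * X = X * 0
    rw [zero_mul, mul_zero]
  add_mem' := by
    intro u v hu hv
    change (u + v) * X = X * (u + v)
    rw [add_mul, mul_add, hu, hv]
  smul_mem' := by
    intro t u hu
    change (t • u) * X = X * (t • u)
    rw [smul_mul_assoc, mul_smul_comm, hu]

theorem mem_cm {X u : A} : u ∈ cm K X ↔ u * X = X * u := Iff.rfl

variable [CharZero K]

theorem half_split {B : Submodule K A} {X Y : A} {a b : K} (ha : a ≠ 0) (hb : b ≠ 0)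
    (hX : X * X = a • (1 : A)) (hY : Y * Y = b • (1 : A)) (hXY : X * Y = - (Y * X))
    (h1 : ∀ u ∈ B, X * u * X ∈ B) (h2 : ∀ u ∈ B, Y * u ∈ B) (u : A) (hu : u ∈ B) :
    ∃ c ∈ B ⊓ cm K X, ∃ d ∈ B ⊓ cm K X, u = c + Y * d := by
  have h3 : ((2 : K)⁻¹ * a⁻¹) • (X * u * X) ∈ B := B.smul_mem _ (h1 u hu)
  have h4 : (2 : K)⁻¹ • u ∈ B := B.smul_mem _ hu
  have e1 : X * (X * u * X) = a • (u * X) := by
    rw [← mul_assoc, ← mul_assoc, hX, smul_one_mul, smul_mul_assoc]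
  have e2 : (X * u * X) * X = a • (X * u) := by
    rw [mul_assoc, hX, mul_smul_comm, mul_one]
  have c1 : (2 : K)⁻¹ * a⁻¹ * a = 2⁻¹ := by rw [mul_assoc, inv_mul_cancel₀ ha, mul_one]
  set c : A := (2 : K)⁻¹ • u + ((2 : K)⁻¹ * a⁻¹) • (X * u * X) with hc
  set u' : A := (2 : K)⁻¹ • u - ((2 : K)⁻¹ * a⁻¹) • (X * u * X) with hu'
  have hcX : c * X = X * c := by
    rw [hc, add_mul, mul_add, smul_mul_assoc, smul_mul_assoc, mul_smul_comm, mul_smul_comm, e1, e2,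
      smul_smul, smul_smul, c1, add_comm]
  have huX : X * u' = - (u' * X) := by
    rw [hu', sub_mul, mul_sub, smul_mul_assoc, smul_mul_assoc, mul_smul_comm, mul_smul_comm, e1, e2,
      smul_smul, smul_smul, c1]
    abel
  have hu'B : u' ∈ B := B.sub_mem h4 h3
  refine ⟨c, ⟨B.add_mem h4 h3, hcX⟩, b⁻¹ • (Y * u'), ⟨B.smul_mem _ (h2 u' hu'B), ?_⟩, ?_⟩
  · rw [SetLike.mem_coe, mem_cm, smul_mul_assoc, mul_smul_comm]
    congr 1
    rw [← mul_assoc, hXY, mul_assoc, neg_mul, mul_assoc, huX, mul_neg, neg_neg]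
  · rw [mul_smul_comm, ← mul_assoc, hY, smul_one_mul, smul_smul, inv_mul_cancel₀ hb, one_smul, hc,
      hu']
    have c2 : (2 : K)⁻¹ • u + (2 : K)⁻¹ • u = u := by
      rw [← add_smul, ← two_mul, mul_inv_cancel₀ (two_ne_zero), one_smul]
    calc u = (2 : K)⁻¹ • u + (2 : K)⁻¹ • u := c2.symm
      _ = _ := by abel

theorem half_finrank [FiniteDimensional K A] {B : Submodule K A} {X Y : A} {a b : K} (ha : a ≠ 0)
    (hb : b ≠ 0) (hX : X * X = a • (1 : A)) (hY : Y * Y = b • (1 : A)) (hXY : X * Y = - (Y * X))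
    (h1 : ∀ u ∈ B, X * u * X ∈ B) (h2 : ∀ u ∈ B, Y * u ∈ B) :
    Module.finrank K B = 2 * Module.finrank K (B ⊓ cm K X : Submodule K A) := by
  set B' : Submodule K A := B ⊓ cm K X with hB'
  have hinj : ∀ c ∈ B', ∀ d ∈ B', c + Y * d = 0 → c = 0 ∧ d = 0 := by
    intro c hc d hd h
    have hcX : c * X = X * c := hc.2
    have hdX : d * X = X * d := hd.2
    have e1 : (X * c) - (X * (Y * d)) = 0 := by
      have h3 : (c + Y * d) * X = 0 := by rw [h, zero_mul]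
      rw [add_mul, hcX, mul_assoc, hdX, ← mul_assoc, show Y * X = - (X * Y) by
        rw [hXY, neg_neg], neg_mul, mul_assoc, ← sub_eq_add_neg] at h3
      exact h3
    have e2 : (X * c) + (X * (Y * d)) = 0 := by rw [← mul_add, h, mul_zero]
    have e3 : X * c = 0 := by
      have h3 : (2 : K) • (X * c) = 0 := by
        rw [two_smul]
        have := congrArg₂ (· + ·) e1 e2
        simpa using this
      rcases smul_eq_zero.1 h3 with h4 | h4
      · exact absurd h4 two_ne_zero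
      · exact h4
    have e4 : c = 0 := by
      have h3 : X * (X * c) = 0 := by rw [e3, mul_zero]
      rw [← mul_assoc, hX, smul_one_mul] at h3
      exact (smul_eq_zero.1 h3).resolve_left ha
    refine ⟨e4, ?_⟩
    rw [e4, zero_add] at h
    have h3 : Y * (Y * d) = 0 := by rw [h, mul_zero]
    rw [← mul_assoc, hY, smul_one_mul] at h3
    exact (smul_eq_zero.1 h3).resolve_left hb
  let f : (B' × B') →ₗ[K] A :=
    LinearMap.coprod B'.subtype (LinearMap.mulLeft K Y ∘ₗ B'.subtype)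
  have hf : ∀ x, f x = (x.1 : A) + Y * (x.2 : A) := fun x => by
    simp [f, LinearMap.coprod_apply]
  have hker : LinearMap.ker f = ⊥ := by
    rw [LinearMap.ker_eq_bot']
    rintro ⟨⟨c, hc⟩, ⟨d, hd⟩⟩ h
    rw [hf] at h
    obtain ⟨h3, h4⟩ := hinj c hc d hd h
    subst h3 h4
    rfl
  have hrange : LinearMap.range f = B := by
    apply le_antisymm
    · rintro _ ⟨⟨c, d⟩, rfl⟩
      rw [hf]
      exact B.add_mem c.2.1 (h2 _ d.2.1)
    · intro u hu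
      obtain ⟨c, hc, d, hd, rfl⟩ := half_split ha hb hX hY hXY h1 h2 u hu
      exact ⟨(⟨c, hc⟩, ⟨d, hd⟩), hf _⟩
  have h5 := LinearMap.finrank_range_of_inj (LinearMap.ker_eq_bot.1 hker)
  rw [hrange, Module.finrank_prod] at h5
  rw [h5, two_mul]

/-- if `c` commutes with the part of `B` commuting with `X` and with `Y`, it commutes with `B` -/
theorem half_center {B : Submodule K A} {X Y : A} {a b : K} (ha : a ≠ 0) (hb : b ≠ 0)
    (hX : X * X = a • (1 : A)) (hY : Y * Y = b • (1 : A)) (hXY : X * Y = - (Y * X))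
    (h1 : ∀ u ∈ B, X * u * X ∈ B) (h2 : ∀ u ∈ B, Y * u ∈ B) (z : A) (hz : z * Y = Y * z)
    (h : ∀ u ∈ B ⊓ cm K X, z * u = u * z) : ∀ u ∈ B, z * u = u * z := by
  intro u hu
  obtain ⟨c, hc, d, hd, rfl⟩ := half_split ha hb hX hY hXY h1 h2 u hu
  rw [mul_add, add_mul, h c hc, ← mul_assoc, hz, mul_assoc, h d hd, mul_assoc]

/-- stability of commutants -/
theorem cm_conj {X Z u : A} (h : X * Z = Z * X ∨ X * Z = - (Z * X)) (hu : u ∈ cm K Z) :
    X * u * X ∈ cm K Z := by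
  rw [mem_cm] at hu ⊢
  rcases h with h | h
  · rw [mul_assoc, h, ← mul_assoc, mul_assoc X, hu, ← mul_assoc, h, mul_assoc, mul_assoc,
      mul_assoc]
  · rw [mul_assoc, h, mul_neg, ← mul_assoc, mul_assoc X, hu, ← mul_assoc, h, neg_mul, neg_mul,
      neg_neg, mul_assoc, mul_assoc, mul_assoc]

theorem cm_mul {Y Z u : A} (h : Y * Z = Z * Y) (hu : u ∈ cm K Z) : Y * u ∈ cm K Z := by
  rw [mem_cm] at hu ⊢
  rw [mul_assoc, hu, ← mul_assoc, h, mul_assoc]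

end half

theorem a2 : A2Statement := by
  intro K _ _ a b ha hb N X Y hP
  obtain ⟨hXX, hYY, hXY, hcm⟩ := hP
  let A := Matrix (Fin N) (Fin N) K
  have hYX : ∀ j, Y j * X j = - (X j * Y j) := fun j => by rw [hXY, neg_neg]
  have cXX : ∀ i j, i ≠ j → X i * X j = X j * X i := fun i j h => (hcm i j h).1
  have cXY : ∀ i j, i ≠ j → X i * Y j = Y j * X i := fun i j h => (hcm i j h).2.1
  have cYX : ∀ i j, i ≠ j → Y i * X j = X j * Y i := fun i j h => ((hcm j i h.symm).2.1).symm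
  have cYY : ∀ i j, i ≠ j → Y i * Y j = Y j * Y i := fun i j h => (hcm i j h).2.2
  let B0 : Submodule K A := ⊤
  let B1 : Submodule K A := B0 ⊓ cm K (X 0)
  let B2 : Submodule K A := B1 ⊓ cm K (Y 0)
  let B3 : Submodule K A := B2 ⊓ cm K (X 1)
  let B4 : Submodule K A := B3 ⊓ cm K (Y 1)
  let B5 : Submodule K A := B4 ⊓ cm K (X 2)
  let B6 : Submodule K A := B5 ⊓ cm K (Y 2)
  have n01 : (0 : Fin 3) ≠ 1 := by decide
  have n02 : (0 : Fin 3) ≠ 2 := by decide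
  have n12 : (1 : Fin 3) ≠ 2 := by decide
  -- stability
  have s0a : ∀ u ∈ B0, X 0 * u * X 0 ∈ B0 := fun u _ => trivial
  have s0b : ∀ u ∈ B0, Y 0 * u ∈ B0 := fun u _ => trivial
  have s1a : ∀ u ∈ B1, Y 0 * u * Y 0 ∈ B1 := fun u hu =>
    ⟨trivial, cm_conj (Or.inr (hYX 0)) hu.2⟩
  have s1b : ∀ u ∈ B1, X 0 * u ∈ B1 := fun u hu => ⟨trivial, cm_mul rfl hu.2⟩
  have s2a : ∀ u ∈ B2, X 1 * u * X 1 ∈ B2 := fun u hu =>
    ⟨⟨trivial, cm_conj (Or.inl (cXX _ _ n01.symm)) hu.1.2⟩,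
      cm_conj (Or.inl (cXY _ _ n01.symm)) hu.2⟩
  have s2b : ∀ u ∈ B2, Y 1 * u ∈ B2 := fun u hu =>
    ⟨⟨trivial, cm_mul (cYX _ _ n01.symm) hu.1.2⟩, cm_mul (cYY _ _ n01.symm) hu.2⟩
  have s2a' : ∀ u ∈ B2, Y 1 * u * Y 1 ∈ B2 := fun u hu =>
    ⟨⟨trivial, cm_conj (Or.inl (cYX _ _ n01.symm)) hu.1.2⟩,
      cm_conj (Or.inl (cYY _ _ n01.symm)) hu.2⟩
  have s2b' : ∀ u ∈ B2, X 1 * u ∈ B2 := fun u hu =>
    ⟨⟨trivial, cm_mul (cXX _ _ n01.symm) hu.1.2⟩, cm_mul (cXY _ _ n01.symm) hu.2⟩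
  have s3a : ∀ u ∈ B3, Y 1 * u * Y 1 ∈ B3 := fun u hu =>
    ⟨s2a' u hu.1, cm_conj (Or.inr (hYX 1)) hu.2⟩
  have s3b : ∀ u ∈ B3, X 1 * u ∈ B3 := fun u hu => ⟨s2b' u hu.1, cm_mul rfl hu.2⟩
  have t2a : ∀ u ∈ B2, X 2 * u * X 2 ∈ B2 := fun u hu =>
    ⟨⟨trivial, cm_conj (Or.inl (cXX _ _ n02.symm)) hu.1.2⟩,
      cm_conj (Or.inl (cXY _ _ n02.symm)) hu.2⟩
  have t2b : ∀ u ∈ B2, Y 2 * u ∈ B2 := fun u hu =>
    ⟨⟨trivial, cm_mul (cYX _ _ n02.symm) hu.1.2⟩, cm_mul (cYY _ _ n02.symm) hu.2⟩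
  have t2a' : ∀ u ∈ B2, Y 2 * u * Y 2 ∈ B2 := fun u hu =>
    ⟨⟨trivial, cm_conj (Or.inl (cYX _ _ n02.symm)) hu.1.2⟩,
      cm_conj (Or.inl (cYY _ _ n02.symm)) hu.2⟩
  have t2b' : ∀ u ∈ B2, X 2 * u ∈ B2 := fun u hu =>
    ⟨⟨trivial, cm_mul (cXX _ _ n02.symm) hu.1.2⟩, cm_mul (cXY _ _ n02.symm) hu.2⟩
  have s4a : ∀ u ∈ B4, X 2 * u * X 2 ∈ B4 := fun u hu =>
    ⟨⟨t2a u hu.1.1, cm_conj (Or.inl (cXX _ _ n12.symm)) hu.1.2⟩,
      cm_conj (Or.inl (cXY _ _ n12.symm)) hu.2⟩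
  have s4b : ∀ u ∈ B4, Y 2 * u ∈ B4 := fun u hu =>
    ⟨⟨t2b u hu.1.1, cm_mul (cYX _ _ n12.symm) hu.1.2⟩, cm_mul (cYY _ _ n12.symm) hu.2⟩
  have s4a' : ∀ u ∈ B4, Y 2 * u * Y 2 ∈ B4 := fun u hu =>
    ⟨⟨t2a' u hu.1.1, cm_conj (Or.inl (cYX _ _ n12.symm)) hu.1.2⟩,
      cm_conj (Or.inl (cYY _ _ n12.symm)) hu.2⟩
  have s4b' : ∀ u ∈ B4, X 2 * u ∈ B4 := fun u hu =>
    ⟨⟨t2b' u hu.1.1, cm_mul (cXX _ _ n12.symm) hu.1.2⟩, cm_mul (cXY _ _ n12.symm) hu.2⟩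
  have s5a : ∀ u ∈ B5, Y 2 * u * Y 2 ∈ B5 := fun u hu =>
    ⟨s4a' u hu.1, cm_conj (Or.inr (hYX 2)) hu.2⟩
  have s5b : ∀ u ∈ B5, X 2 * u ∈ B5 := fun u hu => ⟨s4b' u hu.1, cm_mul rfl hu.2⟩
  have h6 : B6 = Subalgebra.toSubmodule (Comm X Y) := by
    ext u
    constructor
    · rintro ⟨⟨⟨⟨⟨⟨_, h0⟩, h1⟩, h2⟩, h3⟩, h4⟩, h5⟩
      intro j
      fin_cases j
      · exact ⟨h0, h1⟩
      · exact ⟨h2, h3⟩
      · exact ⟨h4, h5⟩
    · intro h
      exact ⟨⟨⟨⟨⟨⟨trivial, (h 0).1⟩, (h 0).2⟩, (h 1).1⟩, (h 1).2⟩, (h 2).1⟩, (h 2).2⟩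
  constructor
  · have f0 := half_finrank (ha 0) (hb 0) (hXX 0) (hYY 0) (hXY 0) s0a s0b
    have f1 := half_finrank (hb 0) (ha 0) (hYY 0) (hXX 0) (hYX 0) s1a s1b
    have f2 := half_finrank (ha 1) (hb 1) (hXX 1) (hYY 1) (hXY 1) s2a s2b
    have f3 := half_finrank (hb 1) (ha 1) (hYY 1) (hXX 1) (hYX 1) s3a s3b
    have f4 := half_finrank (ha 2) (hb 2) (hXX 2) (hYY 2) (hXY 2) s4a s4b
    have f5 := half_finrank (hb 2) (ha 2) (hYY 2) (hXX 2) (hYX 2) s5a s5b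
    have f6 : Module.finrank K B6 = Module.finrank K (Comm X Y) := by rw [h6]; rfl
    have f7 : Module.finrank K B0 = N * N := by
      have : Module.finrank K B0 = Module.finrank K A := finrank_top K A
      rw [this, Module.finrank_matrix]
      simp
    change Module.finrank K B0 = 2 * Module.finrank K B1 at f0
    change Module.finrank K B1 = 2 * Module.finrank K B2 at f1
    change Module.finrank K B2 = 2 * Module.finrank K B3 at f2
    change Module.finrank K B3 = 2 * Module.finrank K B4 at f3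
    change Module.finrank K B4 = 2 * Module.finrank K B5 at f4
    change Module.finrank K B5 = 2 * Module.finrank K B6 at f5
    omega
  · intro c hc hcc
    have g6 : ∀ u ∈ B6, c * u = u * c := fun u hu => hcc u (by rw [h6] at hu; exact hu)
    have g5 := half_center (hb 2) (ha 2) (hYY 2) (hXX 2) (hYX 2) s5a s5b c (hc 2).1 g6
    have g4 := half_center (ha 2) (hb 2) (hXX 2) (hYY 2) (hXY 2) s4a s4b c (hc 2).2 g5
    have g3 := half_center (hb 1) (ha 1) (hYY 1) (hXX 1) (hYX 1) s3a s3b c (hc 1).1 g4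
    have g2 := half_center (ha 1) (hb 1) (hXX 1) (hYY 1) (hXY 1) s2a s2b c (hc 1).2 g3
    have g1 := half_center (hb 0) (ha 0) (hYY 0) (hXX 0) (hYX 0) s1a s1b c (hc 0).1 g2
    have g0 := half_center (ha 0) (hb 0) (hXX 0) (hYY 0) (hXY 0) s0a s0b c (hc 0).2 g1
    have h7 : c ∈ Set.center A := by
      rw [Semigroup.mem_center_iff]
      intro u
      exact (g0 u trivial).symm
    rw [Matrix.center_eq_range] at h7
    obtain ⟨t, rfl⟩ := h7
    exact ⟨t, by rw [Matrix.smul_one_eq_diagonal]; rfl⟩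

end Pool.Agent.PI.Alg
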