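import Pool.Agent.Lib.MP_43d240_ag.PI.AlgBase

/-!
# Project PI, chapter ALG, module A2S: Schur
-/

set_option autoImplicit false

open scoped TensorProduct
open Matrix

namespace Pool.Agent.PI.Alg

/-- a nonzero element of the commutant of a simple module is invertible -/
theorem a2s : A2SStatement := by
  intro K _ a b ha hb N X Y hXY hs c hc hc0
  have hker : LinearMap.ker (Matrix.mulVecLin c) = ⊥ := by
    rcases hs (LinearMap.ker (Matrix.mulVecLin c)) (by
      intro j w hw
      rw [LinearMap.mem_ker, Matrix.mulVecLin_apply] at hw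
      constructor
      · rw [LinearMap.mem_ker, Matrix.mulVecLin_apply, Matrix.mulVec_mulVec, (hc j).1,
          ← Matrix.mulVec_mulVec, hw, Matrix.mulVec_zero]
      · rw [LinearMap.mem_ker, Matrix.mulVecLin_apply, Matrix.mulVec_mulVec, (hc j).2,
          ← Matrix.mulVec_mulVec, hw, Matrix.mulVec_zero]) with h | h
    · exact h
    · exfalso
      apply hc0
      have : Matrix.mulVecLin c = 0 := LinearMap.ker_eq_top.mp h
      ext i l
      have h2 := congrFun (congrArg (fun f => f (Pi.single l 1)) this) i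
      simpa [Matrix.mulVec_single] using h2
  have hinj : Function.Injective c.mulVec := by
    have := LinearMap.ker_eq_bot.mp hker
    exact this
  have hu : IsUnit c := Matrix.mulVec_injective_iff_isUnit.mp hinj
  have hd : IsUnit c.det := (Matrix.isUnit_iff_isUnit_det c).mp hu
  refine ⟨c⁻¹, ?_, Matrix.mul_nonsing_inv c hd, Matrix.nonsing_inv_mul c hd⟩
  have key : ∀ Z : Matrix (Fin N) (Fin N) K, c * Z = Z * c → c⁻¹ * Z = Z * c⁻¹ := by
    intro Z hZ
    calc c⁻¹ * Z = c⁻¹ * Z * (c * c⁻¹) := by rw [Matrix.mul_nonsing_inv c hd, mul_one]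
      _ = c⁻¹ * (Z * c) * c⁻¹ := by simp only [mul_assoc]
      _ = c⁻¹ * (c * Z) * c⁻¹ := by rw [hZ]
      _ = (c⁻¹ * c) * Z * c⁻¹ := by simp only [mul_assoc]
      _ = Z * c⁻¹ := by rw [Matrix.nonsing_inv_mul c hd, one_mul]
  intro j
  exact ⟨key _ (hc j).1, key _ (hc j).2⟩

end Pool.Agent.PI.Alg
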