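import Pool.Agent.Lib.MP_43d240_ag.PI.AlgBase

/-!
# Project PI, chapter ALG, module ALG3: two more pairs in the commutant; Kronecker products
-/

open Matrix
open scoped Kronecker

namespace Pool.Agent.PI.Alg

namespace A3

variable {K : Type} [Field K]

theorem kron (N : ℕ) :
    ∃ (φ : Matrix (Fin N) (Fin N) K → Matrix (Fin (N * 2)) (Fin (N * 2)) K)
      (P Q : Matrix (Fin (N * 2)) (Fin (N * 2)) K),
      (∀ A B, φ (A * B) = φ A * φ B) ∧ (∀ A, φ (-A) = - φ A) ∧ (∀ t : K, φ (t • 1) = t • 1) ∧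
      P * P = 1 ∧ Q * Q = 1 ∧ P * Q = - (Q * P) ∧
      ∀ A, φ A * P = P * φ A ∧ φ A * Q = Q * φ A := by
  let e : Fin N × Fin 2 ≃ Fin (N * 2) := finProdFinEquiv
  let R := Matrix.reindexAlgEquiv K K e
  let s : Matrix (Fin 2) (Fin 2) K := !![0, 1; 1, 0]
  let t : Matrix (Fin 2) (Fin 2) K := !![1, 0; 0, -1]
  have hs : s * s = 1 := by
    simp only [s]
    rw [Matrix.mul_fin_two, Matrix.one_fin_two]
    norm_num
  have ht : t * t = 1 := by
    simp only [t]
    rw [Matrix.mul_fin_two, Matrix.one_fin_two]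
    norm_num
  have hst : s * t = - (t * s) := by
    simp only [s, t]
    rw [Matrix.mul_fin_two, Matrix.mul_fin_two]
    ext i j
    fin_cases i <;> fin_cases j <;> simp
  refine ⟨fun A => R (A ⊗ₖ (1 : Matrix (Fin 2) (Fin 2) K)),
    R ((1 : Matrix (Fin N) (Fin N) K) ⊗ₖ s), R ((1 : Matrix (Fin N) (Fin N) K) ⊗ₖ t),
    ?_, ?_, ?_, ?_, ?_, ?_, ?_⟩
  · intro A B
    rw [← map_mul, ← Matrix.mul_kronecker_mul, one_mul]
  · intro A
    have h : ((-A) ⊗ₖ (1 : Matrix (Fin 2) (Fin 2) K)) = -(A ⊗ₖ (1 : Matrix (Fin 2) (Fin 2) K)) := by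
      ext i j
      simp [Matrix.kroneckerMap_apply]
    change R ((-A) ⊗ₖ (1 : Matrix (Fin 2) (Fin 2) K)) = -R (A ⊗ₖ (1 : Matrix (Fin 2) (Fin 2) K))
    rw [h, map_neg]
  · intro c
    have : ((c • (1 : Matrix (Fin N) (Fin N) K)) ⊗ₖ (1 : Matrix (Fin 2) (Fin 2) K)) = c • 1 := by
      rw [Matrix.smul_kronecker, Matrix.one_kronecker_one]
    change R ((c • (1 : Matrix (Fin N) (Fin N) K)) ⊗ₖ (1 : Matrix (Fin 2) (Fin 2) K)) = _
    rw [this, map_smul, map_one]
  · rw [← map_mul, ← Matrix.mul_kronecker_mul, hs, one_mul, Matrix.one_kronecker_one, map_one]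
  · rw [← map_mul, ← Matrix.mul_kronecker_mul, ht, one_mul, Matrix.one_kronecker_one, map_one]
  · rw [← map_mul, ← map_mul, ← map_neg, ← Matrix.mul_kronecker_mul, ← Matrix.mul_kronecker_mul,
      hst]
    congr 1
    ext i j
    simp
  · intro A
    constructor
    · rw [← map_mul, ← map_mul, ← Matrix.mul_kronecker_mul, ← Matrix.mul_kronecker_mul, one_mul,
        mul_one, one_mul, mul_one]
    · rw [← map_mul, ← map_mul, ← Matrix.mul_kronecker_mul, ← Matrix.mul_kronecker_mul, one_mul,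
        mul_one, one_mul, mul_one]

/-- appending two families of commuting pairs -/
theorem pairs_append {N r s : ℕ} {a b : Fin r → K} {a' b' : Fin s → K}
    {X Y : Fin r → Matrix (Fin N) (Fin N) K} {V W : Fin s → Matrix (Fin N) (Fin N) K}
    (h : IsPairs a b X Y) (h' : IsPairs a' b' V W)
    (hc : ∀ i j, V j * X i = X i * V j ∧ V j * Y i = Y i * V j ∧ W j * X i = X i * W j ∧
      W j * Y i = Y i * W j) :
    IsPairs (Fin.append a a') (Fin.append b b') (Fin.append X V) (Fin.append Y W) := by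
  obtain ⟨h1, h2, h3, h4⟩ := h
  obtain ⟨g1, g2, g3, g4⟩ := h'
  refine ⟨?_, ?_, ?_, ?_⟩
  · intro j
    refine Fin.addCases (fun j => ?_) (fun j => ?_) j
    · rw [Fin.append_left, Fin.append_left, h1]
    · rw [Fin.append_right, Fin.append_right, g1]
  · intro j
    refine Fin.addCases (fun j => ?_) (fun j => ?_) j
    · rw [Fin.append_left, Fin.append_left, h2]
    · rw [Fin.append_right, Fin.append_right, g2]
  · intro j
    refine Fin.addCases (fun j => ?_) (fun j => ?_) j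
    · rw [Fin.append_left, Fin.append_left, h3]
    · rw [Fin.append_right, Fin.append_right, g3]
  · intro i j
    refine Fin.addCases (fun i => ?_) (fun i => ?_) i <;>
      refine Fin.addCases (fun j => ?_) (fun j => ?_) j <;> intro hij
    · have hne : i ≠ j := fun e => hij (by rw [e])
      simp only [Fin.append_left]
      exact h4 i j hne
    · simp only [Fin.append_left, Fin.append_right]
      exact ⟨(hc i j).1.symm, (hc i j).2.2.1.symm, (hc i j).2.2.2.symm⟩
    · simp only [Fin.append_left, Fin.append_right]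
      exact ⟨(hc j i).1, (hc j i).2.1, (hc j i).2.2.2⟩
    · have hne : i ≠ j := fun e => hij (by rw [e])
      simp only [Fin.append_right]
      exact g4 i j hne

/-- image of a family of pairs -/
theorem pairs_map {N M r : ℕ} {a b : Fin r → K} {X Y : Fin r → Matrix (Fin N) (Fin N) K}
    (h : IsPairs a b X Y) (φ : Matrix (Fin N) (Fin N) K → Matrix (Fin M) (Fin M) K)
    (hm : ∀ A B, φ (A * B) = φ A * φ B) (hn : ∀ A, φ (-A) = - φ A)
    (hs : ∀ t : K, φ (t • 1) = t • 1) :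
    IsPairs a b (fun j => φ (X j)) (fun j => φ (Y j)) := by
  obtain ⟨h1, h2, h3, h4⟩ := h
  refine ⟨?_, ?_, ?_, ?_⟩
  · intro j
    rw [← hm, h1, hs]
  · intro j
    rw [← hm, h2, hs]
  · intro j
    rw [← hm, h3, hn, hm]
  · intro i j hij
    obtain ⟨p, q, r⟩ := h4 i j hij
    exact ⟨by rw [← hm, p, hm], by rw [← hm, q, hm], by rw [← hm, r, hm]⟩

/-- two commuting pairs -/
theorem pairs_two {N : ℕ} {a b a' b' : K} {V W P Q : Matrix (Fin N) (Fin N) K}
    (h1 : V * V = a • 1) (h2 : W * W = b • 1) (h3 : V * W = - (W * V))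
    (g1 : P * P = a' • 1) (g2 : Q * Q = b' • 1) (g3 : P * Q = - (Q * P))
    (c1 : V * P = P * V) (c2 : V * Q = Q * V) (c3 : W * P = P * W) (c4 : W * Q = Q * W) :
    IsPairs ![a, a'] ![b, b'] ![V, P] ![W, Q] := by
  refine ⟨?_, ?_, ?_, ?_⟩
  · intro j
    fin_cases j
    · exact h1
    · exact g1
  · intro j
    fin_cases j
    · exact h2
    · exact g2
  · intro j
    fin_cases j
    · exact h3
    · exact g3
  · intro i j hij
    fin_cases i <;> fin_cases j
    · exact absurd rfl hij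
    · exact ⟨c1, c2, c4⟩
    · exact ⟨c1.symm, c3.symm, c4.symm⟩
    · exact absurd rfl hij

theorem split_of {a b : Fin 3 → K} {a' b' : Fin 2 → K}
    {X Y : Fin 3 → Matrix (Fin 32) (Fin 32) K} {V W : Fin 2 → Matrix (Fin 32) (Fin 32) K}
    (h : IsPairs a b X Y) (h' : IsPairs a' b' V W) (hc : ∀ j, V j ∈ Comm X Y ∧ W j ∈ Comm X Y) :
    SplitSyms (Fin.append a a') (Fin.append b b') := by
  have := pairs_append h h' (fun i j =>
    ⟨((hc j).1 i).1, ((hc j).1 i).2, ((hc j).2 i).1, ((hc j).2 i).2⟩)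
  exact ⟨Fin.append X V, Fin.append Y W, this⟩

end A3

open A3

theorem a3 : A3Statement := by
  intro K _ _ a b ha hb
  refine ⟨?_, ?_, ?_⟩
  · intro X Y a' b' V W h h' hc
    exact split_of h h' hc
  · intro X Y a' b' V W h h1 h2 h3 hV hW
    obtain ⟨φ, P, Q, hm, hn, hs, g1, g2, g3, hc⟩ := kron (K := K) 16
    have hX := pairs_map h φ hm hn hs
    have hV1 : ∀ j, φ V * φ (X j) = φ (X j) * φ V := fun j => by rw [← hm, (hV j).1, hm]
    have hV2 : ∀ j, φ V * φ (Y j) = φ (Y j) * φ V := fun j => by rw [← hm, (hV j).2, hm]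
    have hW1 : ∀ j, φ W * φ (X j) = φ (X j) * φ W := fun j => by rw [← hm, (hW j).1, hm]
    have hW2 : ∀ j, φ W * φ (Y j) = φ (Y j) * φ W := fun j => by rw [← hm, (hW j).2, hm]
    have hp : IsPairs ![a', 1] ![b', 1] ![φ V, P] ![φ W, Q] :=
      pairs_two (by rw [← hm, h1, hs]) (by rw [← hm, h2, hs]) (by rw [← hm, h3, hn, hm])
        (by rw [g1, one_smul]) (by rw [g2, one_smul]) g3 (hc _).1 (hc _).2 (hc _).1 (hc _).2
    refine split_of hX hp ?_
    intro j
    fin_cases j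
    · exact ⟨fun i => ⟨hV1 i, hV2 i⟩, fun i => ⟨hW1 i, hW2 i⟩⟩
    · exact ⟨fun i => ⟨(hc _).1.symm, (hc _).1.symm⟩, fun i => ⟨(hc _).2.symm, (hc _).2.symm⟩⟩
  · intro X Y h
    obtain ⟨φ, P, Q, hm, hn, hs, g1, g2, g3, hc⟩ := kron (K := K) 8
    obtain ⟨ψ, P', Q', hm', hn', hs', g1', g2', g3', hc'⟩ := kron (K := K) 16
    have hX := pairs_map (pairs_map h φ hm hn hs) ψ hm' hn' hs'
    have h1 : ψ 1 = 1 := by
      have := hs' 1
      rwa [one_smul, one_smul] at this
    have hp : IsPairs ![1, 1] ![1, 1] ![ψ P, P'] ![ψ Q, Q'] :=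
      pairs_two (by rw [← hm', g1, h1, one_smul]) (by rw [← hm', g2, h1, one_smul])
        (by rw [← hm', g3, hn', hm'])
        (by rw [g1', one_smul]) (by rw [g2', one_smul]) g3' (hc' _).1 (hc' _).2 (hc' _).1 (hc' _).2
    refine split_of hX hp ?_
    intro j
    fin_cases j
    · refine ⟨fun i => ⟨?_, ?_⟩, fun i => ⟨?_, ?_⟩⟩
      · change ψ P * ψ (φ (X i)) = ψ (φ (X i)) * ψ P
        rw [← hm', ← hm', (hc _).1]
      · change ψ P * ψ (φ (Y i)) = ψ (φ (Y i)) * ψ P
        rw [← hm', ← hm', (hc _).1]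
      · change ψ Q * ψ (φ (X i)) = ψ (φ (X i)) * ψ Q
        rw [← hm', ← hm', (hc _).2]
      · change ψ Q * ψ (φ (Y i)) = ψ (φ (Y i)) * ψ Q
        rw [← hm', ← hm', (hc _).2]
    · exact ⟨fun i => ⟨(hc' _).1.symm, (hc' _).1.symm⟩, fun i => ⟨(hc' _).2.symm, (hc' _).2.symm⟩⟩

end Pool.Agent.PI.Alg
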