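import Pool.Agent.Lib.MP_43d240_ag.PI.AlgBase

/-!
# Project PI, chapter ALG, module A4

A symmetric form for which the pairs are skew adjoint.
-/

set_option autoImplicit false

open Matrix

namespace Pool.Agent.PI.Alg

namespace A4

variable {K : Type} [Field K] {N : ℕ}

/-- `g` is skew adjoint for `M` -/
def Rel (g M : Matrix (Fin N) (Fin N) K) : Prop := gᵀ * M = - (M * g)

/-- one step of the construction of a form -/
theorem step {ι : Type} (g : ι → Matrix (Fin N) (Fin N) K) (s : Set ι) (i : ι)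
    (hcomm : ∀ j, g i * g j = g j * g i ∨ g i * g j = - (g j * g i))
    (a : K) (ha : a ≠ 0) (hg : g i * g i = a • 1)
    (h : Matrix (Fin N) (Fin N) K) (b : K) (hb : b ≠ 0) (hh : h * h = b • 1)
    (hanti : h * g i = - (g i * h)) (hc : ∀ j ∈ s, h * g j = g j * h)
    (M : Matrix (Fin N) (Fin N) K) (hM : M ≠ 0) (hR : ∀ j ∈ s, Rel (g j) M) :
    ∃ M' : Matrix (Fin N) (Fin N) K, M' ≠ 0 ∧ Rel (g i) M' ∧ ∀ j ∈ s, Rel (g j) M' := by
  have hgT : (g i)ᵀ * (g i)ᵀ = a • 1 := by
    rw [← Matrix.transpose_mul, hg, Matrix.transpose_smul, Matrix.transpose_one]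
  by_cases h0 : M - a⁻¹ • ((g i)ᵀ * M * g i) = 0
  · have h1 : M = a⁻¹ • ((g i)ᵀ * M * g i) := sub_eq_zero.mp h0
    have h2 : (g i)ᵀ * M = M * g i := by
      calc (g i)ᵀ * M = (g i)ᵀ * (a⁻¹ • ((g i)ᵀ * M * g i)) := by rw [← h1]
        _ = a⁻¹ • (((g i)ᵀ * (g i)ᵀ) * M * g i) := by
            rw [Matrix.mul_smul, ← mul_assoc, ← mul_assoc]
        _ = M * g i := by
            rw [hgT, Matrix.smul_mul, Matrix.one_mul, Matrix.smul_mul, smul_smul,
              inv_mul_cancel₀ ha, one_smul]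
    refine ⟨M * h, ?_, ?_, ?_⟩
    · intro h3
      apply hM
      have : M * h * h = 0 := by rw [h3, Matrix.zero_mul]
      rw [mul_assoc, hh, Matrix.mul_smul, mul_one] at this
      exact (smul_eq_zero.mp this).resolve_left hb
    · unfold Rel
      rw [← mul_assoc, h2, mul_assoc, mul_assoc, hanti, Matrix.mul_neg, neg_neg]
    · intro j hj
      have h4 := hR j hj
      unfold Rel at h4 ⊢
      rw [← mul_assoc, h4, Matrix.neg_mul, mul_assoc, mul_assoc, hc j hj]
  · refine ⟨_, h0, ?_, ?_⟩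
    · unfold Rel
      rw [mul_sub, sub_mul, Matrix.mul_smul, Matrix.smul_mul, ← mul_assoc, ← mul_assoc, hgT,
        mul_assoc ((g i)ᵀ * M), hg, Matrix.mul_smul, mul_one, smul_smul, inv_mul_cancel₀ ha,
        one_smul, Matrix.smul_mul, Matrix.one_mul, Matrix.smul_mul, smul_smul,
        inv_mul_cancel₀ ha, one_smul, neg_sub]
    · intro j hj
      have h4 := hR j hj
      unfold Rel at h4 ⊢
      have key : (g j)ᵀ * ((g i)ᵀ * M * g i) = - ((g i)ᵀ * M * g i * g j) := by
        rcases hcomm j with h5 | h5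
        · have h6 : (g j)ᵀ * (g i)ᵀ = (g i)ᵀ * (g j)ᵀ := by
            rw [← Matrix.transpose_mul, ← Matrix.transpose_mul, h5]
          calc (g j)ᵀ * ((g i)ᵀ * M * g i) = ((g j)ᵀ * (g i)ᵀ) * M * g i := by
                simp only [mul_assoc]
            _ = (g i)ᵀ * ((g j)ᵀ * M) * g i := by rw [h6]; simp only [mul_assoc]
            _ = - ((g i)ᵀ * M * (g j * g i)) := by
                rw [h4]; simp only [mul_assoc, Matrix.mul_neg, Matrix.neg_mul]
            _ = - ((g i)ᵀ * M * g i * g j) := by rw [← h5]; simp only [mul_assoc]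
        · have h6 : (g j)ᵀ * (g i)ᵀ = - ((g i)ᵀ * (g j)ᵀ) := by
            rw [← Matrix.transpose_mul, ← Matrix.transpose_mul, h5, Matrix.transpose_neg]
          have h7 : g j * g i = - (g i * g j) := by rw [h5, neg_neg]
          calc (g j)ᵀ * ((g i)ᵀ * M * g i) = ((g j)ᵀ * (g i)ᵀ) * M * g i := by
                simp only [mul_assoc]
            _ = - ((g i)ᵀ * ((g j)ᵀ * M) * g i) := by
                rw [h6]; simp only [mul_assoc, Matrix.neg_mul]
            _ = ((g i)ᵀ * M * (g j * g i)) := by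
                rw [h4]; simp only [mul_assoc, Matrix.mul_neg, Matrix.neg_mul, neg_neg]
            _ = - ((g i)ᵀ * M * g i * g j) := by
                rw [h7]; simp only [mul_assoc, Matrix.mul_neg]
      rw [mul_sub, sub_mul, Matrix.mul_smul, Matrix.smul_mul, key, h4]
      simp only [smul_neg, sub_neg_eq_add, neg_sub]
      abel

/-- a form for a finite family -/
theorem form {ι : Type} [DecidableEq ι] (g : ι → Matrix (Fin N) (Fin N) K) (hN : 0 < N)
    (hcomm : ∀ i j, g i * g j = g j * g i ∨ g i * g j = - (g j * g i))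
    (a : ι → K) (ha : ∀ i, a i ≠ 0) (hg : ∀ i, g i * g i = a i • 1)
    (h : ι → Matrix (Fin N) (Fin N) K) (b : ι → K) (hb : ∀ i, b i ≠ 0)
    (hh : ∀ i, h i * h i = b i • 1)
    (hanti : ∀ i, h i * g i = - (g i * h i)) (hc : ∀ i j, j ≠ i → h i * g j = g j * h i)
    (s : Finset ι) :
    ∃ M : Matrix (Fin N) (Fin N) K, M ≠ 0 ∧ ∀ j ∈ s, Rel (g j) M := by
  induction s using Finset.induction_on with
  | empty =>
    have : Nonempty (Fin N) := ⟨⟨0, hN⟩⟩
    exact ⟨1, one_ne_zero, by simp⟩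
  | insert i s hi ih =>
    obtain ⟨M, hM, hR⟩ := ih
    obtain ⟨M', h1, h2, h3⟩ := step g (↑s) i (hcomm i) (a i) (ha i) (hg i) (h i) (b i) (hb i)
      (hh i) (hanti i) (fun j hj => hc i j (fun hji => hi (by rw [← hji]; exact hj))) M hM hR
    refine ⟨M', h1, ?_⟩
    intro j hj
    rcases Finset.mem_insert.mp hj with h4 | h4
    · rw [h4]; exact h2
    · exact h3 j h4

/-- a nonzero form is nondegenerate -/
theorem unit_of_simp {r : ℕ} (X Y : Fin r → Matrix (Fin N) (Fin N) K) (hs : IsSimp X Y)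
    (G : Matrix (Fin N) (Fin N) K) (hG : G ≠ 0)
    (hX : ∀ j, (X j)ᵀ * G = - (G * X j)) (hY : ∀ j, (Y j)ᵀ * G = - (G * Y j)) :
    IsUnit G.det := by
  rw [← Matrix.isUnit_iff_isUnit_det, ← Matrix.mulVec_injective_iff_isUnit]
  have hk := hs (LinearMap.ker G.mulVecLin) (by
    intro j w hw
    rw [LinearMap.mem_ker, Matrix.mulVecLin_apply] at hw
    constructor
    · rw [LinearMap.mem_ker, Matrix.mulVecLin_apply, Matrix.mulVec_mulVec]
      have : G * X j = - ((X j)ᵀ * G) := by rw [hX j, neg_neg]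
      rw [this, Matrix.neg_mulVec, ← Matrix.mulVec_mulVec, hw, Matrix.mulVec_zero, neg_zero]
    · rw [LinearMap.mem_ker, Matrix.mulVecLin_apply, Matrix.mulVec_mulVec]
      have : G * Y j = - ((Y j)ᵀ * G) := by rw [hY j, neg_neg]
      rw [this, Matrix.neg_mulVec, ← Matrix.mulVec_mulVec, hw, Matrix.mulVec_zero, neg_zero])
  rcases hk with hk | hk
  · have := LinearMap.ker_eq_bot.mp hk
    exact this
  · exfalso
    apply hG
    ext i j
    have h1 : Pi.single j (1 : K) ∈ LinearMap.ker G.mulVecLin := by rw [hk]; trivial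
    rw [LinearMap.mem_ker, Matrix.mulVecLin_apply] at h1
    have h2 := congrFun h1 i
    simpa using h2

end A4

/-- MODULE A4 -/
theorem a4 : A4Statement := by
  intro K _ _ a b ha hb N X Y hN hP hS hnc
  obtain ⟨hX, hY, hXY, hcc⟩ := hP
  obtain ⟨M, hM, hR⟩ := A4.form (ι := Fin 3 × Bool) (K := K) (N := N)
    (fun i => if i.2 then X i.1 else Y i.1) hN
    (by
      rintro ⟨i, s⟩ ⟨j, t⟩
      by_cases hij : i = j
      · subst hij
        cases s <;> cases t <;> simp [hXY i]
      · left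
        have h1 := hcc i j hij
        have h2 := hcc j i (Ne.symm hij)
        cases s <;> cases t
        · simpa using h1.2.2
        · simpa using h2.2.1.symm
        · simpa using h1.2.1
        · simpa using h1.1)
    (fun i => if i.2 then a i.1 else b i.1)
    (by rintro ⟨i, s⟩; cases s <;> simp [ha i, hb i])
    (by rintro ⟨i, s⟩; cases s <;> simp [hX i, hY i])
    (fun i => if i.2 then Y i.1 else X i.1)
    (fun i => if i.2 then b i.1 else a i.1)
    (by rintro ⟨i, s⟩; cases s <;> simp [ha i, hb i])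
    (by rintro ⟨i, s⟩; cases s <;> simp [hX i, hY i])
    (by rintro ⟨i, s⟩; cases s <;> simp [hXY i])
    (by
      rintro ⟨i, s⟩ ⟨j, t⟩ hne
      by_cases hij : i = j
      · subst hij
        cases s <;> cases t <;> simp at hne ⊢
      · have h1 := hcc i j hij
        have h2 := hcc j i (Ne.symm hij)
        cases s <;> cases t
        · simpa using h1.2.1
        · simpa using h1.1
        · simpa using h1.2.2
        · simpa using h2.2.1.symm)
    Finset.univ
  have hMX : ∀ j, (X j)ᵀ * M = - (M * X j) := fun j => by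
    simpa [A4.Rel] using hR (j, true) (Finset.mem_univ _)
  have hMY : ∀ j, (Y j)ᵀ * M = - (M * Y j) := fun j => by
    simpa [A4.Rel] using hR (j, false) (Finset.mem_univ _)
  have hMX' : ∀ j, (X j)ᵀ * Mᵀ = - (Mᵀ * X j) := fun j => by
    have := congrArg Matrix.transpose (hMX j)
    rw [Matrix.transpose_mul, Matrix.transpose_transpose, Matrix.transpose_neg,
      Matrix.transpose_mul] at this
    rw [this, neg_neg]
  have hMY' : ∀ j, (Y j)ᵀ * Mᵀ = - (Mᵀ * Y j) := fun j => by
    have := congrArg Matrix.transpose (hMY j)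
    rw [Matrix.transpose_mul, Matrix.transpose_transpose, Matrix.transpose_neg,
      Matrix.transpose_mul] at this
    rw [this, neg_neg]
  by_cases h1 : M + Mᵀ = 0
  · have h2 : Mᵀ = - M := by
      rw [eq_neg_iff_add_eq_zero, add_comm]; exact h1
    have hu : IsUnit M.det := A4.unit_of_simp X Y hS M hM hMX hMY
    by_cases h3 : ∀ c ∈ Comm X Y, M * c - cᵀ * M = 0
    · exfalso
      obtain ⟨c, hc, d, hd, hcd⟩ := hnc
      apply hcd
      have h4 := sub_eq_zero.mp (h3 c hc)
      have h5 := sub_eq_zero.mp (h3 d hd)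
      have h6 := sub_eq_zero.mp (h3 (c * d) ((Comm X Y).mul_mem hc hd))
      rw [Matrix.transpose_mul, mul_assoc dᵀ, ← h4, ← mul_assoc dᵀ, ← h5] at h6
      have hu' : IsUnit M := (Matrix.isUnit_iff_isUnit_det M).mpr hu
      have h7 : M * (c * d) = M * (d * c) := by rw [h6, mul_assoc]
      exact hu'.mul_left_cancel h7
    · push_neg at h3
      obtain ⟨c, hc, h4⟩ := h3
      have hcX : ∀ j, cᵀ * (X j)ᵀ = (X j)ᵀ * cᵀ := fun j => by
        rw [← Matrix.transpose_mul, ← Matrix.transpose_mul, (hc j).1]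
      have hcY : ∀ j, cᵀ * (Y j)ᵀ = (Y j)ᵀ * cᵀ := fun j => by
        rw [← Matrix.transpose_mul, ← Matrix.transpose_mul, (hc j).2]
      have h5 : ∀ j, (X j)ᵀ * (M * c - cᵀ * M) = - ((M * c - cᵀ * M) * X j) := fun j => by
        rw [mul_sub, sub_mul, ← mul_assoc, ← mul_assoc, hMX j, ← hcX j, mul_assoc cᵀ, hMX j,
          mul_assoc M c, (hc j).1]
        simp only [Matrix.neg_mul, Matrix.mul_neg, mul_assoc]
        abel
      have h6 : ∀ j, (Y j)ᵀ * (M * c - cᵀ * M) = - ((M * c - cᵀ * M) * Y j) := fun j => by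
        rw [mul_sub, sub_mul, ← mul_assoc, ← mul_assoc, hMY j, ← hcY j, mul_assoc cᵀ, hMY j,
          mul_assoc M c, (hc j).2]
        simp only [Matrix.neg_mul, Matrix.mul_neg, mul_assoc]
        abel
      refine ⟨M * c - cᵀ * M, ?_, A4.unit_of_simp X Y hS _ h4 h5 h6, fun j => ⟨h5 j, h6 j⟩⟩
      rw [Matrix.transpose_sub, Matrix.transpose_mul, Matrix.transpose_mul,
        Matrix.transpose_transpose, h2, Matrix.mul_neg, Matrix.neg_mul]
      abel
  · have h5 : ∀ j, (X j)ᵀ * (M + Mᵀ) = - ((M + Mᵀ) * X j) := fun j => by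
      rw [mul_add, add_mul, hMX j, hMX' j, neg_add]
    have h6 : ∀ j, (Y j)ᵀ * (M + Mᵀ) = - ((M + Mᵀ) * Y j) := fun j => by
      rw [mul_add, add_mul, hMY j, hMY' j, neg_add]
    refine ⟨M + Mᵀ, ?_, A4.unit_of_simp X Y hS _ h1 h5 h6, fun j => ⟨h5 j, h6 j⟩⟩
    rw [Matrix.transpose_add, Matrix.transpose_transpose, add_comm]

end Pool.Agent.PI.Alg
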