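import Pool.Agent.Lib.MP_43d240_ag.PI.AlgBase
import Pool.Agent.Lib.MP_43d240_ag.H36.Quad

/-!
# Project PI, chapter ALG, module A5: a self adjoint element of the commutant is quadratic
-/

set_option autoImplicit false

open Matrix

namespace Pool.Agent.PI.Alg

open Pool.Agent.MP_43d240_ag.H36

section mat

variable {K : Type} [Field K] {n : ℕ}

/-- the twisting element -/
theorem twist {a b : Fin 3 → K} {X Y : Fin 3 → Matrix (Fin n) (Fin n) K} (hp : IsPairs a b X Y)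
    (ha : ∀ j, a j ≠ 0) (hb : ∀ j, b j ≠ 0)
    {G : Matrix (Fin n) (Fin n) K} (hG : Gᵀ = G) (hGu : IsUnit G.det)
    (hs : ∀ j, (X j)ᵀ * G = - (G * X j) ∧ (Y j)ᵀ * G = - (G * Y j)) :
    ∃ M : Matrix (Fin n) (Fin n) K, (G * M)ᵀ = - (G * M) ∧ IsUnit (G * M).det ∧
      (∀ j, (X j)ᵀ * (G * M) = (G * M) * X j) ∧ (∀ j, (Y j)ᵀ * (G * M) = (G * M) * Y j) ∧
      ∀ s, (∀ j, s * X j = X j * s ∧ s * Y j = Y j * s) → s * M = M * s := by
  obtain ⟨hX, hY, hXY, hc⟩ := hp
  have hYX : ∀ j, Y j * X j = - (X j * Y j) := fun j => by rw [hXY j, neg_neg]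
  obtain ⟨E, hE⟩ : ∃ E : Fin 3 → Matrix (Fin n) (Fin n) K, ∀ j, E j = X j * Y j :=
    ⟨fun j => X j * Y j, fun _ => rfl⟩
  have hEX : ∀ j, X j * E j = - (E j * X j) := by
    intro j
    rw [hE, Matrix.mul_assoc, hYX, Matrix.mul_neg, neg_neg]
  have hEY : ∀ j, Y j * E j = - (E j * Y j) := by
    intro j
    rw [hE, ← Matrix.mul_assoc, hYX, Matrix.neg_mul]
  have hEX' : ∀ i j, i ≠ j → X i * E j = E j * X i := by
    intro i j hij
    rw [hE, ← Matrix.mul_assoc, (hc i j hij).1, Matrix.mul_assoc, (hc i j hij).2.1, ← Matrix.mul_assoc]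
  have hEY' : ∀ i j, i ≠ j → Y i * E j = E j * Y i := by
    intro i j hij
    rw [hE, ← Matrix.mul_assoc, ← (hc j i hij.symm).2.1, Matrix.mul_assoc, (hc i j hij).2.2,
      ← Matrix.mul_assoc]
  have hEE : ∀ i j, i ≠ j → E i * E j = E j * E i := by
    intro i j hij
    rw [hE i, Matrix.mul_assoc, hEY' i j hij, ← Matrix.mul_assoc, hEX' i j hij, Matrix.mul_assoc]
  have hEG : ∀ j, (E j)ᵀ * G = - (G * E j) := by
    intro j
    rw [hE, transpose_mul, Matrix.mul_assoc, (hs j).1, Matrix.mul_neg, ← Matrix.mul_assoc, (hs j).2,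
      Matrix.neg_mul, neg_neg, Matrix.mul_assoc, hYX, Matrix.mul_neg]
  have h01 := hEE 0 1 (by decide)
  have h02 := hEE 0 2 (by decide)
  have h12 := hEE 1 2 (by decide)
  have hXM : ∀ j, X j * (E 0 * (E 1 * E 2)) = - (E 0 * (E 1 * E 2) * X j) := by
    intro j
    fin_cases j
    · show X 0 * (E 0 * (E 1 * E 2)) = - (E 0 * (E 1 * E 2) * X 0)
      rw [Matrix.mul_assoc (E 0), Matrix.mul_assoc (E 1), ← hEX' 0 2 (by decide),
        ← Matrix.mul_assoc (E 1), ← hEX' 0 1 (by decide), ← Matrix.mul_assoc, hEX,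
        Matrix.neg_mul]
      simp only [Matrix.mul_assoc]
    · show X 1 * (E 0 * (E 1 * E 2)) = - (E 0 * (E 1 * E 2) * X 1)
      rw [Matrix.mul_assoc (E 0), Matrix.mul_assoc (E 1), ← hEX' 1 2 (by decide),
        ← Matrix.mul_assoc, hEX' 1 0 (by decide), Matrix.mul_assoc, ← Matrix.mul_assoc (X 1), hEX,
        Matrix.neg_mul, Matrix.mul_neg]
      simp only [Matrix.mul_assoc]
    · show X 2 * (E 0 * (E 1 * E 2)) = - (E 0 * (E 1 * E 2) * X 2)
      rw [← Matrix.mul_assoc, hEX' 2 0 (by decide), Matrix.mul_assoc, ← Matrix.mul_assoc (X 2),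
        hEX' 2 1 (by decide), Matrix.mul_assoc (E 1), hEX, Matrix.mul_neg, Matrix.mul_neg]
      simp only [Matrix.mul_assoc]
  have hYM : ∀ j, Y j * (E 0 * (E 1 * E 2)) = - (E 0 * (E 1 * E 2) * Y j) := by
    intro j
    fin_cases j
    · show Y 0 * (E 0 * (E 1 * E 2)) = - (E 0 * (E 1 * E 2) * Y 0)
      rw [Matrix.mul_assoc (E 0), Matrix.mul_assoc (E 1), ← hEY' 0 2 (by decide),
        ← Matrix.mul_assoc (E 1), ← hEY' 0 1 (by decide), ← Matrix.mul_assoc, hEY,
        Matrix.neg_mul]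
      simp only [Matrix.mul_assoc]
    · show Y 1 * (E 0 * (E 1 * E 2)) = - (E 0 * (E 1 * E 2) * Y 1)
      rw [Matrix.mul_assoc (E 0), Matrix.mul_assoc (E 1), ← hEY' 1 2 (by decide),
        ← Matrix.mul_assoc, hEY' 1 0 (by decide), Matrix.mul_assoc, ← Matrix.mul_assoc (Y 1), hEY,
        Matrix.neg_mul, Matrix.mul_neg]
      simp only [Matrix.mul_assoc]
    · show Y 2 * (E 0 * (E 1 * E 2)) = - (E 0 * (E 1 * E 2) * Y 2)
      rw [← Matrix.mul_assoc, hEY' 2 0 (by decide), Matrix.mul_assoc, ← Matrix.mul_assoc (Y 2),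
        hEY' 2 1 (by decide), Matrix.mul_assoc (E 1), hEY, Matrix.mul_neg, Matrix.mul_neg]
      simp only [Matrix.mul_assoc]
  have hEu : ∀ j, IsUnit (E j).det := by
    intro j
    have h1 : IsUnit (X j).det := by
      rw [isUnit_iff_ne_zero]
      intro h0
      have h3 := congrArg Matrix.det (hX j)
      rw [det_mul, h0, zero_mul, det_smul, det_one, mul_one] at h3
      exact pow_ne_zero _ (ha j) h3.symm
    have h2 : IsUnit (Y j).det := by
      rw [isUnit_iff_ne_zero]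
      intro h0
      have h3 := congrArg Matrix.det (hY j)
      rw [det_mul, h0, zero_mul, det_smul, det_one, mul_one] at h3
      exact pow_ne_zero _ (hb j) h3.symm
    rw [hE, det_mul]
    exact h1.mul h2
  refine ⟨E 0 * (E 1 * E 2), ?_, ?_, ?_, ?_, ?_⟩
  · rw [transpose_mul, transpose_mul, transpose_mul, hG, Matrix.mul_assoc, hEG, Matrix.mul_neg,
      Matrix.mul_assoc, ← Matrix.mul_assoc (E 1)ᵀ, hEG, Matrix.neg_mul, Matrix.mul_neg, neg_neg,
      Matrix.mul_assoc G, ← Matrix.mul_assoc (E 2)ᵀ, hEG, Matrix.neg_mul, Matrix.mul_assoc G]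
    congr 2
    rw [← h01, ← Matrix.mul_assoc (E 2), ← h02, Matrix.mul_assoc, ← h12]
  · rw [det_mul, det_mul, det_mul]
    exact hGu.mul ((hEu 0).mul ((hEu 1).mul (hEu 2)))
  · intro j
    rw [← Matrix.mul_assoc, (hs j).1, Matrix.neg_mul, Matrix.mul_assoc, hXM, Matrix.mul_neg,
      neg_neg, ← Matrix.mul_assoc]
  · intro j
    rw [← Matrix.mul_assoc, (hs j).2, Matrix.neg_mul, Matrix.mul_assoc, hYM, Matrix.mul_neg,
      neg_neg, ← Matrix.mul_assoc]
  · intro s hs
    have hsE : ∀ j, s * E j = E j * s := by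
      intro j
      rw [hE, ← Matrix.mul_assoc, (hs j).1, Matrix.mul_assoc, (hs j).2, Matrix.mul_assoc]
    rw [← Matrix.mul_assoc, hsE, Matrix.mul_assoc, ← Matrix.mul_assoc s, hsE, Matrix.mul_assoc,
      hsE]
    simp only [Matrix.mul_assoc]

end mat

theorem a5 : A5Statement := by
  intro K _ _ a b ha hb X Y hp _ G hG hGu hs s hsC hsG
  obtain ⟨M, hMt, hMu, hMX, hMY, hMs⟩ := twist hp ha hb hG hGu hs
  obtain ⟨hX, hY, hXY, hc⟩ := hp
  have hsM : sᵀ * (G * M) = (G * M) * s := by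
    rw [← Matrix.mul_assoc, hsG, Matrix.mul_assoc, hMs s hsC, Matrix.mul_assoc]
  let F := AlgebraicClosure K
  let φ : Matrix (Fin 32) (Fin 32) K →+* Matrix (Fin 32) (Fin 32) F := (algebraMap K F).mapMatrix
  have hφs : ∀ (c : K) (A : Matrix (Fin 32) (Fin 32) K), φ (c • A) = algebraMap K F c • φ A := by
    intro c A
    ext i j
    exact map_mul (algebraMap K F) c (A i j)
  have hφt : ∀ A, φ Aᵀ = (φ A)ᵀ := by
    intro A
    ext i j
    rfl
  have h2 : (2 : F) ≠ 0 := two_ne_zero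
  let B : (Fin 32 → F) →ₗ[F] (Fin 32 → F) →ₗ[F] F := Matrix.toLinearMap₂' F (φ (G * M))
  have hB : ∀ x y, B x y = x ⬝ᵥ (φ (G * M) *ᵥ y) := fun x y =>
    Matrix.toLinearMap₂'_apply' (φ (G * M)) x y
  have hadj : ∀ A : Matrix (Fin 32) (Fin 32) K, Aᵀ * (G * M) = (G * M) * A →
      ∀ x y, B (φ A *ᵥ x) y = B x (φ A *ᵥ y) := by
    intro A hA x y
    have h3 : φ (G * M) * φ A = (φ A)ᵀ * φ (G * M) := by rw [← map_mul, ← hA, map_mul φ Aᵀ, hφt]
    rw [hB, hB, mulVec_mulVec, h3, ← mulVec_mulVec, Matrix.dotProduct_mulVec x,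
      Matrix.vecMul_transpose]
  have hskew : ∀ x y, B x y = - B y x := by
    intro x y
    rw [hB, hB, Matrix.dotProduct_mulVec, ← Matrix.mulVec_transpose, ← hφt, hMt, map_neg,
      Matrix.neg_mulVec, neg_dotProduct, dotProduct_comm]
  obtain ⟨t, n, htn⟩ := quad_main (F := F) h2
    (fun a => by
      obtain ⟨r, hr⟩ := IsAlgClosed.exists_pow_nat_eq a (n := 2) (by norm_num)
      exact ⟨r, by rw [← hr, pow_two]⟩) 3 (Fin 32 → F) (by simp)
    (fun j => (φ (X j)).mulVecLin) (fun j => (φ (Y j)).mulVecLin)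
    (fun j => algebraMap K F (a j)) (fun j => algebraMap K F (b j))
    (fun j => by simpa using ha j) (fun j => by simpa using hb j)
    (fun j x => by
      show φ (X j) *ᵥ (φ (X j) *ᵥ x) = _
      rw [mulVec_mulVec, ← map_mul, hX, hφs, map_one, smul_mulVec, one_mulVec])
    (fun j x => by
      show φ (Y j) *ᵥ (φ (Y j) *ᵥ x) = _
      rw [mulVec_mulVec, ← map_mul, hY, hφs, map_one, smul_mulVec, one_mulVec])
    (fun j x => by
      show φ (X j) *ᵥ (φ (Y j) *ᵥ x) = - (φ (Y j) *ᵥ (φ (X j) *ᵥ x))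
      rw [mulVec_mulVec, mulVec_mulVec, ← map_mul, ← map_mul, hXY, map_neg, neg_mulVec])
    (fun i j hij x => by
      show φ (X i) *ᵥ (φ (X j) *ᵥ x) = φ (X j) *ᵥ (φ (X i) *ᵥ x)
      rw [mulVec_mulVec, mulVec_mulVec, ← map_mul, ← map_mul, (hc i j hij).1])
    (fun i j hij x => by
      show φ (X i) *ᵥ (φ (Y j) *ᵥ x) = φ (Y j) *ᵥ (φ (X i) *ᵥ x)
      rw [mulVec_mulVec, mulVec_mulVec, ← map_mul, ← map_mul, (hc i j hij).2.1])
    (fun i j hij x => by
      show φ (Y i) *ᵥ (φ (Y j) *ᵥ x) = φ (Y j) *ᵥ (φ (Y i) *ᵥ x)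
      rw [mulVec_mulVec, mulVec_mulVec, ← map_mul, ← map_mul, (hc i j hij).2.2])
    B
    (fun x => by
      have h := hskew x x
      have h3 : (2 : F) * B x x = 0 := by rw [two_mul]; nth_rewrite 1 [h]; ring
      exact (mul_eq_zero.mp h3).resolve_left h2)
    (fun x hx => by
      have hu : (φ (G * M))ᵀ.det ≠ 0 := by
        rw [det_transpose]
        have h3 : (φ (G * M)).det = algebraMap K F (G * M).det :=
          ((algebraMap K F).map_det (G * M)).symm
        rw [h3]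
        exact (hMu.map (algebraMap K F)).ne_zero
      have h0 : (φ (G * M))ᵀ *ᵥ x = 0 := by
        ext i
        have h4 := hx (Pi.single i 1)
        rw [hB, Matrix.dotProduct_mulVec, ← Matrix.mulVec_transpose, dotProduct_single,
          mul_one] at h4
        exact h4
      by_contra hne
      exact hu (Matrix.exists_mulVec_eq_zero_iff.mp ⟨x, hne, h0⟩))
    (fun j x y => hadj (X j) (hMX j) x y) (fun j x y => hadj (Y j) (hMY j) x y)
    (φ s).mulVecLin (fun x y => hadj s hsM x y)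
    (fun j x => by
      show φ s *ᵥ (φ (X j) *ᵥ x) = φ (X j) *ᵥ (φ s *ᵥ x)
      rw [mulVec_mulVec, mulVec_mulVec, ← map_mul, ← map_mul, (hsC j).1])
    (fun j x => by
      show φ s *ᵥ (φ (Y j) *ᵥ x) = φ (Y j) *ᵥ (φ s *ᵥ x)
      rw [mulVec_mulVec, mulVec_mulVec, ← map_mul, ← map_mul, (hsC j).2])
  -- descent
  have hmat : φ (s * s) = t • φ s + n • 1 := by
    apply Matrix.toLin'.injective
    apply LinearMap.ext
    intro x
    have h3 := htn x
    have h4 : φ s *ᵥ (φ s *ᵥ x) = t • (φ s *ᵥ x) + n • x := h3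
    rw [Matrix.toLin'_apply, Matrix.toLin'_apply, map_mul, ← mulVec_mulVec, h4, add_mulVec,
      smul_mulVec, smul_mulVec, one_mulVec]
  obtain ⟨g, hg⟩ := (Algebra.linearMap K F).exists_leftInverse_of_injective
    (LinearMap.ker_eq_bot.mpr (algebraMap K F).injective)
  have hg' : ∀ c : K, g (algebraMap K F c) = c := by
    intro c
    exact congrArg (fun f => f c) hg
  refine ⟨g t, g n, ?_⟩
  ext i j
  have h5 := congrArg g (congrFun (congrFun hmat i) j)
  have h6 : φ (s * s) i j = algebraMap K F ((s * s) i j) := rfl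
  have h8 : (1 : Matrix (Fin 32) (Fin 32) F) i j
      = algebraMap K F ((1 : Matrix (Fin 32) (Fin 32) K) i j) := by
    rw [Matrix.one_apply, Matrix.one_apply]
    split_ifs
    · rw [map_one]
    · rw [map_zero]
  have h7 : (t • φ s + n • (1 : Matrix (Fin 32) (Fin 32) F)) i j
      = (s i j) • t + ((1 : Matrix (Fin 32) (Fin 32) K) i j) • n := by
    rw [Matrix.add_apply, Matrix.smul_apply, Matrix.smul_apply, h8, Algebra.smul_def (s i j),
      Algebra.smul_def _ n, smul_eq_mul, smul_eq_mul, mul_comm t, mul_comm n]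
    rfl
  rw [h6, h7, hg', map_add, map_smul, map_smul] at h5
  rw [h5, Matrix.add_apply, Matrix.smul_apply, Matrix.smul_apply, smul_eq_mul, smul_eq_mul,
    smul_eq_mul, smul_eq_mul, mul_comm (g t), mul_comm (g n)]

end Pool.Agent.PI.Alg
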