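import Pool.Agent.Lib.MP_43d240_ag.PI.AlgBase

set_option autoImplicit false
set_option linter.unusedSectionVars false
set_option linter.unusedVariables false

open Module

namespace Pool.Agent.PI.Alg

section half
variable {K D : Type} [Field K] [CharZero K] [DivisionRing D] [Algebra K D] [FiniteDimensional K D]

theorem finrank_le_of_inj {S T : Submodule K D} (f : D →ₗ[K] D) (hf : ∀ x ∈ S, f x ∈ T)
    (hinj : ∀ x, f x = 0 → x = 0) : finrank K S ≤ finrank K T := by
  have hi : Function.Injective f := (injective_iff_map_eq_zero f).2 hinj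
  have h1 : Submodule.map f S ≤ T := by
    rintro _ ⟨x, hx, rfl⟩; exact hf x hx
  have h2 : finrank K (Submodule.map f S) = finrank K S :=
    (Submodule.equivMapOfInjective f hi S).finrank_eq.symm
  rw [← h2]
  exact Submodule.finrank_mono h1

theorem half (S : Submodule K D) (σ f : D →ₗ[K] D) (hσ : ∀ x ∈ S, σ x ∈ S)
    (hσ2 : ∀ x ∈ S, σ (σ x) = x) (hf : ∀ x ∈ S, f x ∈ S) (hinj : ∀ x, f x = 0 → x = 0)
    (anti : ∀ x ∈ S, σ (f x) = - f (σ x)) :
    finrank K S = 2 * finrank K (S ⊓ LinearMap.ker (σ - LinearMap.id) : Submodule K D) := by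
  set P : Submodule K D := S ⊓ LinearMap.ker (σ - LinearMap.id) with hP
  set M : Submodule K D := S ⊓ LinearMap.ker (σ + LinearMap.id) with hM
  have memP : ∀ x, x ∈ P ↔ x ∈ S ∧ σ x = x := by
    intro x; simp [hP, sub_eq_zero]
  have memM : ∀ x, x ∈ M ↔ x ∈ S ∧ σ x = -x := by
    intro x; simp [hM, eq_neg_iff_add_eq_zero]
  have h1 : finrank K P ≤ finrank K M := by
    apply finrank_le_of_inj f _ hinj
    intro x hx
    rw [memP] at hx
    rw [memM]
    exact ⟨hf x hx.1, by rw [anti x hx.1, hx.2]⟩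
  have h2 : finrank K M ≤ finrank K P := by
    apply finrank_le_of_inj f _ hinj
    intro x hx
    rw [memM] at hx
    rw [memP]
    exact ⟨hf x hx.1, by rw [anti x hx.1, hx.2, map_neg, neg_neg]⟩
  have h3 : P ⊔ M = S := by
    apply le_antisymm
    · exact sup_le inf_le_left inf_le_left
    · intro x hx
      rw [Submodule.mem_sup]
      refine ⟨(2 : K)⁻¹ • (x + σ x), ?_, (2 : K)⁻¹ • (x - σ x), ?_, ?_⟩
      · rw [memP]
        refine ⟨S.smul_mem _ (S.add_mem hx (hσ x hx)), ?_⟩
        rw [map_smul, map_add, hσ2 x hx, add_comm]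
      · rw [memM]
        refine ⟨S.smul_mem _ (S.sub_mem hx (hσ x hx)), ?_⟩
        rw [map_smul, map_sub, hσ2 x hx, ← smul_neg, neg_sub]
      · rw [← smul_add, add_add_sub_cancel, ← two_smul K x, smul_smul,
          inv_mul_cancel₀ two_ne_zero, one_smul]
  have h4 : P ⊓ M = ⊥ := by
    rw [eq_bot_iff]
    intro x hx
    obtain ⟨hx1, hx2⟩ := hx
    have e1 := ((memP x).1 hx1).2
    have e2 := ((memM x).1 hx2).2
    have e3 : (2 : K) • x = 0 := by
      rw [two_smul]
      nth_rewrite 1 [← e1]
      rw [e2]; simp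
    rw [Submodule.mem_bot]
    exact (smul_eq_zero.1 e3).resolve_left two_ne_zero
  have h5 := Submodule.finrank_sup_add_finrank_inf_eq P M
  rw [h3, h4, finrank_bot] at h5
  omega

/-- left multiplication -/
noncomputable def lm (u : D) : D →ₗ[K] D := LinearMap.mulLeft K u

/-- conjugation by `u` with `u * u = α` -/
noncomputable def cj (u : D) (α : K) : D →ₗ[K] D :=
  α⁻¹ • (LinearMap.mulLeft K u ∘ₗ LinearMap.mulRight K u)

theorem cj_apply (u : D) (α : K) (x : D) : cj u α x = α⁻¹ • (u * (x * u)) := by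
  simp [cj]

theorem lm_inj {u : D} (hu : u ≠ 0) (x : D) (h : lm (K := K) u x = 0) : x = 0 := by
  simp only [lm, LinearMap.mulLeft_apply] at h
  exact (mul_eq_zero.1 h).resolve_left hu

theorem cj_cj {u : D} {α : K} (hα : α ≠ 0) (hu : u * u = α • (1 : D)) (x : D) :
    cj u α (cj u α x) = x := by
  rw [cj_apply, cj_apply]
  have : u * (α⁻¹ • (u * (x * u)) * u) = α⁻¹ • ((u * u) * x * (u * u)) := by
    rw [smul_mul_assoc, mul_smul_comm]; simp only [mul_assoc]
  rw [this, hu]
  simp only [smul_mul_assoc, one_mul, mul_smul_comm, mul_one, smul_smul]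
  have : α⁻¹ * (α⁻¹ * (α * α)) = 1 := by field_simp
  rw [this, one_smul]

theorem cj_eq_iff {u : D} {α : K} (hα : α ≠ 0) (hu : u * u = α • (1 : D)) (x : D) :
    cj u α x = x ↔ u * x = x * u := by
  have hu0 : u ≠ 0 := by
    rintro rfl
    rw [mul_zero] at hu
    exact (smul_ne_zero hα one_ne_zero) hu.symm
  rw [cj_apply, inv_smul_eq_iff₀ hα]
  constructor
  · intro h
    have : u * (x * u) = u * (u * x) := by
      rw [h, ← mul_assoc, hu, smul_mul_assoc, one_mul]
    exact (mul_left_cancel₀ hu0 this).symm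
  · intro h
    rw [← h, ← mul_assoc, hu, smul_mul_assoc, one_mul]

theorem cj_neg_iff {u : D} {α : K} (hα : α ≠ 0) (hu : u * u = α • (1 : D)) (x : D) :
    (- cj u α) x = x ↔ u * x = - (x * u) := by
  have hu0 : u ≠ 0 := by
    rintro rfl
    rw [mul_zero] at hu
    exact (smul_ne_zero hα one_ne_zero) hu.symm
  rw [LinearMap.neg_apply, cj_apply, neg_eq_iff_eq_neg, inv_smul_eq_iff₀ hα]
  constructor
  · intro h
    have : u * (x * u) = u * (- (u * x)) := by
      rw [h, mul_neg, ← mul_assoc, hu, smul_neg, smul_mul_assoc, one_mul]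
    rw [mul_left_cancel₀ hu0 this, neg_neg]
  · intro h
    have h' : x * u = - (u * x) := by rw [h, neg_neg]
    rw [h', mul_neg, ← mul_assoc, hu, smul_neg, smul_mul_assoc, one_mul]

/-- commutant of `u` and anticommutant of `u` -/
noncomputable def Cu (u : D) (α : K) : Submodule K D := ⊤ ⊓ LinearMap.ker (cj u α - LinearMap.id)
noncomputable def Du (u : D) (α : K) : Submodule K D :=
  ⊤ ⊓ LinearMap.ker ((- cj u α) - LinearMap.id)

theorem mem_Cu {u : D} {α : K} (hα : α ≠ 0) (hu : u * u = α • (1 : D)) (x : D) :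
    x ∈ Cu u α ↔ u * x = x * u := by
  rw [← cj_eq_iff hα hu]; simp [Cu, sub_eq_zero]

theorem mem_Du {u : D} {α : K} (hα : α ≠ 0) (hu : u * u = α • (1 : D)) (x : D) :
    x ∈ Du u α ↔ u * x = - (x * u) := by
  rw [← cj_neg_iff hα hu]
  simp only [Du, top_inf_eq, LinearMap.mem_ker, LinearMap.sub_apply, LinearMap.id_apply,
    sub_eq_zero]

theorem exists_Du {u : D} {α : K} (hα : α ≠ 0) (hu : u * u = α • (1 : D))
    (hc : ∀ c : D, (∀ d : D, c * d = d * c) → ∃ t : K, c = algebraMap K D t)
    (huK : ∀ t : K, u ≠ algebraMap K D t) : ∃ d : D, d ≠ 0 ∧ u * d = - (d * u) := by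
  by_contra hcon
  push Not at hcon
  have : ∀ d : D, u * d = d * u := by
    intro d
    by_contra hd
    apply hcon (u * d - d * u) (sub_ne_zero.2 hd)
    have e1 : u * (u * d - d * u) = α • d - u * d * u := by
      rw [mul_sub, ← mul_assoc, hu, smul_mul_assoc, one_mul, mul_assoc]
    have e2 : (u * d - d * u) * u = u * d * u - α • d := by
      rw [sub_mul, mul_assoc d u u, hu, mul_smul_comm, mul_one]
    rw [e1, e2, neg_sub]
  obtain ⟨t, ht⟩ := hc u this
  exact huK t ht

theorem finrank_Cu {u : D} {α : K} (hα : α ≠ 0) (hu : u * u = α • (1 : D))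
    (hc : ∀ c : D, (∀ d : D, c * d = d * c) → ∃ t : K, c = algebraMap K D t)
    (huK : ∀ t : K, u ≠ algebraMap K D t) : finrank K D = 2 * finrank K (Cu u α) := by
  obtain ⟨d, hd, hdu⟩ := exists_Du hα hu hc huK
  have := half (K := K) (⊤ : Submodule K D) (cj u α) (lm d) (fun _ _ => trivial)
    (fun x _ => cj_cj hα hu x) (fun _ _ => trivial) (fun x => lm_inj hd x) ?_
  · rw [finrank_top] at this
    exact this
  · intro x _
    simp only [lm, LinearMap.mulLeft_apply, cj_apply]
    rw [mul_smul_comm, ← smul_neg]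
    congr 1
    have : d * (u * (x * u)) = (d * u) * x * u := by simp only [mul_assoc]
    rw [this, ← neg_mul, ← neg_mul, ← hdu]
    simp only [mul_assoc]

theorem finrank_Du {u : D} {α : K} (hα : α ≠ 0) (hu : u * u = α • (1 : D))
    (hc : ∀ c : D, (∀ d : D, c * d = d * c) → ∃ t : K, c = algebraMap K D t)
    (huK : ∀ t : K, u ≠ algebraMap K D t) : finrank K D = 2 * finrank K (Du u α) := by
  obtain ⟨d, hd, hdu⟩ := exists_Du hα hu hc huK
  have := half (K := K) (⊤ : Submodule K D) (- cj u α) (lm d) (fun _ _ => trivial)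
    (fun x _ => by simp [cj_cj hα hu x]) (fun _ _ => trivial) (fun x => lm_inj hd x) ?_
  · rw [finrank_top] at this
    exact this
  · intro x _
    simp only [lm, LinearMap.mulLeft_apply, LinearMap.neg_apply, cj_apply]
    rw [mul_neg, neg_neg, mul_smul_comm, ← smul_neg]
    congr 1
    have : d * (u * (x * u)) = (d * u) * x * u := by simp only [mul_assoc]
    rw [this]
    have h2 : d * u = - (u * d) := by rw [hdu, neg_neg]
    rw [h2]
    simp only [neg_mul, mul_assoc]

/-- completing the square -/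
theorem complete_square {s : D} {p q : K} (h : s * s = p • s + q • (1 : D))
    (hs : ∀ t : K, s ≠ algebraMap K D t) :
    ∃ α : K, α ≠ 0 ∧ (s - (p / 2) • (1 : D)) * (s - (p / 2) • (1 : D)) = α • (1 : D) ∧
      ∀ t : K, s - (p / 2) • (1 : D) ≠ algebraMap K D t := by
  have e : (s - (p / 2) • (1 : D)) * (s - (p / 2) • (1 : D)) = (q + p ^ 2 / 4) • (1 : D) := by
    rw [sub_mul, mul_sub, mul_sub, h]
    simp only [smul_mul_assoc, mul_smul_comm, mul_one, one_mul, smul_smul]
    rw [show p • s + q • (1 : D) - (p / 2) • s - ((p / 2) • s - (p / 2 * (p / 2)) • (1 : D)) =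
      (p - p / 2 - p / 2) • s + (q + p / 2 * (p / 2)) • (1 : D) by
        simp only [sub_smul, add_smul]; abel]
    rw [show p - p / 2 - p / 2 = 0 by ring, zero_smul, zero_add]
    congr 1; ring
  have h3 : ∀ t : K, s - (p / 2) • (1 : D) ≠ algebraMap K D t := by
    intro t ht
    apply hs (t + p / 2)
    rw [sub_eq_iff_eq_add] at ht
    rw [ht, map_add, Algebra.algebraMap_eq_smul_one (p / 2)]
  refine ⟨q + p ^ 2 / 4, ?_, e, h3⟩
  intro h0
  rw [h0, zero_smul] at e
  apply h3 0
  rw [map_zero]
  exact mul_self_eq_zero.1 e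

/-- an anticommuting quadratic element has its square in `K` -/
theorem sq_of_anti {u t : D} (hu0 : u ≠ 0) {p q : K} (ht : t * t = p • t + q • (1 : D))
    (hut : u * t = - (t * u)) : t * t = q • (1 : D) := by
  have h1 : u * (t * t) = (t * t) * u := by
    rw [← mul_assoc, hut, neg_mul, mul_assoc, hut]; simp [mul_assoc]
  rw [ht] at h1
  rw [mul_add, add_mul, mul_smul_comm, mul_smul_comm, smul_mul_assoc, smul_mul_assoc, mul_one,
    one_mul, add_left_inj, hut, smul_neg] at h1
  have h2 : (2 * p) • (t * u) = 0 := by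
    rw [mul_smul, two_smul]
    nth_rewrite 1 [← h1]
    simp
  rcases smul_eq_zero.1 h2 with h | h
  · have hp : p = 0 := by
      rcases mul_eq_zero.1 h with h | h
      · exact absurd h two_ne_zero
      · exact h
    rw [ht, hp, zero_smul, zero_add]
  · have ht0 : t = 0 := (mul_eq_zero.1 h).resolve_right hu0
    rw [ht, ht0, smul_zero, zero_add]

/-- a division algebra of dimension 16 over its center contains a non quadratic element -/
theorem not_all_quadratic (hD : finrank K D = 16)
    (hc : ∀ c : D, (∀ d : D, c * d = d * c) → ∃ t : K, c = algebraMap K D t)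
    (hq : ∀ x : D, ∃ p q : K, x * x = p • x + q • (1 : D)) : False := by
  -- an element outside `K`
  have h1 : ∀ (S : Submodule K D), 1 < finrank K S → ∃ x ∈ S, ∀ t : K, x ≠ algebraMap K D t := by
    intro S hS
    by_contra hcon
    push Not at hcon
    have : S ≤ Submodule.span K {(1 : D)} := by
      intro x hx
      obtain ⟨t, ht⟩ := hcon x hx
      rw [ht, Submodule.mem_span_singleton]
      exact ⟨t, by rw [Algebra.algebraMap_eq_smul_one]⟩
    have h2 := Submodule.finrank_mono this
    have h3 : finrank K (Submodule.span K {(1 : D)}) ≤ 1 := by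
      rw [finrank_span_singleton one_ne_zero]
    omega
  obtain ⟨u', -, hu'⟩ := h1 ⊤ (by rw [finrank_top, hD]; norm_num)
  obtain ⟨p, q, hpq⟩ := hq u'
  obtain ⟨α, hα, hu, huK⟩ := complete_square hpq hu'
  set u : D := u' - (p / 2) • (1 : D) with hudef
  have hu0 : u ≠ 0 := by
    intro h; apply huK 0; rw [h, map_zero]
  obtain ⟨v, hv0, huv⟩ := exists_Du hα hu hc huK
  obtain ⟨p', q', hpq'⟩ := hq v
  have hv := sq_of_anti hu0 hpq' huv
  have hβ : q' ≠ 0 := by
    rintro rfl
    rw [zero_smul] at hv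
    exact hv0 (mul_self_eq_zero.1 hv)
  have hC : finrank K (Cu u α) = 8 := by
    have := finrank_Cu hα hu hc huK
    omega
  -- the commutant of `u` and `v`
  have hvu : v * u = - (u * v) := by rw [huv, neg_neg]
  have h4 := half (K := K) (Cu u α) (cj v q') (lm u) ?_ (fun x _ => cj_cj hβ hv x) ?_
    (fun x => lm_inj hu0 x) ?_
  · obtain ⟨w, hw, hwK⟩ := h1 (Cu u α ⊓ LinearMap.ker (cj v q' - LinearMap.id)) (by omega)
    obtain ⟨hw1, hw2⟩ := hw
    rw [SetLike.mem_coe, mem_Cu hα hu] at hw1
    have hw3 : cj v q' w = w := by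
      simpa [sub_eq_zero] using hw2
    rw [cj_eq_iff hβ hv] at hw3
    -- `w` quadratic, `u + w` quadratic
    obtain ⟨p1, q1, e1⟩ := hq w
    obtain ⟨p2, q2, e2⟩ := hq (u + w)
    have e3 : (2 : K) • (u * w) = p2 • u + (p2 - p1) • w + (q2 - α - q1) • (1 : D) := by
      have e4 : (u + w) * (u + w) = u * u + w * w + (2 : K) • (u * w) := by
        rw [mul_add, add_mul, add_mul, ← hw1, two_smul]; abel
      rw [e4, hu, e1] at e2
      have : (2 : K) • (u * w) = p2 • (u + w) + q2 • (1 : D) - (α • (1 : D) +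
        (p1 • w + q1 • (1 : D))) := by rw [← e2]; abel
      rw [this, smul_add, sub_smul, sub_smul, sub_smul]
      abel
    obtain ⟨a, b, c, e5⟩ : ∃ a b c : K, u * w = a • u + b • w + c • (1 : D) := by
      refine ⟨p2 / 2, (p2 - p1) / 2, (q2 - α - q1) / 2, ?_⟩
      have : u * w = (2 : K)⁻¹ • ((2 : K) • (u * w)) := by
        rw [smul_smul, inv_mul_cancel₀ two_ne_zero, one_smul]
      rw [this, e3, smul_add, smul_add, smul_smul, smul_smul, smul_smul]
      congr 2 <;> congr 1 <;> ring
    have e6 : v * (u * w) = - (u * w * v) := by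
      rw [← mul_assoc, hvu, neg_mul, mul_assoc, hw3]; simp [mul_assoc]
    rw [e5] at e6
    have e7 : (2 : K) • ((b • w + c • (1 : D)) * v) = 0 := by
      have e8 : v * (a • u + b • w + c • (1 : D)) =
          - (a • (u * v)) + b • (w * v) + c • v := by
        rw [mul_add, mul_add, mul_smul_comm, mul_smul_comm, mul_smul_comm, hvu, hw3, mul_one,
          smul_neg]
      have e9 : (a • u + b • w + c • (1 : D)) * v = a • (u * v) + b • (w * v) + c • v := by
        rw [add_mul, add_mul, smul_mul_assoc, smul_mul_assoc, smul_mul_assoc, one_mul]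
      rw [e8, e9] at e6
      have e10 : b • (w * v) + c • v + (b • (w * v) + c • v) = 0 := by
        have := congrArg (fun z => z + (a • (u * v) + b • (w * v) + c • v)) e6
        simp only [neg_add_cancel] at this
        rw [← this]; abel
      rw [add_mul, smul_mul_assoc, smul_mul_assoc, one_mul, two_smul, e10]
    have e11 : b • w + c • (1 : D) = 0 := by
      rcases smul_eq_zero.1 e7 with h | h
      · exact absurd h two_ne_zero
      · exact (mul_eq_zero.1 h).resolve_right hv0
    have hb : b = 0 := by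
      by_contra hb
      apply hwK (-(c / b))
      have : w = b⁻¹ • (b • w) := by rw [smul_smul, inv_mul_cancel₀ hb, one_smul]
      rw [this, eq_neg_of_add_eq_zero_left e11, smul_neg, smul_smul,
        Algebra.algebraMap_eq_smul_one, ← neg_smul]
      congr 1
      field_simp
    have hcc : c = 0 := by
      rw [hb, zero_smul, zero_add] at e11
      exact (smul_eq_zero.1 e11).resolve_right one_ne_zero
    rw [hb, hcc, zero_smul, zero_smul, add_zero, add_zero] at e5
    have e12 : u * (w - a • (1 : D)) = 0 := by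
      rw [mul_sub, e5, mul_smul_comm, mul_one, sub_self]
    have e13 := (mul_eq_zero.1 e12).resolve_left hu0
    apply hwK a
    rw [sub_eq_zero] at e13
    rw [e13, Algebra.algebraMap_eq_smul_one]
  · intro x hx
    rw [mem_Cu hα hu] at hx ⊢
    rw [cj_apply, mul_smul_comm, smul_mul_assoc]
    congr 1
    calc u * (v * (x * v)) = (u * v) * x * v := by simp only [mul_assoc]
      _ = - (v * (u * x) * v) := by rw [huv]; simp only [neg_mul, mul_assoc]
      _ = - (v * x * (u * v)) := by rw [hx]; simp only [mul_assoc]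
      _ = v * (x * v) * u := by rw [huv]; simp only [mul_neg, neg_neg, mul_assoc]
  · intro x hx
    rw [mem_Cu hα hu] at hx ⊢
    simp only [lm, LinearMap.mulLeft_apply]
    rw [mul_assoc u x u, ← hx]
  · intro x hx
    simp only [lm, LinearMap.mulLeft_apply, cj_apply]
    rw [mul_smul_comm, ← smul_neg]
    congr 1
    calc v * (u * x * v) = (v * u) * x * v := by simp only [mul_assoc]
      _ = - (u * (v * (x * v))) := by rw [hvu]; simp only [neg_mul, mul_assoc]

theorem finrank_ker_ge (S : Submodule K D) (f : D →ₗ[K] D)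
    (h : ∀ x ∈ S, f x ∈ Submodule.span K {(1 : D)}) :
    finrank K S ≤ finrank K (S ⊓ LinearMap.ker f : Submodule K D) + 1 := by
  have h1 := LinearMap.finrank_range_add_finrank_ker (f.domRestrict S)
  have h2 : finrank K (LinearMap.range (f.domRestrict S)) ≤ 1 := by
    have : LinearMap.range (f.domRestrict S) ≤ Submodule.span K {(1 : D)} := by
      rintro _ ⟨x, rfl⟩
      exact h x.1 x.2
    have h3 := Submodule.finrank_mono this
    rw [finrank_span_singleton one_ne_zero] at h3
    exact h3
  have h4 : finrank K (LinearMap.ker (f.domRestrict S)) ≤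
      finrank K (S ⊓ LinearMap.ker f : Submodule K D) := by
    have e : Submodule.map S.subtype (LinearMap.ker (f.domRestrict S)) ≤ S ⊓ LinearMap.ker f := by
      rintro _ ⟨x, hx, rfl⟩
      exact ⟨x.2, hx⟩
    have h5 := Submodule.finrank_mono e
    rwa [Submodule.finrank_map_subtype_eq] at h5
  omega

end half

theorem a6 : A6Statement := by
  intro K _ _ D _ _ hD hc τ hτ hττ hsym
  have : FiniteDimensional K D := FiniteDimensional.of_finrank_pos (by omega)
  -- a symmetric element outside `K`
  obtain ⟨s0, hs0, hs0K⟩ : ∃ s : D, τ s = s ∧ ∀ t : K, s ≠ algebraMap K D t := by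
    by_contra hcon
    push Not at hcon
    apply not_all_quadratic hD hc
    intro x
    obtain ⟨t, ht⟩ := hcon (x + τ x) (by rw [map_add, hττ, add_comm])
    obtain ⟨n, hn⟩ := hcon (x * τ x) (by rw [hτ, hττ])
    refine ⟨t, -n, ?_⟩
    have e1 : x * x = x * (x + τ x) - x * τ x := by rw [mul_add]; abel
    rw [e1, ht, hn, Algebra.algebraMap_eq_smul_one, Algebra.algebraMap_eq_smul_one,
      mul_smul_comm, mul_one, neg_smul, sub_eq_add_neg]
  have hτ1 : τ 1 = 1 := by
    have h := hτ 1 (τ 1)
    rw [one_mul, hττ, one_mul] at h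
    exact h.symm
  obtain ⟨p, q, hpq⟩ := hsym s0 hs0
  obtain ⟨α, hα, hu, huK⟩ := complete_square hpq hs0K
  set u : D := s0 - (p / 2) • (1 : D) with hudef
  have hτu : τ u = u := by rw [hudef, map_sub, map_smul, hs0, hτ1]
  have hu0 : u ≠ 0 := by
    intro h; apply huK 0; rw [h, map_zero]
  have hDu : finrank K (Du u α) = 8 := by
    have := finrank_Du hα hu hc huK
    omega
  have h4 := half (K := K) (Du u α) τ (lm u) ?_ (fun x _ => hττ x) ?_
    (fun x => lm_inj hu0 x) ?_
  · set S : Submodule K D := Du u α ⊓ LinearMap.ker (τ - LinearMap.id) with hS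
    have hS4 : finrank K S = 4 := by omega
    have memS : ∀ x, x ∈ S → u * x = - (x * u) ∧ τ x = x := by
      intro x hx
      obtain ⟨h1, h2⟩ := hx
      rw [SetLike.mem_coe, mem_Du hα hu] at h1
      exact ⟨h1, by simpa [sub_eq_zero] using h2⟩
    have sqS : ∀ x ∈ S, ∃ c : K, x * x = c • (1 : D) := by
      intro x hx
      obtain ⟨p, q, h⟩ := hsym x (memS x hx).2
      exact ⟨q, sq_of_anti hu0 h (memS x hx).1⟩
    have sqS' : ∀ x ∈ S, x ≠ 0 → ∃ c : K, c ≠ 0 ∧ x * x = c • (1 : D) := by
      intro x hx hx0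
      obtain ⟨c, h⟩ := sqS x hx
      refine ⟨c, ?_, h⟩
      rintro rfl
      rw [zero_smul] at h
      exact hx0 (mul_self_eq_zero.1 h)
    have polS : ∀ x ∈ S, ∀ y ∈ S, x * y + y * x ∈ Submodule.span K {(1 : D)} := by
      intro x hx y hy
      obtain ⟨c1, h1⟩ := sqS x hx
      obtain ⟨c2, h2⟩ := sqS y hy
      obtain ⟨c3, h3⟩ := sqS (x + y) (S.add_mem hx hy)
      rw [Submodule.mem_span_singleton]
      refine ⟨c3 - c1 - c2, ?_⟩
      rw [sub_smul, sub_smul, ← h1, ← h2, ← h3, mul_add, add_mul, add_mul]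
      abel
    have exS : ∀ T : Submodule K D, 0 < finrank K T → ∃ x ∈ T, x ≠ 0 := by
      intro T hT
      exact Submodule.exists_mem_ne_zero_of_ne_bot (by
        rintro rfl
        rw [finrank_bot] at hT
        exact lt_irrefl _ hT)
    let ac : D → (D →ₗ[K] D) := fun v => LinearMap.mulLeft K v + LinearMap.mulRight K v
    have hac : ∀ v x, ac v x = v * x + x * v := fun v x => by simp [ac]
    obtain ⟨v2, hv2, hv20⟩ := exS S (by omega)
    have h5 := finrank_ker_ge S (ac v2) (fun x hx => by rw [hac]; exact polS v2 hv2 x hx)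
    set S2 : Submodule K D := S ⊓ LinearMap.ker (ac v2) with hS2
    obtain ⟨v3, hv3, hv30⟩ := exS S2 (by omega)
    have h6 := finrank_ker_ge S2 (ac v3) (fun x hx => by rw [hac]; exact polS v3 hv3.1 x hx.1)
    set S3 : Submodule K D := S2 ⊓ LinearMap.ker (ac v3) with hS3
    obtain ⟨v4, hv4, hv40⟩ := exS S3 (by omega)
    have a12 := (memS v2 hv2).1
    have a13 := (memS v3 hv3.1).1
    have a14 := (memS v4 hv4.1.1).1
    have a23 : v2 * v3 = - (v3 * v2) := by
      have : ac v2 v3 = 0 := hv3.2
      rw [hac] at this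
      exact eq_neg_of_add_eq_zero_left this
    have a24 : v2 * v4 = - (v4 * v2) := by
      have : ac v2 v4 = 0 := hv4.1.2
      rw [hac] at this
      exact eq_neg_of_add_eq_zero_left this
    have a34 : v3 * v4 = - (v4 * v3) := by
      have : ac v3 v4 = 0 := hv4.2
      rw [hac] at this
      exact eq_neg_of_add_eq_zero_left this
    refine ⟨![u, v2, v3, v4], ?_, ?_⟩
    · intro i j hij
      have sy : ∀ {x y : D}, x * y = - (y * x) → y * x = - (x * y) := by
        intro x y h; rw [h, neg_neg]
      fin_cases i <;> fin_cases j <;> simp at hij ⊢ <;>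
        first
          | exact a12 | exact a13 | exact a14 | exact a23 | exact a24 | exact a34
          | exact sy a12 | exact sy a13 | exact sy a14 | exact sy a23 | exact sy a24
          | exact sy a34
    · intro i
      fin_cases i
      · exact ⟨α, hα, hu⟩
      · exact sqS' v2 hv2 hv20
      · exact sqS' v3 hv3.1 hv30
      · exact sqS' v4 hv4.1.1 hv40
  · intro x hx
    rw [mem_Du hα hu] at hx ⊢
    have := congrArg τ hx
    rw [hτ, map_neg, hτ, hτu] at this
    rw [this, neg_neg]
  · intro x hx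
    rw [mem_Du hα hu] at hx ⊢
    simp only [lm, LinearMap.mulLeft_apply]
    nth_rewrite 1 [hx]
    rw [mul_neg, mul_assoc]
  · intro x hx
    rw [mem_Du hα hu] at hx
    simp only [lm, LinearMap.mulLeft_apply]
    have h := congrArg τ hx
    rw [hτ, map_neg, hτ, hτu] at h
    rw [hτ, hτu, h]

end Pool.Agent.PI.Alg
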