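import Pool.Agent.Lib.MP_43d240_ag.PI.AlgBase

/-!
# Project PI, module ALG7: division algebras of degree two (helper75)
-/

set_option autoImplicit false
set_option linter.unusedVariables false

namespace Pool.Agent.PI.Alg

/-- every element of a four dimensional division algebra with center `K` is quadratic -/
theorem A7.quad {K : Type} [Field K] {D : Type} [DivisionRing D] [Algebra K D]
    (h4 : Module.finrank K D = 4)
    (hc : ∀ c : D, (∀ d : D, c * d = d * c) → ∃ t : K, c = algebraMap K D t) (x : D) :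
    ∃ p q : K, x * x = p • x + q • (1 : D) := by
  by_contra hn
  push Not at hn
  have hx : ∀ t : K, x ≠ t • (1 : D) := by
    intro t ht
    apply hn t 0
    rw [zero_smul, add_zero]
    nth_rewrite 1 [ht]
    rw [smul_mul_assoc, one_mul]
  have hy : ∃ y : D, x * y ≠ y * x := by
    by_contra h
    push Not at h
    obtain ⟨t, ht⟩ := hc x h
    exact hx t (by rw [ht, Algebra.algebraMap_eq_smul_one])
  obtain ⟨y, hy⟩ := hy
  have : FiniteDimensional K D := Module.finite_of_finrank_pos (by omega)
  let f : (Fin 6 → K) →ₗ[K] D :=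
    Fintype.linearCombination K ![y, x * y, x * x * y, 1, x, x * x]
  have hk : LinearMap.ker f ≠ ⊥ := by
    apply LinearMap.ker_ne_bot_of_finrank_lt
    rw [h4, Module.finrank_fin_fun]
    norm_num
  obtain ⟨c, hcm, hc0⟩ := (Submodule.ne_bot_iff _).1 hk
  rw [LinearMap.mem_ker] at hcm
  have hf : f c = (c 0 • (1 : D) + c 1 • x + c 2 • (x * x)) * y +
      (c 3 • (1 : D) + c 4 • x + c 5 • (x * x)) := by
    simp only [f, Fintype.linearCombination_apply, Fin.sum_univ_six, Matrix.cons_val]
    simp only [add_mul, smul_mul_assoc, one_mul]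
    abel
  rw [hf] at hcm
  have hzero : ∀ a0 a1 a2 : K, a0 • (1 : D) + a1 • x + a2 • (x * x) = 0 →
      a0 = 0 ∧ a1 = 0 ∧ a2 = 0 := by
    intro a0 a1 a2 h
    by_cases h2 : a2 = 0
    · subst h2
      by_cases h1 : a1 = 0
      · subst h1
        refine ⟨?_, rfl, rfl⟩
        simpa using h
      · exfalso
        apply hx (-(a1⁻¹ * a0))
        have h3 : a1 • x = -(a0 • (1 : D)) := by
          rw [zero_smul, add_zero] at h
          exact eq_neg_of_add_eq_zero_right h
        calc x = a1⁻¹ • (a1 • x) := by rw [smul_smul, inv_mul_cancel₀ h1, one_smul]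
          _ = _ := by rw [h3, smul_neg, smul_smul, neg_smul]
    · exfalso
      apply hn (-(a2⁻¹ * a1)) (-(a2⁻¹ * a0))
      have h3 : a2 • (x * x) = -(a0 • (1 : D) + a1 • x) := eq_neg_of_add_eq_zero_right h
      calc x * x = a2⁻¹ • (a2 • (x * x)) := by rw [smul_smul, inv_mul_cancel₀ h2, one_smul]
        _ = _ := by
          rw [h3, smul_neg, smul_add, smul_smul, smul_smul, neg_smul, neg_smul]
          abel
  set l := c 0 • (1 : D) + c 1 • x + c 2 • (x * x) with hl
  set m := c 3 • (1 : D) + c 4 • x + c 5 • (x * x) with hm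
  have hlx : Commute l x := by
    rw [hl]
    unfold Commute SemiconjBy
    simp only [add_mul, mul_add, smul_mul_assoc, mul_smul_comm, one_mul, mul_one, mul_assoc]
  have hmx : Commute m x := by
    rw [hm]
    unfold Commute SemiconjBy
    simp only [add_mul, mul_add, smul_mul_assoc, mul_smul_comm, one_mul, mul_one, mul_assoc]
  by_cases hl0 : l = 0
  · rw [hl0, zero_mul, zero_add] at hcm
    obtain ⟨e0, e1, e2⟩ := hzero _ _ _ hl0
    obtain ⟨e3, e4, e5⟩ := hzero _ _ _ hcm
    apply hc0
    ext i
    fin_cases i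
    · exact e0
    · exact e1
    · exact e2
    · exact e3
    · exact e4
    · exact e5
  · apply hy
    have h1 : y = l⁻¹ * (-m) := by
      rw [eq_inv_mul_iff_mul_eq₀ hl0]
      exact eq_neg_of_add_eq_zero_left hcm
    have h2 : Commute y x := by
      rw [h1]
      exact (hlx.inv_left₀).mul_left hmx.neg_left
    exact h2.symm.eq

/-- MODULE A7 -/
theorem a7 : A7Statement := by
  intro K _ _ D _ _ h4 hc
  have hq := A7.quad h4 hc
  have h2 : (2 : K) ≠ 0 := two_ne_zero
  have : Nontrivial D := inferInstance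
  -- a noncentral element
  have hx : ∃ x : D, ∃ y : D, x * y ≠ y * x := by
    by_contra h
    push Not at h
    have h1 : ∀ x : D, ∃ t : K, t • (1 : D) = x := by
      intro x
      obtain ⟨t, ht⟩ := hc x (h x)
      exact ⟨t, by rw [ht, Algebra.algebraMap_eq_smul_one]⟩
    have h3 := finrank_eq_one (R := K) (1 : D) one_ne_zero h1
    omega
  obtain ⟨x, y, hxy⟩ := hx
  obtain ⟨p, q, hpq⟩ := hq x
  set v := x - (p / 2) • (1 : D) with hv
  have hv2 : v * v = (q + p ^ 2 / 4) • (1 : D) := by
    rw [hv]
    simp only [sub_mul, mul_sub, smul_mul_assoc, mul_smul_comm, one_mul, mul_one, hpq, smul_sub,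
      smul_smul]
    have e1 : (p / 2) • x + (p / 2) • x = p • x := by rw [← add_smul]; congr 1; field_simp; norm_num
    have e2 : (p / 2 * (p / 2)) • (1 : D) = (p ^ 2 / 4) • 1 := by congr 1; ring
    rw [add_smul, e2, ← e1]
    abel
  have hvy : v * y ≠ y * v := by
    intro h
    apply hxy
    rw [hv, sub_mul, mul_sub, smul_mul_assoc, mul_smul_comm, one_mul, mul_one] at h
    exact sub_left_injective h
  have hv0 : v ≠ 0 := by
    intro h
    apply hvy
    rw [h, zero_mul, mul_zero]
  have hcv : q + p ^ 2 / 4 ≠ 0 := by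
    intro h
    rw [h, zero_smul] at hv2
    exact (mul_ne_zero hv0 hv0) hv2
  clear_value v
  generalize q + p ^ 2 / 4 = cv at *
  set w := cv • y - v * y * v with hw
  have hvv : ∀ z : D, v * v * z = z * (v * v) := by
    intro z
    rw [hv2, smul_mul_assoc, mul_smul_comm, one_mul, mul_one]
  have hvw : v * w = -(w * v) := by
    have e1 : v * (v * y * v) = cv • (y * v) := by
      calc v * (v * y * v) = (v * v) * (y * v) := by simp only [mul_assoc]
        _ = _ := by rw [hv2, smul_mul_assoc, one_mul]
    have e2 : v * y * v * v = cv • (v * y) := by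
      calc v * y * v * v = (v * y) * (v * v) := by simp only [mul_assoc]
        _ = _ := by rw [hv2, mul_smul_comm, mul_one]
    rw [hw, mul_sub, sub_mul, e1, e2, mul_smul_comm, smul_mul_assoc]
    abel
  have hw0 : w ≠ 0 := by
    intro h
    apply hvy
    have h1 : cv • y = v * y * v := sub_eq_zero.1 h
    have h3 : (v * y * v) * v = (v * y) * (v * v) := by simp only [mul_assoc]
    rw [← h1, hv2, mul_smul_comm, mul_one, smul_mul_assoc] at h3
    exact ((smul_right_injective D hcv) h3).symm
  obtain ⟨r, s, hrs⟩ := hq w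
  have hr : r = 0 := by
    by_contra hr
    have h1 : v * (w * w) = (w * w) * v := by
      rw [← mul_assoc, hvw, neg_mul, mul_assoc, hvw, mul_neg, neg_neg, mul_assoc]
    rw [hrs, mul_add, add_mul, mul_smul_comm, mul_smul_comm, smul_mul_assoc, smul_mul_assoc,
      one_mul, mul_one, hvw, smul_neg] at h1
    have h3 : -(r • (w * v)) = r • (w * v) := add_right_cancel h1
    have h5 : (2 * r) • (w * v) = 0 := by
      rw [two_mul, add_smul]
      nth_rewrite 1 [← h3]
      rw [neg_add_cancel]
    rcases smul_eq_zero.1 h5 with h6 | h6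
    · exact (mul_ne_zero h2 hr) h6
    · exact (mul_ne_zero hw0 hv0) h6
  rw [hr, zero_smul, zero_add] at hrs
  have hs : s ≠ 0 := by
    intro h
    rw [h, zero_smul] at hrs
    exact (mul_ne_zero hw0 hw0) hrs
  exact ⟨v, w, hvw, ⟨cv, hcv, hv2⟩, ⟨s, hs, hrs⟩⟩

end Pool.Agent.PI.Alg
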