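import Pool.Agent.Lib.MP_43d240_ag.PI.AlgBase

set_option autoImplicit false
set_option linter.unusedSectionVars false
set_option linter.unusedVariables false
set_option linter.unusedSimpArgs false

open Module Matrix

namespace Pool.Agent.PI.Alg

section
variable {K : Type} [Field K] {N r : ℕ}

/-- the commutant of a simple system is a division ring -/
@[instance_reducible] noncomputable def divComm (X Y : Fin 3 → Matrix (Fin N) (Fin N) K) (hN : 0 < N)
    (h : ∀ c ∈ Comm X Y, c ≠ 0 → ∃ d ∈ Comm X Y, c * d = 1 ∧ d * c = 1) :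
    DivisionRing (Comm X Y) :=
  haveI : Nonempty (Fin N) := ⟨⟨0, hN⟩⟩
  haveI : Nontrivial (Comm X Y) := inferInstance
  DivisionRing.ofIsUnitOrEqZero (by
    intro a
    by_cases ha : a = 0
    · exact Or.inr ha
    · left
      obtain ⟨d, hd, h1, h2⟩ := h a.1 a.2 (fun h0 => ha (Subtype.ext h0))
      exact ⟨⟨a, ⟨d, hd⟩, Subtype.ext h1, Subtype.ext h2⟩, rfl⟩)

/-- the adjoint involution of a symmetric form -/
noncomputable def tauC (X Y : Fin 3 → Matrix (Fin N) (Fin N) K) (G : Matrix (Fin N) (Fin N) K)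
    (hG : IsUnit G.det) (hX : ∀ j, (X j)ᵀ * G = - (G * X j) ∧ (Y j)ᵀ * G = - (G * Y j)) :
    Comm X Y →ₗ[K] Comm X Y where
  toFun c := ⟨G⁻¹ * (c.1)ᵀ * G, by
    have key : ∀ Z : Matrix (Fin N) (Fin N) K, Zᵀ * G = - (G * Z) → c.1 * Z = Z * c.1 →
        G⁻¹ * (c.1)ᵀ * G * Z = Z * (G⁻¹ * (c.1)ᵀ * G) := by
      intro Z hZ hc
      have h1 : G * Z = - (Zᵀ * G) := by rw [hZ, neg_neg]
      have h2 : G⁻¹ * Zᵀ = - (Z * G⁻¹) := by
        have h3 : G⁻¹ * (Zᵀ * G) * G⁻¹ = G⁻¹ * (- (G * Z)) * G⁻¹ := by rw [hZ]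
        rw [← Matrix.mul_assoc, Matrix.mul_assoc (G⁻¹ * Zᵀ), Matrix.mul_nonsing_inv _ hG,
          Matrix.mul_one] at h3
        rw [h3, Matrix.mul_neg, ← Matrix.mul_assoc, Matrix.nonsing_inv_mul _ hG, Matrix.one_mul,
          Matrix.neg_mul]
      have h4 : (c.1)ᵀ * Zᵀ = Zᵀ * (c.1)ᵀ := by
        rw [← Matrix.transpose_mul, ← Matrix.transpose_mul, hc]
      calc G⁻¹ * (c.1)ᵀ * G * Z = G⁻¹ * (c.1)ᵀ * (G * Z) := by rw [Matrix.mul_assoc]
        _ = - (G⁻¹ * ((c.1)ᵀ * Zᵀ) * G) := by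
            rw [h1]; simp only [Matrix.mul_neg, Matrix.mul_assoc]
        _ = - ((G⁻¹ * Zᵀ) * (c.1)ᵀ * G) := by rw [h4]; simp only [Matrix.mul_assoc]
        _ = Z * (G⁻¹ * (c.1)ᵀ * G) := by
            rw [h2]; simp only [Matrix.neg_mul, neg_neg, Matrix.mul_assoc]
    intro j
    exact ⟨key _ (hX j).1 (c.2 j).1, key _ (hX j).2 (c.2 j).2⟩⟩
  map_add' := by
    intro c d
    apply Subtype.ext
    simp [Matrix.mul_add, Matrix.add_mul]
  map_smul' := by
    intro t c
    apply Subtype.ext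
    simp

end

theorem nzd0_of (h1 : A1Statement) (h2 : A2Statement) (h2s : A2SStatement) (h3 : A3Statement)
    (h4 : A4Statement) (h5 : A5Statement) (h6 : A6Statement) (h7 : A7Statement) :
    Nzd0Statement := by
  intro K _ _ a b ha hb H x y hxy
  by_contra hcon
  push Not at hcon
  obtain ⟨N, X, Y, hN, hP, hS⟩ := h1 K a b ha hb ⟨x, y, hxy, hcon.1, hcon.2⟩
  obtain ⟨k1, k2, k3⟩ := h3 K a b ha hb
  rcases hN with rfl | rfl | rfl
  · -- N = 8
    exact H ![1, 1] ![1, 1] (by intro j; fin_cases j <;> simp) (by intro j; fin_cases j <;> simp)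
      (k3 X Y hP)
  · -- N = 16
    obtain ⟨hf, hcen⟩ := h2 K a b ha hb 16 X Y hP
    have hf4 : finrank K (Comm X Y) = 4 := by omega
    obtain ⟨v, w, hvw, ⟨c, hc, hv⟩, ⟨c', hc', hw⟩⟩ := @h7 K _ _ (Comm X Y)
      (divComm X Y (by norm_num) (h2s K a b ha hb 16 X Y hP hS)) (Comm X Y).algebra hf4 (by
        intro z hz
        obtain ⟨t, ht⟩ := hcen z.1 z.2 (fun d hd => congrArg Subtype.val (hz ⟨d, hd⟩))
        refine ⟨t, Subtype.ext ?_⟩
        rw [ht]
        exact (Algebra.algebraMap_eq_smul_one t).symm)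
    refine H ![c, 1] ![c', 1] (by intro j; fin_cases j <;> simp [hc])
      (by intro j; fin_cases j <;> simp [hc']) (k2 X Y c c' v.1 w.1 hP ?_ ?_ ?_ v.2 w.2)
    · exact congrArg Subtype.val hv
    · exact congrArg Subtype.val hw
    · exact congrArg Subtype.val hvw
  · -- N = 32
    obtain ⟨hf, hcen⟩ := h2 K a b ha hb 32 X Y hP
    have hf16 : finrank K (Comm X Y) = 16 := by omega
    have hcen' : ∀ z : Comm X Y, (∀ d : Comm X Y, z * d = d * z) →
        ∃ t : K, z = algebraMap K (Comm X Y) t := by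
      intro z hz
      obtain ⟨t, ht⟩ := hcen z.1 z.2 (fun d hd => congrArg Subtype.val (hz ⟨d, hd⟩))
      refine ⟨t, Subtype.ext ?_⟩
      rw [ht]
      exact (Algebra.algebraMap_eq_smul_one t).symm
    have hnc : ∃ c ∈ Comm X Y, ∃ d ∈ Comm X Y, c * d ≠ d * c := by
      by_contra hcom
      push Not at hcom
      have hle : (⊤ : Submodule K (Comm X Y)) ≤ Submodule.span K {(1 : Comm X Y)} := by
        intro z _
        obtain ⟨t, ht⟩ := hcen' z (fun d => Subtype.ext (hcom z.1 z.2 d.1 d.2))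
        rw [ht, Submodule.mem_span_singleton]
        exact ⟨t, by rw [Algebra.algebraMap_eq_smul_one]⟩
      have h8 := Submodule.finrank_mono hle
      rw [finrank_top, hf16] at h8
      have h9 : finrank K (Submodule.span K {(1 : Comm X Y)}) ≤ 1 := finrank_span_le_card _ |>.trans (by simp)
      omega
    obtain ⟨G, hGs, hG, hX⟩ := h4 K a b ha hb 32 X Y (by norm_num) hP hS hnc
    have hGG : G * G⁻¹ = 1 := Matrix.mul_nonsing_inv _ hG
    have hGG' : G⁻¹ * G = 1 := Matrix.nonsing_inv_mul _ hG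
    have hGi : (G⁻¹)ᵀ = G⁻¹ := by rw [Matrix.transpose_nonsing_inv, hGs]
    have htau : ∀ c : Comm X Y, (tauC X Y G hG hX c).1 = G⁻¹ * (c.1)ᵀ * G := fun c => rfl
    obtain ⟨v, hv, hsq⟩ := @h6 K _ _ (Comm X Y)
      (divComm X Y (by norm_num) (h2s K a b ha hb 32 X Y hP hS)) (Comm X Y).algebra hf16 hcen'
      (tauC X Y G hG hX) (by
        intro c d
        apply Subtype.ext
        show G⁻¹ * (c.1 * d.1)ᵀ * G = (G⁻¹ * (d.1)ᵀ * G) * (G⁻¹ * (c.1)ᵀ * G)
        rw [Matrix.transpose_mul]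
        calc G⁻¹ * ((d.1)ᵀ * (c.1)ᵀ) * G = G⁻¹ * (d.1)ᵀ * 1 * (c.1)ᵀ * G := by
              simp only [Matrix.mul_one, Matrix.mul_assoc]
          _ = _ := by rw [← hGG]; simp only [Matrix.mul_assoc]) (by
        intro c
        apply Subtype.ext
        show G⁻¹ * (G⁻¹ * (c.1)ᵀ * G)ᵀ * G = c.1
        rw [Matrix.transpose_mul, Matrix.transpose_mul, Matrix.transpose_transpose,
          hGs, hGi]
        calc G⁻¹ * (G * (c.1 * G⁻¹)) * G = (G⁻¹ * G) * c.1 * (G⁻¹ * G) := by
              simp only [Matrix.mul_assoc]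
          _ = c.1 := by rw [hGG']; simp) (by
        intro s hs
        have hs' : G⁻¹ * (s.1)ᵀ * G = s.1 := congrArg Subtype.val hs
        have hs2 : (s.1)ᵀ * G = G * s.1 := by
          conv_rhs => rw [← hs']
          rw [← Matrix.mul_assoc, ← Matrix.mul_assoc, hGG, Matrix.one_mul]
        obtain ⟨p, q, hpq⟩ := h5 K a b ha hb X Y hP hS G hGs hG hX s.1 s.2 hs2
        exact ⟨p, q, Subtype.ext hpq⟩)
    -- translate
    have hv' : ∀ i j, i ≠ j → (v i).1 * (v j).1 = - ((v j).1 * (v i).1) :=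
      fun i j hij => congrArg Subtype.val (hv i j hij)
    choose c hc hcs using hsq
    have hcs' : ∀ i, (v i).1 * (v i).1 = c i • 1 := fun i => congrArg Subtype.val (hcs i)
    set v0 := (v 0).1 with hv0
    set v1 := (v 1).1 with hv1
    set v2 := (v 2).1 with hv2
    set v3 := (v 3).1 with hv3
    have a01 : v0 * v1 = - (v1 * v0) := hv' 0 1 (by decide)
    have a02 : v0 * v2 = - (v2 * v0) := hv' 0 2 (by decide)
    have a03 : v0 * v3 = - (v3 * v0) := hv' 0 3 (by decide)
    have a12 : v1 * v2 = - (v2 * v1) := hv' 1 2 (by decide)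
    have a13 : v1 * v3 = - (v3 * v1) := hv' 1 3 (by decide)
    have a23 : v2 * v3 = - (v3 * v2) := hv' 2 3 (by decide)
    have a10 : v1 * v0 = - (v0 * v1) := hv' 1 0 (by decide)
    have a20 : v2 * v0 = - (v0 * v2) := hv' 2 0 (by decide)
    have a30 : v3 * v0 = - (v0 * v3) := hv' 3 0 (by decide)
    have a21 : v2 * v1 = - (v1 * v2) := hv' 2 1 (by decide)
    have a31 : v3 * v1 = - (v1 * v3) := hv' 3 1 (by decide)
    have a32 : v3 * v2 = - (v2 * v3) := hv' 3 2 (by decide)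
    have s0 := hcs' 0
    have s1 := hcs' 1
    have s2 := hcs' 2
    have s3 := hcs' 3
    rw [← hv0] at s0
    rw [← hv1] at s1
    rw [← hv2] at s2
    rw [← hv3] at s3
    -- left-normed rewriting rules
    have r10 : ∀ z, v1 * (v0 * z) = - (v0 * (v1 * z)) := fun z => by
      rw [← Matrix.mul_assoc, a10, Matrix.neg_mul, Matrix.mul_assoc]
    have r20 : ∀ z, v2 * (v0 * z) = - (v0 * (v2 * z)) := fun z => by
      rw [← Matrix.mul_assoc, a20, Matrix.neg_mul, Matrix.mul_assoc]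
    have r30 : ∀ z, v3 * (v0 * z) = - (v0 * (v3 * z)) := fun z => by
      rw [← Matrix.mul_assoc, a30, Matrix.neg_mul, Matrix.mul_assoc]
    have r21 : ∀ z, v2 * (v1 * z) = - (v1 * (v2 * z)) := fun z => by
      rw [← Matrix.mul_assoc, a21, Matrix.neg_mul, Matrix.mul_assoc]
    have r31 : ∀ z, v3 * (v1 * z) = - (v1 * (v3 * z)) := fun z => by
      rw [← Matrix.mul_assoc, a31, Matrix.neg_mul, Matrix.mul_assoc]
    have r32 : ∀ z, v3 * (v2 * z) = - (v2 * (v3 * z)) := fun z => by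
      rw [← Matrix.mul_assoc, a32, Matrix.neg_mul, Matrix.mul_assoc]
    have q0 : ∀ z, v0 * (v0 * z) = c 0 • z := fun z => by
      rw [← Matrix.mul_assoc, s0, Matrix.smul_mul, Matrix.one_mul]
    have q1 : ∀ z, v1 * (v1 * z) = c 1 • z := fun z => by
      rw [← Matrix.mul_assoc, s1, Matrix.smul_mul, Matrix.one_mul]
    have q2 : ∀ z, v2 * (v2 * z) = c 2 • z := fun z => by
      rw [← Matrix.mul_assoc, s2, Matrix.smul_mul, Matrix.one_mul]
    have q3 : ∀ z, v3 * (v3 * z) = c 3 • z := fun z => by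
      rw [← Matrix.mul_assoc, s3, Matrix.smul_mul, Matrix.one_mul]
    refine H ![c 0, -(c 0 * c 1 * c 2)] ![c 1, -(c 0 * c 1 * c 3)] ?_ ?_
      (k1 X Y _ _ ![v0, v0 * (v1 * v2)] ![v1, v0 * (v1 * v3)] hP ⟨?_, ?_, ?_, ?_⟩ ?_)
    · intro j; fin_cases j <;> simp [hc]
    · intro j; fin_cases j <;> simp [hc]
    · intro j
      fin_cases j
      · simpa using s0
      · simp only [Fin.mk_one, Matrix.cons_val_one, Matrix.cons_val_fin_one]
        simp only [Matrix.mul_assoc, r10, r20, r21, Matrix.mul_neg, neg_neg, a10, a20, a21, q0,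
          q1, q2, s0, s1, s2, Matrix.mul_smul, Matrix.mul_one, smul_smul, neg_smul, smul_neg]
        try module
    · intro j
      fin_cases j
      · simpa using s1
      · simp only [Fin.mk_one, Matrix.cons_val_one, Matrix.cons_val_fin_one]
        simp only [Matrix.mul_assoc, r10, r30, r31, Matrix.mul_neg, neg_neg, a10, a30, a31, q0,
          q1, q3, s0, s1, s3, Matrix.mul_smul, Matrix.mul_one, smul_smul, neg_smul, smul_neg]
        try module
    · intro j
      fin_cases j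
      · simpa using a01
      · simp only [Fin.mk_one, Matrix.cons_val_one, Matrix.cons_val_fin_one]
        simp only [Matrix.mul_assoc, r10, r20, r21, r30, r31, r32, Matrix.mul_neg, neg_neg, a10,
          a20, a21, a30, a31, a32, q0, q1, q2, q3, s0, s1, s2, s3, Matrix.mul_smul,
          Matrix.mul_one, smul_smul, neg_smul, smul_neg]
        try module
    · intro i j hij
      fin_cases i <;> fin_cases j <;> simp at hij ⊢ <;>
        (refine ⟨?_, ?_, ?_⟩ <;>
          simp only [Matrix.mul_assoc, r10, r20, r21, r30, r31, r32, Matrix.mul_neg, neg_neg, a10,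
          a20, a21, a30, a31, a32, q0, q1, q2, q3, s0, s1, s2, s3, Matrix.mul_smul,
          Matrix.mul_one, smul_smul, neg_smul, smul_neg] <;> try module)
    · intro j
      have m0 := (v 0).2
      have m1 := (v 1).2
      have m2 := (v 2).2
      have m3 := (v 3).2
      fin_cases j
      · exact ⟨m0, m1⟩
      · exact ⟨mul_mem m0 (mul_mem m1 m2), mul_mem m0 (mul_mem m1 m3)⟩

end Pool.Agent.PI.Alg
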