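import Pool.Agent.Lib.MP_43d240_ag.Frozen.Defs

/-!
# Project PI, chapter ALG: statements of the modules

If the product of three quaternion algebras over a field `K` of characteristic zero has zero
divisors, it is Brauer equivalent to a product of two quaternion algebras (Albert).
-/

set_option autoImplicit false
set_option linter.unusedVariables false

open scoped TensorProduct
open Matrix

namespace Pool.Agent.PI.Alg

/-- commuting pairs of anticommuting operators on `K^N` -/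
def IsPairs {K : Type} [Field K] {N r : ℕ} (a b : Fin r → K)
    (X Y : Fin r → Matrix (Fin N) (Fin N) K) : Prop :=
  (∀ j, X j * X j = a j • 1) ∧ (∀ j, Y j * Y j = b j • 1) ∧ (∀ j, X j * Y j = - (Y j * X j)) ∧
  (∀ i j, i ≠ j → X i * X j = X j * X i ∧ X i * Y j = Y j * X i ∧ Y i * Y j = Y j * Y i)

/-- no stable subspaces -/
def IsSimp {K : Type} [Field K] {N r : ℕ} (X Y : Fin r → Matrix (Fin N) (Fin N) K) : Prop :=
  ∀ W : Submodule K (Fin N → K),
    (∀ j, ∀ w ∈ W, (X j).mulVec w ∈ W ∧ (Y j).mulVec w ∈ W) → W = ⊥ ∨ W = ⊤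

/-- the commutant -/
def Comm {K : Type} [Field K] {N r : ℕ} (X Y : Fin r → Matrix (Fin N) (Fin N) K) :
    Subalgebra K (Matrix (Fin N) (Fin N) K) where
  carrier := {c | ∀ j, c * X j = X j * c ∧ c * Y j = Y j * c}
  mul_mem' := by
    intro c d hc hd j
    constructor
    · rw [mul_assoc, (hd j).1, ← mul_assoc, (hc j).1, mul_assoc]
    · rw [mul_assoc, (hd j).2, ← mul_assoc, (hc j).2, mul_assoc]
  add_mem' := by
    intro c d hc hd j
    constructor
    · rw [add_mul, mul_add, (hc j).1, (hd j).1]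
    · rw [add_mul, mul_add, (hc j).2, (hd j).2]
  algebraMap_mem' := by
    intro t j
    exact ⟨Algebra.commutes t _, Algebra.commutes t _⟩

/-- MODULE A1 (PI/Alg1.lean): Wedderburn. -/
def A1Statement : Prop :=
  ∀ (K : Type) [Field K] [CharZero K] (a b : Fin 3 → K), (∀ j, a j ≠ 0) → (∀ j, b j ≠ 0) →
    (∃ x y : Q3 K a b, x * y = 0 ∧ x ≠ 0 ∧ y ≠ 0) →
    ∃ (N : ℕ) (X Y : Fin 3 → Matrix (Fin N) (Fin N) K), (N = 8 ∨ N = 16 ∨ N = 32) ∧
      IsPairs a b X Y ∧ IsSimp X Y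

/-- MODULE A2 (PI/Alg2.lean): the commutant has dimension `N^2/64` and center `K`. -/
def A2Statement : Prop :=
  ∀ (K : Type) [Field K] [CharZero K] (a b : Fin 3 → K), (∀ j, a j ≠ 0) → (∀ j, b j ≠ 0) →
    ∀ (N : ℕ) (X Y : Fin 3 → Matrix (Fin N) (Fin N) K), IsPairs a b X Y →
    Module.finrank K (Comm X Y) * 64 = N * N ∧
    ∀ c ∈ Comm X Y, (∀ d ∈ Comm X Y, c * d = d * c) → ∃ t : K, c = t • 1

/-- MODULE A2S (PI/Alg2s.lean): Schur. -/
def A2SStatement : Prop :=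
  ∀ (K : Type) [Field K] (a b : Fin 3 → K), (∀ j, a j ≠ 0) → (∀ j, b j ≠ 0) →
    ∀ (N : ℕ) (X Y : Fin 3 → Matrix (Fin N) (Fin N) K), IsPairs a b X Y → IsSimp X Y →
    ∀ c ∈ Comm X Y, c ≠ 0 → ∃ d ∈ Comm X Y, c * d = 1 ∧ d * c = 1

/-- MODULE A3 (PI/Alg3.lean): two more pairs in the commutant of the three given pairs; Kronecker
products with the split pairs `(1,1)` in the cases `N = 8`, `N = 16`. -/
def A3Statement : Prop :=
  ∀ (K : Type) [Field K] [CharZero K] (a b : Fin 3 → K), (∀ j, a j ≠ 0) → (∀ j, b j ≠ 0) →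
    (∀ (X Y : Fin 3 → Matrix (Fin 32) (Fin 32) K) (a' b' : Fin 2 → K)
      (V W : Fin 2 → Matrix (Fin 32) (Fin 32) K), IsPairs a b X Y → IsPairs a' b' V W →
      (∀ j, V j ∈ Comm X Y ∧ W j ∈ Comm X Y) → SplitSyms (Fin.append a a') (Fin.append b b')) ∧
    (∀ (X Y : Fin 3 → Matrix (Fin 16) (Fin 16) K) (a' b' : K)
      (V W : Matrix (Fin 16) (Fin 16) K), IsPairs a b X Y → V * V = a' • 1 → W * W = b' • 1 →
      V * W = - (W * V) → V ∈ Comm X Y → W ∈ Comm X Y →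
      SplitSyms (Fin.append a ![a', 1]) (Fin.append b ![b', 1])) ∧
    (∀ (X Y : Fin 3 → Matrix (Fin 8) (Fin 8) K), IsPairs a b X Y →
      SplitSyms (Fin.append a ![1, 1]) (Fin.append b ![1, 1]))

/-- MODULE A4 (PI/Alg4.lean): a symmetric form for which the pairs are skew adjoint. -/
def A4Statement : Prop :=
  ∀ (K : Type) [Field K] [CharZero K] (a b : Fin 3 → K), (∀ j, a j ≠ 0) → (∀ j, b j ≠ 0) →
    ∀ (N : ℕ) (X Y : Fin 3 → Matrix (Fin N) (Fin N) K), 0 < N → IsPairs a b X Y → IsSimp X Y →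
    (∃ c ∈ Comm X Y, ∃ d ∈ Comm X Y, c * d ≠ d * c) →
    ∃ G : Matrix (Fin N) (Fin N) K, Gᵀ = G ∧ IsUnit G.det ∧
      ∀ j, (X j)ᵀ * G = - (G * X j) ∧ (Y j)ᵀ * G = - (G * Y j)

/-- MODULE A5 (PI/Alg5.lean): a self adjoint element of the commutant is quadratic. -/
def A5Statement : Prop :=
  ∀ (K : Type) [Field K] [CharZero K] (a b : Fin 3 → K), (∀ j, a j ≠ 0) → (∀ j, b j ≠ 0) →
    ∀ (X Y : Fin 3 → Matrix (Fin 32) (Fin 32) K), IsPairs a b X Y → IsSimp X Y →
    ∀ G : Matrix (Fin 32) (Fin 32) K, Gᵀ = G → IsUnit G.det →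
      (∀ j, (X j)ᵀ * G = - (G * X j) ∧ (Y j)ᵀ * G = - (G * Y j)) →
    ∀ s ∈ Comm X Y, sᵀ * G = G * s → ∃ p q : K, s * s = p • s + q • 1

/-- MODULE A6 (PI/Alg6.lean): pure algebra of a division algebra of degree four with an involution
whose symmetric elements are quadratic. -/
def A6Statement : Prop :=
  ∀ (K : Type) [Field K] [CharZero K] (D : Type) [DivisionRing D] [Algebra K D],
    Module.finrank K D = 16 → (∀ c : D, (∀ d : D, c * d = d * c) → ∃ t : K, c = algebraMap K D t) →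
    ∀ τ : D →ₗ[K] D, (∀ x y, τ (x * y) = τ y * τ x) → (∀ x, τ (τ x) = x) →
    (∀ s, τ s = s → ∃ p q : K, s * s = p • s + q • (1 : D)) →
    ∃ v : Fin 4 → D, (∀ i j, i ≠ j → v i * v j = - (v j * v i)) ∧
      ∀ i, ∃ c : K, c ≠ 0 ∧ v i * v i = c • (1 : D)

/-- MODULE A7 (PI/Alg7.lean): division algebras of degree two are quaternion algebras. -/
def A7Statement : Prop :=
  ∀ (K : Type) [Field K] [CharZero K] (D : Type) [DivisionRing D] [Algebra K D],
    Module.finrank K D = 4 → (∀ c : D, (∀ d : D, c * d = d * c) → ∃ t : K, c = algebraMap K D t) →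
    ∃ v w : D, v * w = - (w * v) ∧ (∃ c : K, c ≠ 0 ∧ v * v = c • (1 : D)) ∧
      ∃ c : K, c ≠ 0 ∧ w * w = c • (1 : D)

/-- no zero divisors in the product of the three quaternion algebras (characteristic zero) -/
def Nzd0Statement : Prop :=
  ∀ (K : Type) [Field K] [CharZero K] (a b : Fin 3 → K), (∀ j, a j ≠ 0) → (∀ j, b j ≠ 0) →
    (∀ a' b' : Fin 2 → K, (∀ j, a' j ≠ 0) → (∀ j, b' j ≠ 0) →
      ¬ SplitSyms (Fin.append a a') (Fin.append b b')) → NoZD (Q3 K a b)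

end Pool.Agent.PI.Alg
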