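import Pool.Agent.Lib.MP_43d240_ag.PI.GlobBase

/-!
# Project PI, module B: the polynomial `b` in the charts
-/

set_option autoImplicit false
set_option linter.unusedVariables false

open scoped Polynomial
open Matrix

namespace Pool.Agent.PI

namespace BForms

variable {k : Type} [Field k]

lemma chartHom_C {K : Type} [Field K] [Algebra k K] (a b c : K) (f : MvPolynomial (Fin 2) k) :
    chartHom k a b c (Polynomial.C f) = MvPolynomial.eval₂Hom (algebraMap k K) ![a, b] f := by
  simp [chartHom]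

lemma chartHom_X {K : Type} [Field K] [Algebra k K] (a b c : K) :
    chartHom k a b c Polynomial.X = c := by
  simp [chartHom]

lemma bb_eq : bb k = 4 * yy k ^ 5 * (xx k - 2 * yy k) - 4 * yy k ^ 3 * (xx k - 2 * yy k) ^ 3
    + yy k ^ 4 + 30 * yy k ^ 2 * (xx k - 2 * yy k) ^ 2 - 27 * (xx k - 2 * yy k) ^ 4
    + 24 * yy k * (xx k - 2 * yy k) + 4 := by
  simp only [bb, bpoly, xx, yy, map_add, map_sub, map_mul, map_pow, map_ofNat]

lemma xx_ne : xx k ≠ 0 := by
  unfold xx
  rw [Ne, FaithfulSMul.algebraMap_eq_zero_iff]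
  simp

lemma yy_ne : yy k ≠ 0 := by
  unfold yy
  rw [Ne, FaithfulSMul.algebraMap_eq_zero_iff]
  simp

lemma part1 : bb k = xx k ^ 6 * ch4 k (Polynomial.C (b4 k)) := by
  rw [bb_eq, ch4, chartHom_C]
  simp only [b4, map_add, map_sub, map_mul, map_pow, map_ofNat, map_one, MvPolynomial.coe_eval₂Hom,
    MvPolynomial.eval₂_X, Matrix.cons_val_zero, Matrix.cons_val_one]
  have := xx_ne (k := k)
  field_simp

lemma part2 : bb k = yy k ^ 6 * ch3 k (b3 k) := by
  rw [bb_eq]
  unfold ch3
  simp only [b3, map_add, map_sub, map_mul, map_pow, map_ofNat, chartHom_C, chartHom_X,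
    MvPolynomial.coe_eval₂Hom,
    MvPolynomial.eval₂_X, Matrix.cons_val_zero, Matrix.cons_val_one]
  have := yy_ne (k := k)
  field_simp
  ring


lemma part3 [CharZero k] : ¬ MvPolynomial.X 0 ∣ (b3 k).coeff 0 := by
  rintro ⟨q, hq⟩
  rw [Polynomial.coeff_zero_eq_eval_zero] at hq
  have h := congrArg (MvPolynomial.eval (![0, 0] : Fin 2 → k)) hq
  simp only [b3, Polynomial.eval_add, Polynomial.eval_sub, Polynomial.eval_mul,
    Polynomial.eval_pow, Polynomial.eval_ofNat, Polynomial.eval_X, Polynomial.eval_C, map_add,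
    map_sub, map_mul, map_pow, map_ofNat, MvPolynomial.eval_X, Matrix.cons_val_zero,
    Matrix.cons_val_one, map_zero] at h
  have h24 : (24 : k) = 0 := by linear_combination h
  norm_num at h24

/-- reduction modulo `X 0` -/
noncomputable def psi (k : Type) [Field k] : MvPolynomial (Fin 2) k →+* k[X] :=
  MvPolynomial.eval₂Hom (Polynomial.C) ![0, Polynomial.X]

noncomputable def iota (k : Type) [Field k] : k[X] →+* MvPolynomial (Fin 2) k :=
  Polynomial.eval₂RingHom MvPolynomial.C (MvPolynomial.X 1)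

lemma dvd_of_psi (f : MvPolynomial (Fin 2) k) (h : psi k f = 0) : MvPolynomial.X 0 ∣ f := by
  have key : (Ideal.Quotient.mk (Ideal.span {(MvPolynomial.X 0 : MvPolynomial (Fin 2) k)})) =
      ((Ideal.Quotient.mk (Ideal.span {(MvPolynomial.X 0 : MvPolynomial (Fin 2) k)})).comp
        (iota k)).comp (psi k) := by
    apply MvPolynomial.ringHom_ext
    · intro r
      simp [psi, iota]
    · intro i
      fin_cases i
      · simp only [Fin.zero_eta, psi, iota, RingHom.comp_apply, MvPolynomial.coe_eval₂Hom,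
          MvPolynomial.eval₂_X, Matrix.cons_val_zero, map_zero]
        rw [Ideal.Quotient.eq_zero_iff_mem]
        exact Ideal.mem_span_singleton_self _
      · simp [psi, iota]
  have h2 := congrArg (fun g => g f) key
  simp only [RingHom.comp_apply, h, map_zero] at h2
  rwa [Ideal.Quotient.eq_zero_iff_mem, Ideal.mem_span_singleton] at h2

lemma no_square (r : k) (F G P Q : k[X]) (hF : F = (Polynomial.X - Polynomial.C r) * G)
    (hG : G.eval r ≠ 0) (hQ : Q ≠ 0) (h : F * Q ^ 2 = P ^ 2) : False := by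
  have hG0 : G ≠ 0 := by rintro rfl; simp at hG
  have hX : (Polynomial.X - Polynomial.C r) ≠ 0 := Polynomial.X_sub_C_ne_zero r
  have hF0 : F ≠ 0 := by rw [hF]; exact mul_ne_zero hX hG0
  have hP : P ≠ 0 := by
    rintro rfl
    have : F * Q ^ 2 = 0 := by rw [h]; ring
    exact mul_ne_zero hF0 (pow_ne_zero 2 hQ) this
  have e1 : (F * Q ^ 2).rootMultiplicity r = 1 + 2 * Q.rootMultiplicity r := by
    rw [Polynomial.rootMultiplicity_mul (mul_ne_zero hF0 (pow_ne_zero 2 hQ)), hF,
      Polynomial.rootMultiplicity_mul (mul_ne_zero hX hG0),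
      Polynomial.rootMultiplicity_X_sub_C_self, Polynomial.rootMultiplicity_eq_zero hG, pow_two,
      Polynomial.rootMultiplicity_mul (mul_ne_zero hQ hQ)]
    ring
  have e2 : (P ^ 2).rootMultiplicity r = 2 * P.rootMultiplicity r := by
    rw [pow_two, Polynomial.rootMultiplicity_mul (mul_ne_zero hP hP)]
    ring
  rw [h, e2] at e1
  omega

lemma part4 [CharZero k] (e : k) (he : e ≠ 0) :
    NonSq (MvPolynomial.X 0) (b4 k * MvPolynomial.C e) := by
  rintro p q hq ⟨t, ht⟩
  have hQ : psi k q ≠ 0 := fun h => hq (dvd_of_psi q h)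
  have h := congrArg (psi k) ht
  have hb : psi k (b4 k) = 4 * Polynomial.X ^ 5 * (1 - 2 * Polynomial.X)
      - 4 * Polynomial.X ^ 3 * (1 - 2 * Polynomial.X) ^ 3 := by
    simp only [psi, b4, map_add, map_sub, map_mul, map_pow, map_ofNat, map_one,
      MvPolynomial.coe_eval₂Hom, MvPolynomial.eval₂_X, Matrix.cons_val_zero, Matrix.cons_val_one]
    ring
  have hx0 : psi k (MvPolynomial.X 0) = 0 := by simp [psi]
  have hce : psi k (MvPolynomial.C e) = Polynomial.C e := by simp [psi]
  simp only [map_sub, map_mul, map_pow, hx0, hce, zero_mul] at h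
  refine no_square (1 : k) (psi k (b4 k) * Polynomial.C e)
    (-(4 * Polynomial.X ^ 3 * (1 - 2 * Polynomial.X) * (3 * Polynomial.X - 1)) * Polynomial.C e)
    (psi k p) (psi k q) ?_ ?_ hQ (by linear_combination h)
  · rw [hb, map_one]
    ring
  · simp only [Polynomial.eval_neg, Polynomial.eval_add, Polynomial.eval_sub, Polynomial.eval_mul,
      Polynomial.eval_pow, Polynomial.eval_ofNat, Polynomial.eval_X, Polynomial.eval_C,
      Polynomial.eval_one]
    refine mul_ne_zero ?_ he
    norm_num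


/-! ### Part 5 -/

lemma td_add {f g : MvPolynomial (Fin 2) k} {n : ℕ} (hf : f.totalDegree ≤ n)
    (hg : g.totalDegree ≤ n) : (f + g).totalDegree ≤ n :=
  (MvPolynomial.totalDegree_add f g).trans (max_le hf hg)

lemma td_sub {f g : MvPolynomial (Fin 2) k} {n : ℕ} (hf : f.totalDegree ≤ n)
    (hg : g.totalDegree ≤ n) : (f - g).totalDegree ≤ n :=
  (MvPolynomial.totalDegree_sub f g).trans (max_le hf hg)

lemma td_mul {f g : MvPolynomial (Fin 2) k} {a b n : ℕ} (hf : f.totalDegree ≤ a)
    (hg : g.totalDegree ≤ b) (h : a + b ≤ n) : (f * g).totalDegree ≤ n :=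
  (MvPolynomial.totalDegree_mul f g).trans (by omega)

lemma td_pow {f : MvPolynomial (Fin 2) k} {a n m : ℕ} (hf : f.totalDegree ≤ a)
    (h : m * a ≤ n) : (f ^ m).totalDegree ≤ n :=
  (MvPolynomial.totalDegree_pow f m).trans ((Nat.mul_le_mul_left m hf).trans h)

lemma td_ofNat (m n : ℕ) : ((m : MvPolynomial (Fin 2) k)).totalDegree ≤ n := by
  rw [show ((m : MvPolynomial (Fin 2) k)) = MvPolynomial.C (m : k) by simp,
    MvPolynomial.totalDegree_C]
  exact Nat.zero_le _

lemma td_aeval (g : Fin 2 → MvPolynomial (Fin 2) k) (hg : ∀ i, (g i).totalDegree ≤ 1)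
    (f : MvPolynomial (Fin 2) k) : (MvPolynomial.aeval g f).totalDegree ≤ f.totalDegree := by
  rw [MvPolynomial.aeval_def, MvPolynomial.eval₂_eq']
  refine MvPolynomial.totalDegree_finsetSum_le ?_
  intro d hd
  have h1 : (∏ i, g i ^ d i).totalDegree ≤ ∑ i, d i := by
    refine (MvPolynomial.totalDegree_finsetProd _ _).trans (Finset.sum_le_sum fun i _ => ?_)
    exact td_pow (hg i) (by omega)
  have h2 : ∑ i, d i ≤ f.totalDegree := by
    have := MvPolynomial.le_totalDegree hd
    rwa [Finsupp.sum_fintype _ _ (fun _ => rfl)] at this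
  refine td_mul (a := 0) (b := ∑ i, d i) ?_ h1 (by omega)
  simp

noncomputable def sg (k : Type) [Field k] : MvPolynomial (Fin 2) k →ₐ[k] MvPolynomial (Fin 2) k :=
  MvPolynomial.aeval ![-MvPolynomial.X 1, MvPolynomial.X 0]

noncomputable def ta (k : Type) [Field k] : MvPolynomial (Fin 2) k →ₐ[k] MvPolynomial (Fin 2) k :=
  MvPolynomial.aeval ![MvPolynomial.X 1, -MvPolynomial.X 0]

noncomputable def st (k : Type) [Field k] : MvPolynomial (Fin 2) k ≃ₐ[k] MvPolynomial (Fin 2) k :=
  AlgEquiv.ofAlgHom (sg k) (ta k)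
    (by
      apply MvPolynomial.algHom_ext
      intro i
      fin_cases i <;> simp [sg, ta])
    (by
      apply MvPolynomial.algHom_ext
      intro i
      fin_cases i <;> simp [sg, ta])

lemma td_sg (f : MvPolynomial (Fin 2) k) : (sg k f).totalDegree ≤ f.totalDegree := by
  apply td_aeval
  intro i
  fin_cases i
  · simp
  · simp

lemma td_ta (f : MvPolynomial (Fin 2) k) : (ta k f).totalDegree ≤ f.totalDegree := by
  apply td_aeval
  intro i
  fin_cases i
  · simp
  · simp

lemma sg_ta (f : MvPolynomial (Fin 2) k) : sg k (ta k f) = f := (st k).apply_symm_apply f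

lemma ta_sg (f : MvPolynomial (Fin 2) k) : ta k (sg k f) = f := (st k).symm_apply_apply f

lemma td_ta_eq (f : MvPolynomial (Fin 2) k) : (ta k f).totalDegree = f.totalDegree := by
  apply le_antisymm (td_ta f)
  conv_lhs => rw [← sg_ta f]
  exact td_sg _

lemma td_b : (bpoly k).totalDegree ≤ 6 := by
  have hx : (MvPolynomial.X 0 : MvPolynomial (Fin 2) k).totalDegree ≤ 1 := by simp
  have hm : (MvPolynomial.X 1 : MvPolynomial (Fin 2) k).totalDegree ≤ 1 := by simp
  have hc : (MvPolynomial.X 0 - 2 * MvPolynomial.X 1 : MvPolynomial (Fin 2) k).totalDegree ≤ 1 :=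
    td_sub hx (td_mul (a := 0) (td_ofNat 2 0) hm (by omega))
  unfold bpoly
  have h4 : (4 : MvPolynomial (Fin 2) k).totalDegree ≤ 0 := td_ofNat 4 0
  have h30 : (30 : MvPolynomial (Fin 2) k).totalDegree ≤ 0 := td_ofNat 30 0
  have h27 : (27 : MvPolynomial (Fin 2) k).totalDegree ≤ 0 := td_ofNat 27 0
  have h24 : (24 : MvPolynomial (Fin 2) k).totalDegree ≤ 0 := td_ofNat 24 0
  refine td_add (td_add (td_sub (td_add (td_add (td_sub ?_ ?_) ?_) ?_) ?_) ?_) ?_
  · exact td_mul (a := 5) (b := 1) (td_mul (a := 0) (b := 5) h4 (td_pow hm le_rfl) le_rfl) hc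
      (by omega)
  · exact td_mul (a := 3) (b := 3) (td_mul (a := 0) (b := 3) h4 (td_pow hm le_rfl) le_rfl)
      (td_pow hc le_rfl) (by omega)
  · exact td_pow hm (by omega)
  · exact td_mul (a := 2) (b := 2) (td_mul (a := 0) (b := 2) h30 (td_pow hm le_rfl) le_rfl)
      (td_pow hc le_rfl) (by omega)
  · exact td_mul (a := 0) (b := 4) h27 (td_pow hc le_rfl) (by omega)
  · exact td_mul (a := 1) (b := 1) (td_mul (a := 0) (b := 1) h24 hm le_rfl) hc (by omega)
  · exact h4.trans (by omega)

lemma deg_sg_b [CharZero k] : 6 ≤ (sg k (bpoly k)).degreeOf 0 := by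
  have h := MvPolynomial.natDegree_finSuccEquiv (n := 1) (sg k (bpoly k))
  rw [← h]
  refine le_trans ?_ (Polynomial.natDegree_map_le
    (f := (MvPolynomial.eval (fun _ => 0) : MvPolynomial (Fin 1) k →+* k)))
  apply Polynomial.le_natDegree_of_ne_zero
  have e : Polynomial.map (MvPolynomial.eval (fun _ => 0) : MvPolynomial (Fin 1) k →+* k)
      (MvPolynomial.finSuccEquiv k 1 (sg k (bpoly k))) =
      24 * Polynomial.X ^ 6 - 311 * Polynomial.X ^ 4 - 48 * Polynomial.X ^ 2 + 4 := by
    have h1 : (MvPolynomial.finSuccEquiv k 1) (MvPolynomial.X 1) =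
        Polynomial.C (MvPolynomial.X 0) := MvPolynomial.finSuccEquiv_X_succ (j := 0)
    simp only [sg, bpoly, map_add, map_sub, map_mul, map_pow, map_ofNat, MvPolynomial.aeval_X,
      Matrix.cons_val_zero, Matrix.cons_val_one, map_neg, MvPolynomial.finSuccEquiv_X_zero, h1,
      Polynomial.map_add, Polynomial.map_sub, Polynomial.map_mul, Polynomial.map_pow,
      Polynomial.map_ofNat, Polynomial.map_neg, Polynomial.map_X, Polynomial.map_C,
      MvPolynomial.eval_X]
    rw [Polynomial.C_0]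
    ring
  rw [e]
  have h6 : (24 * Polynomial.X ^ 6 - 311 * Polynomial.X ^ 4 - 48 * Polynomial.X ^ 2 + 4 :
      k[X]).coeff 6 = 24 := by
    have c24 : (24 : k[X]) = Polynomial.C (24 : k) := (map_ofNat Polynomial.C 24).symm
    have c311 : (311 : k[X]) = Polynomial.C (311 : k) := (map_ofNat Polynomial.C 311).symm
    have c48 : (48 : k[X]) = Polynomial.C (48 : k) := (map_ofNat Polynomial.C 48).symm
    have c4 : (4 : k[X]) = Polynomial.C (4 : k) := (map_ofNat Polynomial.C 4).symm
    rw [c24, c311, c48, c4]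
    simp only [Polynomial.coeff_add, Polynomial.coeff_sub, Polynomial.coeff_C_mul,
      Polynomial.coeff_X_pow, Polynomial.coeff_C]
    norm_num
  rw [h6]
  norm_num

/-- `b` in chart 2 -/
noncomputable def e0 (k : Type) [Field k] : Polynomial (MvPolynomial (Fin 2) k) :=
  let m : Polynomial (MvPolynomial (Fin 2) k) := Polynomial.C (MvPolynomial.X 0)
  let c : Polynomial (MvPolynomial (Fin 2) k) :=
    Polynomial.X - Polynomial.C (MvPolynomial.X 1) - 2 * Polynomial.C (MvPolynomial.X 0)
  4 * m ^ 5 * c - 4 * m ^ 3 * c ^ 3 + m ^ 4 + 30 * m ^ 2 * c ^ 2 - 27 * c ^ 4 + 24 * m * c + 4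

lemma ch2_e0 : ch2 k (e0 k) = bb k := by
  rw [bb_eq]
  unfold ch2
  simp only [e0, map_add, map_sub, map_mul, map_pow, map_ofNat, chartHom_C, chartHom_X,
    MvPolynomial.coe_eval₂Hom,
    MvPolynomial.eval₂_X, Matrix.cons_val_zero, Matrix.cons_val_one]
  ring

lemma coeff_e0 : (e0 k).coeff 0 = sg k (bpoly k) := by
  rw [Polynomial.coeff_zero_eq_eval_zero]
  simp only [e0, sg, bpoly, Polynomial.eval_add, Polynomial.eval_sub, Polynomial.eval_mul,
    Polynomial.eval_pow, Polynomial.eval_ofNat, Polynomial.eval_X, Polynomial.eval_C, map_add,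
    map_sub, map_mul, map_pow, map_ofNat, MvPolynomial.aeval_X, Matrix.cons_val_zero,
    Matrix.cons_val_one]
  ring

lemma part5 [CharZero k] (hinj : Function.Injective (ch2 k)) (γ : MvPolynomial (Fin 2) k)
    (hγ : Prime γ) (h : ∃ e : Polynomial (MvPolynomial (Fin 2) k),
        ch2 k e = bb k ∧ γ ∣ e.coeff 0) :
      ∃ γ' : MvPolynomial (Fin 2) k, Prime γ' ∧ γ' ∣ bpoly k ∧
        γ'.totalDegree = γ.degreeOf 0 := by
  obtain ⟨e, he, hd⟩ := h
  have hee : e = e0 k := hinj (by rw [he, ch2_e0])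
  subst hee
  rw [coeff_e0] at hd
  obtain ⟨δ, hδ⟩ := hd
  have hS : sg k (bpoly k) ≠ 0 := by
    intro h0
    have := deg_sg_b (k := k)
    rw [h0] at this
    simp at this
  have hδ0 : δ ≠ 0 := by rintro rfl; exact hS (by rw [hδ, mul_zero])
  refine ⟨ta k γ, ?_, ?_, ?_⟩
  · have := (MulEquiv.prime_iff (p := γ) (st k).symm.toMulEquiv).2 hγ
    exact this
  · rw [← ta_sg (bpoly k), hδ, map_mul]
    exact dvd_mul_right _ _
  · rw [td_ta_eq]
    have h1 := deg_sg_b (k := k)
    have h2 : (sg k (bpoly k)).totalDegree ≤ 6 := (td_sg _).trans td_b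
    rw [hδ, MvPolynomial.degreeOf_mul_eq hγ.ne_zero hδ0] at h1
    rw [hδ, MvPolynomial.totalDegree_mul_of_isDomain hγ.ne_zero hδ0] at h2
    have h3 := MvPolynomial.degreeOf_le_totalDegree γ 0
    have h4 := MvPolynomial.degreeOf_le_totalDegree δ 0
    omega

end BForms

theorem bforms (h : ChartsStatement) : BFormsStatement := by
  intro k _ _ _
  refine ⟨BForms.part1, BForms.part2, BForms.part3, fun e he => BForms.part4 e he, ?_⟩
  intro γ hγ he
  exact BForms.part5 (h k).2.2.1.1 γ hγ he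

end Pool.Agent.PI
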