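import Pool.Agent.Lib.MP_43d240_ag.PI.GlobBase

/-!
# Project PI, module C1: the plane `z = 0`, affine part
-/

set_option autoImplicit false
set_option linter.unusedVariables false

open scoped Polynomial
open Matrix

namespace Pool.Agent.PI

theorem nonSq_not_dvd {C : Type} [CommRing C] {γ f : C} (hγ : Prime γ) (h : NonSq γ f) :
    ¬ γ ∣ f := by
  have h1 := h 0 1 (fun hd => hγ.not_unit (isUnit_of_dvd_one hd))
  simpa using h1

theorem nonSq_mul_sq {C : Type} [CommRing C] {γ f e : C} (hγ : Prime γ) (h : NonSq γ f)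
    (he : ¬ γ ∣ e) : NonSq γ (f * e ^ 2) := by
  intro p q hq hd
  refine h p (e * q) (fun hd' => ?_) ?_
  · rcases hγ.dvd_or_dvd hd' with h1 | h1
    · exact he h1
    · exact hq h1
  · have : f * (e * q) ^ 2 - p ^ 2 = f * e ^ 2 * q ^ 2 - p ^ 2 := by ring
    rwa [this]

theorem c1 (ch : ChartStatement) (nl : NLStatement) (hch : ChartsStatement) (dg : DegStatement) :
    C1Statement := by
  intro k _ _ _ D hD hN v1 v2 hR hS c hc hcs
  obtain ⟨h1eq, hF1, -⟩ := hch k
  obtain ⟨i0, hi0⟩ := IsAlgClosed.exists_pow_nat_eq (-1 : k) (n := 2) (by norm_num)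
  obtain ⟨i2, hi2⟩ := IsAlgClosed.exists_pow_nat_eq (-2 : k) (n := 2) (by norm_num)
  have h2u : IsUnit (2 : MvPolynomial (Fin 2) k) := by
    have : (2 : MvPolynomial (Fin 2) k) = MvPolynomial.C (2 : k) := (map_ofNat _ 2).symm
    rw [this]
    exact (isUnit_iff_ne_zero.2 (two_ne_zero)).map _
  have hi0' : ∃ i : MvPolynomial (Fin 2) k, i ^ 2 = -1 :=
    ⟨MvPolynomial.C i0, by rw [← map_pow, hi0]; simp⟩
  refine dg (MvPolynomial (Fin 2) k) MvPolynomial.totalDegree
    (fun a b ha hb => MvPolynomial.totalDegree_mul_of_isDomain ha hb) c hc ?_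
  intro γ hγ hodd
  have hNS : NonSq γ (bpoly k) := nl k γ hγ.irreducible hodd
  have hγb : ¬ γ ∣ bpoly k := nonSq_not_dvd hγ hNS
  have hγu : ∀ e : k, e ≠ 0 → ¬ γ ∣ MvPolynomial.C e := fun e he hd =>
    hγ.not_unit (isUnit_of_dvd_unit hd ((isUnit_iff_ne_zero.2 he).map _))
  have hbb : ch1 k (Polynomial.C (bpoly k)) = bb k := by rw [h1eq]; rfl
  have hz1 : ch1 k (Polynomial.X - 1) = zz k - 1 := by
    rw [map_sub, map_one, h1eq]; rfl
  have hz2 : ch1 k (Polynomial.X - 2) = zz k - 2 := by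
    rw [map_sub, map_ofNat, h1eq]; rfl
  -- primes through the curve
  have key : ∀ p : Polynomial (MvPolynomial (Fin 2) k), Prime p → γ ∣ p.coeff 0 →
      ¬ Associated p Polynomial.X → 
      ¬ Associated p (Polynomial.X + Polynomial.C (MvPolynomial.X 0)) →
      ¬ Associated p (Polynomial.C (MvPolynomial.X 1)) → Uni (ch1 k) p (diagonal D) := by
    intro p hp hγp hpX hp1 hp2
    refine (hN p hp).1 hpX hp1 hp2 ?_ ?_ ?_
    · rintro ⟨q, hq⟩
      have h0 : (Polynomial.X - 1 : Polynomial (MvPolynomial (Fin 2) k)).coeff 0 =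
          p.coeff 0 * q.coeff 0 := by rw [hq, Polynomial.mul_coeff_zero]
      have h1 : (Polynomial.X - 1 : Polynomial (MvPolynomial (Fin 2) k)).coeff 0 =
          MvPolynomial.C (-1) := by simp
      exact hγu (-1) (by simp) (by rw [← h1, h0]; exact Dvd.dvd.mul_right hγp _)
    · rintro ⟨q, hq⟩
      have h0 : (Polynomial.X - 2 : Polynomial (MvPolynomial (Fin 2) k)).coeff 0 =
          p.coeff 0 * q.coeff 0 := by rw [hq, Polynomial.mul_coeff_zero]
      have h1 : (Polynomial.X - 2 : Polynomial (MvPolynomial (Fin 2) k)).coeff 0 =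
          MvPolynomial.C (-2) := by
        rw [map_neg, map_ofNat]; simp
      exact hγu (-2) (by simp) (by rw [← h1, h0]; exact Dvd.dvd.mul_right hγp _)
    · rintro ⟨q, hq⟩
      have h0 : (Polynomial.C (bpoly k)).coeff 0 = p.coeff 0 * q.coeff 0 := by
        rw [hq, Polynomial.mul_coeff_zero]
      rw [Polynomial.coeff_C_zero] at h0
      exact hγb (by rw [h0]; exact Dvd.dvd.mul_right hγp _)
  have hpX0 : Prime (Polynomial.X + Polynomial.C (MvPolynomial.X 0) :
      Polynomial (MvPolynomial (Fin 2) k)) := by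
    have := Polynomial.prime_X_sub_C (-(MvPolynomial.X 0 : MvPolynomial (Fin 2) k))
    simpa [sub_neg_eq_add] using this
  have hpX1 : Prime (Polynomial.C (MvPolynomial.X 1) :
      Polynomial (MvPolynomial (Fin 2) k)) :=
    Polynomial.prime_C_iff.2 MvPolynomial.X_prime
  by_cases hx : Associated γ (MvPolynomial.X 0)
  · -- the line `x = 0`
    refine ch (MvPolynomial (Fin 2) k) (KK k) (ch1 k) hF1 h2u hi0' γ hγ
      (Polynomial.X + Polynomial.C (MvPolynomial.X 0)) hpX0 (by simpa using hx.symm) D hD ?_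
      c (bpoly k) v1 v2 hc hR hcs (by rwa [hbb]) hNS (Or.inr ?_)
    · intro p hp hγp hpX hpg
      refine key p hp hγp hpX hpg ?_
      intro hA
      obtain ⟨u, hu⟩ := hA.dvd
      have h0 : (Polynomial.C (MvPolynomial.X 1) : Polynomial (MvPolynomial (Fin 2) k)).coeff 0
          = p.coeff 0 * u.coeff 0 := by rw [hu, Polynomial.mul_coeff_zero]
      rw [Polynomial.coeff_C_zero] at h0
      have h1 : (MvPolynomial.X 0 : MvPolynomial (Fin 2) k) ∣ MvPolynomial.X 1 := by
        rw [h0]; exact Dvd.dvd.mul_right (hx.symm.dvd.trans hγp) _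
      exact absurd (MvPolynomial.X_dvd_X.1 h1) (by simp)
    · obtain ⟨w1, w2, hRw, hSw⟩ := (hN _ hpX0).2.2.1 (Associated.refl _)
      refine ⟨Polynomial.X - 1, w1, w2, hRw, by rwa [hz1], ?_⟩
      have h1 : bpoly k * (Polynomial.X - 1 : Polynomial (MvPolynomial (Fin 2) k)).coeff 0 =
          bpoly k * (MvPolynomial.C i0) ^ 2 := by
        rw [← map_pow, hi0]; simp
      rw [h1]
      exact nonSq_mul_sq hγ hNS (hγu i0 (by rintro rfl; simp at hi0))
  by_cases hy : Associated γ (MvPolynomial.X 1)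
  · -- the line `y = 0`
    refine ch (MvPolynomial (Fin 2) k) (KK k) (ch1 k) hF1 h2u hi0' γ hγ
      (Polynomial.C (MvPolynomial.X 1)) hpX1 (by simpa using hy.symm) D hD ?_
      c (bpoly k) v1 v2 hc hR hcs (by rwa [hbb]) hNS (Or.inr ?_)
    · intro p hp hγp hpX hpg
      refine key p hp hγp hpX ?_ hpg
      intro hA
      obtain ⟨u, hu⟩ := hA.dvd
      have h0 : (Polynomial.X + Polynomial.C (MvPolynomial.X 0) :
          Polynomial (MvPolynomial (Fin 2) k)).coeff 0
          = p.coeff 0 * u.coeff 0 := by rw [hu, Polynomial.mul_coeff_zero]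
      have h0' : (MvPolynomial.X 0 : MvPolynomial (Fin 2) k) = p.coeff 0 * u.coeff 0 := by
        rw [← h0]; simp
      have h1 : (MvPolynomial.X 1 : MvPolynomial (Fin 2) k) ∣ MvPolynomial.X 0 := by
        rw [h0']; exact Dvd.dvd.mul_right (hy.symm.dvd.trans hγp) _
      exact absurd (MvPolynomial.X_dvd_X.1 h1) (by simp)
    · obtain ⟨w1, w2, hRw, hSw⟩ := (hN _ hpX1).2.2.2 (Associated.refl _)
      refine ⟨Polynomial.X - 2, w1, w2, hRw, by rwa [hz2], ?_⟩
      have h1 : bpoly k * (Polynomial.X - 2 : Polynomial (MvPolynomial (Fin 2) k)).coeff 0 =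
          bpoly k * (MvPolynomial.C i2) ^ 2 := by
        rw [← map_pow, hi2, map_neg, map_ofNat]; simp
      rw [h1]
      exact nonSq_mul_sq hγ hNS (hγu i2 (by rintro rfl; simp at hi2))
  -- the general curve
  have hx' : ∀ p : Polynomial (MvPolynomial (Fin 2) k), γ ∣ p.coeff 0 →
      ¬ Associated p (Polynomial.X + Polynomial.C (MvPolynomial.X 0)) := by
    intro p hγp hA
    obtain ⟨u, hu⟩ := hA.dvd
    have h0 : (Polynomial.X + Polynomial.C (MvPolynomial.X 0) :
        Polynomial (MvPolynomial (Fin 2) k)).coeff 0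
        = p.coeff 0 * u.coeff 0 := by rw [hu, Polynomial.mul_coeff_zero]
    have h0' : (MvPolynomial.X 0 : MvPolynomial (Fin 2) k) = p.coeff 0 * u.coeff 0 := by
      rw [← h0]; simp
    have h1 : γ ∣ MvPolynomial.X 0 := by rw [h0']; exact Dvd.dvd.mul_right hγp _
    exact hx (hγ.associated_of_dvd MvPolynomial.X_prime h1)
  have hy' : ∀ p : Polynomial (MvPolynomial (Fin 2) k), γ ∣ p.coeff 0 →
      ¬ Associated p (Polynomial.C (MvPolynomial.X 1)) := by
    intro p hγp hA
    obtain ⟨u, hu⟩ := hA.dvd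
    have h0 : (Polynomial.C (MvPolynomial.X 1) : Polynomial (MvPolynomial (Fin 2) k)).coeff 0
        = p.coeff 0 * u.coeff 0 := by rw [hu, Polynomial.mul_coeff_zero]
    rw [Polynomial.coeff_C_zero] at h0
    have h1 : γ ∣ MvPolynomial.X 1 := by rw [h0]; exact Dvd.dvd.mul_right hγp _
    exact hy (hγ.associated_of_dvd MvPolynomial.X_prime h1)
  have hpC : Prime (Polynomial.C γ) := Polynomial.prime_C_iff.2 hγ
  refine ch (MvPolynomial (Fin 2) k) (KK k) (ch1 k) hF1 h2u hi0' γ hγ
      (Polynomial.C γ) hpC (by simp) D hD ?_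
      c (bpoly k) v1 v2 hc hR hcs (by rwa [hbb]) hNS (Or.inl ?_)
  · intro p hp hγp hpX hpg
    exact key p hp hγp hpX (hx' p hγp) (hy' p hγp)
  · refine key _ hpC (by simp) ?_ (hx' _ (by simp)) (hy' _ (by simp))
    intro hA
    have h1 : Polynomial.C γ ∣ (Polynomial.X : Polynomial (MvPolynomial (Fin 2) k)) := hA.dvd
    have h2 := (Polynomial.C_dvd_iff_dvd_coeff _ _).1 h1 1
    rw [Polynomial.coeff_X_one] at h2
    exact hγ.not_unit (isUnit_of_dvd_one h2)

end Pool.Agent.PI
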