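import Pool.Agent.Lib.MP_43d240_ag.PI.Same

/-!
# Project PI, module C2: the chart `x + z = 0` (helper75)
-/

set_option autoImplicit false
set_option linter.unusedVariables false
set_option linter.unusedSectionVars false

open scoped Polynomial
open Matrix

namespace Pool.Agent.PI.C2Mod

open SameMod

section one

variable {B K : Type} [CommRing B] [IsDomain B] [Field K] {φ : B →+* K} {p : B}

theorem unitAt_map (hφ : Function.Injective φ) (hp : Prime p) (b : B) :
    UnitAt φ p (φ b) ↔ ¬ p ∣ b := by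
  constructor
  · rintro ⟨a, s, ha, hs, h⟩ hb
    have h1 : s * b = a := hφ (by rw [map_mul, h])
    exact ha (h1 ▸ hb.mul_left s)
  · intro hb
    exact ⟨b, 1, hb, fun h => hp.not_isUnit (isUnit_of_dvd_one h), by rw [map_one, one_mul]⟩

theorem sqAt_mul_sq (hφ : Function.Injective φ) (hp : Prime p) {x q : K} (hx : SqAt φ p x)
    (hq : UnitAt φ p q) : SqAt φ p (q ^ 2 * x) := by
  obtain ⟨w, hw, t, ht, h⟩ := hx
  refine ⟨q * w, unitAt_mul hφ hp hq hw, q ^ 2 * t, ?_, ?_⟩
  · have hq1 := ((unitAt_iff hφ hp q).1 hq).2.1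
    rw [pow_two]
    exact intAt_mul hp (intAt_mul hp hq1 hq1) ht
  · have : q ^ 2 * x - (q * w) ^ 2 = q ^ 2 * (x - w ^ 2) := by ring
    rw [this, h]; ring

end one

section two

variable {k : Type} [Field k]

theorem ch2_X0 : ch2 k (Polynomial.C (MvPolynomial.X 0)) = yy k := by
  simp [ch2, chartHom]

theorem ch2_X1 : ch2 k (Polynomial.C (MvPolynomial.X 1)) = zz k := by
  simp [ch2, chartHom]

theorem ch2_X : ch2 k Polynomial.X = xx k + zz k := by
  simp [ch2, chartHom]

theorem ch1_X : ch1 k Polynomial.X = zz k := by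
  simp [ch1, chartHom]

theorem ch1_X0 : ch1 k (Polynomial.C (MvPolynomial.X 0)) = xx k := by
  simp [ch1, chartHom]

theorem ch1_X1 : ch1 k (Polynomial.C (MvPolynomial.X 1)) = yy k := by
  simp [ch1, chartHom]

theorem dvd_coeff_zero {C : Type} [CommRing C] {p q : C[X]} (h : p ∣ q) :
    p.coeff 0 ∣ q.coeff 0 := by
  obtain ⟨r, rfl⟩ := h
  rw [Polynomial.mul_coeff_zero]
  exact dvd_mul_right _ _

theorem degreeOf_dvd {γ q : MvPolynomial (Fin 2) k} (h : γ ∣ q) (hq : q ≠ 0) :
    γ.degreeOf 0 ≤ q.degreeOf 0 := by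
  obtain ⟨r, rfl⟩ := h
  rw [MvPolynomial.degreeOf_mul_eq (left_ne_zero_of_mul hq) (right_ne_zero_of_mul hq)]
  exact Nat.le_add_right _ _

theorem X1_sub_ne_zero (a : k) : (MvPolynomial.X 1 - MvPolynomial.C a :
    MvPolynomial (Fin 2) k) ≠ 0 := by
  intro h
  have := congrArg (MvPolynomial.eval (fun _ => a + 1)) h
  simp at this

theorem degreeOf_X1_sub (a : k) : (MvPolynomial.X 1 - MvPolynomial.C a :
    MvPolynomial (Fin 2) k).degreeOf 0 = 0 := by
  apply Nat.le_zero.1
  refine (MvPolynomial.degreeOf_sub_le 0 _ _).trans ?_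
  rw [MvPolynomial.degreeOf_X_of_ne (by decide), MvPolynomial.degreeOf_C]
  simp

theorem not_dvd_X1_sub {γ : MvPolynomial (Fin 2) k} (hγ : Odd (γ.degreeOf 0)) (a : k) :
    ¬ γ ∣ (MvPolynomial.X 1 - MvPolynomial.C a) := by
  intro h
  have h1 := degreeOf_dvd h (X1_sub_ne_zero a)
  rw [degreeOf_X1_sub a] at h1
  rw [Nat.le_zero.1 h1] at hγ
  exact absurd hγ (by decide)

theorem nonSq_assoc {C : Type} [CommRing C] {γ γ' f : C} (h : Associated γ γ') (hf : NonSq γ f) :
    NonSq γ' f := by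
  intro p q hq hd
  exact hf p q (fun h1 => hq (h.symm.dvd.trans h1)) (h.dvd.trans hd)

end two

end Pool.Agent.PI.C2Mod

namespace Pool.Agent.PI

open SameMod C2Mod

/-- the primes of chart 2 through the point `γ` -/
theorem c2_uni (tr : TransferStatement) (hch : ChartsStatement) (nl : NLStatement)
    (hb : BFormsStatement) (k : Type) [Field k] [IsAlgClosed k] [CharZero k] (D : Fin 6 → KK k)
    (hN : ∀ p, Prime p → Norm k p D) (γ : MvPolynomial (Fin 2) k) (hγ : Prime γ)
    (hodd : Odd (γ.degreeOf 0)) (p : Polynomial (MvPolynomial (Fin 2) k)) (hp : Prime p)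
    (hγp : γ ∣ p.coeff 0) (hX : ¬ Associated p Polynomial.X)
    (hX0 : ¬ Associated p (Polynomial.C (MvPolynomial.X 0))) : Uni (ch2 k) p (diagonal D) := by
  obtain ⟨-, hF1, hF2, -, -, hml, -⟩ := hch k
  have i1 := hF1.1
  have i2 := hF2.1
  obtain ⟨p1, hp1, -, hS⟩ := tr _ _ _ (ch1 k) (ch2 k) hF1 hF2 1 1 hml p hp
    (fun h => hp.not_isUnit (isUnit_of_dvd_one h))
    ⟨1, 1, fun h => hp.not_isUnit (isUnit_of_dvd_one h),
      fun h => hp.not_isUnit (isUnit_of_dvd_one h), by simp⟩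
  -- transfer of divisibility
  have key : ∀ (q1 q2 : Polynomial (MvPolynomial (Fin 2) k)), ch1 k q1 = ch2 k q2 →
      p1 ∣ q1 → p ∣ q2 := by
    intro q1 q2 h h1
    by_contra h2
    have h3 := (unitAt_map i2 hp q2).2 h2
    rw [← h, ← unitAt_same i1 i2 hp1 hp hS] at h3
    exact (unitAt_map i1 hp1 q1).1 h3 h1
  have hU := (hN p1 hp1).1 ?_ ?_ ?_ ?_ ?_ ?_
  · exact (same _ _ _ (ch1 k) (ch2 k) hF1 hF2 p1 p hp1 hp hS).2.2.1 _ hU
  · -- z
    intro h
    have h1 : p ∣ Polynomial.C (MvPolynomial.X 1 - MvPolynomial.C 0) :=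
      key Polynomial.X _ (by rw [map_zero, sub_zero, ch1_X, ch2_X1]) h.dvd
    have h2 := hγp.trans (dvd_coeff_zero h1)
    rw [Polynomial.coeff_C_zero] at h2
    exact not_dvd_X1_sub hodd _ h2
  · -- x + z
    intro h
    have h1 : p ∣ Polynomial.X :=
      key (Polynomial.X + Polynomial.C (MvPolynomial.X 0)) _
        (by rw [map_add, ch1_X, ch1_X0, ch2_X, add_comm]) h.dvd
    exact hX ((hp.dvd_prime_iff_associated Polynomial.prime_X).1 h1)
  · -- y
    intro h
    have h1 : p ∣ Polynomial.C (MvPolynomial.X 0) :=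
      key (Polynomial.C (MvPolynomial.X 1)) _ (by rw [ch1_X1, ch2_X0]) h.dvd
    exact hX0 ((hp.dvd_prime_iff_associated
      (Polynomial.prime_C_iff.2 (MvPolynomial.X_prime (i := 0)))).1 h1)
  · -- z - 1
    intro h
    have h1 : p ∣ Polynomial.C (MvPolynomial.X 1 - MvPolynomial.C 1) :=
      key (Polynomial.X - 1) _ (by
        rw [map_sub, map_sub, ch1_X, map_sub, ch2_X1, map_one, map_one, map_one, map_one]) h
    have h2 := hγp.trans (dvd_coeff_zero h1)
    rw [Polynomial.coeff_C_zero] at h2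
    exact not_dvd_X1_sub hodd _ h2
  · -- z - 2
    intro h
    have h1 : p ∣ Polynomial.C (MvPolynomial.X 1 - MvPolynomial.C 2) :=
      key (Polynomial.X - 2) _ (by
        rw [map_sub, map_sub, ch1_X, map_sub, ch2_X1, map_ofNat, map_ofNat, map_ofNat,
          map_ofNat]) h
    have h2 := hγp.trans (dvd_coeff_zero h1)
    rw [Polynomial.coeff_C_zero] at h2
    exact not_dvd_X1_sub hodd _ h2
  · -- b
    intro h
    obtain ⟨n, e, he⟩ := hml.1 (Polynomial.C (bpoly k))
    rw [map_one, one_pow, mul_one] at he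
    have hbb : ch2 k e = bb k := by
      rw [← he]
      have := (hch k).1
      rw [this]
      rfl
    have h1 : p ∣ e := key _ _ he h
    have h2 := hγp.trans (dvd_coeff_zero h1)
    obtain ⟨γ', hγ', hd, hdeg⟩ := (hb k).2.2.2.2 γ hγ ⟨e, hbb, h2⟩
    have h3 := nl k γ' hγ'.irreducible (hdeg ▸ hodd) 0 1
      (fun h => hγ'.not_isUnit (isUnit_of_dvd_one h))
    apply h3
    simpa using hd

/-- MODULE C2 -/
theorem c2 (ch : ChartStatement) (nl : NLStatement) (tr : TransferStatement)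
    (hch : ChartsStatement) (hb : BFormsStatement) (ns : NonSquaresStatement)
    (dg : DegStatement) : C2Statement := by
  intro k _ _ _ D hD hN v1 v2 hR hS c hc hcS
  obtain ⟨-, hF1, hF2, -, -, hml, -⟩ := hch k
  have i1 := hF1.1
  have i2 := hF2.1
  apply dg (MvPolynomial (Fin 2) k) (fun c => c.degreeOf 0)
    (fun a b ha hb => MvPolynomial.degreeOf_mul_eq ha hb) c hc
  intro γ hγ hodd
  have h2 : IsUnit (2 : MvPolynomial (Fin 2) k) := by
    have : (2 : MvPolynomial (Fin 2) k) = MvPolynomial.C 2 := by rw [map_ofNat]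
    rw [this]
    exact (isUnit_iff_ne_zero.2 two_ne_zero).map MvPolynomial.C
  obtain ⟨i0, hi0⟩ := IsAlgClosed.exists_pow_nat_eq (-1 : k) (n := 2) (by norm_num)
  have hi : ∃ i0 : MvPolynomial (Fin 2) k, i0 ^ 2 = -1 :=
    ⟨MvPolynomial.C i0, by rw [← map_pow, hi0, map_neg, map_one]⟩
  have hf : SqAt (ch2 k) Polynomial.X
      (ch2 k (Polynomial.C (MvPolynomial.X 1 - 1)) * (v1 * v2)) := by
    rw [map_sub, map_sub, ch2_X1, map_one, map_one]
    exact hS
  have hf1 : NonSq γ (MvPolynomial.X 1 - 1) := (ns k).1 γ hγ hodd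
  by_cases h0 : Associated γ (MvPolynomial.X 0)
  · -- the point `y = 0`
    have hg : Prime (Polynomial.C (MvPolynomial.X 0) : Polynomial (MvPolynomial (Fin 2) k)) :=
      Polynomial.prime_C_iff.2 (MvPolynomial.X_prime (i := 0))
    refine ch _ _ (ch2 k) hF2 h2 hi γ hγ (Polynomial.C (MvPolynomial.X 0)) hg ?_ D hD ?_ c
      (MvPolynomial.X 1 - 1) v1 v2 hc hR hcS hf hf1 (Or.inr ?_)
    · rw [Polynomial.coeff_C_zero]; exact h0.symm
    · intro p hp hγp hX hX0
      exact c2_uni tr hch nl hb k D hN γ hγ hodd p hp hγp hX hX0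
    · obtain ⟨p1, hp1, -, hSm⟩ := tr _ _ _ (ch1 k) (ch2 k) hF1 hF2 1 1 hml _ hg
        (fun h => hg.not_isUnit (isUnit_of_dvd_one h))
        ⟨1, 1, fun h => hg.not_isUnit (isUnit_of_dvd_one h),
          fun h => hg.not_isUnit (isUnit_of_dvd_one h), by simp⟩
      have hp1d : p1 ∣ Polynomial.C (MvPolynomial.X 1) := by
        by_contra h3
        have h4 := (unitAt_map i1 hp1 _).2 h3
        rw [unitAt_same i1 i2 hp1 hg hSm, ch1_X1, ← ch2_X0, unitAt_map i2 hg] at h4
        exact h4 dvd_rfl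
      have hass : Associated p1 (Polynomial.C (MvPolynomial.X 1)) :=
        (hp1.dvd_prime_iff_associated (Polynomial.prime_C_iff.2 (MvPolynomial.X_prime (i := 1)))).1 hp1d
      obtain ⟨w1, w2, hRw, hSw⟩ := (hN p1 hp1).2.2.2 hass
      have hsame := same _ _ _ (ch1 k) (ch2 k) hF1 hF2 p1 _ hp1 hg hSm
      refine ⟨Polynomial.C (MvPolynomial.X 1 - 2), _, _, hsame.2.2.2.2 _ _ _ hRw, ?_, ?_⟩
      · have h5 := sqAt_mul_sq i2 hg ((hsame.2.1 _).1 hSw) hsame.2.2.2.1
        convert h5 using 1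
        rw [map_sub, map_sub, ch2_X1, map_ofNat, map_ofNat]
        ring
      · rw [Polynomial.coeff_C_zero]
        exact nonSq_assoc h0.symm (ns k).2.1
  · -- the other points
    have hg : Prime (Polynomial.C γ : Polynomial (MvPolynomial (Fin 2) k)) :=
      Polynomial.prime_C_iff.2 hγ
    refine ch _ _ (ch2 k) hF2 h2 hi γ hγ (Polynomial.C γ) hg ?_ D hD ?_ c
      (MvPolynomial.X 1 - 1) v1 v2 hc hR hcS hf hf1 (Or.inl ?_)
    · rw [Polynomial.coeff_C_zero]
    · intro p hp hγp hX hXg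
      apply c2_uni tr hch nl hb k D hN γ hγ hodd p hp hγp hX
      intro h6
      have h7 := h6.dvd
      have h8 := hγp.trans (dvd_coeff_zero h7)
      rw [Polynomial.coeff_C_zero] at h8
      exact h0 ((hγ.dvd_prime_iff_associated (MvPolynomial.X_prime (i := 0))).1 h8)
    · apply c2_uni tr hch nl hb k D hN γ hγ hodd _ hg
      · rw [Polynomial.coeff_C_zero]
      · intro h6
        have h7 := dvd_coeff_zero (h6.symm.dvd)
        have h8 := (hg.dvd_prime_iff_associated Polynomial.prime_X).1 h6.dvd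
        have h9 : Polynomial.C γ ∣ (Polynomial.X : Polynomial (MvPolynomial (Fin 2) k)) := h6.dvd
        rw [Polynomial.C_dvd_iff_dvd_coeff] at h9
        have h10 := h9 1
        rw [Polynomial.coeff_X_one] at h10
        exact hγ.not_isUnit (isUnit_of_dvd_one h10)
      · intro h6
        have h7 := dvd_coeff_zero h6.dvd
        rw [Polynomial.coeff_C_zero, Polynomial.coeff_C_zero] at h7
        exact h0 ((hγ.dvd_prime_iff_associated (MvPolynomial.X_prime (i := 0))).1 h7)

end Pool.Agent.PI
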