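import Pool.Agent.Lib.MP_43d240_ag.PI.GlobBase

/-!
# Project PI, module C3: the line at infinity of the plane `x + z = 0`
-/

set_option autoImplicit false
set_option linter.unusedVariables false
set_option linter.unusedSectionVars false

open scoped Polynomial
open Matrix

namespace Pool.Agent.PI

namespace C3aux

section
variable {B K : Type} [CommRing B] [IsDomain B] [Field K] {φ : B →+* K}

lemma map_ne (hφ : FracMap φ) {b : B} (h : b ≠ 0) : φ b ≠ 0 :=
  fun h0 => h (hφ.1 (by rw [h0, map_zero]))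

lemma unitAt_of {p b : B} (hp : Prime p) (h : ¬ p ∣ b) : UnitAt φ p (φ b) :=
  ⟨b, 1, h, fun h1 => hp.not_isUnit (isUnit_of_dvd_one h1), by simp⟩

lemma not_dvd_of_unitAt (hφ : FracMap φ) {p b : B} (h : UnitAt φ p (φ b)) : ¬ p ∣ b := by
  obtain ⟨a, s, ha, hs, e⟩ := h
  intro hb
  apply ha
  have : s * b = a := hφ.1 (by rw [map_mul, e])
  rw [← this]
  exact hb.mul_left s

lemma unitAt_mul {p : B} (hp : Prime p) {x y : K} (hx : UnitAt φ p x) (hy : UnitAt φ p y) :
    UnitAt φ p (x * y) := by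
  obtain ⟨a, s, ha, hs, e⟩ := hx
  obtain ⟨a', s', ha', hs', e'⟩ := hy
  refine ⟨a * a', s * s', fun h => (hp.dvd_or_dvd h).elim ha ha',
    fun h => (hp.dvd_or_dvd h).elim hs hs', ?_⟩
  rw [map_mul, map_mul, ← e, ← e']
  ring

lemma unitAt_ne_zero (hφ : FracMap φ) {p : B} {x : K} (hx : UnitAt φ p x) : x ≠ 0 := by
  obtain ⟨a, s, ha, hs, e⟩ := hx
  rintro rfl
  rw [mul_zero] at e
  have h0 : a = 0 := hφ.1 (by rw [← e, map_zero])
  exact ha (h0 ▸ dvd_zero p)

lemma unitAt_inv (hφ : FracMap φ) {p : B} {x : K} (hx : UnitAt φ p x) : UnitAt φ p x⁻¹ := by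
  have hx0 := unitAt_ne_zero hφ hx
  obtain ⟨a, s, ha, hs, e⟩ := hx
  refine ⟨s, a, hs, ha, ?_⟩
  rw [← e, mul_assoc, mul_inv_cancel₀ hx0, mul_one]

lemma unitAt_one {p : B} (hp : Prime p) : UnitAt φ p (1 : K) := by
  have := unitAt_of (φ := φ) hp (b := 1) (fun h1 => hp.not_isUnit (isUnit_of_dvd_one h1))
  simpa using this

lemma unitAt_pow {p : B} (hp : Prime p) {x : K} (hx : UnitAt φ p x) (n : ℕ) :
    UnitAt φ p (x ^ n) := by
  induction n with
  | zero => simpa using unitAt_one hp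
  | succ n ih => rw [pow_succ]; exact unitAt_mul hp ih hx

lemma sqAt_mul_sq {p : B} (hp : Prime p) {x u : K} (hu : UnitAt φ p u)
    (hx : SqAt φ p x) : SqAt φ p (u ^ 2 * x) := by
  obtain ⟨w, hw, t, ht, e⟩ := hx
  refine ⟨u * w, unitAt_mul hp hu hw, u ^ 2 * t, ?_, ?_⟩
  · obtain ⟨a, s, ha, hs, e1⟩ := unitAt_pow hp hu 2
    obtain ⟨a', s', hs', e2⟩ := ht
    refine ⟨a * a', s * s', fun h => (hp.dvd_or_dvd h).elim hs hs', ?_⟩
    rw [map_mul, map_mul, ← e1, ← e2]
    ring
  · have : u ^ 2 * x - (u * w) ^ 2 = u ^ 2 * (x - w ^ 2) := by ring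
    rw [this, e]
    ring

lemma same_of_associated (φ : B →+* K) {p p' : B} (h : Associated p p') : Same φ p φ p' := by
  intro x
  unfold IntAt
  have : ∀ s, p ∣ s ↔ p' ∣ s := fun s => h.dvd_iff_dvd_left
  simp only [this]

end

lemma same_prime (hs : SameStatement) (ht : TransferStatement) {B1 B2 K : Type} [CommRing B1]
    [IsDomain B1] [UniqueFactorizationMonoid B1] [CommRing B2] [IsDomain B2]
    [UniqueFactorizationMonoid B2] [Field K] {φ1 : B1 →+* K} {φ2 : B2 →+* K} (h1 : FracMap φ1)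
    (h2 : FracMap φ2) {t1 : B1} {t2 : B2} (hm : MutLoc φ1 t1 φ2 t2) {p2 : B2} (hp2 : Prime p2)
    (hd : ¬ p2 ∣ t2) (hu : UnitAt φ2 p2 (φ1 t1)) {q : B1} (hq : Prime q)
    (hn : ¬ UnitAt φ2 p2 (φ1 q)) : Same φ1 q φ2 p2 := by
  obtain ⟨p1, hp1, -, hS⟩ := ht B1 B2 K φ1 φ2 h1 h2 t1 t2 hm p2 hp2 hd hu
  have hU := (hs B1 B2 K φ1 φ2 h1 h2 p1 p2 hp1 hp2 hS).1
  have hdv : p1 ∣ q := by
    by_contra hcon
    exact hn ((hU _).1 (unitAt_of hp1 hcon))
  have has : Associated q p1 := ((hp1.dvd_prime_iff_associated hq).1 hdv).symm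
  intro x
  rw [same_of_associated φ1 has x]
  exact hS x

section charts

variable (k : Type) [Field k]

@[simp] lemma ch1_X : ch1 k Polynomial.X = zz k := by simp [ch1, chartHom]
@[simp] lemma ch1_C0 : ch1 k (Polynomial.C (MvPolynomial.X 0)) = xx k := by
  simp [ch1, chartHom]
@[simp] lemma ch1_C1 : ch1 k (Polynomial.C (MvPolynomial.X 1)) = yy k := by
  simp [ch1, chartHom]
@[simp] lemma ch2_X : ch2 k Polynomial.X = xx k + zz k := by simp [ch2, chartHom]
@[simp] lemma ch2_C0 : ch2 k (Polynomial.C (MvPolynomial.X 0)) = yy k := by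
  simp [ch2, chartHom]
@[simp] lemma ch2_C1 : ch2 k (Polynomial.C (MvPolynomial.X 1)) = zz k := by
  simp [ch2, chartHom]
@[simp] lemma ch3_X : ch3 k Polynomial.X = (xx k + zz k) / yy k := by simp [ch3, chartHom]
@[simp] lemma ch3_C0 : ch3 k (Polynomial.C (MvPolynomial.X 0)) = (yy k)⁻¹ := by
  simp [ch3, chartHom]
@[simp] lemma ch3_C1 : ch3 k (Polynomial.C (MvPolynomial.X 1)) = zz k := by
  simp [ch3, chartHom]
@[simp] lemma ch4_X : ch4 k Polynomial.X = zz k := by simp [ch4, chartHom]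
@[simp] lemma ch4_C0 : ch4 k (Polynomial.C (MvPolynomial.X 0)) = (xx k)⁻¹ := by
  simp [ch4, chartHom]
@[simp] lemma ch4_C1 : ch4 k (Polynomial.C (MvPolynomial.X 1)) = yy k / xx k := by
  simp [ch4, chartHom]

lemma prime_X_mv (i : Fin 2) : Prime (MvPolynomial.X i : MvPolynomial (Fin 2) k) :=
  MvPolynomial.X_prime

lemma prime_CX (i : Fin 2) :
    Prime (Polynomial.C (MvPolynomial.X i : MvPolynomial (Fin 2) k)) :=
  Polynomial.prime_C_iff.2 (MvPolynomial.X_prime)

lemma prime_X_add_C (a : MvPolynomial (Fin 2) k) : Prime (Polynomial.X + Polynomial.C a) := by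
  have := Polynomial.prime_X_sub_C (-a)
  simpa using this

lemma not_X0_dvd_X1 : ¬ (MvPolynomial.X 0 : MvPolynomial (Fin 2) k) ∣ MvPolynomial.X 1 := by
  intro h
  rw [MvPolynomial.X_dvd_X] at h
  exact absurd h (by decide)

end charts

end C3aux

open C3aux in
theorem c3 (ch : ChartStatement) (hs : SameStatement) (ht : TransferStatement)
    (hch : ChartsStatement) (hr : RevStatement) (hb : BFormsStatement)
    (ns : NonSquaresStatement) : C3Statement := by
  intro k _ _ _ D hD hN v1 v2 hR hfv c hc0 hcv w1 w2 hW hhw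
  obtain ⟨e1, F1, F2, F3, F4, M12, M13, M14, M43⟩ := hch k
  have hx : xx k ≠ 0 := by
    have := map_ne F1 (b := Polynomial.C (MvPolynomial.X 0))
      (Polynomial.C_ne_zero.2 (MvPolynomial.X_ne_zero 0))
    simpa using this
  have hy : yy k ≠ 0 := by
    have := map_ne F1 (b := Polynomial.C (MvPolynomial.X 1))
      (Polynomial.C_ne_zero.2 (MvPolynomial.X_ne_zero 1))
    simpa using this
  have hxz : xx k + zz k ≠ 0 := by
    have := map_ne F2 (b := Polynomial.X) Polynomial.X_ne_zero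
    simpa using this
  have hpX : Prime (Polynomial.X : Polynomial (MvPolynomial (Fin 2) k)) := Polynomial.prime_X
  have hXX0 : ¬ (Polynomial.X : Polynomial (MvPolynomial (Fin 2) k)) ∣
      Polynomial.C (MvPolynomial.X 0) := by
    rw [Polynomial.X_dvd_iff, Polynomial.coeff_C_zero]
    exact MvPolynomial.X_ne_zero 0
  have hy3X : UnitAt (ch3 k) Polynomial.X (yy k) := by
    have := unitAt_inv F3 (unitAt_of (φ := ch3 k) hpX hXX0)
    simpa using this
  have hqs : Prime (Polynomial.X + Polynomial.C (MvPolynomial.X 0) :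
    Polynomial (MvPolynomial (Fin 2) k)) := prime_X_add_C k _
  -- the prime `x + z` in charts 1, 2, 3
  have S13 : Same (ch1 k) (Polynomial.X + Polynomial.C (MvPolynomial.X 0)) (ch3 k)
      Polynomial.X := by
    refine same_prime hs ht F1 F3 M13 hpX hXX0 (by simpa using hy3X) hqs ?_
    intro hU
    have h2 : UnitAt (ch3 k) Polynomial.X (ch3 k Polynomial.X) := by
      have h3 := unitAt_mul hpX hU (unitAt_inv F3 hy3X)
      have h4 : ch1 k (Polynomial.X + Polynomial.C (MvPolynomial.X 0)) * (yy k)⁻¹ =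
          ch3 k Polynomial.X := by
        rw [map_add, ch1_X, ch1_C0, ch3_X]
        ring
      rwa [h4] at h3
    exact not_dvd_of_unitAt F3 h2 dvd_rfl
  have S12 : Same (ch1 k) (Polynomial.X + Polynomial.C (MvPolynomial.X 0)) (ch2 k)
      Polynomial.X := by
    refine same_prime hs ht F1 F2 M12 hpX (fun h => hpX.not_isUnit (isUnit_of_dvd_one h))
      (by simpa using unitAt_one hpX) hqs ?_
    intro hU
    have h2 : UnitAt (ch2 k) Polynomial.X (ch2 k Polynomial.X) := by
      have h4 : ch1 k (Polynomial.X + Polynomial.C (MvPolynomial.X 0)) =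
          ch2 k Polynomial.X := by
        rw [map_add, ch1_X, ch1_C0, ch2_X]
        ring
      rwa [h4] at hU
    exact not_dvd_of_unitAt F2 h2 dvd_rfl
  have S23 : Same (ch2 k) Polynomial.X (ch3 k) Polynomial.X := fun x => (S12 x).symm.trans (S13 x)
  obtain ⟨U23, Q23, -, -, R23⟩ := hs _ _ _ _ _ F2 F3 _ _ hpX hpX S23
  -- the line at infinity in charts 3, 4
  have hp0 : Prime (Polynomial.C (MvPolynomial.X 0 : MvPolynomial (Fin 2) k)) := prime_CX k 0
  have ht2 : ¬ Polynomial.C (MvPolynomial.X 0 : MvPolynomial (Fin 2) k) ∣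
      Polynomial.X - Polynomial.C (MvPolynomial.X 0 * MvPolynomial.X 1) := by
    intro h
    rw [Polynomial.C_dvd_iff_dvd_coeff] at h
    have h1 := h 1
    simp only [Polynomial.coeff_sub, Polynomial.coeff_X_one, Polynomial.coeff_C_succ,
      sub_zero] at h1
    exact (prime_X_mv k 0).not_isUnit (isUnit_of_dvd_one h1)
  have et2 : ch3 k (Polynomial.X - Polynomial.C (MvPolynomial.X 0 * MvPolynomial.X 1)) =
      xx k / yy k := by
    rw [map_sub, Polynomial.C_mul, map_mul, ch3_X, ch3_C0, ch3_C1]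
    field_simp
    ring
  have hyx : UnitAt (ch3 k) (Polynomial.C (MvPolynomial.X 0)) (yy k / xx k) := by
    have := unitAt_inv F3 (unitAt_of (φ := ch3 k) hp0 ht2)
    rw [et2, inv_div] at this
    exact this
  have S43 : Same (ch4 k) (Polynomial.C (MvPolynomial.X 0)) (ch3 k)
      (Polynomial.C (MvPolynomial.X 0)) := by
    refine same_prime hs ht F4 F3 M43 hp0 ht2 (by simpa using hyx) hp0 ?_
    intro hU
    have h2 : UnitAt (ch3 k) (Polynomial.C (MvPolynomial.X 0))
        (ch3 k (Polynomial.C (MvPolynomial.X 0))) := by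
      have h3 := unitAt_mul hp0 hU (unitAt_inv F3 hyx)
      have h4 : ch4 k (Polynomial.C (MvPolynomial.X 0)) * (yy k / xx k)⁻¹ =
          ch3 k (Polynomial.C (MvPolynomial.X 0)) := by
        rw [ch4_C0, ch3_C0]
        field_simp
      rwa [h4] at h3
    exact not_dvd_of_unitAt F3 h2 dvd_rfl
  obtain ⟨U43, Q43, -, -, R43⟩ := hs _ _ _ _ _ F4 F3 _ _ hp0 hp0 S43
  -- transported data
  have q23 : ch2 k Polynomial.X / ch3 k Polynomial.X = yy k := by
    rw [ch2_X, ch3_X]
    field_simp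
  have q43 : ch4 k (Polynomial.C (MvPolynomial.X 0)) / ch3 k (Polynomial.C (MvPolynomial.X 0)) =
      yy k / xx k := by
    rw [ch4_C0, ch3_C0]
    field_simp
  have R3 := R23 _ _ _ hR
  rw [q23] at R3
  have R3' := R43 _ _ _ hW
  rw [q43] at R3'
  obtain ⟨r, hr0, hre⟩ := (hr k c hc0).1
  have key := ch (MvPolynomial (Fin 2) k) (KK k) (ch3 k) F3 ?_ ?_ (MvPolynomial.X 0)
    (prime_X_mv k 0) (Polynomial.C (MvPolynomial.X 0)) hp0
    (by rw [Polynomial.coeff_C_zero]) D hD ?_ (r * MvPolynomial.X 0 ^ (c.degreeOf 0 + 1))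
    (MvPolynomial.X 1 - 1) (yy k * v1) (yy k * v2) ?_ R3 ?_ ?_ (ns k).2.2.1 (Or.inr ?_)
  · obtain ⟨n, e, he, hne⟩ := key
    have hcancel : ∀ (a b : ℕ), a ≤ b → r * MvPolynomial.X 0 ^ a = MvPolynomial.X 0 ^ b * e →
        a = b := by
      intro a b hab h
      obtain ⟨d, rfl⟩ := Nat.exists_eq_add_of_le hab
      rcases Nat.eq_zero_or_pos d with hd | hd
      · omega
      · exfalso
        apply hr0
        have h2 : r = MvPolynomial.X 0 ^ d * e := by
          have h3 : (MvPolynomial.X 0 : MvPolynomial (Fin 2) k) ^ a ≠ 0 :=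
            pow_ne_zero _ (MvPolynomial.X_ne_zero 0)
          apply mul_right_cancel₀ h3
          rw [h, pow_add]
          ring
        rw [h2]
        exact (dvd_pow_self _ (by omega)).mul_right e
    have hcancel2 : ∀ (a b : ℕ), b ≤ a → r * MvPolynomial.X 0 ^ a = MvPolynomial.X 0 ^ b * e →
        a = b := by
      intro a b hab h
      obtain ⟨d, rfl⟩ := Nat.exists_eq_add_of_le hab
      rcases Nat.eq_zero_or_pos d with hd | hd
      · omega
      · exfalso
        apply he
        have h2 : e = MvPolynomial.X 0 ^ d * r := by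
          have h3 : (MvPolynomial.X 0 : MvPolynomial (Fin 2) k) ^ b ≠ 0 :=
            pow_ne_zero _ (MvPolynomial.X_ne_zero 0)
          apply mul_left_cancel₀ h3
          rw [← h, pow_add]
          ring
        rw [h2]
        exact (dvd_pow_self _ (by omega)).mul_right r
    have hfin : c.degreeOf 0 + 1 = 2 * n := by
      rcases le_total (c.degreeOf 0 + 1) (2 * n) with h | h
      · exact hcancel _ _ h hne
      · exact hcancel2 _ _ h hne
    rw [Nat.odd_iff]
    omega
  · have : (2 : MvPolynomial (Fin 2) k) = MvPolynomial.C 2 := (map_ofNat MvPolynomial.C 2).symm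
    rw [this]
    exact (IsUnit.mk0 (2 : k) two_ne_zero).map MvPolynomial.C
  · obtain ⟨i0, hi⟩ := IsAlgClosed.exists_pow_nat_eq (-1 : k) (n := 2) (by norm_num)
    exact ⟨MvPolynomial.C i0, by rw [← map_pow, hi]; simp⟩
  · -- transfer to chart 1
    intro p hp hpd hpX' hp0'
    have hdX0 : ¬ p ∣ Polynomial.C (MvPolynomial.X 0) := fun h =>
      hp0' ((hp.dvd_prime_iff_associated hp0).1 h)
    have hyu : UnitAt (ch3 k) p (yy k) := by
      have := unitAt_inv F3 (unitAt_of (φ := ch3 k) hp hdX0)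
      simpa using this
    obtain ⟨p1, hp1, hp1y, S1⟩ := ht _ _ _ _ _ F1 F3 _ _ M13 p hp hdX0 (by simpa using hyu)
    obtain ⟨U1, -, N1, -, -⟩ := hs _ _ _ _ _ F1 F3 _ _ hp1 hp S1
    apply N1
    -- a constant whose reduction modulo `X0` is nonzero is a unit
    have hcoef : ∀ a : Polynomial (MvPolynomial (Fin 2) k),
        ¬ MvPolynomial.X 0 ∣ a.coeff 0 → ¬ p ∣ a := by
      intro a ha hpa
      apply ha
      obtain ⟨q, rfl⟩ := hpa
      rw [Polynomial.mul_coeff_zero]
      exact hpd.mul_right _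
    have hz : UnitAt (ch3 k) p (zz k) := by
      have := unitAt_of (φ := ch3 k) hp (hcoef (Polynomial.C (MvPolynomial.X 1)) (by
        rw [Polynomial.coeff_C_zero]; exact not_X0_dvd_X1 k))
      simpa using this
    have hzc : ∀ t : k, t ≠ 0 → UnitAt (ch3 k) p (zz k - algebraMap k (KK k) t) := by
      intro t ht0
      have := unitAt_of (φ := ch3 k) hp
        (hcoef (Polynomial.C (MvPolynomial.X 1 - MvPolynomial.C t)) (by
        rw [Polynomial.coeff_C_zero]
        intro h
        have h2 := map_dvd (MvPolynomial.eval (fun _ => (0 : k))) h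
        simp only [map_sub, MvPolynomial.eval_X, MvPolynomial.eval_C, zero_sub, zero_dvd_iff,
          neg_eq_zero] at h2
        exact ht0 h2))
      have e3 : ch3 k (Polynomial.C (MvPolynomial.X 1 - MvPolynomial.C t)) =
          zz k - algebraMap k (KK k) t := by
        simp [ch3, chartHom]
      rwa [e3] at this
    have hxzu : UnitAt (ch3 k) p (zz k + xx k) := by
      have h1 : UnitAt (ch3 k) p (ch3 k Polynomial.X) := unitAt_of hp (fun h =>
        hpX' ((hp.dvd_prime_iff_associated hpX).1 h))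
      have h2 := unitAt_mul hp h1 hyu
      have h3 : ch3 k Polynomial.X * yy k = zz k + xx k := by
        rw [ch3_X]
        field_simp
        ring
      rwa [h3] at h2
    have hbu : UnitAt (ch3 k) p (bb k) := by
      rw [(hb k).2.1]
      exact unitAt_mul hp (unitAt_pow hp hyu 6) (unitAt_of hp (hcoef _ (hb k).2.2.1))
    have hnd : ∀ a : Polynomial (MvPolynomial (Fin 2) k), UnitAt (ch3 k) p (ch1 k a) →
        ¬ p1 ∣ a := fun a ha => not_dvd_of_unitAt F1 ((U1 _).2 ha)
    apply (hN p1 hp1).1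
    · intro h
      exact hnd Polynomial.X (by simpa using hz) h.dvd
    · intro h
      exact hnd (Polynomial.X + Polynomial.C (MvPolynomial.X 0)) (by simpa using hxzu) h.dvd
    · intro h
      exact hnd (Polynomial.C (MvPolynomial.X 1)) (by simpa using hyu) h.dvd
    · apply hnd
      have := hzc 1 one_ne_zero
      simpa using this
    · apply hnd
      have := hzc 2 two_ne_zero
      rw [map_ofNat] at this
      rw [map_sub, ch1_X, map_ofNat]
      exact this
    · apply hnd
      have e5 : ch1 k (Polynomial.C (bpoly k)) = bb k := by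
        rw [e1]
        rfl
      rw [e5]
      exact hbu
  · refine mul_ne_zero ?_ (pow_ne_zero _ (MvPolynomial.X_ne_zero 0))
    rintro rfl
    exact hr0 (dvd_zero _)
  · -- the class of `c`
    have h1 := (Q23 _).1 hcv
    have h2 := sqAt_mul_sq hpX (unitAt_pow hpX (unitAt_inv F3 hy3X) (c.degreeOf 0)) h1
    have h3 : ((yy k)⁻¹ ^ (c.degreeOf 0)) ^ 2 * (ch2 k (Polynomial.C c) * v1) =
        ch3 k (Polynomial.C (r * MvPolynomial.X 0 ^ (c.degreeOf 0 + 1))) * (yy k * v1) := by
      have h5 : (yy k)⁻¹ ^ (c.degreeOf 0 + 1) = (yy k ^ (c.degreeOf 0))⁻¹ * (yy k)⁻¹ := by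
        rw [pow_succ, inv_pow]
      rw [hre, Polynomial.C_mul, Polynomial.C_pow, map_mul, map_pow, ch3_C0, h5, inv_pow]
      have hA0 : yy k ^ (c.degreeOf 0) ≠ 0 := pow_ne_zero _ hy
      generalize yy k ^ (c.degreeOf 0) = A at hA0 ⊢
      field_simp
    rwa [h3] at h2
  · have h1 := (Q23 _).1 hfv
    have h2 := sqAt_mul_sq hpX hy3X h1
    have e3 : ch3 k (Polynomial.C (MvPolynomial.X 1 - 1)) = zz k - 1 := by
      simp [ch3, chartHom]
    rw [e3]
    have h3 : yy k ^ 2 * ((zz k - 1) * (v1 * v2)) = (zz k - 1) * (yy k * v1 * (yy k * v2)) := by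
      ring
    rwa [h3] at h2
  · refine ⟨Polynomial.C ((MvPolynomial.X 1 - 1) * (MvPolynomial.X 1 - 2)), yy k / xx k * w1,
      yy k / xx k * w2, R3', ?_, ?_⟩
    · have h1 := (Q43 _).1 hhw
      have h2 := sqAt_mul_sq hp0 hyx h1
      have e3 : ch3 k (Polynomial.C ((MvPolynomial.X 1 - 1) * (MvPolynomial.X 1 - 2))) =
          (zz k - 1) * (zz k - 2) := by
        simp [ch3, chartHom]
      rw [e3]
      have h3 : (yy k / xx k) ^ 2 * ((zz k - 1) * (zz k - 2) * (w1 * w2)) =
          (zz k - 1) * (zz k - 2) * (yy k / xx k * w1 * (yy k / xx k * w2)) := by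
        ring
      rwa [h3] at h2
    · rw [Polynomial.coeff_C_zero]
      exact (ns k).2.2.2.1

end Pool.Agent.PI
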