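import Pool.Agent.Lib.MP_43d240_ag.PI.Base

/-!
# Project PI, chapter GLOB: statements of the modules

`KK k = k(x,y,z)`, `A = k[x,y][z]`. Four charts (ring homomorphisms `k[X0,X1][X] → KK k`):
* `ch1`: `X0 = x`, `X1 = y`, `X = z`;
* `ch2`: `X0 = y`, `X1 = z`, `X = x + z`;
* `ch3`: `X0 = 1/y`, `X1 = z`, `X = (x+z)/y`;
* `ch4`: `X0 = 1/x`, `X1 = y/x`, `X = z`.
-/

set_option autoImplicit false
set_option linter.unusedVariables false

open scoped Polynomial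
open Matrix

namespace Pool.Agent.PI

/-- the two pairs `(φ1, p1)`, `(φ2, p2)` define the same valuation ring of `K` -/
def Same {B1 B2 K : Type} [CommRing B1] [CommRing B2] [Field K] (φ1 : B1 →+* K) (p1 : B1)
    (φ2 : B2 →+* K) (p2 : B2) : Prop :=
  ∀ x : K, IntAt φ1 p1 x ↔ IntAt φ2 p2 x

/-- MODULE SAME (one file PI/Same.lean): transport along `Same`. -/
def SameStatement : Prop :=
  ∀ (B1 B2 K : Type) [CommRing B1] [IsDomain B1] [CommRing B2] [IsDomain B2] [Field K]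
    (φ1 : B1 →+* K) (φ2 : B2 →+* K), FracMap φ1 → FracMap φ2 →
    ∀ (p1 : B1) (p2 : B2), Prime p1 → Prime p2 → Same φ1 p1 φ2 p2 →
    (∀ x, UnitAt φ1 p1 x ↔ UnitAt φ2 p2 x) ∧ (∀ x, SqAt φ1 p1 x ↔ SqAt φ2 p2 x) ∧
    (∀ D, Uni φ1 p1 D → Uni φ2 p2 D) ∧
    UnitAt φ2 p2 (φ1 p1 / φ2 p2) ∧
    (∀ D v1 v2, Ram φ1 p1 D v1 v2 → Ram φ2 p2 D (φ1 p1 / φ2 p2 * v1) (φ1 p1 / φ2 p2 * v2))

/-- `B1` and `B2` become equal after inverting `t1`, `t2`. -/
def MutLoc {B1 B2 K : Type} [CommRing B1] [CommRing B2] [Field K] (φ1 : B1 →+* K) (t1 : B1)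
    (φ2 : B2 →+* K) (t2 : B2) : Prop :=
  (∀ b : B1, ∃ (n : ℕ) (c : B2), φ1 b * φ2 t2 ^ n = φ2 c) ∧
  (∀ c : B2, ∃ (n : ℕ) (b : B1), φ2 c * φ1 t1 ^ n = φ1 b)

/-- MODULE TR (PI/Transfer.lean): transfer of primes between mutually localized rings. -/
def TransferStatement : Prop :=
  ∀ (B1 B2 K : Type) [CommRing B1] [IsDomain B1] [UniqueFactorizationMonoid B1]
    [CommRing B2] [IsDomain B2] [UniqueFactorizationMonoid B2] [Field K]
    (φ1 : B1 →+* K) (φ2 : B2 →+* K), FracMap φ1 → FracMap φ2 →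
    ∀ (t1 : B1) (t2 : B2), MutLoc φ1 t1 φ2 t2 → ∀ p2 : B2, Prime p2 → ¬ p2 ∣ t2 →
    UnitAt φ2 p2 (φ1 t1) → ∃ p1 : B1, Prime p1 ∧ ¬ p1 ∣ t1 ∧ Same φ1 p1 φ2 p2

/-- MODULE SCALE (PI/Scale.lean) -/
def ScaleStatement : Prop :=
  ∀ (B K : Type) [CommRing B] [IsDomain B] [UniqueFactorizationMonoid B] [Field K]
    (φ : B →+* K), FracMap φ → ∀ (N : B → (Fin 6 → K) → Prop),
    (∀ p p' d, Associated p p' → N p d → N p' d) →
    (∀ p d e, Prime p → UnitAt φ p e → N p d → N p (fun i => e * d i)) →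
    ∀ d : Fin 6 → K, (∃ F : B, F ≠ 0 ∧ ∀ p, Prime p → ¬ p ∣ F → N p d) →
    (∀ p, Prime p → ∃ ε : ℕ, ε ≤ 1 ∧ N p (fun i => φ p ^ ε * d i)) →
    ∃ g : B, g ≠ 0 ∧ ∀ p, Prime p → N p (fun i => φ g * d i)

/-- MODULE CLS (PI/Cls.lean): the class of `v` modulo `X` is represented by a polynomial in `C`. -/
def ClsStatement : Prop :=
  ∀ (C K : Type) [CommRing C] [IsDomain C] [Field K] (φ : C[X] →+* K), FracMap φ →
    ∀ v : K, UnitAt φ Polynomial.X v → ∃ c : C, c ≠ 0 ∧ SqAt φ Polynomial.X (φ (Polynomial.C c) * v)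

/-! ### Degrees -/

section deg

variable (k : Type) [Field k]

/-- MODULE DEG (PI/Deg.lean) -/
def DegStatement : Prop :=
  ∀ (C : Type) [CommRing C] [IsDomain C] [UniqueFactorizationMonoid C] (deg : C → ℕ),
    (∀ a b, a ≠ 0 → b ≠ 0 → deg (a * b) = deg a + deg b) →
    ∀ c : C, c ≠ 0 → (∀ γ, Prime γ → Odd (deg γ) → ∃ (n : ℕ) (e : C), ¬ γ ∣ e ∧
      c = γ ^ (2 * n) * e) → Even (deg c)

/-- the chart homomorphism with `X0 = a`, `X1 = b`, `X = c` -/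
noncomputable def chartHom {K : Type} [Field K] [Algebra k K] (a b c : K) :
    Polynomial (MvPolynomial (Fin 2) k) →+* K :=
  Polynomial.eval₂RingHom (MvPolynomial.eval₂Hom (algebraMap k K) ![a, b]) c

noncomputable def ch1 : Polynomial (MvPolynomial (Fin 2) k) →+* KK k := chartHom k (xx k) (yy k) (zz k)
noncomputable def ch2 : Polynomial (MvPolynomial (Fin 2) k) →+* KK k :=
  chartHom k (yy k) (zz k) (xx k + zz k)
noncomputable def ch3 : Polynomial (MvPolynomial (Fin 2) k) →+* KK k :=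
  chartHom k (yy k)⁻¹ (zz k) ((xx k + zz k) / yy k)
noncomputable def ch4 : Polynomial (MvPolynomial (Fin 2) k) →+* KK k :=
  chartHom k (xx k)⁻¹ (yy k / xx k) (zz k)

/-- MODULE CH (PI/Charts.lean): the four charts. -/
def ChartsStatement : Prop :=
  ∀ (k : Type) [Field k] [IsAlgClosed k] [CharZero k], ch1 k = algebraMap _ (KK k) ∧
    FracMap (ch1 k) ∧ FracMap (ch2 k) ∧ FracMap (ch3 k) ∧ FracMap (ch4 k) ∧
    MutLoc (ch1 k) 1 (ch2 k) 1 ∧
    MutLoc (ch1 k) (Polynomial.C (MvPolynomial.X 1)) (ch3 k) (Polynomial.C (MvPolynomial.X 0)) ∧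
    MutLoc (ch1 k) (Polynomial.C (MvPolynomial.X 0)) (ch4 k) (Polynomial.C (MvPolynomial.X 0)) ∧
    MutLoc (ch4 k) (Polynomial.C (MvPolynomial.X 1)) (ch3 k)
      (Polynomial.X - Polynomial.C (MvPolynomial.X 0 * MvPolynomial.X 1))

/-- MODULE REV (PI/Rev.lean): reversal in the variable `X0`, homogenization. -/
def RevStatement : Prop :=
  ∀ (k : Type) [Field k] [IsAlgClosed k] [CharZero k] (c : MvPolynomial (Fin 2) k), c ≠ 0 →
    (∃ r : MvPolynomial (Fin 2) k, ¬ MvPolynomial.X 0 ∣ r ∧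
      ch2 k (Polynomial.C c) = yy k ^ (c.degreeOf 0) * ch3 k (Polynomial.C r)) ∧
    (∃ r : MvPolynomial (Fin 2) k, ¬ MvPolynomial.X 0 ∣ r ∧
      ch1 k (Polynomial.C c) = xx k ^ c.totalDegree * ch4 k (Polynomial.C r))

end deg

/-- reversed `b` for chart 4: `b(1/s, u/s) = s^-6 * b4(s, u)` -/
noncomputable def b4 (k : Type) [CommRing k] : MvPolynomial (Fin 2) k :=
  let s : MvPolynomial (Fin 2) k := MvPolynomial.X 0
  let m : MvPolynomial (Fin 2) k := MvPolynomial.X 1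
  let c : MvPolynomial (Fin 2) k := 1 - 2 * MvPolynomial.X 1
  4 * m ^ 5 * c - 4 * m ^ 3 * c ^ 3 + s ^ 2 * m ^ 4 + 30 * s ^ 2 * m ^ 2 * c ^ 2
    - 27 * s ^ 2 * c ^ 4 + 24 * s ^ 4 * m * c + 4 * s ^ 6

/-- `b` in chart 3: `b(x, 1/s) = s^-6 * b3(s, z, ρ)`, `x = (ρ - s z)/s` -/
noncomputable def b3 (k : Type) [CommRing k] : Polynomial (MvPolynomial (Fin 2) k) :=
  let s : Polynomial (MvPolynomial (Fin 2) k) := Polynomial.C (MvPolynomial.X 0)
  let z : Polynomial (MvPolynomial (Fin 2) k) := Polynomial.C (MvPolynomial.X 1)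
  let c : Polynomial (MvPolynomial (Fin 2) k) := Polynomial.X - s * z - 2
  4 * c - 4 * c ^ 3 + s ^ 2 + 30 * s ^ 2 * c ^ 2
    - 27 * s ^ 2 * c ^ 4 + 24 * s ^ 4 * c + 4 * s ^ 6

/-- MODULE B (PI/BForms.lean): `b` in charts 3 and 4, nonsquare facts for the explicit slots. -/
def BFormsStatement : Prop :=
  ∀ (k : Type) [Field k] [IsAlgClosed k] [CharZero k],
    (bb k = xx k ^ 6 * ch4 k (Polynomial.C (b4 k))) ∧
    (bb k = yy k ^ 6 * ch3 k (b3 k)) ∧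
    ¬ MvPolynomial.X 0 ∣ (b3 k).coeff 0 ∧
    (∀ e : k, e ≠ 0 → NonSq (MvPolynomial.X 0) (b4 k * MvPolynomial.C e)) ∧
    -- the restriction of `b` to `x + z = 0`: every factor has its `y`-degree equal to the total
    -- degree of a factor of `b`
    (∀ γ : MvPolynomial (Fin 2) k, Prime γ → (∃ e : Polynomial (MvPolynomial (Fin 2) k),
        ch2 k e = bb k ∧ γ ∣ e.coeff 0) →
      ∃ γ' : MvPolynomial (Fin 2) k, Prime γ' ∧ γ' ∣ bpoly k ∧ γ'.totalDegree = γ.degreeOf 0)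

/-- MODULE NSQ (PI/NonSquares.lean). In charts 2, 3 the variable `z` is `X1`. -/
def NonSquaresStatement : Prop :=
  ∀ (k : Type) [Field k] [IsAlgClosed k] [CharZero k],
    (∀ γ : MvPolynomial (Fin 2) k, Prime γ → Odd (γ.degreeOf 0) →
      NonSq γ (MvPolynomial.X 1 - 1)) ∧
    NonSq (MvPolynomial.X 0 : MvPolynomial (Fin 2) k)
      ((MvPolynomial.X 1 - 1) * (MvPolynomial.X 1 - 2)) ∧
    NonSq (MvPolynomial.X 0 : MvPolynomial (Fin 2) k) (MvPolynomial.X 1 - 1) ∧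
    NonSq (MvPolynomial.X 0 : MvPolynomial (Fin 2) k)
      ((MvPolynomial.X 1 - 1) * ((MvPolynomial.X 1 - 1) * (MvPolynomial.X 1 - 2))) ∧
    -- nonsquares at the ramified primes of `A`
    ¬ SqAt (ch1 k) (Polynomial.X + Polynomial.C (MvPolynomial.X 0)) (zz k - 1) ∧
    ¬ SqAt (ch1 k) (Polynomial.C (MvPolynomial.X 1)) (zz k - 2) ∧
    ¬ SqAt (ch4 k) (Polynomial.C (MvPolynomial.X 0)) ((zz k - 1) * (zz k - 2)) ∧
    (NLStatement → ¬ SqAt (ch1 k) Polynomial.X (bb k))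

/-- The normal form of the scaled form `D` at a prime `p` of `A`. -/
def Norm (k : Type) [Field k] (p : Polynomial (MvPolynomial (Fin 2) k)) (D : Fin 6 → KK k) :
    Prop :=
  (¬ Associated p Polynomial.X → ¬ Associated p (Polynomial.X + Polynomial.C (MvPolynomial.X 0)) →
    ¬ Associated p (Polynomial.C (MvPolynomial.X 1)) → ¬ p ∣ Polynomial.X - 1 →
    ¬ p ∣ Polynomial.X - 2 → ¬ p ∣ Polynomial.C (bpoly k) → Uni (ch1 k) p (diagonal D)) ∧
  (Associated p Polynomial.X → ∃ v1 v2, Ram (ch1 k) p (diagonal D) v1 v2 ∧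
    SqAt (ch1 k) p (bb k * (v1 * v2))) ∧
  (Associated p (Polynomial.X + Polynomial.C (MvPolynomial.X 0)) →
    ∃ v1 v2, Ram (ch1 k) p (diagonal D) v1 v2 ∧ SqAt (ch1 k) p ((zz k - 1) * (v1 * v2))) ∧
  (Associated p (Polynomial.C (MvPolynomial.X 1)) →
    ∃ v1 v2, Ram (ch1 k) p (diagonal D) v1 v2 ∧ SqAt (ch1 k) p ((zz k - 2) * (v1 * v2)))

/-- MODULE TABLE (PI/Table.lean): ramification table + scaling. -/
def TableStatement : Prop :=
  ∀ (k : Type) [Field k] [IsAlgClosed k] [CharZero k] (a' b' : Fin 2 → KK k),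
    (∀ j, a' j ≠ 0) → (∀ j, b' j ≠ 0) →
    SplitSyms (Fin.append (aS k) a') (Fin.append (bS k) b') →
    ∃ D : Fin 6 → KK k, (∀ i, D i ≠ 0) ∧ (∀ p, Prime p → Norm k p D) ∧
      ∃ ε : ℕ, ε ≤ 1 ∧ ∃ v1 v2, Ram (ch4 k) (Polynomial.C (MvPolynomial.X 0))
        (diagonal fun i => (xx k)⁻¹ ^ ε * D i) v1 v2 ∧
        SqAt (ch4 k) (Polynomial.C (MvPolynomial.X 0)) ((zz k - 1) * (zz k - 2) * (v1 * v2))

/-- MODULES C1, C2, C3, C4 (PI/C1.lean ...): the four chart arguments. `D` is the scaled form. -/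
def C1Statement : Prop :=
  ∀ (k : Type) [Field k] [IsAlgClosed k] [CharZero k] (D : Fin 6 → KK k), (∀ i, D i ≠ 0) →
    (∀ p, Prime p → Norm k p D) → ∀ v1 v2, Ram (ch1 k) Polynomial.X (diagonal D) v1 v2 →
    SqAt (ch1 k) Polynomial.X (bb k * (v1 * v2)) →
    ∀ c : MvPolynomial (Fin 2) k, c ≠ 0 → SqAt (ch1 k) Polynomial.X (ch1 k (Polynomial.C c) * v1) →
    Even c.totalDegree

def C2Statement : Prop :=
  ∀ (k : Type) [Field k] [IsAlgClosed k] [CharZero k] (D : Fin 6 → KK k), (∀ i, D i ≠ 0) →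
    (∀ p, Prime p → Norm k p D) → ∀ v1 v2, Ram (ch2 k) Polynomial.X (diagonal D) v1 v2 →
    SqAt (ch2 k) Polynomial.X ((zz k - 1) * (v1 * v2)) →
    ∀ c : MvPolynomial (Fin 2) k, c ≠ 0 → SqAt (ch2 k) Polynomial.X (ch2 k (Polynomial.C c) * v1) →
    Even (c.degreeOf 0)

/-- at infinity on `x + z = 0` (the case `ε = 0` is impossible) -/
def C3Statement : Prop :=
  ∀ (k : Type) [Field k] [IsAlgClosed k] [CharZero k] (D : Fin 6 → KK k), (∀ i, D i ≠ 0) →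
    (∀ p, Prime p → Norm k p D) → ∀ v1 v2, Ram (ch2 k) Polynomial.X (diagonal D) v1 v2 →
    SqAt (ch2 k) Polynomial.X ((zz k - 1) * (v1 * v2)) →
    ∀ c : MvPolynomial (Fin 2) k, c ≠ 0 → SqAt (ch2 k) Polynomial.X (ch2 k (Polynomial.C c) * v1) →
    ∀ w1 w2, Ram (ch4 k) (Polynomial.C (MvPolynomial.X 0)) (diagonal D) w1 w2 →
    SqAt (ch4 k) (Polynomial.C (MvPolynomial.X 0)) ((zz k - 1) * (zz k - 2) * (w1 * w2)) →
    Odd (c.degreeOf 0)

/-- at infinity on `z = 0` (the case `ε = 1` is impossible) -/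
def C4Statement : Prop :=
  ∀ (k : Type) [Field k] [IsAlgClosed k] [CharZero k] (D : Fin 6 → KK k), (∀ i, D i ≠ 0) →
    (∀ p, Prime p → Norm k p D) → ∀ v1 v2, Ram (ch1 k) Polynomial.X (diagonal D) v1 v2 →
    SqAt (ch1 k) Polynomial.X (bb k * (v1 * v2)) →
    ∀ c : MvPolynomial (Fin 2) k, c ≠ 0 → SqAt (ch1 k) Polynomial.X (ch1 k (Polynomial.C c) * v1) →
    ∀ w1 w2, Ram (ch4 k) (Polynomial.C (MvPolynomial.X 0))
      (diagonal fun i => (xx k)⁻¹ * D i) w1 w2 →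
    SqAt (ch4 k) (Polynomial.C (MvPolynomial.X 0)) ((zz k - 1) * (zz k - 2) * (w1 * w2)) →
    Odd c.totalDegree

end Pool.Agent.PI
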