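import Pool.Agent.Lib.MP_43d240_ag.PI.Val
import Pool.Agent.Lib.MP_43d240_ag.PI.GlobBase

/-!
# Project PI, module C4: the chart argument at infinity on `z = 0`
-/

set_option autoImplicit false
set_option linter.unusedVariables false

open scoped Polynomial
open Matrix

namespace Pool.Agent.PI

namespace ModC4

variable (k : Type) [Field k]

theorem ch4_X : ch4 k Polynomial.X = zz k := by simp [ch4, chartHom]

theorem ch4_X0 : ch4 k (Polynomial.C (MvPolynomial.X 0)) = (xx k)⁻¹ := by simp [ch4, chartHom]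

theorem ch4_X1 : ch4 k (Polynomial.C (MvPolynomial.X 1)) = yy k / xx k := by
  simp [ch4, chartHom]

theorem ch1_X : ch1 k Polynomial.X = zz k := by simp [ch1, chartHom]

theorem ch1_X0 : ch1 k (Polynomial.C (MvPolynomial.X 0)) = xx k := by simp [ch1, chartHom]

theorem ch1_X1 : ch1 k (Polynomial.C (MvPolynomial.X 1)) = yy k := by
  simp [ch1, chartHom]

end ModC4

open ModC4 in
theorem c4 (ch : ChartStatement) (hch : ChartsStatement) (hb : BFormsStatement)
    (rev : RevStatement) (tr : TransferStatement) (same : SameStatement) : C4Statement := by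
  intro k _ _ _ D hD hN v1 v2 hR hS c hc hcS w1 w2 hR4 hS4
  obtain ⟨h1, F1, F2, F3, F4, M12, M13, M14, M43⟩ := hch k
  obtain ⟨hb4, -, -, hnsq, -⟩ := hb k
  have hX0 : Prime (MvPolynomial.X 0 : MvPolynomial (Fin 2) k) := MvPolynomial.X_prime
  have hCX0 : Prime (Polynomial.C (MvPolynomial.X 0) : Polynomial (MvPolynomial (Fin 2) k)) :=
    Polynomial.prime_C_iff.2 hX0
  have hXX : Prime (Polynomial.X : Polynomial (MvPolynomial (Fin 2) k)) := Polynomial.prime_X
  have hbb : ch1 k (Polynomial.C (bpoly k)) = bb k := by rw [h1]; rfl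
  have hx : xx k ≠ 0 := by
    rw [← ch1_X0]; exact F1.ne_zero.2 hCX0.ne_zero
  have hz : zz k ≠ 0 := by
    rw [← ch1_X]; exact F1.ne_zero.2 hXX.ne_zero
  -- the unit `x` at primes of chart 4 other than `X0`
  have hxu : ∀ p : Polynomial (MvPolynomial (Fin 2) k), Prime p →
      ¬ Associated p (Polynomial.C (MvPolynomial.X 0)) → UnitAt (ch4 k) p (xx k) := by
    intro p hp hpa
    have hnd : ¬ p ∣ Polynomial.C (MvPolynomial.X 0) := fun h =>
      hpa ((Prime.dvd_prime_iff_associated hp hCX0).1 h)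
    have := ((unitAt_phi F4 hp).2 hnd).inv F4
    rwa [ch4_X0, inv_inv] at this
  have htr : ∀ p : Polynomial (MvPolynomial (Fin 2) k), Prime p →
      ¬ Associated p (Polynomial.C (MvPolynomial.X 0)) →
      ∃ p1 : Polynomial (MvPolynomial (Fin 2) k), Prime p1 ∧ Same (ch1 k) p1 (ch4 k) p := by
    intro p hp hpa
    have hnd : ¬ p ∣ Polynomial.C (MvPolynomial.X 0) := fun h =>
      hpa ((Prime.dvd_prime_iff_associated hp hCX0).1 h)
    obtain ⟨p1, hp1, -, hs⟩ := tr _ _ (KK k) (ch1 k) (ch4 k) F1 F4 _ _ M14 p hp hnd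
      (by rw [ch1_X0]; exact hxu p hp hpa)
    exact ⟨p1, hp1, hs⟩
  -- the prime `X`
  have hXna : ¬ Associated (Polynomial.X : Polynomial (MvPolynomial (Fin 2) k))
      (Polynomial.C (MvPolynomial.X 0)) := by
    intro h
    have h2 := h.dvd
    rw [Polynomial.X_dvd_iff, Polynomial.coeff_C_zero] at h2
    exact hX0.ne_zero h2
  obtain ⟨q1, hq1, hsq⟩ := htr Polynomial.X hXX hXna
  have hq1X : Associated q1 Polynomial.X := by
    refine (Prime.dvd_prime_iff_associated hq1 hXX).1 ?_
    by_contra hcon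
    have h2 := (unitAt_phi F1 hq1).2 hcon
    rw [(same _ _ _ _ _ F1 F4 _ _ hq1 hXX hsq).1, ch1_X, ← ch4_X, unitAt_phi F4 hXX] at h2
    exact h2 dvd_rfl
  have hsX : Same (ch1 k) Polynomial.X (ch4 k) Polynomial.X := fun x =>
    (intAt_assoc hq1X).symm.trans (hsq x)
  obtain ⟨-, sSq, -, -, sRam⟩ := same _ _ _ _ _ F1 F4 _ _ hXX hXX hsX
  have hxX : UnitAt (ch4 k) Polynomial.X (xx k) := hxu _ hXX hXna
  have hR' := sRam _ _ _ hR
  rw [ch1_X, ch4_X, div_self hz, one_mul, one_mul] at hR'
  have hR'' := hR'.smul_diag hXX (hxX.inv F4)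
  -- the polynomial
  obtain ⟨r, hr, hrc⟩ := (rev k c hc).2
  set n := c.totalDegree with hn
  have hr0 : r ≠ 0 := by rintro rfl; exact hr (dvd_zero _)
  -- apply the chart lemma
  have key := ch (MvPolynomial (Fin 2) k) (KK k) (ch4 k) F4
    (by
      have : IsUnit (2 : k) := isUnit_iff_ne_zero.2 two_ne_zero
      have h3 := this.map (MvPolynomial.C : k →+* MvPolynomial (Fin 2) k)
      rwa [map_ofNat] at h3)
    (by
      obtain ⟨i, hi⟩ := IsAlgClosed.exists_pow_nat_eq (-1 : k) (n := 2) (by norm_num)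
      exact ⟨MvPolynomial.C i, by rw [← map_pow, hi, map_neg, map_one]⟩)
    (MvPolynomial.X 0) hX0 (Polynomial.C (MvPolynomial.X 0)) hCX0
    (by rw [Polynomial.coeff_C_zero])
    (fun i => (xx k)⁻¹ * D i) (fun i => mul_ne_zero (inv_ne_zero hx) (hD i))
    (by
      intro p hp hp0 hpX hpC
      have hnd : ∀ e : Polynomial (MvPolynomial (Fin 2) k),
          ¬ MvPolynomial.X 0 ∣ e.coeff 0 → ¬ p ∣ e := by
        rintro e he ⟨f, rfl⟩
        rw [Polynomial.mul_coeff_zero] at he
        exact he (hp0.mul_right _)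
      have hun : ∀ e : Polynomial (MvPolynomial (Fin 2) k),
          ¬ MvPolynomial.X 0 ∣ e.coeff 0 → UnitAt (ch4 k) p (ch4 k e) :=
        fun e he => (unitAt_phi F4 hp).2 (hnd e he)
      have hX01 : ¬ (MvPolynomial.X 0 : MvPolynomial (Fin 2) k) ∣ 1 := hX0.not_dvd_one
      obtain ⟨p1, hp1, hs⟩ := htr p hp hpC
      obtain ⟨sU, -, sUni, -, -⟩ := same _ _ _ _ _ F1 F4 _ _ hp1 hp hs
      have hxp := hxu p hp hpC
      have hback : ∀ e : Polynomial (MvPolynomial (Fin 2) k),
          UnitAt (ch4 k) p (ch1 k e) → ¬ p1 ∣ e := fun e he =>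
        (unitAt_phi F1 hp1).1 ((sU _).2 he)
      refine (sUni _ ((hN p1 hp1).1 ?_ ?_ ?_ ?_ ?_ ?_)).smul_diag hp (hxp.inv F4)
      · intro h
        refine hback Polynomial.X ?_ h.dvd
        rw [ch1_X, ← ch4_X]
        exact (unitAt_phi F4 hp).2 fun h2 => hpX ((Prime.dvd_prime_iff_associated hp hXX).1 h2)
      · intro h
        refine hback _ ?_ h.dvd
        have e2 : ch1 k (Polynomial.X + Polynomial.C (MvPolynomial.X 0)) =
            xx k * ch4 k (1 + Polynomial.X * Polynomial.C (MvPolynomial.X 0)) := by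
          rw [map_add, ch1_X, ch1_X0, map_add, map_one, map_mul, ch4_X, ch4_X0]
          field_simp
          ring
        rw [e2]
        refine hxp.mul hp (hun _ ?_)
        simpa using hX01
      · intro h
        refine hback _ ?_ h.dvd
        have e2 : ch1 k (Polynomial.C (MvPolynomial.X 1)) =
            xx k * ch4 k (Polynomial.C (MvPolynomial.X 1)) := by
          rw [ch1_X1, ch4_X1]; field_simp
        rw [e2]
        refine hxp.mul hp (hun _ ?_)
        rw [Polynomial.coeff_C_zero, MvPolynomial.X_dvd_X]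
        simp
      · refine hback _ ?_
        have e2 : ch1 k (Polynomial.X - 1) = ch4 k (Polynomial.X - 1) := by
          rw [map_sub, map_sub, ch1_X, ch4_X, map_one, map_one]
        rw [e2]
        refine hun _ ?_
        simpa using hX01
      · refine hback _ ?_
        have e2 : ch1 k (Polynomial.X - 2) = ch4 k (Polynomial.X - 2) := by
          rw [map_sub, map_sub, ch1_X, ch4_X, map_ofNat, map_ofNat]
        rw [e2]
        refine hun _ ?_
        have e3 : (Polynomial.X - 2 : Polynomial (MvPolynomial (Fin 2) k)).coeff 0 = -2 := by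
          have : (2 : Polynomial (MvPolynomial (Fin 2) k)) = Polynomial.C 2 := by
            rw [map_ofNat]
          rw [this, Polynomial.coeff_sub, Polynomial.coeff_X_zero, Polynomial.coeff_C_zero]
          ring
        rw [e3, dvd_neg]
        intro h
        have hu2 : IsUnit (2 : MvPolynomial (Fin 2) k) := by
          have : IsUnit (2 : k) := isUnit_iff_ne_zero.2 two_ne_zero
          have h3 := this.map (MvPolynomial.C : k →+* MvPolynomial (Fin 2) k)
          rwa [map_ofNat] at h3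
        exact hX0.not_isUnit (isUnit_of_dvd_unit h hu2)
      · refine hback _ ?_
        rw [hbb, hb4]
        refine (hxp.pow hp 6).mul hp (hun _ ?_)
        rw [Polynomial.coeff_C_zero]
        have := (hnsq 1 one_ne_zero).not_dvd hX0
        rwa [map_one, mul_one] at this)
    (r * MvPolynomial.X 0 ^ (n + 1)) (b4 k) ((xx k)⁻¹ * v1) ((xx k)⁻¹ * v2)
    (mul_ne_zero hr0 (pow_ne_zero _ hX0.ne_zero)) hR''
    (by
      have h2 := (sSq _).1 hcS
      rw [hrc] at h2
      have h3 : ch4 k (Polynomial.C (r * MvPolynomial.X 0 ^ (n + 1))) * ((xx k)⁻¹ * v1) =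
          (xx k ^ n * ch4 k (Polynomial.C r) * v1) * ((xx k)⁻¹ ^ (n + 1)) ^ 2 := by
        have h4 : xx k ^ n * (xx k)⁻¹ ^ n = 1 := by
          rw [← mul_pow, mul_inv_cancel₀ hx, one_pow]
        rw [map_mul, map_pow, map_mul, map_pow, ch4_X0]
        calc ch4 k (Polynomial.C r) * (xx k)⁻¹ ^ (n + 1) * ((xx k)⁻¹ * v1)
            = ch4 k (Polynomial.C r) * v1 * (xx k)⁻¹ ^ (n + 1) * (xx k)⁻¹ * 1 := by ring
          _ = _ := by rw [← h4]; ring
      rw [h3, sqAt_mul_sq F4 hXX ((hxX.inv F4).pow hXX _)]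
      exact h2)
    (by
      have h2 := (sSq _).1 hS
      rw [hb4] at h2
      have h3 : ch4 k (Polynomial.C (b4 k)) * ((xx k)⁻¹ * v1 * ((xx k)⁻¹ * v2)) =
          (xx k ^ 6 * ch4 k (Polynomial.C (b4 k)) * (v1 * v2)) * ((xx k)⁻¹ ^ 4) ^ 2 := by
        field_simp
      rw [h3, sqAt_mul_sq F4 hXX ((hxX.inv F4).pow hXX _)]
      exact h2)
    (by have := hnsq 1 one_ne_zero; rwa [map_one, mul_one] at this)
    (Or.inr ⟨(Polynomial.X - 1) * (Polynomial.X - 2), w1, w2, hR4, by
        have e2 : ch4 k ((Polynomial.X - 1) * (Polynomial.X - 2)) =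
            (zz k - 1) * (zz k - 2) := by
          rw [map_mul, map_sub, map_sub, ch4_X, map_one, map_ofNat]
        rw [e2]; exact hS4, by
        have e3 : ((Polynomial.X - 1) * (Polynomial.X - 2) :
            Polynomial (MvPolynomial (Fin 2) k)).coeff 0 = MvPolynomial.C 2 := by
          have : (2 : Polynomial (MvPolynomial (Fin 2) k)) = Polynomial.C 2 := by
            rw [map_ofNat]
          rw [this, Polynomial.mul_coeff_zero, Polynomial.coeff_sub, Polynomial.coeff_sub,
            Polynomial.coeff_X_zero, Polynomial.coeff_C_zero, Polynomial.coeff_one_zero,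
            map_ofNat]
          ring
        rw [e3]
        exact hnsq 2 two_ne_zero⟩)
  obtain ⟨N, e, he, hce⟩ := key
  -- compare exponents of `X0`
  have h5 : n + 1 = 2 * N := by
    by_contra hne
    rcases Nat.lt_or_gt_of_ne hne with h | h
    · obtain ⟨t, ht⟩ := Nat.exists_eq_add_of_lt h
      apply hr
      have h6 : MvPolynomial.X 0 ^ (n + 1) * r =
          MvPolynomial.X 0 ^ (n + 1) * (MvPolynomial.X 0 * (MvPolynomial.X 0 ^ t * e)) := by
        rw [mul_comm, hce, ht]; ring
      exact ⟨_, mul_left_cancel₀ (pow_ne_zero _ hX0.ne_zero) h6⟩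
    · obtain ⟨t, ht⟩ := Nat.exists_eq_add_of_lt h
      apply he
      have h6 : MvPolynomial.X 0 ^ (2 * N) * e =
          MvPolynomial.X 0 ^ (2 * N) * (MvPolynomial.X 0 * (MvPolynomial.X 0 ^ t * r)) := by
        rw [← hce, ht]; ring
      exact ⟨_, mul_left_cancel₀ (pow_ne_zero _ hX0.ne_zero) h6⟩
  exact ⟨N - 1, by omega⟩

end Pool.Agent.PI
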