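import Pool.Agent.Lib.MP_43d240_ag.PI.GlobBase

/-!
# Project PI, module CH: the four charts
-/

set_option autoImplicit false

open scoped Polynomial

namespace Pool.Agent.PI

namespace CH

/-! ### The localized subring as a predicate -/

section inn

variable {B K : Type} [CommRing B] [Field K] (φ : B →+* K) (t : B)

/-- `x` lies in `φ B [1/t]` -/
def Inn (x : K) : Prop := ∃ (n : ℕ) (c : B), x * φ t ^ n = φ c

theorem Inn.map (c : B) : Inn φ t (φ c) := ⟨0, c, by simp⟩

variable {φ t}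

theorem Inn.add {x y : K} (hx : Inn φ t x) (hy : Inn φ t y) : Inn φ t (x + y) := by
  obtain ⟨n, c, hc⟩ := hx
  obtain ⟨m, e, he⟩ := hy
  refine ⟨n + m, c * t ^ m + e * t ^ n, ?_⟩
  rw [map_add, map_mul, map_mul, ← hc, ← he, map_pow, map_pow]
  ring

theorem Inn.mul {x y : K} (hx : Inn φ t x) (hy : Inn φ t y) : Inn φ t (x * y) := by
  obtain ⟨n, c, hc⟩ := hx
  obtain ⟨m, e, he⟩ := hy
  refine ⟨n + m, c * e, ?_⟩
  rw [map_mul, ← hc, ← he]
  ring

end inn

/-! ### Values of chart homomorphisms -/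

section chart

variable {k K : Type} [Field k] [Field K] [Algebra k K] (a b c : K)

@[simp] theorem chartHom_X : chartHom k a b c Polynomial.X = c := by
  simp [chartHom]

@[simp] theorem chartHom_X0 : chartHom k a b c (Polynomial.C (MvPolynomial.X 0)) = a := by
  simp [chartHom]

@[simp] theorem chartHom_X1 : chartHom k a b c (Polynomial.C (MvPolynomial.X 1)) = b := by
  simp [chartHom]

@[simp] theorem chartHom_C (r : k) :
    chartHom k a b c (Polynomial.C (MvPolynomial.C r)) = algebraMap k K r := by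
  simp [chartHom]

/-- two ring homomorphisms on `k[X0,X1][X]` agree if they agree on generators -/
theorem hom_ext {S : Type} [CommRing S] (f g : Polynomial (MvPolynomial (Fin 2) k) →+* S)
    (hC : ∀ r : k, f (Polynomial.C (MvPolynomial.C r)) = g (Polynomial.C (MvPolynomial.C r)))
    (h0 : f (Polynomial.C (MvPolynomial.X 0)) = g (Polynomial.C (MvPolynomial.X 0)))
    (h1 : f (Polynomial.C (MvPolynomial.X 1)) = g (Polynomial.C (MvPolynomial.X 1)))
    (hX : f Polynomial.X = g Polynomial.X) : f = g := by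
  refine Polynomial.ringHom_ext' ?_ hX
  refine MvPolynomial.ringHom_ext (fun r => by simpa using hC r) ?_
  intro i
  fin_cases i
  · simpa using h0
  · simpa using h1

/-- all values of a chart homomorphism lie in `φ B [1/t]` if the three coordinates and the
constants do -/
theorem chartHom_inn {B : Type} [CommRing B] (φ : B →+* K) (t : B)
    (hk : ∀ r : k, Inn φ t (algebraMap k K r)) (ha : Inn φ t a) (hb : Inn φ t b)
    (hc : Inn φ t c) (p : Polynomial (MvPolynomial (Fin 2) k)) :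
    Inn φ t (chartHom k a b c p) := by
  have h1 : ∀ q : MvPolynomial (Fin 2) k, Inn φ t (chartHom k a b c (Polynomial.C q)) := by
    intro q
    induction q using MvPolynomial.induction_on with
    | C r => rw [chartHom_C]; exact hk r
    | add p q hp hq => rw [map_add, map_add]; exact hp.add hq
    | mul_X p i hp =>
      rw [map_mul, map_mul]
      refine hp.mul ?_
      fin_cases i
      · change Inn φ t (chartHom k a b c (Polynomial.C (MvPolynomial.X 0)))
        rw [chartHom_X0]; exact ha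
      · change Inn φ t (chartHom k a b c (Polynomial.C (MvPolynomial.X 1)))
        rw [chartHom_X1]; exact hb
  induction p using Polynomial.induction_on with
  | C a => exact h1 a
  | add p q hp hq => rw [map_add]; exact hp.add hq
  | monomial n a ih =>
    rw [pow_succ, ← mul_assoc, map_mul]
    refine ih.mul ?_
    rw [chartHom_X]; exact hc

end chart

/-! ### Transport of `FracMap` -/

theorem fracMap_of_mutLoc {B1 B2 K : Type} [CommRing B1] [CommRing B2] [Field K]
    (φ1 : B1 →+* K) (φ2 : B2 →+* K) (t2 : B2) (h1 : FracMap φ1)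
    (h2 : Function.Injective φ2) (ht2 : φ2 t2 ≠ 0)
    (hm : ∀ b : B1, ∃ (n : ℕ) (c : B2), φ1 b * φ2 t2 ^ n = φ2 c) : FracMap φ2 := by
  refine ⟨h2, fun x => ?_⟩
  obtain ⟨a, s, hs, hx⟩ := h1.2 x
  obtain ⟨n, c, hc⟩ := hm a
  obtain ⟨m, e, he⟩ := hm s
  refine ⟨c * t2 ^ m, e * t2 ^ n, ?_, ?_⟩
  · rw [map_mul, map_pow, ← he]
    exact mul_ne_zero (mul_ne_zero hs (pow_ne_zero _ ht2)) (pow_ne_zero _ ht2)
  · rw [map_mul, map_mul, map_pow, map_pow, ← he, ← hc, ← hx]
    ring

/-- injectivity of a chart homomorphism from a birational inverse -/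
theorem injective_of_inverse {B K L : Type} [CommRing B] [CommRing L] [Field K]
    (φ φ1 : B →+* K) (φ' : B →+* L) (ι ψ : L →+* K) (hι : Function.Injective ι)
    (h1 : Function.Injective φ1) (hφ : ι.comp φ' = φ) (hψ : ψ.comp φ' = φ1) :
    Function.Injective φ := by
  rw [← hφ]
  have h2 : Function.Injective φ' := by
    have h3 : Function.Injective (ψ.comp φ') := by rw [hψ]; exact h1
    exact Function.Injective.of_comp (f := ψ) (g := φ') h3
  exact hι.comp h2

section main

variable (k : Type) [Field k]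

theorem ch1_eq : ch1 k = algebraMap _ (KK k) := by
  refine hom_ext _ _ (fun r => ?_) ?_ ?_ ?_
  · rw [ch1, chartHom_C, IsScalarTower.algebraMap_apply k (Polynomial (MvPolynomial (Fin 2) k))
      (KK k)]
    rfl
  · rw [ch1, chartHom_X0]; rfl
  · rw [ch1, chartHom_X1]; rfl
  · rw [ch1, chartHom_X]; rfl

theorem ch1_inj : Function.Injective (ch1 k) := by
  rw [ch1_eq]
  exact IsFractionRing.injective _ _

theorem ch1_frac : FracMap (ch1 k) := by
  refine ⟨ch1_inj k, fun x => ?_⟩
  obtain ⟨a, s, hs, rfl⟩ := IsFractionRing.div_surjective (A := Polynomial (MvPolynomial (Fin 2) k)) x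
  refine ⟨a, s, ?_, ?_⟩
  · rw [ch1_eq]
    exact IsFractionRing.to_map_ne_zero_of_mem_nonZeroDivisors hs
  · rw [ch1_eq]
    have : algebraMap (Polynomial (MvPolynomial (Fin 2) k)) (KK k) s ≠ 0 :=
      IsFractionRing.to_map_ne_zero_of_mem_nonZeroDivisors hs
    field_simp

theorem xx_ne : xx k ≠ 0 := by
  intro h
  have h1 : ch1 k (Polynomial.C (MvPolynomial.X 0)) = ch1 k 0 := by
    rw [ch1, chartHom_X0, h, map_zero]
  have h2 := ch1_inj k h1
  rw [← Polynomial.C_0] at h2
  exact MvPolynomial.X_ne_zero _ (Polynomial.C_injective h2)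

theorem yy_ne : yy k ≠ 0 := by
  intro h
  have h1 : ch1 k (Polynomial.C (MvPolynomial.X 1)) = ch1 k 0 := by
    rw [ch1, chartHom_X1, h, map_zero]
  have h2 := ch1_inj k h1
  rw [← Polynomial.C_0] at h2
  exact MvPolynomial.X_ne_zero _ (Polynomial.C_injective h2)

theorem inn_const (a b c : KK k) (t : Polynomial (MvPolynomial (Fin 2) k)) (r : k) :
    Inn (chartHom k a b c) t (algebraMap k (KK k) r) := by
  rw [← chartHom_C a b c r]
  exact Inn.map _ _ _

/-! ### mutual localizations -/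

theorem mut12 : MutLoc (ch1 k) 1 (ch2 k) 1 := by
  constructor
  · intro p
    refine chartHom_inn _ _ _ (ch2 k) 1 (inn_const k _ _ _ _) ?_ ?_ ?_ p
    · refine ⟨0, Polynomial.X - Polynomial.C (MvPolynomial.X 1), ?_⟩
      rw [map_sub, ch2, chartHom_X, chartHom_X1]; simp
    · refine ⟨0, Polynomial.C (MvPolynomial.X 0), ?_⟩
      rw [ch2, chartHom_X0]; simp
    · refine ⟨0, Polynomial.C (MvPolynomial.X 1), ?_⟩
      rw [ch2, chartHom_X1]; simp
  · intro p
    refine chartHom_inn _ _ _ (ch1 k) 1 (inn_const k _ _ _ _) ?_ ?_ ?_ p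
    · refine ⟨0, Polynomial.C (MvPolynomial.X 1), ?_⟩
      rw [ch1, chartHom_X1]; simp
    · refine ⟨0, Polynomial.X, ?_⟩
      rw [ch1, chartHom_X]; simp
    · refine ⟨0, Polynomial.C (MvPolynomial.X 0) + Polynomial.X, ?_⟩
      rw [map_add, ch1, chartHom_X, chartHom_X0]; simp

theorem mut13 : MutLoc (ch1 k) (Polynomial.C (MvPolynomial.X 1)) (ch3 k)
    (Polynomial.C (MvPolynomial.X 0)) := by
  have hy := yy_ne k
  constructor
  · intro p
    refine chartHom_inn _ _ _ (ch3 k) _ (inn_const k _ _ _ _) ?_ ?_ ?_ p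
    · refine ⟨1, Polynomial.X - Polynomial.C (MvPolynomial.X 1) * Polynomial.C (MvPolynomial.X 0), ?_⟩
      rw [map_sub, map_mul, ch3, chartHom_X, chartHom_X1, chartHom_X0]
      field_simp
      ring
    · refine ⟨1, 1, ?_⟩
      rw [ch3, chartHom_X0, map_one]
      field_simp
    · refine ⟨0, Polynomial.C (MvPolynomial.X 1), ?_⟩
      rw [ch3, chartHom_X1]; simp
  · intro p
    refine chartHom_inn _ _ _ (ch1 k) _ (inn_const k _ _ _ _) ?_ ?_ ?_ p
    · refine ⟨1, 1, ?_⟩
      rw [ch1, chartHom_X1, map_one]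
      field_simp
    · refine ⟨0, Polynomial.X, ?_⟩
      rw [ch1, chartHom_X]; simp
    · refine ⟨1, Polynomial.C (MvPolynomial.X 0) + Polynomial.X, ?_⟩
      rw [map_add, ch1, chartHom_X, chartHom_X0, chartHom_X1]
      field_simp

theorem mut14 : MutLoc (ch1 k) (Polynomial.C (MvPolynomial.X 0)) (ch4 k)
    (Polynomial.C (MvPolynomial.X 0)) := by
  have hx := xx_ne k
  constructor
  · intro p
    refine chartHom_inn _ _ _ (ch4 k) _ (inn_const k _ _ _ _) ?_ ?_ ?_ p
    · refine ⟨1, 1, ?_⟩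
      rw [ch4, chartHom_X0, map_one]
      field_simp
    · refine ⟨1, Polynomial.C (MvPolynomial.X 1), ?_⟩
      rw [ch4, chartHom_X1, chartHom_X0]
      field_simp
    · refine ⟨0, Polynomial.X, ?_⟩
      rw [ch4, chartHom_X]; simp
  · intro p
    refine chartHom_inn _ _ _ (ch1 k) _ (inn_const k _ _ _ _) ?_ ?_ ?_ p
    · refine ⟨1, 1, ?_⟩
      rw [ch1, chartHom_X0, map_one]
      field_simp
    · refine ⟨1, Polynomial.C (MvPolynomial.X 1), ?_⟩
      rw [ch1, chartHom_X1, chartHom_X0]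
      field_simp
    · refine ⟨0, Polynomial.X, ?_⟩
      rw [ch1, chartHom_X]; simp

theorem mut43 : MutLoc (ch4 k) (Polynomial.C (MvPolynomial.X 1)) (ch3 k)
    (Polynomial.X - Polynomial.C (MvPolynomial.X 0 * MvPolynomial.X 1)) := by
  have hx := xx_ne k
  have hy := yy_ne k
  have ht3 : ch3 k (Polynomial.X - Polynomial.C (MvPolynomial.X 0 * MvPolynomial.X 1))
      = xx k / yy k := by
    rw [map_sub, Polynomial.C_mul, map_mul, ch3, chartHom_X, chartHom_X1, chartHom_X0]
    field_simp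
    ring
  constructor
  · intro p
    refine chartHom_inn _ _ _ (ch3 k) _ (inn_const k _ _ _ _) ?_ ?_ ?_ p
    · refine ⟨1, Polynomial.C (MvPolynomial.X 0), ?_⟩
      rw [ht3, ch3, chartHom_X0]
      field_simp
    · refine ⟨1, 1, ?_⟩
      rw [ht3, map_one]
      field_simp
    · refine ⟨0, Polynomial.C (MvPolynomial.X 1), ?_⟩
      rw [ch3, chartHom_X1]; simp
  · intro p
    refine chartHom_inn _ _ _ (ch4 k) _ (inn_const k _ _ _ _) ?_ ?_ ?_ p
    · refine ⟨1, Polynomial.C (MvPolynomial.X 0), ?_⟩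
      rw [ch4, chartHom_X0, chartHom_X1]
      field_simp
    · refine ⟨0, Polynomial.X, ?_⟩
      rw [ch4, chartHom_X]; simp
    · refine ⟨1, 1 + Polynomial.X * Polynomial.C (MvPolynomial.X 0), ?_⟩
      rw [map_add, map_one, map_mul, ch4, chartHom_X, chartHom_X0, chartHom_X1]
      field_simp

/-! ### injectivity -/

/-- general ring homomorphism on `k[X0,X1][X]` -/
noncomputable def gch {L : Type} [CommRing L] [Algebra k L] (a b c : L) :
    Polynomial (MvPolynomial (Fin 2) k) →+* L :=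
  Polynomial.eval₂RingHom (MvPolynomial.eval₂Hom (algebraMap k L) ![a, b]) c

section gch

variable {L : Type} [CommRing L] [Algebra k L] (a b c : L)

theorem gch_X : gch k a b c Polynomial.X = c := by simp [gch]

theorem gch_X0 : gch k a b c (Polynomial.C (MvPolynomial.X 0)) = a := by simp [gch]

theorem gch_X1 : gch k a b c (Polynomial.C (MvPolynomial.X 1)) = b := by simp [gch]

theorem gch_C (r : k) : gch k a b c (Polynomial.C (MvPolynomial.C r)) = algebraMap k L r := by
  simp [gch]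

end gch

theorem ch2_inj : Function.Injective (ch2 k) := by
  refine injective_of_inverse (ch2 k) (ch1 k)
    (gch k (L := Polynomial (MvPolynomial (Fin 2) k)) (Polynomial.C (MvPolynomial.X 1))
      Polynomial.X (Polynomial.C (MvPolynomial.X 0) + Polynomial.X))
    (ch1 k) (chartHom k (zz k - yy k) (xx k) (yy k)) (ch1_inj k) (ch1_inj k) ?_ ?_
  · refine hom_ext _ _ (fun r => ?_) ?_ ?_ ?_
    · rw [RingHom.comp_apply, gch_C, ch2, chartHom_C]
      change ch1 k (Polynomial.C (MvPolynomial.C r)) = _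
      rw [ch1, chartHom_C]
    · rw [RingHom.comp_apply, gch_X0, ch2, chartHom_X0, ch1, chartHom_X1]
    · rw [RingHom.comp_apply, gch_X1, ch2, chartHom_X1, ch1, chartHom_X]
    · rw [RingHom.comp_apply, gch_X, ch2, chartHom_X, map_add, ch1, chartHom_X0, chartHom_X]
  · refine hom_ext _ _ (fun r => ?_) ?_ ?_ ?_
    · rw [RingHom.comp_apply, gch_C, ch1, chartHom_C]
      change chartHom k _ _ _ (Polynomial.C (MvPolynomial.C r)) = _
      rw [chartHom_C]
    · rw [RingHom.comp_apply, gch_X0, chartHom_X1, ch1, chartHom_X0]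
    · rw [RingHom.comp_apply, gch_X1, chartHom_X, ch1, chartHom_X1]
    · rw [RingHom.comp_apply, gch_X, map_add, chartHom_X0, chartHom_X, ch1, chartHom_X]
      ring

/-- the general step for `ch3` and `ch4` -/
theorem inj_of_loc (t : Polynomial (MvPolynomial (Fin 2) k)) (ht : ch1 k t ≠ 0)
    (φ ψ0 : Polynomial (MvPolynomial (Fin 2) k) →+* KK k) (hψ0 : ψ0 t ≠ 0)
    (hψC : ∀ r : k, ψ0 (Polynomial.C (MvPolynomial.C r)) = algebraMap k (KK k) r)
    (hφC : ∀ r : k, φ (Polynomial.C (MvPolynomial.C r)) = algebraMap k (KK k) r)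
    (n0 n1 n2 : ℕ) (c0 c1 c2 : Polynomial (MvPolynomial (Fin 2) k))
    (h0 : φ (Polynomial.C (MvPolynomial.X 0)) = ch1 k c0 * (ch1 k t)⁻¹ ^ n0)
    (h1 : φ (Polynomial.C (MvPolynomial.X 1)) = ch1 k c1 * (ch1 k t)⁻¹ ^ n1)
    (h2 : φ Polynomial.X = ch1 k c2 * (ch1 k t)⁻¹ ^ n2)
    (g0 : ψ0 c0 * (ψ0 t)⁻¹ ^ n0 = xx k) (g1 : ψ0 c1 * (ψ0 t)⁻¹ ^ n1 = yy k)
    (g2 : ψ0 c2 * (ψ0 t)⁻¹ ^ n2 = zz k) : Function.Injective φ := by
  let L := Localization.Away t
  let ι : L →+* KK k := IsLocalization.Away.lift t (IsUnit.mk0 _ ht)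
  let ψ : L →+* KK k := IsLocalization.Away.lift t (IsUnit.mk0 _ hψ0)
  have hι : ∀ b, ι (algebraMap _ L b) = ch1 k b := fun b => IsLocalization.Away.lift_eq t _ b
  have hψ : ∀ b, ψ (algebraMap _ L b) = ψ0 b := fun b => IsLocalization.Away.lift_eq t _ b
  let w : L := IsLocalization.Away.invSelf t
  have hw : algebraMap _ L t * w = 1 := IsLocalization.Away.mul_invSelf t
  have hιw : ι w = (ch1 k t)⁻¹ := by
    have h3 := congrArg ι hw
    rw [map_mul, hι, map_one] at h3
    exact eq_inv_of_mul_eq_one_right h3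
  have hψw : ψ w = (ψ0 t)⁻¹ := by
    have h3 := congrArg ψ hw
    rw [map_mul, hψ, map_one] at h3
    exact eq_inv_of_mul_eq_one_right h3
  have hιinj : Function.Injective ι := by
    rw [injective_iff_map_eq_zero]
    intro z hz
    obtain ⟨n, b, hb⟩ := IsLocalization.Away.surj t z
    have h3 : ι (z * algebraMap _ L t ^ n) = ch1 k b := by rw [hb, hι]
    rw [map_mul, hz, zero_mul] at h3
    have h4 : b = 0 := ch1_inj k (by rw [← h3, map_zero])
    rw [h4, map_zero] at hb
    have h5 : z * algebraMap _ L t ^ n * w ^ n = 0 := by rw [hb, zero_mul]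
    rwa [mul_assoc, ← mul_pow, hw, one_pow, mul_one] at h5
  have hkL : ∀ r : k, algebraMap k L r
      = algebraMap (Polynomial (MvPolynomial (Fin 2) k)) L (Polynomial.C (MvPolynomial.C r)) := by
    intro r
    rw [IsScalarTower.algebraMap_apply k (Polynomial (MvPolynomial (Fin 2) k)) L]
    rfl
  have hch1C : ∀ r : k, ch1 k (Polynomial.C (MvPolynomial.C r)) = algebraMap k (KK k) r := by
    intro r
    rw [ch1, chartHom_C]
  refine injective_of_inverse φ (ch1 k)
    (gch k (algebraMap _ L c0 * w ^ n0) (algebraMap _ L c1 * w ^ n1) (algebraMap _ L c2 * w ^ n2))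
    ι ψ hιinj (ch1_inj k) ?_ ?_
  · refine hom_ext _ _ (fun r => ?_) ?_ ?_ ?_
    · rw [RingHom.comp_apply, gch_C, hkL, hι, hch1C, hφC]
    · rw [RingHom.comp_apply, gch_X0, map_mul, map_pow, hι, hιw, h0]
    · rw [RingHom.comp_apply, gch_X1, map_mul, map_pow, hι, hιw, h1]
    · rw [RingHom.comp_apply, gch_X, map_mul, map_pow, hι, hιw, h2]
  · refine hom_ext _ _ (fun r => ?_) ?_ ?_ ?_
    · rw [RingHom.comp_apply, gch_C, hkL, hψ, hψC, hch1C]
    · rw [RingHom.comp_apply, gch_X0, map_mul, map_pow, hψ, hψw, g0, ch1, chartHom_X0]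
    · rw [RingHom.comp_apply, gch_X1, map_mul, map_pow, hψ, hψw, g1, ch1, chartHom_X1]
    · rw [RingHom.comp_apply, gch_X, map_mul, map_pow, hψ, hψw, g2, ch1, chartHom_X]

theorem ch3_inj : Function.Injective (ch3 k) := by
  have hx := xx_ne k
  have hy := yy_ne k
  have hy1 : ch1 k (Polynomial.C (MvPolynomial.X 1)) = yy k := by rw [ch1, chartHom_X1]
  refine inj_of_loc k (Polynomial.C (MvPolynomial.X 1)) (by rw [hy1]; exact hy) (ch3 k)
    (chartHom k (zz k / xx k - yy k) (xx k)⁻¹ (yy k)) ?_ (fun r => chartHom_C _ _ _ r)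
    (fun r => chartHom_C _ _ _ r) 1 0 1 1 Polynomial.X
    (Polynomial.C (MvPolynomial.X 0) + Polynomial.X) ?_ ?_ ?_ ?_ ?_ ?_
  · rw [chartHom_X1]; exact inv_ne_zero hx
  · rw [hy1, ch3, chartHom_X0, map_one]; simp
  · rw [ch3, chartHom_X1, ch1, chartHom_X]; simp
  · rw [hy1, ch3, chartHom_X, map_add, ch1, chartHom_X, chartHom_X0]
    field_simp
  · rw [chartHom_X1, map_one]; simp
  · rw [chartHom_X]; simp
  · rw [map_add, chartHom_X0, chartHom_X1, chartHom_X]
    field_simp
    ring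

theorem ch4_inj : Function.Injective (ch4 k) := by
  have hx := xx_ne k
  have hx1 : ch1 k (Polynomial.C (MvPolynomial.X 0)) = xx k := by rw [ch1, chartHom_X0]
  refine inj_of_loc k (Polynomial.C (MvPolynomial.X 0)) (by rw [hx1]; exact hx) (ch4 k)
    (chartHom k (xx k)⁻¹ (yy k / xx k) (zz k)) ?_ (fun r => chartHom_C _ _ _ r)
    (fun r => chartHom_C _ _ _ r) 1 1 0 1 (Polynomial.C (MvPolynomial.X 1))
    Polynomial.X ?_ ?_ ?_ ?_ ?_ ?_
  · rw [chartHom_X0]; exact inv_ne_zero hx
  · rw [hx1, ch4, chartHom_X0, map_one]; simp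
  · rw [hx1, ch4, chartHom_X1, ch1, chartHom_X1]
    field_simp
  · rw [ch4, chartHom_X, ch1, chartHom_X]; simp
  · rw [chartHom_X0, map_one]; simp
  · rw [chartHom_X1, chartHom_X0]
    field_simp
  · rw [chartHom_X]; simp

end main

end CH

/-- MODULE CH -/
theorem charts : ChartsStatement := by
  intro k _ _ _
  have hx := CH.xx_ne k
  have hy := CH.yy_ne k
  refine ⟨CH.ch1_eq k, CH.ch1_frac k, ?_, ?_, ?_, CH.mut12 k, CH.mut13 k, CH.mut14 k,
    CH.mut43 k⟩
  · exact CH.fracMap_of_mutLoc (ch1 k) (ch2 k) 1 (CH.ch1_frac k) (CH.ch2_inj k) (by simp)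
      (CH.mut12 k).1
  · refine CH.fracMap_of_mutLoc (ch1 k) (ch3 k) _ (CH.ch1_frac k) (CH.ch3_inj k) ?_
      (CH.mut13 k).1
    rw [ch3, CH.chartHom_X0]
    exact inv_ne_zero hy
  · refine CH.fracMap_of_mutLoc (ch1 k) (ch4 k) _ (CH.ch1_frac k) (CH.ch4_inj k) ?_
      (CH.mut14 k).1
    rw [ch4, CH.chartHom_X0]
    exact inv_ne_zero hx

end Pool.Agent.PI
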