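import Pool.Agent.Lib.MP_43d240_ag.PI.GlobBase

/-!
# Project PI, module CLS
-/

set_option autoImplicit false
set_option linter.unusedVariables false

open scoped Polynomial

namespace Pool.Agent.PI

theorem cls : ClsStatement := by
  intro C K _ _ _ φ hφ v hv
  obtain ⟨a, s, ha, hs, h⟩ := hv
  rw [Polynomial.X_dvd_iff] at ha hs
  have hdiv : (Polynomial.X : C[X]) ∣ Polynomial.C (s.coeff 0) * a - Polynomial.C (a.coeff 0) * s := by
    rw [Polynomial.X_dvd_iff]
    simp only [Polynomial.coeff_sub, Polynomial.coeff_C_mul]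
    ring
  obtain ⟨q, hq⟩ := hdiv
  have hsX : ¬ (Polynomial.X : C[X]) ∣ s := by rwa [Polynomial.X_dvd_iff]
  have hφs : φ s ≠ 0 := by
    intro h0
    have : s = 0 := hφ.1 (by rw [h0, map_zero])
    exact hs (by rw [this, Polynomial.coeff_zero])
  refine ⟨a.coeff 0 * s.coeff 0, mul_ne_zero ha hs, φ (Polynomial.C (a.coeff 0)), ?_, ?_⟩
  · refine ⟨Polynomial.C (a.coeff 0), 1, ?_, ?_, by simp⟩
    · rw [Polynomial.X_dvd_iff, Polynomial.coeff_C_zero]; exact ha
    · rw [Polynomial.X_dvd_iff, Polynomial.coeff_one_zero]; exact one_ne_zero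
  · refine ⟨φ (Polynomial.C (a.coeff 0) * q) / φ s, ⟨Polynomial.C (a.coeff 0) * q, s, hsX, ?_⟩, ?_⟩
    · rw [mul_div_cancel₀ _ hφs]
    · rw [mul_div_assoc', eq_div_iff hφs]
      have h2 := congrArg φ hq
      simp only [map_sub, map_mul] at h2 ⊢
      linear_combination φ (Polynomial.C (a.coeff 0)) * φ (Polynomial.C (s.coeff 0)) * h
        + φ (Polynomial.C (a.coeff 0)) * h2

end Pool.Agent.PI
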