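import Pool.Agent.Lib.MP_43d240_ag.PI.GlobBase

/-!
# Project PI, module DEG
-/

set_option autoImplicit false
set_option linter.unusedVariables false

namespace Pool.Agent.PI

theorem deg_even : DegStatement := by
  intro C _ _ _ deg hdeg c
  have h1 : deg 1 = 0 := by
    have := hdeg 1 1 one_ne_zero one_ne_zero
    rw [mul_one] at this; omega
  have hu : ∀ u : C, IsUnit u → deg u = 0 := by
    intro u hu
    obtain ⟨w, hw⟩ := hu.exists_right_inv
    have hw0 : w ≠ 0 := by rintro rfl; simp at hw
    have := hdeg u w hu.ne_zero hw0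
    rw [hw, h1] at this; omega
  have hpow : ∀ (p : C) (n : ℕ), p ≠ 0 → deg (p ^ n) = n * deg p := by
    intro p n hp
    induction n with
    | zero => simp [h1]
    | succ n ih => rw [pow_succ, hdeg _ _ (pow_ne_zero _ hp) hp, ih]; ring
  have hassoc : ∀ p q : C, q ≠ 0 → Associated p q → deg p = deg q := by
    rintro p q hq ⟨u, rfl⟩
    have hp : p ≠ 0 := by rintro rfl; simp at hq
    rw [hdeg p u hp u.ne_zero, hu _ u.isUnit, add_zero]
  induction c using (wellFounded_dvdNotUnit (α := C)).induction with
  | _ c ih =>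
    intro hc hγ
    by_cases hcu : IsUnit c
    · rw [hu c hcu]; exact Even.zero
    obtain ⟨p, hpi, hpc⟩ := WfDvdMonoid.exists_irreducible_factor hcu hc
    have hp : Prime p := hpi.prime
    rcases Nat.even_or_odd (deg p) with he | ho
    · obtain ⟨c', rfl⟩ := hpc
      have hc' : c' ≠ 0 := right_ne_zero_of_mul hc
      rw [hdeg p c' hp.ne_zero hc']
      refine he.add (ih c' ⟨hc', p, hpi.not_isUnit, mul_comm _ _⟩ hc' ?_)
      intro γ hγp hγo
      obtain ⟨n, e, hγe, h⟩ := hγ γ hγp hγo
      have hpe : p ∣ e := by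
        have : p ∣ γ ^ (2 * n) * e := ⟨c', h.symm⟩
        rcases hp.dvd_or_dvd this with h1 | h1
        · exfalso
          have h2 := hp.dvd_of_dvd_pow h1
          have h3 := hassoc p γ hγp.ne_zero ((hpi.dvd_irreducible_iff_associated hγp.irreducible).1 h2)
          rw [h3] at he
          exact (Nat.not_even_iff_odd.2 hγo) he
        · exact h1
      obtain ⟨e', rfl⟩ := hpe
      refine ⟨n, e', fun h' => hγe (h'.mul_left p), ?_⟩
      apply mul_left_cancel₀ hp.ne_zero
      rw [h]; ring
    · obtain ⟨n, e, hpe, h⟩ := hγ p hp ho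
      have hn : n ≠ 0 := by
        rintro rfl
        rw [mul_zero, pow_zero, one_mul] at h
        exact hpe (h ▸ hpc)
      have he0 : e ≠ 0 := by rintro rfl; exact hpe (dvd_zero _)
      rw [h, hdeg _ _ (pow_ne_zero _ hp.ne_zero) he0, hpow _ _ hp.ne_zero]
      refine Even.add ?_ (ih e ⟨he0, p ^ (2 * n), ?_, by rw [h]; ring⟩ he0 ?_)
      · rw [mul_assoc]; exact even_two_mul _
      · intro hun
        exact hpi.not_isUnit (isUnit_of_dvd_unit (dvd_pow_self p (by omega)) hun)
      · intro γ hγp hγo
        by_cases hγe : γ ∣ e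
        · obtain ⟨m, e', hγe', h'⟩ := hγ γ hγp hγo
          have hγpn : ¬ γ ∣ p ^ (2 * n) := by
            intro hd
            have h2 := hγp.dvd_of_dvd_pow hd
            have h3 := (hγp.irreducible.dvd_irreducible_iff_associated hpi).1 h2
            exact hpe (h3.symm.dvd.trans hγe)
          have hd : γ ^ (2 * m) ∣ p ^ (2 * n) * e := by
            rw [← h, h']; exact dvd_mul_right _ _
          have hd2 : γ ^ (2 * m) ∣ e := by
            exact hγp.pow_dvd_of_dvd_mul_left _ hγpn hd
          obtain ⟨e'', rfl⟩ := hd2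
          refine ⟨m, e'', ?_, rfl⟩
          intro hd3
          apply hγe'
          have : e' = p ^ (2 * n) * e'' := by
            apply mul_left_cancel₀ (pow_ne_zero (2 * m) hγp.ne_zero)
            rw [← h', h]; ring
          rw [this]
          exact hd3.mul_left _
        · exact ⟨0, e, hγe, by simp⟩

end Pool.Agent.PI
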