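import Pool.Agent.Lib.MP_43d240_ag.PI.Base

set_option autoImplicit false

open scoped Polynomial TensorProduct

namespace Pool.Agent.PI

theorem trdeg_KK (k : Type) [Field k] : Algebra.trdeg k (KK k) = 3 := by
  have h1 : Algebra.trdeg k (MvPolynomial (Fin 2) k) = 2 := by
    rw [MvPolynomial.trdeg_of_isDomain]; simp
  have h2 : Algebra.trdeg (MvPolynomial (Fin 2) k) (Polynomial (MvPolynomial (Fin 2) k)) = 1 :=
    Polynomial.trdeg_of_isDomain
  have h3 : Algebra.trdeg k (Polynomial (MvPolynomial (Fin 2) k)) = 3 := by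
    rw [← trdeg_add_eq k (MvPolynomial (Fin 2) k), h1, h2]; norm_num
  have : Algebra.IsAlgebraic (Polynomial (MvPolynomial (Fin 2) k)) (KK k) :=
    IsLocalization.isAlgebraic _ (nonZeroDivisors (Polynomial (MvPolynomial (Fin 2) k)))
  have h4 : Algebra.trdeg (Polynomial (MvPolynomial (Fin 2) k)) (KK k) = 0 :=
    trdeg_eq_zero
  rw [← trdeg_add_eq k (Polynomial (MvPolynomial (Fin 2) k)), h3, h4, add_zero]

theorem slots_ne_zero (k : Type) [Field k] [CharZero k] (hb : bpoly k ≠ 0) :
    (∀ j, aS k j ≠ 0) ∧ (∀ j, bS k j ≠ 0) := by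
  have inj : Function.Injective (algebraMap (Polynomial (MvPolynomial (Fin 2) k)) (KK k)) :=
    IsFractionRing.injective _ _
  constructor
  · intro j
    fin_cases j
    · show zz k ≠ 0
      unfold zz
      rw [← map_zero (algebraMap (Polynomial (MvPolynomial (Fin 2) k)) (KK k)), inj.ne_iff]
      exact Polynomial.X_ne_zero
    · show xx k + zz k ≠ 0
      unfold zz xx
      rw [← map_add, ← map_zero (algebraMap (Polynomial (MvPolynomial (Fin 2) k)) (KK k)),
        inj.ne_iff, add_comm]
      exact (Polynomial.monic_X_add_C _).ne_zero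
    · show yy k ≠ 0
      unfold yy
      rw [← map_zero (algebraMap (Polynomial (MvPolynomial (Fin 2) k)) (KK k)), inj.ne_iff]
      exact Polynomial.C_ne_zero.2 (MvPolynomial.X_ne_zero _)
  · intro j
    fin_cases j
    · show bb k ≠ 0
      unfold bb
      rw [← map_zero (algebraMap (Polynomial (MvPolynomial (Fin 2) k)) (KK k)), inj.ne_iff]
      exact Polynomial.C_ne_zero.2 hb
    · show zz k - 1 ≠ 0
      unfold zz
      rw [← map_one (algebraMap (Polynomial (MvPolynomial (Fin 2) k)) (KK k)), ← map_sub,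
        ← map_zero (algebraMap (Polynomial (MvPolynomial (Fin 2) k)) (KK k)), inj.ne_iff,
        ← Polynomial.C_1]
      exact Polynomial.X_sub_C_ne_zero _
    · show zz k - 2 ≠ 0
      have e : (2 : KK k) = algebraMap (Polynomial (MvPolynomial (Fin 2) k)) (KK k)
          (Polynomial.C 2) := by
        rw [show (Polynomial.C (2 : MvPolynomial (Fin 2) k)) = 2 from rfl, map_ofNat]
      unfold zz
      rw [e, ← map_sub,
        ← map_zero (algebraMap (Polynomial (MvPolynomial (Fin 2) k)) (KK k)), inj.ne_iff]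
      exact Polynomial.X_sub_C_ne_zero _

theorem bpoly_ne_zero (k : Type) [Field k] [CharZero k] : bpoly k ≠ 0 := by
  intro h
  have h1 := congrArg (MvPolynomial.eval ![(0 : k), 0]) h
  simp [bpoly] at h1

theorem final_of (al : AlgStatement) (gl : GlobStatement) : FinalStatement := by
  intro k _ _ _
  refine ⟨trdeg_KK k, ?_⟩
  obtain ⟨h1, h2⟩ := slots_ne_zero k (bpoly_ne_zero k)
  have : CharZero (KK k) := charZero_of_injective_algebraMap
    (algebraMap k (KK k)).injective
  exact al (KK k) two_ne_zero (aS k) (bS k) h1 h2 (fun a' b' ha hb => gl k a' b' ha hb)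

end Pool.Agent.PI
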