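import Pool.Agent.Lib.MP_43d240_ag.PI.AlgBase
import Pool.Agent.Lib.MP_43d240_ag.PI.Final
import Pool.Agent.Lib.MP_43d240_ag.H15.End

set_option autoImplicit false
set_option linter.unusedVariables false

open scoped TensorProduct

namespace Pool.Agent.PI

theorem field_of (nz : Alg.Nzd0Statement) (gl : GlobStatement) : FieldStatement := by
  intro k _ _ _
  obtain ⟨h1, h2⟩ := slots_ne_zero k (bpoly_ne_zero k)
  have : CharZero (KK k) := charZero_of_injective_algebraMap (algebraMap k (KK k)).injective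
  exact nz (KK k) (aS k) (bS k) h1 h2 (fun a' b' ha hb => gl k a' b' ha hb)

theorem division_of_surj (K D : Type) [Field K] [DivisionRing D] [Algebra K D]
    [FiniteDimensional K D] (hs : Function.Surjective (AlgHom.mulLeftRight K D))
    (e : D ≃ₐ[K] Dᵐᵒᵖ) (hn : Module.finrank K D = 64) :
    ∃ (D : Type) (_ : DivisionRing D) (_ : Algebra K D), Algebra.IsCentral K D ∧
      Module.finrank K D = 64 ∧ Nonempty (D ⊗[K] D ≃ₐ[K] Matrix (Fin 64) (Fin 64) K) := by
  have haz : IsAzumaya K D := PIEnd.azumaya_of_surj hs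
  refine ⟨D, inferInstance, inferInstance, inferInstance, hn, ?_⟩
  let e1 : D ⊗[K] D ≃ₐ[K] D ⊗[K] Dᵐᵒᵖ := Algebra.TensorProduct.congr AlgEquiv.refl e
  let e2 : D ⊗[K] Dᵐᵒᵖ ≃ₐ[K] Module.End K D :=
    AlgEquiv.ofBijective (AlgHom.mulLeftRight K D) haz.bij
  let e3 : Module.End K D ≃ₐ[K] Matrix (Fin 64) (Fin 64) K :=
    algEquivMatrix (Module.finBasisOfFinrankEq K _ hn)
  exact ⟨e1.trans (e2.trans e3)⟩

theorem final_of_field (hF : FieldStatement) : FinalStatement := by
  intro k _ _ _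
  refine ⟨trdeg_KK k, ?_⟩
  obtain ⟨h1, h2⟩ := slots_ne_zero k (bpoly_ne_zero k)
  have : CharZero (KK k) := charZero_of_injective_algebraMap (algebraMap k (KK k)).injective
  have hdom : IsDomain (Q3 (KK k) (aS k) (bS k)) := isDomain_Q3 _ _ _ (hF k)
  have hfd : FiniteDimensional (KK k) (Q3 (KK k) (aS k) (bS k)) := inferInstance
  let iD : DivisionRing (Q3 (KK k) (aS k) (bS k)) :=
    divisionRingOfFiniteDimensional (KK k) (Q3 (KK k) (aS k) (bS k))
  exact division_of_surj (KK k) (Q3 (KK k) (aS k) (bS k))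
    (surj_Q3 (KK k) two_ne_zero (aS k) (bS k) h1 h2) (opQ3 (KK k) (aS k) (bS k))
    (finrank_Q3 _ _ _)

end Pool.Agent.PI
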