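import Pool.Agent.Lib.MP_43d240_ag.PI.Base

/-!
# Project PI: API of the predicates IntAt, UnitAt, CongAt, SqAt, Uni, Ram
-/

set_option autoImplicit false
set_option linter.unusedVariables false
set_option linter.unusedSectionVars false

open scoped Polynomial
open Matrix

namespace Pool.Agent.PI

section frac
variable {B K : Type} [CommRing B] [Field K] {φ : B →+* K}

theorem FracMap.inj (h : FracMap φ) {a b : B} : φ a = φ b ↔ a = b := h.1.eq_iff

theorem FracMap.eq_zero (h : FracMap φ) {a : B} : φ a = 0 ↔ a = 0 := by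
  rw [← map_zero φ, h.inj]

theorem FracMap.ne_zero (h : FracMap φ) {a : B} : φ a ≠ 0 ↔ a ≠ 0 := h.eq_zero.not

end frac

section val
variable {B K : Type} [CommRing B] [IsDomain B] [Field K] {φ : B →+* K} {p : B}

theorem intAt_phi (hp : Prime p) (b : B) : IntAt φ p (φ b) :=
  ⟨b, 1, fun h => hp.not_isUnit (isUnit_of_dvd_one h), by simp⟩

theorem intAt_zero (hp : Prime p) : IntAt φ p (0 : K) := by
  simpa using intAt_phi (φ := φ) hp 0

theorem intAt_one (hp : Prime p) : IntAt φ p (1 : K) := by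
  simpa using intAt_phi (φ := φ) hp 1

theorem not_dvd_mul (hp : Prime p) {a b : B} (ha : ¬ p ∣ a) (hb : ¬ p ∣ b) : ¬ p ∣ a * b :=
  fun h => (hp.dvd_or_dvd h).elim ha hb

theorem not_dvd_pow (hp : Prime p) {a : B} (ha : ¬ p ∣ a) (n : ℕ) : ¬ p ∣ a ^ n :=
  fun h => ha (hp.dvd_of_dvd_pow h)

theorem IntAt.add (hp : Prime p) {x y : K} (hx : IntAt φ p x) (hy : IntAt φ p y) :
    IntAt φ p (x + y) := by
  obtain ⟨a, s, hs, h1⟩ := hx
  obtain ⟨b, t, ht, h2⟩ := hy
  refine ⟨a * t + b * s, s * t, not_dvd_mul hp hs ht, ?_⟩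
  simp only [map_mul, map_add]
  linear_combination (φ t) * h1 + (φ s) * h2

theorem IntAt.mul (hp : Prime p) {x y : K} (hx : IntAt φ p x) (hy : IntAt φ p y) :
    IntAt φ p (x * y) := by
  obtain ⟨a, s, hs, h1⟩ := hx
  obtain ⟨b, t, ht, h2⟩ := hy
  refine ⟨a * b, s * t, not_dvd_mul hp hs ht, ?_⟩
  simp only [map_mul]
  linear_combination (φ t * y) * h1 + (φ a) * h2

theorem IntAt.neg {x : K} (hx : IntAt φ p x) : IntAt φ p (-x) := by
  obtain ⟨a, s, hs, h1⟩ := hx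
  exact ⟨-a, s, hs, by simp only [map_neg]; linear_combination -h1⟩

theorem IntAt.sub (hp : Prime p) {x y : K} (hx : IntAt φ p x) (hy : IntAt φ p y) :
    IntAt φ p (x - y) := by
  rw [sub_eq_add_neg]; exact hx.add hp hy.neg

theorem IntAt.pow (hp : Prime p) {x : K} (hx : IntAt φ p x) (n : ℕ) : IntAt φ p (x ^ n) := by
  induction n with
  | zero => simpa using intAt_one hp
  | succ n ih => rw [pow_succ]; exact ih.mul hp hx

theorem intAt_sum (hp : Prime p) {ι : Type*} (s : Finset ι) (f : ι → K)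
    (h : ∀ i ∈ s, IntAt φ p (f i)) : IntAt φ p (∑ i ∈ s, f i) := by
  classical
  induction s using Finset.induction_on with
  | empty => simpa using intAt_zero hp
  | insert a s ha ih =>
    rw [Finset.sum_insert ha]
    exact (h a (by simp)).add hp (ih fun i hi => h i (by simp [hi]))

theorem intAt_prod (hp : Prime p) {ι : Type*} (s : Finset ι) (f : ι → K)
    (h : ∀ i ∈ s, IntAt φ p (f i)) : IntAt φ p (∏ i ∈ s, f i) := by
  classical
  induction s using Finset.induction_on with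
  | empty => simpa using intAt_one hp
  | insert a s ha ih =>
    rw [Finset.prod_insert ha]
    exact (h a (by simp)).mul hp (ih fun i hi => h i (by simp [hi]))

theorem IntAt.congr_assoc {p' : B} (h : Associated p p') {x : K} (hx : IntAt φ p x) :
    IntAt φ p' x := by
  obtain ⟨a, s, hs, h1⟩ := hx
  exact ⟨a, s, fun h' => hs ((h.dvd_iff_dvd_left).2 h'), h1⟩

theorem intAt_assoc {p' : B} (h : Associated p p') {x : K} : IntAt φ p x ↔ IntAt φ p' x :=
  ⟨fun hx => hx.congr_assoc h, fun hx => hx.congr_assoc h.symm⟩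

theorem UnitAt.intAt {x : K} (hx : UnitAt φ p x) : IntAt φ p x := by
  obtain ⟨a, s, ha, hs, h⟩ := hx
  exact ⟨a, s, hs, h⟩

theorem ne_zero_of_not_dvd {a : B} (ha : ¬ p ∣ a) : a ≠ 0 := by
  rintro rfl; exact ha (dvd_zero p)

theorem UnitAt.ne_zero (hφ : FracMap φ) {x : K} (hx : UnitAt φ p x) : x ≠ 0 := by
  obtain ⟨a, s, ha, hs, h⟩ := hx
  rintro rfl
  rw [mul_zero] at h
  exact ne_zero_of_not_dvd ha (hφ.eq_zero.1 h.symm)

theorem UnitAt.mul (hp : Prime p) {x y : K} (hx : UnitAt φ p x) (hy : UnitAt φ p y) :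
    UnitAt φ p (x * y) := by
  obtain ⟨a, s, ha, hs, h1⟩ := hx
  obtain ⟨b, t, hb, ht, h2⟩ := hy
  refine ⟨a * b, s * t, not_dvd_mul hp ha hb, not_dvd_mul hp hs ht, ?_⟩
  simp only [map_mul]
  linear_combination (φ t * y) * h1 + (φ a) * h2

theorem UnitAt.inv (hφ : FracMap φ) {x : K} (hx : UnitAt φ p x) : UnitAt φ p x⁻¹ := by
  have h0 := hx.ne_zero hφ
  obtain ⟨a, s, ha, hs, h1⟩ := hx
  refine ⟨s, a, hs, ha, ?_⟩
  rw [← h1]; field_simp

theorem unitAt_one (hp : Prime p) : UnitAt φ p (1 : K) :=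
  ⟨1, 1, fun h => hp.not_isUnit (isUnit_of_dvd_one h), fun h => hp.not_isUnit (isUnit_of_dvd_one h),
    by simp⟩

theorem UnitAt.pow (hp : Prime p) {x : K} (hx : UnitAt φ p x) (n : ℕ) : UnitAt φ p (x ^ n) := by
  induction n with
  | zero => simpa using unitAt_one hp
  | succ n ih => rw [pow_succ]; exact ih.mul hp hx

theorem UnitAt.zpow (hφ : FracMap φ) (hp : Prime p) {x : K} (hx : UnitAt φ p x) (n : ℤ) :
    UnitAt φ p (x ^ n) := by
  cases n with
  | ofNat n => simpa using hx.pow hp n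
  | negSucc n => rw [zpow_negSucc]; exact (hx.pow hp _).inv hφ

theorem UnitAt.div (hφ : FracMap φ) (hp : Prime p) {x y : K} (hx : UnitAt φ p x)
    (hy : UnitAt φ p y) : UnitAt φ p (x / y) := by
  rw [div_eq_mul_inv]; exact hx.mul hp (hy.inv hφ)

theorem UnitAt.neg {x : K} (hx : UnitAt φ p x) : UnitAt φ p (-x) := by
  obtain ⟨a, s, ha, hs, h1⟩ := hx
  exact ⟨-a, s, by rwa [dvd_neg], hs, by simp only [map_neg]; linear_combination -h1⟩

theorem unitAt_neg {x : K} : UnitAt φ p (-x) ↔ UnitAt φ p x :=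
  ⟨fun h => by simpa using h.neg, fun h => h.neg⟩

theorem unitAt_prod (hp : Prime p) {ι : Type*} (s : Finset ι) (f : ι → K)
    (h : ∀ i ∈ s, UnitAt φ p (f i)) : UnitAt φ p (∏ i ∈ s, f i) := by
  classical
  induction s using Finset.induction_on with
  | empty => simpa using unitAt_one hp
  | insert a s ha ih =>
    rw [Finset.prod_insert ha]
    exact (h a (by simp)).mul hp (ih fun i hi => h i (by simp [hi]))

theorem unitAt_phi (hφ : FracMap φ) (hp : Prime p) {b : B} : UnitAt φ p (φ b) ↔ ¬ p ∣ b := by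
  constructor
  · rintro ⟨a, s, ha, hs, h⟩ hb
    rw [← map_mul, hφ.inj] at h
    exact ha (h ▸ Dvd.dvd.mul_left hb s)
  · intro hb
    exact ⟨b, 1, hb, fun h => hp.not_isUnit (isUnit_of_dvd_one h), by simp⟩

theorem intAt_phi_div (hφ : FracMap φ) (hp : Prime p) {b : B} :
    IntAt φ p (φ b / φ p) ↔ p ∣ b := by
  have hp0 : φ p ≠ 0 := hφ.ne_zero.2 hp.ne_zero
  constructor
  · rintro ⟨a, s, hs, h⟩
    rw [mul_div_assoc', div_eq_iff hp0, ← map_mul, ← map_mul, hφ.inj] at h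
    have : p ∣ s * b := h ▸ dvd_mul_left p a
    exact (hp.dvd_or_dvd this).resolve_left hs
  · rintro ⟨c, rfl⟩
    rw [map_mul, mul_div_cancel_left₀ _ hp0]
    exact intAt_phi hp c

/-- an integral element which is not a unit is divisible by `p` -/
theorem IntAt.unit_or (hφ : FracMap φ) (hp : Prime p) {x : K} (hx : IntAt φ p x) :
    UnitAt φ p x ∨ IntAt φ p (x / φ p) := by
  have hp0 : φ p ≠ 0 := hφ.ne_zero.2 hp.ne_zero
  obtain ⟨a, s, hs, h⟩ := hx
  by_cases ha : p ∣ a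
  · right
    obtain ⟨c, rfl⟩ := ha
    refine ⟨c, s, hs, ?_⟩
    rw [mul_div_assoc', h, map_mul, mul_div_cancel_left₀ _ hp0]
  · exact Or.inl ⟨a, s, ha, hs, h⟩

theorem UnitAt.not_intAt_div (hφ : FracMap φ) (hp : Prime p) {x : K} (hx : UnitAt φ p x) :
    ¬ IntAt φ p (x / φ p) := by
  have hp0 : φ p ≠ 0 := hφ.ne_zero.2 hp.ne_zero
  obtain ⟨a, s, ha, hs, h⟩ := hx
  rintro ⟨c, t, ht, h2⟩
  rw [mul_div_assoc', div_eq_iff hp0] at h2
  have h3 : φ (t * a) = φ (p * (c * s)) := by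
    simp only [map_mul]
    linear_combination (-(φ t)) * h + (φ s) * h2
  rw [hφ.inj] at h3
  have : p ∣ t * a := h3 ▸ dvd_mul_right p _
  exact (hp.dvd_or_dvd this).elim ht ha

theorem unitAt_iff_not (hφ : FracMap φ) (hp : Prime p) {x : K} :
    UnitAt φ p x ↔ IntAt φ p x ∧ ¬ IntAt φ p (x / φ p) :=
  ⟨fun h => ⟨h.intAt, h.not_intAt_div hφ hp⟩, fun h => (h.1.unit_or hφ hp).resolve_right h.2⟩

theorem unitAt_iff (hφ : FracMap φ) (hp : Prime p) {x : K} :
    UnitAt φ p x ↔ x ≠ 0 ∧ IntAt φ p x ∧ IntAt φ p x⁻¹ := by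
  constructor
  · intro h
    exact ⟨h.ne_zero hφ, h.intAt, (h.inv hφ).intAt⟩
  · rintro ⟨h0, h1, h2⟩
    rcases h1.unit_or hφ hp with h | h
    · exact h
    · exfalso
      have h3 := h.mul hp h2
      have hp0 : φ p ≠ 0 := hφ.ne_zero.2 hp.ne_zero
      have h4 : x / φ p * x⁻¹ = φ 1 / φ p := by
        rw [map_one]; field_simp
      rw [h4, intAt_phi_div hφ hp] at h3
      exact hp.not_isUnit (isUnit_of_dvd_one h3)

theorem UnitAt.congr_assoc {p' : B} (h : Associated p p') {x : K} (hx : UnitAt φ p x) :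
    UnitAt φ p' x := by
  obtain ⟨a, s, ha, hs, h1⟩ := hx
  exact ⟨a, s, fun h' => ha ((h.dvd_iff_dvd_left).2 h'), fun h' => hs ((h.dvd_iff_dvd_left).2 h'),
    h1⟩

theorem unitAt_assoc {p' : B} (h : Associated p p') {x : K} : UnitAt φ p x ↔ UnitAt φ p' x :=
  ⟨fun hx => hx.congr_assoc h, fun hx => hx.congr_assoc h.symm⟩

/-- every nonzero element is a power of `p` times a unit -/
theorem exists_zpow [UniqueFactorizationMonoid B] (hφ : FracMap φ) (hp : Prime p) {x : K}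
    (hx : x ≠ 0) : ∃ (n : ℤ) (u : K), UnitAt φ p u ∧ x = φ p ^ n * u := by
  have key : ∀ b : B, b ≠ 0 → ∃ (n : ℕ) (c : B), ¬ p ∣ c ∧ b = p ^ n * c := by
    intro b hb
    obtain ⟨n, c, hc, h⟩ := WfDvdMonoid.max_power_factor hb hp.irreducible
    exact ⟨n, c, hc, h⟩
  have hp0 : φ p ≠ 0 := hφ.ne_zero.2 hp.ne_zero
  obtain ⟨a, s, hs, h⟩ := hφ.2 x
  have hs0 : s ≠ 0 := hφ.ne_zero.1 hs
  have ha0 : a ≠ 0 := by
    intro h0
    rw [h0, map_zero] at h
    exact (mul_ne_zero hs hx) h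
  obtain ⟨m, c, hc, rfl⟩ := key a ha0
  obtain ⟨n, d, hd, rfl⟩ := key s hs0
  have hd0 : φ d ≠ 0 := hφ.ne_zero.2 (ne_zero_of_not_dvd hd)
  refine ⟨(m : ℤ) - n, φ c / φ d, ⟨c, d, hc, hd, by field_simp⟩, ?_⟩
  rw [zpow_sub₀ hp0, zpow_natCast, zpow_natCast]
  simp only [map_mul, map_pow] at h
  have : φ p ^ n * φ d * x = φ p ^ m * φ c := h
  field_simp
  linear_combination this

theorem UnitAt.zpow_eq (hφ : FracMap φ) (hp : Prime p) {n : ℤ}
    (h : UnitAt φ p (φ p ^ n)) : n = 0 := by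
  by_contra hn
  wlog hpos : 0 < n generalizing n with H
  · apply H (n := -n)
    · rw [_root_.zpow_neg]; exact h.inv hφ
    · omega
    · omega
  obtain ⟨m, rfl⟩ := Int.eq_ofNat_of_zero_le hpos.le
  rw [zpow_natCast, ← map_pow, unitAt_phi hφ hp] at h
  exact h (dvd_pow_self p (by omega))

theorem zpow_unit_unique (hφ : FracMap φ) (hp : Prime p) {m n : ℤ} {u v : K}
    (hu : UnitAt φ p u) (hv : UnitAt φ p v) (h : φ p ^ m * u = φ p ^ n * v) :
    m = n ∧ u = v := by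
  have hp0 : φ p ≠ 0 := hφ.ne_zero.2 hp.ne_zero
  have hu0 := hu.ne_zero hφ
  have hv0 := hv.ne_zero hφ
  have h1 : φ p ^ (m - n) = v / u := by
    rw [zpow_sub₀ hp0]
    field_simp
    linear_combination h
  have h2 : m - n = 0 := by
    apply UnitAt.zpow_eq hφ hp
    rw [h1]
    exact hv.div hφ hp hu
  have h3 : m = n := by omega
  subst h3
  exact ⟨rfl, mul_left_cancel₀ (zpow_ne_zero _ hp0) h⟩

/-! ### Congruences and squares -/

theorem CongAt.refl (hp : Prime p) (x : K) : CongAt φ p x x :=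
  ⟨0, intAt_zero hp, by simp⟩

theorem CongAt.symm {x y : K} (h : CongAt φ p x y) : CongAt φ p y x := by
  obtain ⟨t, ht, h⟩ := h
  exact ⟨-t, ht.neg, by linear_combination -h⟩

theorem CongAt.trans (hp : Prime p) {x y z : K} (h : CongAt φ p x y) (h' : CongAt φ p y z) :
    CongAt φ p x z := by
  obtain ⟨t, ht, h⟩ := h
  obtain ⟨t', ht', h'⟩ := h'
  exact ⟨t + t', ht.add hp ht', by linear_combination h + h'⟩

theorem CongAt.add (hp : Prime p) {x y x' y' : K} (h : CongAt φ p x y) (h' : CongAt φ p x' y') :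
    CongAt φ p (x + x') (y + y') := by
  obtain ⟨t, ht, h⟩ := h
  obtain ⟨t', ht', h'⟩ := h'
  exact ⟨t + t', ht.add hp ht', by linear_combination h + h'⟩

theorem CongAt.mul (hp : Prime p) {x y x' y' : K} (hx' : IntAt φ p x') (hy : IntAt φ p y)
    (h : CongAt φ p x y) (h' : CongAt φ p x' y') :
    CongAt φ p (x * x') (y * y') := by
  obtain ⟨t, ht, h⟩ := h
  obtain ⟨t', ht', h'⟩ := h'
  exact ⟨t * x' + y * t', (ht.mul hp hx').add hp (hy.mul hp ht'),
    by linear_combination x' * h + y * h'⟩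

theorem CongAt.intAt (hp : Prime p) {x y : K} (h : CongAt φ p x y) (hx : IntAt φ p x) :
    IntAt φ p y := by
  obtain ⟨t, ht, h⟩ := h
  have : y = x - φ p * t := by linear_combination -h
  rw [this]
  exact hx.sub hp ((intAt_phi hp p).mul hp ht)

theorem CongAt.unitAt (hφ : FracMap φ) (hp : Prime p) {x y : K} (h : CongAt φ p x y)
    (hx : UnitAt φ p x) : UnitAt φ p y := by
  have hp0 : φ p ≠ 0 := hφ.ne_zero.2 hp.ne_zero
  rw [unitAt_iff_not hφ hp]
  refine ⟨h.intAt hp hx.intAt, fun hy => hx.not_intAt_div hφ hp ?_⟩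
  obtain ⟨t, ht, h⟩ := h
  have : x / φ p = y / φ p + t := by
    field_simp
    linear_combination h
  rw [this]
  exact hy.add hp ht

/-- congruence of elements of `B` -/
theorem congAt_phi (hφ : FracMap φ) (hp : Prime p) {a b : B} :
    CongAt φ p (φ a) (φ b) ↔ p ∣ a - b := by
  have hp0 : φ p ≠ 0 := hφ.ne_zero.2 hp.ne_zero
  rw [← intAt_phi_div hφ hp]
  constructor
  · rintro ⟨t, ht, h⟩
    rw [map_sub, h, mul_div_cancel_left₀ _ hp0]
    exact ht
  · intro h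
    exact ⟨_, h, by rw [map_sub]; field_simp⟩

theorem SqAt.unitAt (hφ : FracMap φ) (hp : Prime p) {x : K} (h : SqAt φ p x) : UnitAt φ p x := by
  obtain ⟨w, hw, h⟩ := h
  exact h.symm.unitAt hφ hp (hw.pow hp 2)

theorem sqAt_sq (hp : Prime p) {w : K} (hw : UnitAt φ p w) : SqAt φ p (w ^ 2) :=
  ⟨w, hw, CongAt.refl hp _⟩

theorem sqAt_one (hp : Prime p) : SqAt φ p (1 : K) := by
  simpa using sqAt_sq hp (unitAt_one (φ := φ) hp)

theorem SqAt.mul (hφ : FracMap φ) (hp : Prime p) {x y : K} (hx : SqAt φ p x) (hy : SqAt φ p y) :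
    SqAt φ p (x * y) := by
  have hy' := hy.unitAt hφ hp
  obtain ⟨w, hw, h⟩ := hx
  obtain ⟨w', hw', h'⟩ := hy
  refine ⟨w * w', hw.mul hp hw', ?_⟩
  rw [mul_pow]
  exact h.mul hp hy'.intAt (hw.pow hp 2).intAt h'

theorem SqAt.congr (hp : Prime p) {x y : K} (h : CongAt φ p x y) (hx : SqAt φ p x) :
    SqAt φ p y := by
  obtain ⟨w, hw, h'⟩ := hx
  exact ⟨w, hw, h.symm.trans hp h'⟩

theorem sqAt_congr (hp : Prime p) {x y : K} (h : CongAt φ p x y) : SqAt φ p x ↔ SqAt φ p y :=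
  ⟨fun hx => hx.congr hp h, fun hy => hy.congr hp h.symm⟩

theorem SqAt.inv (hφ : FracMap φ) (hp : Prime p) {x : K} (hx : SqAt φ p x) : SqAt φ p x⁻¹ := by
  have hu := hx.unitAt hφ hp
  have hx0 := hu.ne_zero hφ
  have : x⁻¹ = x * (x⁻¹) ^ 2 := by field_simp
  rw [this]
  exact hx.mul hφ hp (sqAt_sq hp (hu.inv hφ))

/-- multiplication by the square of a unit -/
theorem sqAt_mul_sq (hφ : FracMap φ) (hp : Prime p) {x w : K} (hw : UnitAt φ p w) :
    SqAt φ p (x * w ^ 2) ↔ SqAt φ p x := by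
  constructor
  · intro h
    have hw0 := hw.ne_zero hφ
    have h2 := h.mul hφ hp (sqAt_sq hp (hw.inv hφ))
    have : x * w ^ 2 * w⁻¹ ^ 2 = x := by field_simp
    rwa [this] at h2
  · intro h
    exact h.mul hφ hp (sqAt_sq hp hw)

theorem SqAt.of_mul_left (hφ : FracMap φ) (hp : Prime p) {x y : K} (h : SqAt φ p (x * y))
    (hx : SqAt φ p x) : SqAt φ p y := by
  have hx0 := (hx.unitAt hφ hp).ne_zero hφ
  have h2 := h.mul hφ hp (hx.inv hφ hp)
  have : x * y * x⁻¹ = y := by field_simp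
  rwa [this] at h2

theorem SqAt.of_mul_right (hφ : FracMap φ) (hp : Prime p) {x y : K} (h : SqAt φ p (x * y))
    (hy : SqAt φ p y) : SqAt φ p x := by
  rw [mul_comm] at h
  exact h.of_mul_left hφ hp hy

theorem sqAt_mul_left (hφ : FracMap φ) (hp : Prime p) {x y : K} (hx : SqAt φ p x) :
    SqAt φ p (x * y) ↔ SqAt φ p y :=
  ⟨fun h => h.of_mul_left hφ hp hx, fun h => hx.mul hφ hp h⟩

theorem SqAt.pow (hφ : FracMap φ) (hp : Prime p) {x : K} (hx : SqAt φ p x) (n : ℕ) :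
    SqAt φ p (x ^ n) := by
  induction n with
  | zero => simpa using sqAt_one hp
  | succ n ih => rw [pow_succ]; exact ih.mul hφ hp hx

theorem SqAt.zpow (hφ : FracMap φ) (hp : Prime p) {x : K} (hx : SqAt φ p x) (n : ℤ) :
    SqAt φ p (x ^ n) := by
  cases n with
  | ofNat n => simpa using hx.pow hφ hp n
  | negSucc n => rw [zpow_negSucc]; exact (hx.pow hφ hp _).inv hφ hp

/-- even powers of units are squares -/
theorem sqAt_zpow_even (hφ : FracMap φ) (hp : Prime p) {x : K} (hx : UnitAt φ p x) {n : ℤ}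
    (hn : Even n) : SqAt φ p (x ^ n) := by
  obtain ⟨m, rfl⟩ := hn
  have hx0 := hx.ne_zero hφ
  rw [zpow_add₀ hx0, ← pow_two]
  exact sqAt_sq hp (hx.zpow hφ hp m)

theorem sqAt_pow_even (hφ : FracMap φ) (hp : Prime p) {x : K} (hx : UnitAt φ p x) {n : ℕ}
    (hn : Even n) : SqAt φ p (x ^ n) := by
  have := sqAt_zpow_even hφ hp hx (n := (n : ℤ)) (by exact_mod_cast hn)
  simpa using this

theorem sqAt_neg_one (hφ : FracMap φ) (hp : Prime p) {i0 : B} (hi : i0 ^ 2 = -1) :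
    SqAt φ p (-1 : K) := by
  have h : φ i0 ^ 2 = -1 := by rw [← map_pow, hi, map_neg, map_one]
  rw [← h]
  apply sqAt_sq hp
  rw [unitAt_phi hφ hp]
  intro hd
  apply hp.not_isUnit
  apply isUnit_of_dvd_one
  have : (1 : B) = - (i0 * i0) := by linear_combination hi
  rw [this]
  exact (hd.mul_right i0).neg_right

theorem sqAt_neg (hφ : FracMap φ) (hp : Prime p) {i0 : B} (hi : i0 ^ 2 = -1) {x : K} :
    SqAt φ p (-x) ↔ SqAt φ p x := by
  rw [← neg_one_mul, sqAt_mul_left hφ hp (sqAt_neg_one hφ hp hi)]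

theorem SqAt.congr_assoc {p' : B} (h : Associated p p') (hp : Prime p) {x : K}
    (hx : SqAt φ p x) : SqAt φ p' x := by
  obtain ⟨w, hw, t, ht, h'⟩ := hx
  obtain ⟨u, hu⟩ := h
  refine ⟨w, hw.congr_assoc ⟨u, hu⟩, φ (↑u⁻¹ : B) * t, ?_, ?_⟩
  · have hp' : Prime p' := hu ▸ (prime_mul_iff.2 (Or.inl ⟨hp, u.isUnit⟩) : Prime (p * u))
    exact (intAt_phi hp' _).mul hp' (ht.congr_assoc ⟨u, hu⟩)
  · rw [h', ← hu, map_mul]
    have : φ (↑u : B) * φ (↑u⁻¹ : B) = 1 := by rw [← map_mul]; simp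
    linear_combination (- φ p * t) * this

/-! ### NonSq -/

theorem NonSq.not_dvd {f : B} (h : NonSq p f) (hp : Prime p) : ¬ p ∣ f := by
  have := h 0 1 (fun h => hp.not_isUnit (isUnit_of_dvd_one h))
  simpa using this

theorem nonSq_iff (hφ : FracMap φ) (hp : Prime p) {f : B} :
    NonSq p f ↔ (¬ p ∣ f ∧ ¬ SqAt φ p (φ f)) := by
  constructor
  · intro h
    refine ⟨h.not_dvd hp, ?_⟩
    rintro ⟨w, ⟨a, s, ha, hs, hw⟩, hc⟩
    apply h a s hs
    rw [← congAt_phi hφ hp]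
    have h1 := hc.mul hp (y' := φ s ^ 2) (x' := φ s ^ 2) ((intAt_phi hp s).pow hp 2) ?_
      (CongAt.refl hp _)
    · have e : w ^ 2 * φ s ^ 2 = φ (a ^ 2) := by
        rw [map_pow, ← hw]; ring
      rw [e] at h1
      simpa only [map_mul, map_pow] using h1
    · have : UnitAt φ p w := ⟨a, s, ha, hs, hw⟩
      exact (this.pow hp 2).intAt
  · rintro ⟨h1, h2⟩ a q hq hd
    apply h2
    have hq0 : φ q ≠ 0 := hφ.ne_zero.2 (ne_zero_of_not_dvd hq)
    have hqu : UnitAt φ p (φ q) := (unitAt_phi hφ hp).2 hq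
    rw [← congAt_phi hφ hp] at hd
    have h3 : SqAt φ p (φ (f * q ^ 2)) := by
      rw [sqAt_congr hp hd, map_pow]
      apply sqAt_sq hp
      rw [unitAt_phi hφ hp]
      intro ha
      rw [congAt_phi hφ hp] at hd
      have h4 : p ∣ f * q ^ 2 := by
        have := dvd_add hd (Dvd.dvd.mul_right ha a)
        have e : f * q ^ 2 - a ^ 2 + a * a = f * q ^ 2 := by ring
        rwa [e] at this
      rcases hp.dvd_or_dvd h4 with h | h
      · exact h1 h
      · exact hq (hp.dvd_of_dvd_pow h)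
    rw [map_mul, map_pow, sqAt_mul_sq hφ hp hqu] at h3
    exact h3

end val

/-! ### Forms -/

section forms
variable {B K : Type} [CommRing B] [IsDomain B] [Field K] {φ : B →+* K} {p : B}

theorem intAt_det (hp : Prime p) {n : ℕ} (M : Matrix (Fin n) (Fin n) K)
    (h : ∀ i j, IntAt φ p (M i j)) : IntAt φ p M.det := by
  rw [Matrix.det_apply]
  apply intAt_sum hp
  intro σ _
  have h1 : IntAt φ p (∏ i, M (σ i) i) := intAt_prod hp _ _ fun i _ => h _ _
  rcases Int.units_eq_one_or (Equiv.Perm.sign σ) with hs | hs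
  · rw [hs, one_smul]; exact h1
  · rw [hs, Units.neg_smul, one_smul]; exact h1.neg

/-- a diagonal form with unit entries is unimodular -/
theorem uni_of_units (hp : Prime p) {d : Fin 6 → K} (hd : ∀ i, UnitAt φ p (d i)) :
    Uni φ p (diagonal d) := by
  refine ⟨1, by simp, ?_, ?_⟩
  · intro i j
    simp only [transpose_one, one_mul, mul_one, diagonal_apply]
    split_ifs
    · exact (hd i).intAt
    · exact intAt_zero hp
  · simp only [transpose_one, one_mul, mul_one, det_diagonal]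
    exact unitAt_prod hp _ _ fun i _ => hd i

theorem diagonal_smul_eq {n : ℕ} (e : K) (d : Fin n → K) :
    (diagonal fun i => e * d i) = e • diagonal d := by
  ext i j
  by_cases h : i = j
  · subst h; simp
  · simp [h]

theorem conj_smul {n : ℕ} (e : K) (P D : Matrix (Fin n) (Fin n) K) :
    Pᵀ * (e • D) * P = e • (Pᵀ * D * P) := by
  simp

theorem conj_scale {n : ℕ} (c : K) (P D : Matrix (Fin n) (Fin n) K) :
    (c • P)ᵀ * D * (c • P) = c ^ 2 • (Pᵀ * D * P) := by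
  simp [pow_two, smul_smul]

/-- scaling by a unit -/
theorem Uni.smul (hp : Prime p) {e : K} (he : UnitAt φ p e)
    {D : Matrix (Fin 6) (Fin 6) K} (h : Uni φ p D) : Uni φ p (e • D) := by
  obtain ⟨P, hP, h1, h2⟩ := h
  refine ⟨P, hP, ?_, ?_⟩
  · intro i j
    rw [conj_smul, Matrix.smul_apply, smul_eq_mul]
    exact he.intAt.mul hp (h1 i j)
  · rw [conj_smul, det_smul]
    exact (he.pow hp _).mul hp h2

theorem Uni.smul_diag (hp : Prime p) {e : K} (he : UnitAt φ p e)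
    {d : Fin 6 → K} (h : Uni φ p (diagonal d)) : Uni φ p (diagonal fun i => e * d i) := by
  rw [diagonal_smul_eq]; exact h.smul hp he

/-- scaling by a square -/
theorem Uni.sq_smul {c : K} (hc : c ≠ 0)
    {D : Matrix (Fin 6) (Fin 6) K} (h : Uni φ p D) : Uni φ p (c ^ 2 • D) := by
  obtain ⟨P, hP, h1, h2⟩ := h
  have e : (c⁻¹ • P)ᵀ * (c ^ 2 • D) * (c⁻¹ • P) = Pᵀ * D * P := by
    rw [conj_smul, conj_scale, smul_smul]
    have : c ^ 2 * c⁻¹ ^ 2 = 1 := by field_simp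
    rw [this, one_smul]
  refine ⟨c⁻¹ • P, ?_, ?_, ?_⟩
  · rw [det_smul]; exact mul_ne_zero (pow_ne_zero _ (inv_ne_zero hc)) hP
  · rw [e]; exact h1
  · rw [e]; exact h2

theorem Uni.congr {D : Matrix (Fin 6) (Fin 6) K} (Q : Matrix (Fin 6) (Fin 6) K)
    (hQ : Q.det ≠ 0) (h : Uni φ p (Qᵀ * D * Q)) : Uni φ p D := by
  obtain ⟨P, hP, h1, h2⟩ := h
  have e : (Q * P)ᵀ * D * (Q * P) = Pᵀ * (Qᵀ * D * Q) * P := by
    rw [transpose_mul]; simp only [Matrix.mul_assoc]
  exact ⟨Q * P, by rw [det_mul]; exact mul_ne_zero hQ hP, by rw [e]; exact h1, by rw [e]; exact h2⟩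

theorem Ram.congr {D : Matrix (Fin 6) (Fin 6) K} {v1 v2 : K} (Q : Matrix (Fin 6) (Fin 6) K)
    (hQ : Q.det ≠ 0) (h : Ram φ p (Qᵀ * D * Q) v1 v2) : Ram φ p D v1 v2 := by
  obtain ⟨hv1, hv2, P, hP, u, hu, h1⟩ := h
  have e : (Q * P)ᵀ * D * (Q * P) = Pᵀ * (Qᵀ * D * Q) * P := by
    rw [transpose_mul]; simp only [Matrix.mul_assoc]
  exact ⟨hv1, hv2, Q * P, by rw [det_mul]; exact mul_ne_zero hQ hP, u, hu, by rw [e]; exact h1⟩

/-- scaling by a unit -/
theorem Ram.smul (hp : Prime p) {e : K} (he : UnitAt φ p e)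
    {D : Matrix (Fin 6) (Fin 6) K} {v1 v2 : K} (h : Ram φ p D v1 v2) :
    Ram φ p (e • D) (e * v1) (e * v2) := by
  obtain ⟨hv1, hv2, P, hP, u, hu, h1⟩ := h
  refine ⟨he.mul hp hv1, he.mul hp hv2, P, hP, fun i => e * u i, fun i => he.mul hp (hu i), ?_⟩
  rw [conj_smul, h1, ← diagonal_smul_eq]
  congr 1
  ext i
  fin_cases i <;> simp <;> ring

theorem Ram.smul_diag (hp : Prime p) {e : K} (he : UnitAt φ p e)
    {d : Fin 6 → K} {v1 v2 : K} (h : Ram φ p (diagonal d) v1 v2) :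
    Ram φ p (diagonal fun i => e * d i) (e * v1) (e * v2) := by
  rw [diagonal_smul_eq]; exact h.smul hp he

theorem Ram.sq_smul {c : K} (hc : c ≠ 0)
    {D : Matrix (Fin 6) (Fin 6) K} {v1 v2 : K} (h : Ram φ p D v1 v2) :
    Ram φ p (c ^ 2 • D) v1 v2 := by
  obtain ⟨hv1, hv2, P, hP, u, hu, h1⟩ := h
  have e : (c⁻¹ • P)ᵀ * (c ^ 2 • D) * (c⁻¹ • P) = Pᵀ * D * P := by
    rw [conj_smul, conj_scale, smul_smul]
    have : c ^ 2 * c⁻¹ ^ 2 = 1 := by field_simp
    rw [this, one_smul]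
  exact ⟨hv1, hv2, c⁻¹ • P, by rw [det_smul]; exact mul_ne_zero (pow_ne_zero _ (inv_ne_zero hc)) hP,
    u, hu, by rw [e]; exact h1⟩

theorem Uni.congr_assoc {p' : B} (h : Associated p p') {D : Matrix (Fin 6) (Fin 6) K}
    (hU : Uni φ p D) : Uni φ p' D := by
  obtain ⟨P, hP, h1, h2⟩ := hU
  exact ⟨P, hP, fun i j => (h1 i j).congr_assoc h, h2.congr_assoc h⟩

theorem Ram.congr_assoc (hφ : FracMap φ) (hp : Prime p) (u : Bˣ) {D : Matrix (Fin 6) (Fin 6) K}
    {v1 v2 : K} (h : Ram φ p D v1 v2) :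
    Ram φ (p * u) D (φ (↑u⁻¹ : B) * v1) (φ (↑u⁻¹ : B) * v2) := by
  have ha : Associated p (p * u) := ⟨u, rfl⟩
  have hp' : Prime (p * u) := (ha.prime_iff).1 hp
  have huu : UnitAt φ (p * u) (φ (↑u⁻¹ : B)) := by
    rw [unitAt_phi hφ hp']
    intro hd
    exact hp'.not_isUnit (isUnit_of_dvd_unit hd (u⁻¹).isUnit)
  obtain ⟨hv1, hv2, P, hP, w, hw, h1⟩ := h
  have hone : φ (↑u : B) * φ (↑u⁻¹ : B) = 1 := by rw [← map_mul]; simp
  refine ⟨huu.mul hp' (hv1.congr_assoc ha), huu.mul hp' (hv2.congr_assoc ha), P, hP, w,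
    fun i => (hw i).congr_assoc ha, ?_⟩
  rw [h1]
  congr 1
  have e : ∀ v, φ (p * u) * (φ (↑u⁻¹ : B) * v) = φ p * v := by
    intro v
    rw [map_mul]
    linear_combination (φ p * v) * hone
  rw [e, e]

end forms

end Pool.Agent.PI
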