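import Pool.Agent.Lib.MP_43d240_ag.PI.GlobBase
import Pool.Agent.Lib.MP_43d240_ag.PI.Val

set_option autoImplicit false

open scoped Polynomial
open Matrix

namespace Pool.Agent.PI

theorem prime_X_add_C {C : Type} [CommRing C] [IsDomain C] (a : C) :
    Prime (Polynomial.X + Polynomial.C a : C[X]) := by
  have := Polynomial.prime_X_sub_C (-a)
  simpa using this

theorem glob_of (tab : TableStatement) (h1 : C1Statement) (h2 : C2Statement) (h3 : C3Statement)
    (h4 : C4Statement) (cl : ClsStatement) (hch : ChartsStatement) (same : SameStatement)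
    (tr : TransferStatement) : GlobStatement := by
  intro k _ _ _ a' b' ha hb hs
  obtain ⟨e1, hF1, hF2, hF3, hF4, hM12, hM13, hM14, hM43⟩ := hch k
  obtain ⟨D, hD, hN, ε, hε, w1, w2, hR, hS⟩ := tab k a' b' ha hb hs
  have hX : Prime (Polynomial.X : Polynomial (MvPolynomial (Fin 2) k)) := Polynomial.prime_X
  -- the plane `z = 0`
  obtain ⟨v1, v2, hRv, hSv⟩ := (hN Polynomial.X hX).2.1 (Associated.refl _)
  obtain ⟨c0, hc0, hSc0⟩ := cl (MvPolynomial (Fin 2) k) (KK k) (ch1 k) hF1 v1 hRv.1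
  have even0 := h1 k D hD hN v1 v2 hRv hSv c0 hc0 hSc0
  -- the plane `x + z = 0`
  have hone : UnitAt (ch2 k) Polynomial.X (ch1 k 1) := by
    rw [map_one]; exact unitAt_one hX
  obtain ⟨p1, hp1, -, hsame⟩ := tr _ _ _ (ch1 k) (ch2 k) hF1 hF2 1 1 hM12 Polynomial.X hX
    (fun h => hX.not_isUnit (isUnit_of_dvd_one h)) hone
  obtain ⟨sU, sS, -, sE, sR⟩ := same _ _ _ (ch1 k) (ch2 k) hF1 hF2 p1 Polynomial.X hp1 hX hsame
  have hq : ch1 k (Polynomial.X + Polynomial.C (MvPolynomial.X 0)) = ch2 k Polynomial.X := by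
    simp [ch1, ch2, chartHom, add_comm]
  have hdvd : p1 ∣ Polynomial.X + Polynomial.C (MvPolynomial.X 0) := by
    by_contra hnd
    have h5 := (unitAt_phi hF1 hp1).2 hnd
    rw [sU, hq, unitAt_phi hF2 hX] at h5
    exact h5 dvd_rfl
  have hass : Associated p1 (Polynomial.X + Polynomial.C (MvPolynomial.X 0)) :=
    (hp1.dvd_prime_iff_associated (prime_X_add_C _)).1 hdvd
  obtain ⟨u1, u2, hRu, hSu⟩ := (hN p1 hp1).2.2.1 hass
  have hRu' := sR _ _ _ hRu
  have hSu' : SqAt (ch2 k) Polynomial.X ((zz k - 1) *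
      ((ch1 k p1 / ch2 k Polynomial.X * u1) * (ch1 k p1 / ch2 k Polynomial.X * u2))) := by
    have h6 := (sS _).1 hSu
    rw [← sqAt_mul_sq hF2 hX sE] at h6
    convert h6 using 1
    ring
  obtain ⟨c1, hc1, hSc1⟩ := cl (MvPolynomial (Fin 2) k) (KK k) (ch2 k) hF2 _ hRu'.1
  have even1 := h2 k D hD hN _ _ hRu' hSu' c1 hc1 hSc1
  interval_cases ε
  · simp only [pow_zero, one_mul] at hR
    have odd1 := h3 k D hD hN _ _ hRu' hSu' c1 hc1 hSc1 w1 w2 hR hS
    exact (Nat.not_even_iff_odd.2 odd1) even1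
  · simp only [pow_one] at hR
    have odd0 := h4 k D hD hN v1 v2 hRv hSv c0 hc0 hSc0 w1 w2 hR hS
    exact (Nat.not_even_iff_odd.2 odd0) even0

end Pool.Agent.PI
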