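import Pool.Agent.Lib.MP_43d240_ag.PI.LocAsm
import Pool.Agent.Lib.MP_43d240_ag.H99.Step1

/-!
# Project PI, chapter LOC: the local lemma
-/

set_option autoImplicit false

namespace Pool.Agent.PI

theorem loc : LocStatement := H36.loc_of_step1 Pool.Agent.PI.H99.step1

end Pool.Agent.PI
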