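import Mathlib
import Pool.Agent.Lib.MP_43d240_ag.PI.GlobBase

/-!
# Project PI, module REV (helper22): reversal in one variable and homogenization
-/

set_option autoImplicit false

namespace Pool.Agent.PI

namespace Rev

open MvPolynomial

theorem chartHom_C {k : Type} [Field k] {K : Type} [Field K] [Algebra k K] (a b c : K)
    (p : MvPolynomial (Fin 2) k) :
    chartHom k a b c (Polynomial.C p) = MvPolynomial.eval₂ (algebraMap k K) ![a, b] p := by
  simp [chartHom]

theorem rev_aux {k : Type} [Field k] {K : Type} [Field K] [Algebra k K] (a b a' b' u : K)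
    (N : ℕ) (c : MvPolynomial (Fin 2) k) (f : (Fin 2 →₀ ℕ) → (Fin 2 →₀ ℕ))
    (hinj : ∀ m ∈ c.support, ∀ m' ∈ c.support, f m = f m' → m = m')
    (m₀ : Fin 2 →₀ ℕ) (hm₀ : m₀ ∈ c.support) (hf₀ : f m₀ 0 = 0)
    (heval : ∀ m ∈ c.support, a ^ (m 0) * b ^ (m 1) = u ^ N * (a' ^ (f m 0) * b' ^ (f m 1))) :
    ∃ r : MvPolynomial (Fin 2) k, ¬ MvPolynomial.X 0 ∣ r ∧
      MvPolynomial.eval₂ (algebraMap k K) ![a, b] c =
        u ^ N * MvPolynomial.eval₂ (algebraMap k K) ![a', b'] r := by
  refine ⟨∑ m ∈ c.support, monomial (f m) (c.coeff m), ?_, ?_⟩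
  · rintro ⟨q, hq⟩
    have h1 : MvPolynomial.coeff (f m₀) (∑ m ∈ c.support, monomial (f m) (c.coeff m)) =
        c.coeff m₀ := by
      rw [MvPolynomial.coeff_sum, Finset.sum_eq_single m₀]
      · rw [MvPolynomial.coeff_monomial, if_pos rfl]
      · intro m hm hne
        rw [MvPolynomial.coeff_monomial, if_neg]
        exact fun h => hne (hinj m hm m₀ hm₀ h)
      · exact fun h => absurd hm₀ h
    rw [hq, MvPolynomial.coeff_X_mul', if_neg] at h1
    · exact (MvPolynomial.mem_support_iff.1 hm₀) h1.symm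
    · rw [Finsupp.mem_support_iff]
      exact fun h => h hf₀
  · rw [MvPolynomial.eval₂_eq']
    have h2 : MvPolynomial.eval₂ (algebraMap k K) ![a', b']
        (∑ m ∈ c.support, monomial (f m) (c.coeff m)) =
        ∑ m ∈ c.support, algebraMap k K (c.coeff m) * (a' ^ (f m 0) * b' ^ (f m 1)) := by
      rw [← MvPolynomial.coe_eval₂Hom, map_sum]
      refine Finset.sum_congr rfl fun m _ => ?_
      rw [MvPolynomial.coe_eval₂Hom, MvPolynomial.eval₂_monomial,
        Finsupp.prod_fintype _ _ (fun i => pow_zero _), Fin.prod_univ_two]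
      simp
    rw [h2, Finset.mul_sum]
    refine Finset.sum_congr rfl fun m hm => ?_
    rw [Fin.prod_univ_two]
    have := heval m hm
    simp only [Matrix.cons_val_zero, Matrix.cons_val_one] at this ⊢
    rw [this]
    ring

/-- the exponent vector `(i, j)` -/
noncomputable def vec (i j : ℕ) : Fin 2 →₀ ℕ := Finsupp.single 0 i + Finsupp.single 1 j

@[simp] theorem vec_zero (i j : ℕ) : vec i j 0 = i := by simp [vec]
@[simp] theorem vec_one (i j : ℕ) : vec i j 1 = j := by simp [vec]

theorem ext2 {m m' : Fin 2 →₀ ℕ} (h0 : m 0 = m' 0) (h1 : m 1 = m' 1) : m = m' := by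
  ext i
  fin_cases i
  · exact h0
  · exact h1

end Rev

open Rev in
/-- MODULE REV (the chart statement is not needed). -/
theorem rev' : RevStatement := by
  intro k _ _ _ c hc
  have hne : c.support.Nonempty := MvPolynomial.support_nonempty.2 hc
  have hinj : Function.Injective (algebraMap (Polynomial (MvPolynomial (Fin 2) k)) (KK k)) :=
    IsFractionRing.injective _ _
  have hy : yy k ≠ 0 := by
    rw [yy, Ne, map_eq_zero_iff _ hinj, Polynomial.C_eq_zero]
    exact MvPolynomial.X_ne_zero _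
  have hx : xx k ≠ 0 := by
    rw [xx, Ne, map_eq_zero_iff _ hinj, Polynomial.C_eq_zero]
    exact MvPolynomial.X_ne_zero _
  constructor
  · have hle : ∀ m ∈ c.support, m 0 ≤ c.degreeOf 0 := fun m hm =>
      MvPolynomial.monomial_le_degreeOf 0 hm
    obtain ⟨m₀, hm₀, h₀⟩ := Finset.exists_mem_eq_sup c.support hne (fun m => m 0)
    have h₀' : c.degreeOf 0 = m₀ 0 := by
      rw [← h₀, MvPolynomial.degreeOf_eq_sup]
    rw [ch2, ch3]
    simp only [chartHom_C]
    refine rev_aux _ _ _ _ (yy k) (c.degreeOf 0) c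
      (fun m => vec (c.degreeOf 0 - m 0) (m 1)) ?_ m₀ hm₀ ?_ ?_
    · intro m hm m' hm' h
      have e0 := congrArg (fun v => v 0) h
      have e1 := congrArg (fun v => v 1) h
      simp only [vec_zero, vec_one] at e0 e1
      have := hle m hm
      have := hle m' hm'
      exact ext2 (by omega) e1
    · rw [vec_zero, h₀', Nat.sub_self]
    · intro m hm
      obtain ⟨t, ht⟩ := Nat.exists_eq_add_of_le (hle m hm)
      rw [vec_zero, vec_one, ht, Nat.add_sub_cancel_left, pow_add]
      have h3 : yy k ^ t * (yy k)⁻¹ ^ t = 1 := by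
        rw [← mul_pow, mul_inv_cancel₀ hy, one_pow]
      linear_combination (-(yy k ^ (m 0)) * zz k ^ (m 1)) * h3
  · have hsum : ∀ m : Fin 2 →₀ ℕ, (m.sum fun _ e => e) = m 0 + m 1 := fun m => by
      rw [Finsupp.sum_fintype _ _ (fun _ => rfl), Fin.sum_univ_two]
    have hle : ∀ m ∈ c.support, m 0 + m 1 ≤ c.totalDegree := fun m hm => by
      rw [← hsum m]; exact MvPolynomial.le_totalDegree hm
    obtain ⟨m₀, hm₀, h₀⟩ := Finset.exists_mem_eq_sup c.support hne
      (fun m => m.sum fun _ e => e)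
    have h₀' : c.totalDegree = m₀ 0 + m₀ 1 := by
      rw [← hsum m₀, ← h₀]; rfl
    rw [ch1, ch4]
    simp only [chartHom_C]
    refine rev_aux _ _ _ _ (xx k) c.totalDegree c
      (fun m => vec (c.totalDegree - (m 0 + m 1)) (m 1)) ?_ m₀ hm₀ ?_ ?_
    · intro m hm m' hm' h
      have e0 := congrArg (fun v => v 0) h
      have e1 := congrArg (fun v => v 1) h
      simp only [vec_zero, vec_one] at e0 e1
      have := hle m hm
      have := hle m' hm'
      exact ext2 (by omega) e1
    · rw [vec_zero, h₀', Nat.sub_self]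
    · intro m hm
      obtain ⟨t, ht⟩ := Nat.exists_eq_add_of_le (hle m hm)
      rw [vec_zero, vec_one, ht, Nat.add_sub_cancel_left, pow_add, pow_add, div_pow]
      have h3 : xx k ^ t * (xx k)⁻¹ ^ t = 1 := by
        rw [← mul_pow, mul_inv_cancel₀ hx, one_pow]
      have h4 : xx k ^ (m 1) * (yy k ^ (m 1) / xx k ^ (m 1)) = yy k ^ (m 1) :=
        mul_div_cancel₀ _ (pow_ne_zero _ hx)
      linear_combination (-(xx k ^ (m 0)) * yy k ^ (m 1)) * h3 -
        (xx k ^ (m 0) * (xx k ^ t * (xx k)⁻¹ ^ t)) * h4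

theorem rev (_h : ChartsStatement) : RevStatement := rev'

end Pool.Agent.PI
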