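import Pool.Agent.Lib.MP_43d240_ag.PI.GlobBase

/-!
# Project PI, module SAME: transport along equality of valuation rings (helper75)
-/

set_option autoImplicit false
set_option linter.unusedVariables false
set_option linter.unusedSectionVars false

open scoped Polynomial
open Matrix

namespace Pool.Agent.PI.SameMod

section one

variable {B K : Type} [CommRing B] [IsDomain B] [Field K] {φ : B →+* K} {p : B}

theorem intAt_mul (hp : Prime p) {x y : K} (hx : IntAt φ p x) (hy : IntAt φ p y) :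
    IntAt φ p (x * y) := by
  obtain ⟨a, s, hs, h⟩ := hx
  obtain ⟨a', s', hs', h'⟩ := hy
  refine ⟨a * a', s * s', ?_, ?_⟩
  · intro hd
    rcases hp.dvd_or_dvd hd with h1 | h1
    · exact hs h1
    · exact hs' h1
  · rw [map_mul, map_mul, ← h, ← h']; ring

theorem map_ne_zero' (hφ : Function.Injective φ) {a : B} (ha : a ≠ 0) : φ a ≠ 0 := by
  intro h
  exact ha (hφ (by rw [h, map_zero]))

theorem unitAt_iff (hφ : Function.Injective φ) (hp : Prime p) (x : K) :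
    UnitAt φ p x ↔ x ≠ 0 ∧ IntAt φ p x ∧ IntAt φ p x⁻¹ := by
  constructor
  · rintro ⟨a, s, ha, hs, h⟩
    have ha0 : φ a ≠ 0 := map_ne_zero' hφ (by rintro rfl; exact ha (dvd_zero p))
    have hx : x ≠ 0 := by
      rintro rfl
      rw [mul_zero] at h
      exact ha0 h.symm
    refine ⟨hx, ⟨a, s, hs, h⟩, ⟨s, a, ha, ?_⟩⟩
    rw [← h, mul_assoc, mul_inv_cancel₀ hx, mul_one]
  · rintro ⟨hx, ⟨a, s, hs, h⟩, ⟨a', s', hs', h'⟩⟩
    refine ⟨a, s, ?_, hs, h⟩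
    intro hd
    have h1 : s * s' = a * a' := by
      apply hφ
      rw [map_mul, map_mul, ← h, ← h']
      field_simp
    have h2 : p ∣ s * s' := by
      rw [h1]; exact hd.mul_right a'
    rcases hp.dvd_or_dvd h2 with h3 | h3
    · exact hs h3
    · exact hs' h3

theorem not_unitAt_self (hφ : Function.Injective φ) (hp : Prime p) : ¬ UnitAt φ p (φ p) := by
  rintro ⟨a, s, ha, hs, h⟩
  apply ha
  have h1 : s * p = a := hφ (by rw [map_mul, h])
  rw [← h1]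
  exact dvd_mul_left p s

theorem intAt_self (hp : Prime p) : IntAt φ p (φ p) :=
  ⟨p, 1, fun h => hp.not_isUnit (isUnit_of_dvd_one h), by rw [map_one, one_mul]⟩

theorem intAt_div (hφ : Function.Injective φ) (hp : Prime p) {x : K} (hx : IntAt φ p x)
    (hu : ¬ UnitAt φ p x) : IntAt φ p (x / φ p) := by
  obtain ⟨a, s, hs, h⟩ := hx
  have hpa : p ∣ a := by
    by_contra hpa
    exact hu ⟨a, s, hpa, hs, h⟩
  obtain ⟨a', rfl⟩ := hpa
  refine ⟨a', s, hs, ?_⟩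
  have h0 : φ p ≠ 0 := map_ne_zero' hφ hp.ne_zero
  rw [map_mul] at h
  field_simp
  rw [h]
  try ring

end one

section two

variable {B1 B2 K : Type} [CommRing B1] [IsDomain B1] [CommRing B2] [IsDomain B2] [Field K]
  {φ1 : B1 →+* K} {φ2 : B2 →+* K} {p1 : B1} {p2 : B2}

theorem unitAt_same (h1 : Function.Injective φ1) (h2 : Function.Injective φ2) (hp1 : Prime p1)
    (hp2 : Prime p2) (h : Same φ1 p1 φ2 p2) (x : K) : UnitAt φ1 p1 x ↔ UnitAt φ2 p2 x := by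
  rw [unitAt_iff h1 hp1, unitAt_iff h2 hp2, h x, h x⁻¹]

theorem same_symm (h : Same φ1 p1 φ2 p2) : Same φ2 p2 φ1 p1 := fun x => (h x).symm

theorem intAt_quot (h1 : Function.Injective φ1) (h2 : Function.Injective φ2) (hp1 : Prime p1)
    (hp2 : Prime p2) (h : Same φ1 p1 φ2 p2) : IntAt φ2 p2 (φ1 p1 / φ2 p2) := by
  apply intAt_div h2 hp2
  · exact (h _).1 (intAt_self hp1)
  · rw [← unitAt_same h1 h2 hp1 hp2 h]
    exact not_unitAt_self h1 hp1

theorem unitAt_quot (h1 : Function.Injective φ1) (h2 : Function.Injective φ2) (hp1 : Prime p1)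
    (hp2 : Prime p2) (h : Same φ1 p1 φ2 p2) : UnitAt φ2 p2 (φ1 p1 / φ2 p2) := by
  rw [unitAt_iff h2 hp2]
  have e1 : φ1 p1 ≠ 0 := map_ne_zero' h1 hp1.ne_zero
  have e2 : φ2 p2 ≠ 0 := map_ne_zero' h2 hp2.ne_zero
  refine ⟨div_ne_zero e1 e2, intAt_quot h1 h2 hp1 hp2 h, ?_⟩
  rw [inv_div]
  exact (h _).1 (intAt_quot h2 h1 hp2 hp1 (same_symm h))

theorem congAt_same (h1 : Function.Injective φ1) (h2 : Function.Injective φ2) (hp1 : Prime p1)
    (hp2 : Prime p2) (h : Same φ1 p1 φ2 p2) (x y : K) (hc : CongAt φ1 p1 x y) :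
    CongAt φ2 p2 x y := by
  obtain ⟨t, ht, hxy⟩ := hc
  have e2 : φ2 p2 ≠ 0 := map_ne_zero' h2 hp2.ne_zero
  refine ⟨φ1 p1 / φ2 p2 * t, intAt_mul hp2 (intAt_quot h1 h2 hp1 hp2 h) ((h _).1 ht), ?_⟩
  rw [hxy]
  field_simp

theorem sqAt_same (h1 : Function.Injective φ1) (h2 : Function.Injective φ2) (hp1 : Prime p1)
    (hp2 : Prime p2) (h : Same φ1 p1 φ2 p2) (x : K) (hc : SqAt φ1 p1 x) : SqAt φ2 p2 x := by
  obtain ⟨w, hw, hc⟩ := hc
  exact ⟨w, (unitAt_same h1 h2 hp1 hp2 h w).1 hw, congAt_same h1 h2 hp1 hp2 h _ _ hc⟩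

theorem unitAt_mul (h2 : Function.Injective φ2) (hp2 : Prime p2) {x y : K}
    (hx : UnitAt φ2 p2 x) (hy : UnitAt φ2 p2 y) : UnitAt φ2 p2 (x * y) := by
  rw [unitAt_iff h2 hp2] at *
  refine ⟨mul_ne_zero hx.1 hy.1, intAt_mul hp2 hx.2.1 hy.2.1, ?_⟩
  rw [mul_inv]
  exact intAt_mul hp2 hx.2.2 hy.2.2

end two

end Pool.Agent.PI.SameMod

namespace Pool.Agent.PI

open SameMod in
/-- MODULE SAME -/
theorem same : SameStatement := by
  intro B1 B2 K _ _ _ _ _ φ1 φ2 hF1 hF2 p1 p2 hp1 hp2 h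
  have h1 := hF1.1
  have h2 := hF2.1
  refine ⟨fun x => unitAt_same h1 h2 hp1 hp2 h x,
    fun x => ⟨sqAt_same h1 h2 hp1 hp2 h x, sqAt_same h2 h1 hp2 hp1 (same_symm h) x⟩,
    ?_, unitAt_quot h1 h2 hp1 hp2 h, ?_⟩
  · rintro D ⟨P, hP, hI, hU⟩
    exact ⟨P, hP, fun i j => (h _).1 (hI i j), (unitAt_same h1 h2 hp1 hp2 h _).1 hU⟩
  · rintro D v1 v2 ⟨hv1, hv2, P, hP, u, hu, hD⟩
    have hq := unitAt_quot h1 h2 hp1 hp2 h
    have e2 : φ2 p2 ≠ 0 := map_ne_zero' h2 hp2.ne_zero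
    refine ⟨unitAt_mul h2 hp2 hq ((unitAt_same h1 h2 hp1 hp2 h _).1 hv1),
      unitAt_mul h2 hp2 hq ((unitAt_same h1 h2 hp1 hp2 h _).1 hv2), P, hP, u,
      fun i => (unitAt_same h1 h2 hp1 hp2 h _).1 (hu i), ?_⟩
    rw [hD]
    congr 1
    have f1 : φ2 p2 * (φ1 p1 / φ2 p2 * v1) = φ1 p1 * v1 := by field_simp
    have f2 : φ2 p2 * (φ1 p1 / φ2 p2 * v2) = φ1 p1 * v2 := by field_simp
    rw [f1, f2]

end Pool.Agent.PI
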