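import Pool.Agent.Lib.MP_43d240_ag.PI.GlobBase

/-!
# Project PI, module SCALE
-/

set_option autoImplicit false
set_option linter.unusedVariables false

namespace Pool.Agent.PI

theorem scale_aux {B K : Type} [CommRing B] [IsDomain B] [UniqueFactorizationMonoid B] [Field K]
    (φ : B →+* K) (hφ : FracMap φ) (N : B → (Fin 6 → K) → Prop)
    (h1 : ∀ p p' d, Associated p p' → N p d → N p' d)
    (h2 : ∀ p d e, Prime p → UnitAt φ p e → N p d → N p (fun i => e * d i)) (F : B) :
    F ≠ 0 → ∀ d : Fin 6 → K, (∀ p, Prime p → ¬ p ∣ F → N p d) →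
      (∀ p, Prime p → ∃ ε : ℕ, ε ≤ 1 ∧ N p (fun i => φ p ^ ε * d i)) →
      ∃ g : B, g ≠ 0 ∧ ∀ p, Prime p → N p (fun i => φ g * d i) := by
  classical
  induction F using UniqueFactorizationMonoid.induction_on_prime with
  | h₁ => intro h; exact absurd rfl h
  | h₂ u hu =>
    intro _ d hd _
    refine ⟨1, one_ne_zero, fun p hp => ?_⟩
    have h := hd p hp (fun hdvd => hp.not_unit (isUnit_of_dvd_unit hdvd hu))
    simpa using h
  | h₃ a p ha hp ih =>
    intro _ d hd hε
    by_cases hpa : p ∣ a
    · refine ih ha d (fun q hq hqa => hd q hq ?_) hε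
      intro hqpa
      rcases hq.dvd_or_dvd hqpa with h | h
      · exact hqa ((hq.associated_of_dvd hp h).dvd.trans hpa)
      · exact hqa h
    · obtain ⟨ε, hε1, hN⟩ := hε p hp
      -- `φ p ^ ε` is a unit at every prime not associated to `p`
      have hunit : ∀ q : B, Prime q → ¬ Associated q p → UnitAt φ q (φ p ^ ε) := by
        intro q hq hqp
        refine ⟨p ^ ε, 1, ?_, ?_, by simp⟩
        · intro h
          exact hqp (hq.associated_of_dvd hp (hq.dvd_of_dvd_pow h))
        · intro h
          exact hq.not_unit (isUnit_of_dvd_one h)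
      have hA : ∀ q, Prime q → ¬ q ∣ a → N q (fun i => φ p ^ ε * d i) := by
        intro q hq hqa
        by_cases hqp : Associated q p
        · exact h1 p q _ hqp.symm hN
        · refine h2 q d _ hq (hunit q hq hqp) (hd q hq ?_)
          intro h
          rcases hq.dvd_or_dvd h with h | h
          · exact hqp (hq.associated_of_dvd hp h)
          · exact hqa h
      have hB : ∀ q, Prime q → ∃ δ : ℕ, δ ≤ 1 ∧ N q (fun i => φ q ^ δ * (φ p ^ ε * d i)) := by
        intro q hq
        by_cases hqp : Associated q p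
        · refine ⟨0, by norm_num, ?_⟩
          have h := h1 p q _ hqp.symm hN
          simpa using h
        · obtain ⟨δ, hδ1, hδN⟩ := hε q hq
          refine ⟨δ, hδ1, ?_⟩
          have h := h2 q _ _ hq (hunit q hq hqp) hδN
          have he : (fun i => φ q ^ δ * (φ p ^ ε * d i)) = fun i => φ p ^ ε * (φ q ^ δ * d i) := by
            funext i
            ring
          rw [he]
          exact h
      obtain ⟨g, hg, hgN⟩ := ih ha (fun i => φ p ^ ε * d i) hA hB
      refine ⟨g * p ^ ε, mul_ne_zero hg (pow_ne_zero _ hp.ne_zero), fun q hq => ?_⟩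
      have h := hgN q hq
      have he : (fun i => φ (g * p ^ ε) * d i) = fun i => φ g * (φ p ^ ε * d i) := by
        funext i
        rw [map_mul, map_pow, mul_assoc]
      rw [he]
      exact h

theorem scale : ScaleStatement := by
  intro B K _ _ _ _ φ hφ N h1 h2 d hF hε
  obtain ⟨F, hF0, hF⟩ := hF
  exact scale_aux φ hφ N h1 h2 F hF0 d hF hε

end Pool.Agent.PI
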