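import Pool.Agent.Lib.MP_43d240_ag.PI.GlobBase

/-!
# Project PI, module TABLE: ramification table and scaling
-/

set_option autoImplicit false
set_option linter.unusedVariables false
set_option linter.unusedSectionVars false

open scoped Polynomial
open Matrix

namespace Pool.Agent.PI

namespace Tbl

section gen

variable {B K : Type} [CommRing B] [IsDomain B] [Field K] {φ : B →+* K}

theorem map_ne (hf : FracMap φ) {p s : B} (h : ¬ p ∣ s) : φ s ≠ 0 := by
  intro h0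
  rw [map_eq_zero_iff φ hf.1] at h0
  exact h (h0 ▸ dvd_zero p)

theorem unitAt_ne (hf : FracMap φ) {p : B} {x : K} (h : UnitAt φ p x) : x ≠ 0 := by
  obtain ⟨a, s, ha, hs, e⟩ := h
  rintro rfl
  rw [mul_zero] at e
  exact map_ne hf ha e.symm

theorem unitAt_map {p a : B} (hp : Prime p) (h : ¬ p ∣ a) : UnitAt φ p (φ a) :=
  ⟨a, 1, h, hp.not_dvd_one, by simp⟩

theorem unitAt_one {p : B} (hp : Prime p) : UnitAt φ p (1 : K) :=
  ⟨1, 1, hp.not_dvd_one, hp.not_dvd_one, by simp⟩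

theorem unitAt_mul {p : B} (hp : Prime p) {x y : K} (hx : UnitAt φ p x) (hy : UnitAt φ p y) :
    UnitAt φ p (x * y) := by
  obtain ⟨a, s, ha, hs, e⟩ := hx
  obtain ⟨a', s', ha', hs', e'⟩ := hy
  refine ⟨a * a', s * s', fun h => (hp.dvd_or_dvd h).elim ha ha',
    fun h => (hp.dvd_or_dvd h).elim hs hs', ?_⟩
  rw [map_mul, map_mul, ← e, ← e']; ring

theorem unitAt_inv (hf : FracMap φ) {p : B} {x : K} (hx : UnitAt φ p x) : UnitAt φ p x⁻¹ := by
  have hx0 := unitAt_ne hf hx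
  obtain ⟨a, s, ha, hs, e⟩ := hx
  refine ⟨s, a, hs, ha, ?_⟩
  rw [← e]; field_simp

theorem unitAt_pow {p : B} (hp : Prime p) {x : K} (hx : UnitAt φ p x) (n : ℕ) :
    UnitAt φ p (x ^ n) := by
  induction n with
  | zero => simpa using unitAt_one hp
  | succ n ih => rw [pow_succ]; exact unitAt_mul hp ih hx

theorem unitAt_int {p : B} {x : K} (hx : UnitAt φ p x) : IntAt φ p x := by
  obtain ⟨a, s, ha, hs, e⟩ := hx
  exact ⟨a, s, hs, e⟩

theorem intAt_mul {p : B} (hp : Prime p) {x y : K} (hx : IntAt φ p x) (hy : IntAt φ p y) :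
    IntAt φ p (x * y) := by
  obtain ⟨a, s, hs, e⟩ := hx
  obtain ⟨a', s', hs', e'⟩ := hy
  refine ⟨a * a', s * s', fun h => (hp.dvd_or_dvd h).elim hs hs', ?_⟩
  rw [map_mul, map_mul, ← e, ← e']; ring

theorem intAt_zero {p : B} (hp : Prime p) : IntAt φ p (0 : K) :=
  ⟨0, 1, hp.not_dvd_one, by simp⟩

theorem sqAt_mul_sq {p : B} (hp : Prime p) {x y : K} (hx : SqAt φ p x) (hy : UnitAt φ p y) :
    SqAt φ p (x * y ^ 2) := by
  obtain ⟨w, hw, t, ht, e⟩ := hx
  refine ⟨w * y, unitAt_mul hp hw hy, t * y ^ 2, intAt_mul hp ht (unitAt_int (unitAt_pow hp hy 2)),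
    ?_⟩
  rw [← mul_assoc, ← e]; ring

theorem sqAt_one {p : B} (hp : Prime p) : SqAt φ p (1 : K) :=
  ⟨1, unitAt_one hp, 0, intAt_zero hp, by simp⟩

/-! ### scaling of lattices -/

theorem diag_smul (e : K) (d : Fin 6 → K) :
    (diagonal fun i => e * d i) = e • diagonal d := by
  ext i j
  by_cases h : i = j
  · subst h; simp
  · simp [diagonal_apply_ne _ h]

theorem uni_scale {p : B} (hp : Prime p) {e : K} (he : UnitAt φ p e) {d : Fin 6 → K}
    (h : Uni φ p (diagonal d)) : Uni φ p (diagonal fun i => e * d i) := by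
  obtain ⟨P, hP, hi, hu⟩ := h
  have e1 : Pᵀ * (diagonal fun i => e * d i) * P = e • (Pᵀ * diagonal d * P) := by
    rw [diag_smul]; simp
  refine ⟨P, hP, fun i j => ?_, ?_⟩
  · rw [e1]; exact intAt_mul hp (unitAt_int he) (hi i j)
  · rw [e1, det_smul]; exact unitAt_mul hp (unitAt_pow hp he _) hu

theorem ram_scale {p : B} (hp : Prime p) {e : K} (he : UnitAt φ p e) {d : Fin 6 → K} {v1 v2 : K}
    (h : Ram φ p (diagonal d) v1 v2) :
    Ram φ p (diagonal fun i => e * d i) (e * v1) (e * v2) := by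
  obtain ⟨h1, h2, P, hP, u, hu, hd⟩ := h
  have e1 : Pᵀ * (diagonal fun i => e * d i) * P = e • (Pᵀ * diagonal d * P) := by
    rw [diag_smul]; simp
  refine ⟨unitAt_mul hp he h1, unitAt_mul hp he h2, P, hP, fun i => e * u i,
    fun i => unitAt_mul hp he (hu i), ?_⟩
  rw [e1, hd, ← diag_smul]
  congr 1
  ext i
  fin_cases i <;> simp <;> ring

theorem ram_sq {p : B} {c : K} (hc : c ≠ 0) {d : Fin 6 → K} {v1 v2 : K}
    (h : Ram φ p (diagonal d) v1 v2) : Ram φ p (diagonal fun i => c ^ 2 * d i) v1 v2 := by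
  obtain ⟨h1, h2, P, hP, u, hu, hd⟩ := h
  refine ⟨h1, h2, c⁻¹ • P, ?_, u, hu, ?_⟩
  · rw [det_smul]; exact mul_ne_zero (pow_ne_zero _ (inv_ne_zero hc)) hP
  · rw [← hd, diag_smul, transpose_smul]
    simp only [smul_mul_assoc, mul_smul_comm, smul_smul]
    have : c⁻¹ * (c ^ 2 * c⁻¹) = 1 := by field_simp
    rw [this, one_smul]

/-! ### associated primes -/

theorem unitAt_assoc {p q : B} (h : Associated p q) {x : K} (hx : UnitAt φ p x) :
    UnitAt φ q x := by
  obtain ⟨a, s, ha, hs, e⟩ := hx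
  exact ⟨a, s, fun hh => ha (h.dvd.trans hh), fun hh => hs (h.dvd.trans hh), e⟩

theorem intAt_assoc {p q : B} (h : Associated p q) {x : K} (hx : IntAt φ p x) :
    IntAt φ q x := by
  obtain ⟨a, s, hs, e⟩ := hx
  exact ⟨a, s, fun hh => hs (h.dvd.trans hh), e⟩

theorem congAt_assoc {p q : B} (hp : Prime p) (h : Associated p q) {x y : K}
    (hx : CongAt φ p x y) : CongAt φ q x y := by
  obtain ⟨t, ht, e⟩ := hx
  obtain ⟨w, hw⟩ := h.symm
  refine ⟨φ w * t, intAt_assoc h ?_, ?_⟩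
  · refine intAt_mul hp ?_ ht
    exact ⟨w, 1, hp.not_dvd_one, by simp⟩
  · rw [e, ← hw, map_mul]; ring

theorem sqAt_assoc {p q : B} (hp : Prime p) (h : Associated p q) {x : K} (hx : SqAt φ p x) :
    SqAt φ q x := by
  obtain ⟨w, hw, hc⟩ := hx
  exact ⟨w, unitAt_assoc h hw, congAt_assoc hp h hc⟩

theorem uni_assoc {p q : B} (h : Associated p q) {D : Matrix (Fin 6) (Fin 6) K}
    (hx : Uni φ p D) : Uni φ q D := by
  obtain ⟨P, hP, hi, hu⟩ := hx
  exact ⟨P, hP, fun i j => intAt_assoc h (hi i j), unitAt_assoc h hu⟩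

theorem ram_assoc {p q : B} (hp : Prime p) (h : Associated p q) {D : Matrix (Fin 6) (Fin 6) K}
    {v1 v2 : K} (hx : Ram φ p D v1 v2) :
    ∃ e : K, UnitAt φ q e ∧ Ram φ q D (e * v1) (e * v2) := by
  obtain ⟨h1, h2, P, hP, u, hu, hd⟩ := hx
  have hq : Prime q := (h.prime_iff).1 hp
  obtain ⟨w, hw⟩ := h.symm
  have hwu : UnitAt φ q (φ (w : B)) := by
    refine unitAt_map hq fun hh => hq.not_isUnit (isUnit_of_dvd_unit hh w.isUnit)
  refine ⟨φ w, hwu, unitAt_mul hq hwu (unitAt_assoc h h1), unitAt_mul hq hwu (unitAt_assoc h h2),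
    P, hP, u, fun i => unitAt_assoc h (hu i), ?_⟩
  rw [hd, ← hw, map_mul]
  congr 1
  ext i
  fin_cases i <;> simp <;> ring

/-- a nonzero element of `K` is a power of `φ p` times a unit at `p` -/
theorem exists_zpow [WfDvdMonoid B] (hf : FracMap φ) {p : B} (hp : Prime p) {x : K} (hx : x ≠ 0) :
    ∃ (n : ℤ) (w : K), UnitAt φ p w ∧ x = φ p ^ n * w := by
  obtain ⟨a, s, hs, e⟩ := hf.2 x
  have hs0 : s ≠ 0 := by rintro rfl; simp at hs
  have ha0 : a ≠ 0 := by
    rintro rfl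
    rw [map_zero] at e
    exact (mul_ne_zero hs hx) e
  obtain ⟨n, a', ha', ea⟩ := WfDvdMonoid.max_power_factor ha0 hp.irreducible
  obtain ⟨m, s', hs', es⟩ := WfDvdMonoid.max_power_factor hs0 hp.irreducible
  have hp0 : φ p ≠ 0 := by
    rw [Ne, map_eq_zero_iff φ hf.1]; exact hp.ne_zero
  have h1 := map_ne hf hs'
  refine ⟨n - m, φ a' / φ s', ⟨a', s', ha', hs', ?_⟩, ?_⟩
  · field_simp
  · have h2 : φ s ≠ 0 := hs
    have : x = φ a / φ s := by field_simp; linear_combination e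
    rw [this, ea, es, map_mul, map_mul, map_pow, map_pow, zpow_sub₀ hp0, zpow_natCast, zpow_natCast]
    field_simp

end gen

section slots

variable (k : Type) [Field k]

theorem ch1_X : ch1 k Polynomial.X = zz k := by simp [ch1, chartHom]

theorem ch1_C0 : ch1 k (Polynomial.C (MvPolynomial.X 0)) = xx k := by simp [ch1, chartHom]

theorem ch1_C1 : ch1 k (Polynomial.C (MvPolynomial.X 1)) = yy k := by simp [ch1, chartHom]

theorem ch4_X : ch4 k Polynomial.X = zz k := by simp [ch4, chartHom]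

theorem ch4_C0 : ch4 k (Polynomial.C (MvPolynomial.X 0)) = (xx k)⁻¹ := by simp [ch4, chartHom]

theorem ch4_C1 : ch4 k (Polynomial.C (MvPolynomial.X 1)) = yy k / xx k := by simp [ch4, chartHom]

theorem X_not_dvd_1 : ¬ (Polynomial.X : (MvPolynomial (Fin 2) k)[X]) ∣ Polynomial.X + Polynomial.C (MvPolynomial.X 0) := by
  rw [Polynomial.X_dvd_iff]; simp

theorem X_not_dvd_C {a : MvPolynomial (Fin 2) k} (ha : a ≠ 0) : ¬ (Polynomial.X : (MvPolynomial (Fin 2) k)[X]) ∣ Polynomial.C a := by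
  rw [Polynomial.X_dvd_iff]; simpa using ha

theorem X_not_dvd_sub {a : MvPolynomial (Fin 2) k} (ha : a ≠ 0) :
    ¬ (Polynomial.X : (MvPolynomial (Fin 2) k)[X]) ∣ Polynomial.X - Polynomial.C a := by
  rw [Polynomial.X_dvd_iff]; simpa using ha

theorem P1_dvd_iff (q : (MvPolynomial (Fin 2) k)[X]) : (Polynomial.X + Polynomial.C (MvPolynomial.X 0) : (MvPolynomial (Fin 2) k)[X]) ∣ q ↔
    q.eval (- MvPolynomial.X 0) = 0 := by
  have : (Polynomial.X + Polynomial.C (MvPolynomial.X 0) : (MvPolynomial (Fin 2) k)[X]) =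
      Polynomial.X - Polynomial.C (- MvPolynomial.X 0) := by simp
  rw [this, Polynomial.dvd_iff_isRoot]; rfl

theorem prime_P1 : Prime (Polynomial.X + Polynomial.C (MvPolynomial.X 0) : (MvPolynomial (Fin 2) k)[X]) := by
  have : (Polynomial.X + Polynomial.C (MvPolynomial.X 0) : (MvPolynomial (Fin 2) k)[X]) =
      Polynomial.X - Polynomial.C (- MvPolynomial.X 0) := by simp
  rw [this]; exact Polynomial.prime_X_sub_C _

theorem prime_P2 (i : Fin 2) : Prime (Polynomial.C (MvPolynomial.X i) : (MvPolynomial (Fin 2) k)[X]) := by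
  rw [Polynomial.prime_C_iff]; exact MvPolynomial.X_prime

theorem C_not_dvd_monic {a : MvPolynomial (Fin 2) k} (ha : ¬ IsUnit a) {q : (MvPolynomial (Fin 2) k)[X]} {i : ℕ} (hq : IsUnit (q.coeff i)) :
    ¬ (Polynomial.C a : (MvPolynomial (Fin 2) k)[X]) ∣ q := by
  rw [Polynomial.C_dvd_iff_dvd_coeff]
  intro h
  exact ha (isUnit_of_dvd_unit (h i) hq)

theorem X_not_unit (i : Fin 2) : ¬ IsUnit (MvPolynomial.X i : MvPolynomial (Fin 2) k) :=
  (MvPolynomial.X_prime (R := k) (i := i)).not_isUnit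

theorem X1_not_dvd_b [CharZero k] : ¬ (MvPolynomial.X 1 : MvPolynomial (Fin 2) k) ∣ bpoly k := by
  rintro ⟨q, hq⟩
  have := congrArg (MvPolynomial.eval (fun _ => (0 : k))) hq
  simp only [bpoly, map_add, map_sub, map_mul, map_pow, MvPolynomial.eval_X, map_ofNat] at this
  norm_num at this

theorem X0_not_dvd_X1 : ¬ (MvPolynomial.X 0 : MvPolynomial (Fin 2) k) ∣ MvPolynomial.X 1 := by
  rintro ⟨q, hq⟩
  have := congrArg (MvPolynomial.eval (![0, 1] : Fin 2 → k)) hq
  simp at this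

end slots

section main

variable {k : Type} [Field k]

theorem norm_assoc {p q : Polynomial (MvPolynomial (Fin 2) k)} (hp : Prime p) (h : Associated p q) {d : Fin 6 → KK k}
    (hN : Norm k p d) : Norm k q d := by
  have hq : Prime q := (h.prime_iff).1 hp
  obtain ⟨n1, n2, n3, n4⟩ := hN
  have tr : ∀ t : KK k, (∃ v1 v2, Ram (ch1 k) p (diagonal d) v1 v2 ∧
      SqAt (ch1 k) p (t * (v1 * v2))) → ∃ v1 v2, Ram (ch1 k) q (diagonal d) v1 v2 ∧
      SqAt (ch1 k) q (t * (v1 * v2)) := by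
    rintro t ⟨v1, v2, hr, hs⟩
    obtain ⟨e, he, hr'⟩ := ram_assoc hp h hr
    refine ⟨e * v1, e * v2, hr', ?_⟩
    have := sqAt_mul_sq hq (sqAt_assoc hp h hs) he
    have e1 : t * (e * v1 * (e * v2)) = t * (v1 * v2) * e ^ 2 := by ring
    rw [e1]; exact this
  refine ⟨fun h1 h2 h3 h4 h5 h6 => ?_, fun h1 => tr _ (n2 (h.trans h1)), fun h1 =>
    tr _ (n3 (h.trans h1)), fun h1 => tr _ (n4 (h.trans h1))⟩
  exact uni_assoc h (n1 (fun hh => h1 (h.symm.trans hh)) (fun hh => h2 (h.symm.trans hh))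
    (fun hh => h3 (h.symm.trans hh)) (fun hh => h4 (h.symm.dvd.trans hh))
    (fun hh => h5 (h.symm.dvd.trans hh)) (fun hh => h6 (h.symm.dvd.trans hh)))

theorem norm_scale {p : Polynomial (MvPolynomial (Fin 2) k)} (hp : Prime p) {e : KK k} (he : UnitAt (ch1 k) p e)
    {d : Fin 6 → KK k} (hN : Norm k p d) : Norm k p (fun i => e * d i) := by
  obtain ⟨n1, n2, n3, n4⟩ := hN
  have tr : ∀ t : KK k, (∃ v1 v2, Ram (ch1 k) p (diagonal d) v1 v2 ∧
      SqAt (ch1 k) p (t * (v1 * v2))) → ∃ v1 v2, Ram (ch1 k) p (diagonal fun i => e * d i) v1 v2 ∧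
      SqAt (ch1 k) p (t * (v1 * v2)) := by
    rintro t ⟨v1, v2, hr, hs⟩
    refine ⟨e * v1, e * v2, ram_scale hp he hr, ?_⟩
    have := sqAt_mul_sq hp hs he
    have e1 : t * (e * v1 * (e * v2)) = t * (v1 * v2) * e ^ 2 := by ring
    rw [e1]; exact this
  exact ⟨fun h1 h2 h3 h4 h5 h6 => uni_scale hp he (n1 h1 h2 h3 h4 h5 h6), fun h1 => tr _ (n2 h1),
    fun h1 => tr _ (n3 h1), fun h1 => tr _ (n4 h1)⟩

/-- all entries are units at `p`: unimodular -/
theorem uni_of_unit {B K : Type} [CommRing B] [IsDomain B] [Field K] {φ : B →+* K} {p : B}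
    (hp : Prime p) {d : Fin 6 → K} (hd : ∀ i, UnitAt φ p (d i)) : Uni φ p (diagonal d) := by
  refine ⟨1, by simp, fun i j => ?_, ?_⟩
  · rw [transpose_one, one_mul, mul_one]
    by_cases h : i = j
    · subst h; rw [diagonal_apply_eq]; exact unitAt_int (hd i)
    · rw [diagonal_apply_ne _ h]; exact intAt_zero hp
  · simp only [transpose_one, one_mul, mul_one, det_diagonal]
    have : ∀ s : Finset (Fin 6), UnitAt φ p (∏ i ∈ s, d i) := by
      intro s
      induction s using Finset.induction_on with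
      | empty => simpa using unitAt_one hp
      | insert a s ha ih => rw [Finset.prod_insert ha]; exact unitAt_mul hp (hd a) ih
    exact this _

/-- exactly one of the slots `a j0` is odd at `p` -/
theorem case_ram (rnf : RnfStatement) {B K : Type} [CommRing B] [IsDomain B]
    [UniqueFactorizationMonoid B] [Field K] {φ : B →+* K} (hf : FracMap φ) (h2 : IsUnit (2 : B))
    (hi : ∃ i0 : B, i0 ^ 2 = -1) (a b : Fin 3 → K) (a' b' : Fin 2 → K) (ha : ∀ j, a j ≠ 0)
    (hb : ∀ j, b j ≠ 0) (ha' : ∀ j, a' j ≠ 0) (hb' : ∀ j, b' j ≠ 0)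
    (hs : SplitSyms (Fin.append a a') (Fin.append b b')) {p : B} (hp : Prime p)
    (j0 : Fin 3) {w : K} (hw : UnitAt φ p w) (hj : a j0 = φ p * w)
    (hau : ∀ j, j ≠ j0 → UnitAt φ p (a j)) (hbu : ∀ j, UnitAt φ p (b j))
    (hn : ¬ SqAt φ p (b j0)) :
    ∃ ε : ℕ, ε ≤ 1 ∧ ∃ v1 v2, Ram φ p (diagonal fun i => φ p ^ ε * albert a' b' i) v1 v2 ∧
      SqAt φ p (b j0 * (v1 * v2)) := by
  have hprod : (∏ j, (fun j => if j = j0 then w else a j) j ^ ((fun _ => 0 : Fin 3 → ℤ) j) *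
      b j ^ ((fun j => if j = j0 then 1 else 0 : Fin 3 → ℤ) j)) = b j0 := by
    rw [Finset.prod_eq_single j0]
    · simp
    · intro j _ hj; simp [hj]
    · simp
  have key := (rnf B K φ hf h2 hi p hp a b a' b' ha hb ha' hb' hs
    (fun j => if j = j0 then 1 else 0) (fun _ => 0) (fun j => if j = j0 then w else a j) b
    (fun j => by
      by_cases h : j = j0
      · simpa [h] using hw
      · simpa [h] using hau j h) hbu
    (fun j => by
      by_cases h : j = j0
      · simpa [h] using hj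
      · simp [h]) (fun j => by simp)).2
  rw [hprod] at key
  exact key hn

/-- all slots are units at `p` -/
theorem case_uni (rnf : RnfStatement) {B K : Type} [CommRing B] [IsDomain B]
    [UniqueFactorizationMonoid B] [Field K] {φ : B →+* K} (hf : FracMap φ) (h2 : IsUnit (2 : B))
    (hi : ∃ i0 : B, i0 ^ 2 = -1) (a b : Fin 3 → K) (a' b' : Fin 2 → K) (ha : ∀ j, a j ≠ 0)
    (hb : ∀ j, b j ≠ 0) (ha' : ∀ j, a' j ≠ 0) (hb' : ∀ j, b' j ≠ 0)
    (hs : SplitSyms (Fin.append a a') (Fin.append b b')) {p : B} (hp : Prime p)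
    (hau : ∀ j, UnitAt φ p (a j)) (hbu : ∀ j, UnitAt φ p (b j)) :
    ∃ ε : ℕ, ε ≤ 1 ∧ Uni φ p (diagonal fun i => φ p ^ ε * albert a' b' i) := by
  refine (rnf B K φ hf h2 hi p hp a b a' b' ha hb ha' hb' hs (fun _ => 0) (fun _ => 0) a b
    hau hbu (fun j => by simp) (fun j => by simp)).1 ?_
  simpa using sqAt_one hp

theorem two_unit [CharZero k] : IsUnit (2 : Polynomial (MvPolynomial (Fin 2) k)) := by
  have : (2 : Polynomial (MvPolynomial (Fin 2) k)) = Polynomial.C (MvPolynomial.C (2 : k)) := by rw [map_ofNat, map_ofNat]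
  rw [this]
  exact (((isUnit_iff_ne_zero.2 two_ne_zero).map MvPolynomial.C).map Polynomial.C)

theorem i0_exists [IsAlgClosed k] : ∃ i0 : Polynomial (MvPolynomial (Fin 2) k), i0 ^ 2 = -1 := by
  obtain ⟨z, hz⟩ := IsAlgClosed.exists_pow_nat_eq (-1 : k) (n := 2) (by norm_num)
  refine ⟨Polynomial.C (MvPolynomial.C z), ?_⟩
  rw [← map_pow, ← map_pow, hz]; simp

theorem bpoly_ne [CharZero k] : bpoly k ≠ 0 := by
  intro h
  exact X1_not_dvd_b k (h ▸ dvd_zero _)

theorem slotA (j : Fin 3) : aS k j = ch1 k ((![Polynomial.X,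
    Polynomial.X + Polynomial.C (MvPolynomial.X 0), Polynomial.C (MvPolynomial.X 1)] : Fin 3 → Polynomial (MvPolynomial (Fin 2) k)) j) := by
  fin_cases j
  · simp [aS, ch1_X]
  · simp [aS, ch1_X, ch1_C0, add_comm]
  · simp [aS, ch1_C1]

theorem slotB (h1eq : ch1 k = algebraMap _ (KK k)) (j : Fin 3) : bS k j = ch1 k
    ((![Polynomial.C (bpoly k), Polynomial.X - 1, Polynomial.X - 2] : Fin 3 → Polynomial (MvPolynomial (Fin 2) k)) j) := by
  fin_cases j
  · simp only [bS]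
    rw [h1eq]; rfl
  · simp [bS, ch1_X]
  · simp only [bS, Fin.reduceFinMk, Matrix.cons_val, map_sub, map_ofNat, ch1_X]

theorem prime_elim (ns : NonSquaresStatement) (nl : NLStatement) (rnf : RnfStatement)
    [IsAlgClosed k] [CharZero k] (h1eq : ch1 k = algebraMap _ (KK k)) (hf : FracMap (ch1 k))
    (a' b' : Fin 2 → KK k) (ha' : ∀ j, a' j ≠ 0) (hb' : ∀ j, b' j ≠ 0)
    (hs : SplitSyms (Fin.append (aS k) a') (Fin.append (bS k) b')) (p : Polynomial (MvPolynomial (Fin 2) k)) (hp : Prime p) :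
    ∃ ε : ℕ, ε ≤ 1 ∧ Norm k p (fun i => ch1 k p ^ ε * albert a' b' i) := by
  obtain ⟨-, -, -, -, ns1, ns2, -, nsb⟩ := ns k
  have hX : Prime (Polynomial.X : Polynomial (MvPolynomial (Fin 2) k)) := Polynomial.prime_X
  have hP1 : Prime (Polynomial.X + Polynomial.C (MvPolynomial.X 0) : Polynomial (MvPolynomial (Fin 2) k)) := prime_P1 k
  have hP2 : Prime (Polynomial.C (MvPolynomial.X 1) : Polynomial (MvPolynomial (Fin 2) k)) := prime_P2 k 1
  -- divisibility facts
  have x0 : (MvPolynomial.X 0 : MvPolynomial (Fin 2) k) ≠ 0 := MvPolynomial.X_ne_zero _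
  have x1 : (MvPolynomial.X 1 : MvPolynomial (Fin 2) k) ≠ 0 := MvPolynomial.X_ne_zero _
  have dX1 : ¬ (Polynomial.X : Polynomial (MvPolynomial (Fin 2) k)) ∣ Polynomial.X + Polynomial.C (MvPolynomial.X 0) := X_not_dvd_1 k
  have dX2 : ¬ (Polynomial.X : Polynomial (MvPolynomial (Fin 2) k)) ∣ Polynomial.C (MvPolynomial.X 1) := X_not_dvd_C k x1
  have dXb : ¬ (Polynomial.X : Polynomial (MvPolynomial (Fin 2) k)) ∣ Polynomial.C (bpoly k) := X_not_dvd_C k bpoly_ne
  have dXm1 : ¬ (Polynomial.X : Polynomial (MvPolynomial (Fin 2) k)) ∣ Polynomial.X - 1 := by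
    rw [Polynomial.X_dvd_iff]; simp
  have dXm2 : ¬ (Polynomial.X : Polynomial (MvPolynomial (Fin 2) k)) ∣ Polynomial.X - 2 := by
    rw [Polynomial.X_dvd_iff]
    simp [Polynomial.coeff_ofNat_zero]
  have d1X : ¬ (Polynomial.X + Polynomial.C (MvPolynomial.X 0) : Polynomial (MvPolynomial (Fin 2) k)) ∣ Polynomial.X := by
    rw [P1_dvd_iff]; simp [x0]
  have d12 : ¬ (Polynomial.X + Polynomial.C (MvPolynomial.X 0) : Polynomial (MvPolynomial (Fin 2) k)) ∣
      Polynomial.C (MvPolynomial.X 1) := by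
    rw [P1_dvd_iff]; simp [x1]
  have d1b : ¬ (Polynomial.X + Polynomial.C (MvPolynomial.X 0) : Polynomial (MvPolynomial (Fin 2) k)) ∣
      Polynomial.C (bpoly k) := by
    rw [P1_dvd_iff]; simp [bpoly_ne]
  have d1m1 : ¬ (Polynomial.X + Polynomial.C (MvPolynomial.X 0) : Polynomial (MvPolynomial (Fin 2) k)) ∣ Polynomial.X - 1 := by
    rw [P1_dvd_iff]
    intro h
    have := congrArg (MvPolynomial.eval (fun _ => (0 : k))) h
    simp at this
  have d1m2 : ¬ (Polynomial.X + Polynomial.C (MvPolynomial.X 0) : Polynomial (MvPolynomial (Fin 2) k)) ∣ Polynomial.X - 2 := by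
    rw [P1_dvd_iff]
    intro h
    have := congrArg (MvPolynomial.eval (fun _ => (0 : k))) h
    simp only [Polynomial.eval_sub, Polynomial.eval_X, Polynomial.eval_ofNat, map_sub, map_neg,
      MvPolynomial.eval_X, map_ofNat, map_zero] at this
    norm_num at this
  have d2 : ∀ q : Polynomial (MvPolynomial (Fin 2) k), IsUnit (q.coeff 1) → ¬ (Polynomial.C (MvPolynomial.X 1) : Polynomial (MvPolynomial (Fin 2) k)) ∣ q :=
    fun q hq => C_not_dvd_monic k (X_not_unit k 1) hq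
  have d2X : ¬ (Polynomial.C (MvPolynomial.X 1) : Polynomial (MvPolynomial (Fin 2) k)) ∣ Polynomial.X := d2 _ (by simp)
  have d21 : ¬ (Polynomial.C (MvPolynomial.X 1) : Polynomial (MvPolynomial (Fin 2) k)) ∣
      Polynomial.X + Polynomial.C (MvPolynomial.X 0) := d2 _ (by simp)
  have d2m1 : ¬ (Polynomial.C (MvPolynomial.X 1) : Polynomial (MvPolynomial (Fin 2) k)) ∣ Polynomial.X - 1 :=
    d2 _ (by simp [Polynomial.coeff_one])
  have d2m2 : ¬ (Polynomial.C (MvPolynomial.X 1) : Polynomial (MvPolynomial (Fin 2) k)) ∣ Polynomial.X - 2 :=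
    d2 _ (by simp [Polynomial.coeff_ofNat_succ])
  have d2b : ¬ (Polynomial.C (MvPolynomial.X 1) : Polynomial (MvPolynomial (Fin 2) k)) ∣ Polynomial.C (bpoly k) := by
    intro h
    rw [Polynomial.C_dvd_iff_dvd_coeff] at h
    exact X1_not_dvd_b k (by simpa using h 0)
  have haS : ∀ j, aS k j ≠ 0 := by
    intro j
    rw [slotA, Ne, map_eq_zero_iff _ hf.1]
    fin_cases j
    · exact hX.ne_zero
    · exact hP1.ne_zero
    · exact hP2.ne_zero
  have hbS : ∀ j, bS k j ≠ 0 := by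
    intro j
    rw [slotB h1eq, Ne, map_eq_zero_iff _ hf.1]
    fin_cases j
    · exact fun h => dXb ((show Polynomial.C (bpoly k) = (0 : Polynomial (MvPolynomial (Fin 2) k)) from h) ▸ dvd_zero _)
    · exact fun h => dXm1 ((show Polynomial.X - 1 = (0 : Polynomial (MvPolynomial (Fin 2) k)) from h) ▸ dvd_zero _)
    · exact fun h => dXm2 ((show Polynomial.X - 2 = (0 : Polynomial (MvPolynomial (Fin 2) k)) from h) ▸ dvd_zero _)
  have tr : ∀ {q : Polynomial (MvPolynomial (Fin 2) k)}, Associated p q → ∀ r : Polynomial (MvPolynomial (Fin 2) k), ¬ q ∣ r → ¬ p ∣ r :=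
    fun h r hr hh => hr (h.symm.dvd.trans hh)
  have bu : ∀ {q : Polynomial (MvPolynomial (Fin 2) k)}, Associated p q → ¬ q ∣ Polynomial.C (bpoly k) → ¬ q ∣ Polynomial.X - 1 →
      ¬ q ∣ Polynomial.X - 2 → ∀ j, UnitAt (ch1 k) p (bS k j) := by
    intro q hq e1 e2 e3 j
    rw [slotB h1eq]
    refine unitAt_map hp (tr hq _ ?_)
    fin_cases j
    · exact e1
    · exact e2
    · exact e3
  have au : ∀ {q : Polynomial (MvPolynomial (Fin 2) k)}, Associated p q → ∀ j, ¬ q ∣ ((![Polynomial.X,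
      Polynomial.X + Polynomial.C (MvPolynomial.X 0), Polynomial.C (MvPolynomial.X 1)] :
        Fin 3 → Polynomial (MvPolynomial (Fin 2) k)) j) → UnitAt (ch1 k) p (aS k j) := by
    intro q hq j h
    rw [slotA]
    exact unitAt_map hp (tr hq _ h)
  have wu : ∀ u : (Polynomial (MvPolynomial (Fin 2) k))ˣ, UnitAt (ch1 k) p (ch1 k (u : Polynomial (MvPolynomial (Fin 2) k))) := fun u =>
    unitAt_map hp fun hh => hp.not_isUnit (isUnit_of_dvd_unit hh u.isUnit)
  by_cases h0 : Associated p Polynomial.X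
  · obtain ⟨w, hw⟩ := id h0
    obtain ⟨ε, hε, v1, v2, hr, hs'⟩ := case_ram rnf hf two_unit i0_exists (aS k) (bS k) a' b'
      haS hbS ha' hb' hs hp 0 (wu w) (by rw [slotA, ← map_mul, hw]; rfl)
      (fun j hj => au h0 j (by fin_cases j; exacts [absurd rfl hj, dX1, dX2]))
      (bu h0 dXb dXm1 dXm2) (fun h => nsb nl (sqAt_assoc hp h0 h))
    exact ⟨ε, hε, fun h => absurd h0 h, fun _ => ⟨v1, v2, hr, hs'⟩,
      fun h => absurd (h0.symm.trans h).dvd dX1, fun h => absurd (h0.symm.trans h).dvd dX2⟩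
  by_cases h1 : Associated p (Polynomial.X + Polynomial.C (MvPolynomial.X 0))
  · obtain ⟨w, hw⟩ := id h1
    obtain ⟨ε, hε, v1, v2, hr, hs'⟩ := case_ram rnf hf two_unit i0_exists (aS k) (bS k) a' b'
      haS hbS ha' hb' hs hp 1 (wu w) (by rw [slotA, ← map_mul, hw]; rfl)
      (fun j hj => au h1 j (by fin_cases j; exacts [d1X, absurd rfl hj, d12]))
      (bu h1 d1b d1m1 d1m2) (fun h => ns1 (sqAt_assoc hp h1 h))
    exact ⟨ε, hε, fun _ h => absurd h1 h, fun h => absurd h h0, fun _ => ⟨v1, v2, hr, hs'⟩,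
      fun h => absurd (h1.symm.trans h).dvd d12⟩
  by_cases h2 : Associated p (Polynomial.C (MvPolynomial.X 1))
  · obtain ⟨w, hw⟩ := id h2
    obtain ⟨ε, hε, v1, v2, hr, hs'⟩ := case_ram rnf hf two_unit i0_exists (aS k) (bS k) a' b'
      haS hbS ha' hb' hs hp 2 (wu w) (by rw [slotA, ← map_mul, hw]; rfl)
      (fun j hj => au h2 j (by fin_cases j; exacts [d2X, d21, absurd rfl hj]))
      (bu h2 d2b d2m1 d2m2) (fun h => ns2 (sqAt_assoc hp h2 h))
    exact ⟨ε, hε, fun _ _ h => absurd h2 h, fun h => absurd h h0, fun h => absurd h h1,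
      fun _ => ⟨v1, v2, hr, hs'⟩⟩
  by_cases h3 : p ∣ Polynomial.X - 1 ∨ p ∣ Polynomial.X - 2 ∨ p ∣ Polynomial.C (bpoly k)
  · refine ⟨0, by norm_num, fun _ _ _ e1 e2 e3 => ?_, fun h => absurd h h0, fun h => absurd h h1,
      fun h => absurd h h2⟩
    rcases h3 with h | h | h
    · exact absurd h e1
    · exact absurd h e2
    · exact absurd h e3
  · push Not at h3
    obtain ⟨ε, hε, hu⟩ := case_uni rnf hf two_unit i0_exists (aS k) (bS k) a' b'
      haS hbS ha' hb' hs hp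
      (fun j => by
        rw [slotA]
        refine unitAt_map hp ?_
        fin_cases j
        · exact fun h => h0 (hp.associated_of_dvd hX h)
        · exact fun h => h1 (hp.associated_of_dvd hP1 h)
        · exact fun h => h2 (hp.associated_of_dvd hP2 h))
      (fun j => by
        rw [slotB h1eq]
        refine unitAt_map hp ?_
        fin_cases j
        · exact h3.2.2
        · exact h3.1
        · exact h3.2.1)
    exact ⟨ε, hε, fun _ _ _ _ _ _ => hu, fun h => absurd h h0, fun h => absurd h h1,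
      fun h => absurd h h2⟩

theorem albert_ne {K : Type} [Field K] {a b : Fin 2 → K} (ha : ∀ j, a j ≠ 0) (hb : ∀ j, b j ≠ 0)
    (i : Fin 6) : albert a b i ≠ 0 := by
  fin_cases i
  · exact ha 0
  · exact hb 0
  · exact mul_ne_zero (ha 0) (hb 0)
  · exact ha 1
  · exact hb 1
  · exact mul_ne_zero (ha 1) (hb 1)

/-- all primes not dividing some `F` are good -/
theorem almost_all (hf : FracMap (ch1 k)) {d : Fin 6 → KK k} (hd : ∀ i, d i ≠ 0) :
    ∃ F : Polynomial (MvPolynomial (Fin 2) k), F ≠ 0 ∧ ∀ p, Prime p → ¬ p ∣ F → Norm k p d := by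
  have h : ∀ i, ∃ a s : Polynomial (MvPolynomial (Fin 2) k), ch1 k s ≠ 0 ∧ ch1 k s * d i = ch1 k a := fun i => hf.2 (d i)
  choose a s hs e using h
  have ha : ∀ i, a i ≠ 0 := by
    intro i h0
    have := e i
    rw [h0, map_zero] at this
    exact mul_ne_zero (hs i) (hd i) this
  have hs0 : ∀ i, s i ≠ 0 := by
    intro i h0
    exact hs i (by rw [h0, map_zero])
  refine ⟨(∏ i, a i * s i) * (Polynomial.X * ((Polynomial.X + Polynomial.C (MvPolynomial.X 0)) *
    Polynomial.C (MvPolynomial.X 1))), ?_, fun p hp hF => ?_⟩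
  · have e1 : (∏ i, a i * s i) ≠ 0 :=
      Finset.prod_ne_zero_iff.2 fun i _ => mul_ne_zero (ha i) (hs0 i)
    have e2 := (prime_P1 k).ne_zero
    have e3 := (prime_P2 k 1).ne_zero
    exact mul_ne_zero e1 (mul_ne_zero Polynomial.X_ne_zero (mul_ne_zero e2 e3))
  · have h1 : ∀ i, ¬ p ∣ a i * s i := by
      intro i hi
      have e1 : a i * s i ∣ ∏ i, a i * s i :=
        Finset.dvd_prod_of_mem (fun i => a i * s i) (Finset.mem_univ i)
      exact hF (dvd_mul_of_dvd_left (hi.trans e1) _)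
    have h2 : ¬ p ∣ Polynomial.X := fun h => hF (dvd_mul_of_dvd_right (dvd_mul_of_dvd_left h _) _)
    have h3 : ¬ p ∣ (Polynomial.X + Polynomial.C (MvPolynomial.X 0)) := fun h =>
      hF (dvd_mul_of_dvd_right (dvd_mul_of_dvd_right (dvd_mul_of_dvd_left h _) _) _)
    have h4 : ¬ p ∣ (Polynomial.C (MvPolynomial.X 1)) := fun h =>
      hF (dvd_mul_of_dvd_right (dvd_mul_of_dvd_right (dvd_mul_of_dvd_right h _) _) _)
    have h5 : ∀ i, ¬ p ∣ a i := fun i h => h1 i (dvd_mul_of_dvd_left h _)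
    have h6 : ∀ i, ¬ p ∣ s i := fun i h => h1 i (dvd_mul_of_dvd_right h _)
    have h7 : ∀ i, UnitAt (ch1 k) p (d i) := fun i => ⟨a i, s i, h5 i, h6 i, e i⟩
    exact ⟨fun _ _ _ _ _ _ => uni_of_unit hp h7,
      fun h => absurd h.dvd h2, fun h => absurd h.dvd h3, fun h => absurd h.dvd h4⟩

theorem zpow_unit {B K : Type} [CommRing B] [IsDomain B] [Field K] {φ : B →+* K} (hf : FracMap φ)
    {p : B} (hp : Prime p) {x : K} (hx : UnitAt φ p x) (n : ℤ) : UnitAt φ p (x ^ n) := by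
  cases n with
  | ofNat n => rw [Int.ofNat_eq_natCast, zpow_natCast]; exact unitAt_pow hp hx n
  | negSucc n => rw [zpow_negSucc]; exact unitAt_inv hf (unitAt_pow hp hx _)

/-- the part at infinity -/
theorem at_inf (ns : NonSquaresStatement) (rnf : RnfStatement) (hbf : BFormsStatement)
    [IsAlgClosed k] [CharZero k] (h1eq : ch1 k = algebraMap _ (KK k)) (hf1 : FracMap (ch1 k))
    (hf : FracMap (ch4 k)) (a' b' : Fin 2 → KK k) (ha' : ∀ j, a' j ≠ 0) (hb' : ∀ j, b' j ≠ 0)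
    (hs : SplitSyms (Fin.append (aS k) a') (Fin.append (bS k) b')) (c : KK k) (hc : c ≠ 0) :
    ∃ ε : ℕ, ε ≤ 1 ∧ ∃ v1 v2, Ram (ch4 k) (Polynomial.C (MvPolynomial.X 0))
        (diagonal fun i => (xx k)⁻¹ ^ ε * (c * albert a' b' i)) v1 v2 ∧
        SqAt (ch4 k) (Polynomial.C (MvPolynomial.X 0)) ((zz k - 1) * (zz k - 2) * (v1 * v2)) := by
  obtain ⟨-, -, -, -, -, -, nsV, -⟩ := ns k
  obtain ⟨hb4, -, -, hb4n, -⟩ := hbf k
  set s : Polynomial (MvPolynomial (Fin 2) k) := Polynomial.C (MvPolynomial.X 0) with hsdef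
  have hp : Prime s := prime_P2 k 0
  have hs' : ch4 k s = (xx k)⁻¹ := ch4_C0 k
  have hx : xx k ≠ 0 := by
    intro h
    have := map_ne hf (p := (Polynomial.X : Polynomial (MvPolynomial (Fin 2) k))) (s := s) (X_not_dvd_C k (MvPolynomial.X_ne_zero 0))
    rw [hs', h] at this
    simp at this
  have hy : yy k ≠ 0 := by
    rw [← ch1_C1, Ne, map_eq_zero_iff _ hf1.1]; exact (prime_P2 k 1).ne_zero
  -- units at `s`
  have uz : UnitAt (ch4 k) s (zz k) := by
    rw [← ch4_X]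
    exact unitAt_map hp (C_not_dvd_monic k (X_not_unit k 0) (i := 1) (by simp))
  have uz1 : UnitAt (ch4 k) s (zz k - 1) := by
    have : zz k - 1 = ch4 k (Polynomial.X - 1) := by simp [ch4_X]
    rw [this]
    exact unitAt_map hp (C_not_dvd_monic k (X_not_unit k 0) (i := 1)
      (by simp [Polynomial.coeff_one]))
  have uz2 : UnitAt (ch4 k) s (zz k - 2) := by
    have : zz k - 2 = ch4 k (Polynomial.X - 2) := by rw [map_sub, map_ofNat, ch4_X]
    rw [this]
    exact unitAt_map hp (C_not_dvd_monic k (X_not_unit k 0) (i := 1)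
      (by simp [Polynomial.coeff_ofNat_succ]))
  have uxz : UnitAt (ch4 k) s (1 + zz k * (xx k)⁻¹) := by
    have : 1 + zz k * (xx k)⁻¹ = ch4 k (1 + Polynomial.X * s) := by
      simp [ch4_X, hs']
    rw [this]
    exact unitAt_map hp (C_not_dvd_monic k (X_not_unit k 0) (i := 0) (by simp))
  have uy : UnitAt (ch4 k) s (yy k / xx k) := by
    rw [← ch4_C1]
    refine unitAt_map hp ?_
    rw [hsdef, Polynomial.C_dvd_iff_dvd_coeff]
    intro h
    have h0 := h 0
    rw [Polynomial.coeff_C_zero] at h0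
    exact X0_not_dvd_X1 k h0
  have ub : UnitAt (ch4 k) s (ch4 k (Polynomial.C (b4 k))) := by
    refine unitAt_map hp ?_
    rw [hsdef, Polynomial.C_dvd_iff_dvd_coeff]
    intro h
    have h0 := h 0
    rw [Polynomial.coeff_C_zero] at h0
    refine hb4n 1 one_ne_zero 0 1 (fun h => X_not_unit k 0 (isUnit_of_dvd_one h)) ?_
    simpa using h0
  -- exponents
  set m : Fin 3 → ℤ := ![0, -1, -1] with hm
  set n : Fin 3 → ℤ := ![-6, 0, 0] with hn
  set u : Fin 3 → KK k := ![zz k, 1 + zz k * (xx k)⁻¹, yy k / xx k] with hu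
  set v : Fin 3 → KK k := ![ch4 k (Polynomial.C (b4 k)), zz k - 1, zz k - 2] with hv
  have hprod : (∏ j, u j ^ n j * v j ^ m j) =
      (zz k - 1) * (zz k - 2) * (((zz k) ^ 3 * (zz k - 1) * (zz k - 2))⁻¹) ^ 2 := by
    have e1 := unitAt_ne hf uz
    have e2 := unitAt_ne hf uz1
    have e3 := unitAt_ne hf uz2
    rw [Fin.prod_univ_three]
    simp only [hu, hv, hm, hn, Matrix.cons_val_zero, Matrix.cons_val_one, Matrix.cons_val]
    have e4 : (zz k) ^ (-6 : ℤ) = ((zz k) ^ 6)⁻¹ := by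
      rw [show (-6 : ℤ) = -((6 : ℕ) : ℤ) by norm_num, _root_.zpow_neg, zpow_natCast]
    rw [e4, _root_.zpow_neg_one, _root_.zpow_neg_one, zpow_zero, zpow_zero, zpow_zero]
    field_simp
  have hsx : ch4 k s ≠ 0 := by rw [hs']; exact inv_ne_zero hx
  have hau : ∀ j, UnitAt (ch4 k) s (u j) := by
    intro j; fin_cases j; exacts [uz, uxz, uy]
  have hbu : ∀ j, UnitAt (ch4 k) s (v j) := by
    intro j; fin_cases j; exacts [ub, uz1, uz2]
  have haj : ∀ j, aS k j = ch4 k s ^ m j * u j := by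
    intro j
    rw [hs']
    fin_cases j
    · simp [aS, hm, hu]
    · simp only [aS, hm, hu]
      show xx k + zz k = (xx k)⁻¹ ^ (-1 : ℤ) * (1 + zz k * (xx k)⁻¹)
      rw [_root_.zpow_neg_one]; field_simp
    · simp only [aS, hm, hu]
      show yy k = (xx k)⁻¹ ^ (-1 : ℤ) * (yy k / xx k)
      rw [_root_.zpow_neg_one]; field_simp
  have hbj : ∀ j, bS k j = ch4 k s ^ n j * v j := by
    intro j
    rw [hs']
    fin_cases j
    · show bb k = (xx k)⁻¹ ^ (-6 : ℤ) * ch4 k (Polynomial.C (b4 k))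
      rw [show (-6 : ℤ) = -((6 : ℕ) : ℤ) by norm_num, _root_.zpow_neg, zpow_natCast, hb4]
      field_simp
    · simp [bS, hn, hv]
    · simp [bS, hn, hv]
  have haS : ∀ j, aS k j ≠ 0 := by
    intro j; rw [haj]; exact mul_ne_zero (zpow_ne_zero _ hsx) (unitAt_ne hf (hau j))
  have hbS : ∀ j, bS k j ≠ 0 := by
    intro j; rw [hbj]; exact mul_ne_zero (zpow_ne_zero _ hsx) (unitAt_ne hf (hbu j))
  have key := (rnf _ (KK k) (ch4 k) hf two_unit i0_exists s hp (aS k) (bS k) a' b' haS hbS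
    ha' hb' hs m n u v hau hbu haj hbj).2
  rw [hprod] at key
  have uq : UnitAt (ch4 k) s ((zz k) ^ 3 * (zz k - 1) * (zz k - 2)) :=
    unitAt_mul hp (unitAt_mul hp (unitAt_pow hp uz 3) uz1) uz2
  have uq0 := unitAt_ne hf uq
  obtain ⟨ε', hε', v1, v2, hr, hsq⟩ := key (fun h => nsV (by
    have := sqAt_mul_sq hp h uq
    have e : (zz k - 1) * (zz k - 2) * (((zz k) ^ 3 * (zz k - 1) * (zz k - 2))⁻¹) ^ 2 *
      ((zz k) ^ 3 * (zz k - 1) * (zz k - 2)) ^ 2 = (zz k - 1) * (zz k - 2) := by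
      rw [mul_assoc, ← mul_pow, inv_mul_cancel₀ uq0]; ring
    rwa [e] at this))
  -- the scaling factor
  obtain ⟨N, w, hw, hcN⟩ := exists_zpow hf hp hc
  obtain ⟨ε, j, hε, hj⟩ : ∃ (ε : ℕ) (j : ℤ), ε ≤ 1 ∧ (ε : ℤ) + N = 2 * j + ε' := by
    rcases Int.even_or_odd' ((ε' : ℤ) - N) with ⟨t, ht | ht⟩
    · exact ⟨0, -t, by norm_num, by push_cast; omega⟩
    · exact ⟨1, -t, by norm_num, by push_cast; omega⟩
  refine ⟨ε, hε, w * v1, w * v2, ?_, ?_⟩
  · have h1 := ram_sq (c := ch4 k s ^ j) (zpow_ne_zero _ hsx) (ram_scale hp hw hr)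
    have e : (fun i => (xx k)⁻¹ ^ ε * (c * albert a' b' i)) =
        fun i => (ch4 k s ^ j) ^ 2 * (w * (ch4 k s ^ ε' * albert a' b' i)) := by
      funext i
      have e1 : (ch4 k s) ^ ε * ch4 k s ^ N = (ch4 k s ^ j) ^ 2 * ch4 k s ^ ε' := by
        rw [← zpow_natCast (ch4 k s) ε, ← zpow_natCast (ch4 k s) ε', ← zpow_add₀ hsx, hj,
          zpow_add₀ hsx, _root_.zpow_mul', zpow_ofNat]
      rw [← hs', hcN]
      linear_combination (w * albert a' b' i) * e1
    rw [e]; exact h1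
  · have := sqAt_mul_sq hp hsq (unitAt_mul hp uq hw)
    have e : (zz k - 1) * (zz k - 2) * (((zz k) ^ 3 * (zz k - 1) * (zz k - 2))⁻¹) ^ 2 * (v1 * v2) *
      ((zz k) ^ 3 * (zz k - 1) * (zz k - 2) * w) ^ 2 =
      (zz k - 1) * (zz k - 2) * (w * v1 * (w * v2)) := by
      generalize (zz k) ^ 3 * (zz k - 1) * (zz k - 2) = Q at uq0 ⊢
      field_simp
    rwa [e] at this

end main

end Tbl

open Tbl in
theorem table (rnf : RnfStatement) (sc : ScaleStatement) (hch : ChartsStatement)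
    (hb : BFormsStatement) (ns : NonSquaresStatement) (nl : NLStatement) : TableStatement := by
  intro k _ _ _ a' b' ha' hb' hs
  obtain ⟨h1eq, hf1, -, -, hf4, -⟩ := hch k
  obtain ⟨g, hg, hN⟩ := sc _ (KK k) (ch1 k) hf1 (fun p d => Prime p → Norm k p d)
    (fun p p' d h hN hp' => norm_assoc ((h.prime_iff).2 hp') h (hN ((h.prime_iff).2 hp')))
    (fun p d e hp he hN _ => norm_scale hp he (hN hp)) (albert a' b')
    (by
      obtain ⟨F, hF, h⟩ := almost_all hf1 (albert_ne ha' hb')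
      exact ⟨F, hF, fun p hp hd _ => h p hp hd⟩)
    (fun p hp => by
      obtain ⟨ε, hε, h⟩ := prime_elim ns nl rnf h1eq hf1 a' b' ha' hb' hs p hp
      exact ⟨ε, hε, fun _ => h⟩)
  have hg' : ch1 k g ≠ 0 := by
    rw [Ne, map_eq_zero_iff _ hf1.1]; exact hg
  refine ⟨fun i => ch1 k g * albert a' b' i, fun i => mul_ne_zero hg' (albert_ne ha' hb' i),
    fun p hp => hN p hp hp, ?_⟩
  exact at_inf ns rnf hb h1eq hf1 hf4 a' b' ha' hb' hs _ hg'

end Pool.Agent.PI
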