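import Pool.Agent.Lib.MP_43d240_ag.PI.GlobBase

/-!
# Project PI, module TR: transfer of primes between mutually localized rings
-/

set_option autoImplicit false
set_option linter.unusedVariables false

namespace Pool.Agent.PI

section transfer

variable {B1 B2 K : Type} [CommRing B1] [CommRing B2] [Field K]

/-- the elements of `B1` which are in the maximal ideal at the prime `p2` of `B2` -/
def trIdeal (φ1 : B1 →+* K) (φ2 : B2 →+* K) (t2 p2 : B2) (hp : Prime p2)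
    (ht : ∀ b : B1, ∃ (n : ℕ) (c : B2), φ1 b * φ2 t2 ^ n = φ2 c) (hpt : ¬ p2 ∣ t2) : Ideal B1 where
  carrier := {s | ∃ c d : B2, ¬ p2 ∣ d ∧ p2 ∣ c ∧ φ2 d * φ1 s = φ2 c}
  zero_mem' := ⟨0, 1, hp.not_dvd_one, dvd_zero _, by simp⟩
  add_mem' := by
    rintro s1 s2 ⟨c1, d1, hd1, hc1, h1⟩ ⟨c2, d2, hd2, hc2, h2⟩
    refine ⟨d2 * c1 + d1 * c2, d1 * d2, hp.not_dvd_mul hd1 hd2,
      dvd_add (hc1.mul_left _) (hc2.mul_left _), ?_⟩
    simp only [map_add, map_mul]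
    rw [← h1, ← h2]; ring
  smul_mem' := by
    rintro r s ⟨c, d, hd, hc, h⟩
    obtain ⟨n, c', h'⟩ := ht r
    refine ⟨c * c', d * t2 ^ n, hp.not_dvd_mul hd (fun h => hpt (hp.dvd_of_dvd_pow h)),
      hc.mul_right _, ?_⟩
    simp only [smul_eq_mul, map_mul, map_pow]
    rw [← h, ← h']; ring

end transfer

theorem transfer : TransferStatement := by
  intro B1 B2 K _ _ _ _ _ _ _ φ1 φ2 hf1 hf2 t1 t2 hml p2 hp2 hpt2 hut
  obtain ⟨hinj1, -⟩ := hf1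
  obtain ⟨hinj2, -⟩ := hf2
  obtain ⟨hm1, hm2⟩ := hml
  set P := trIdeal φ1 φ2 t2 p2 hp2 hm1 hpt2 with hP
  have memP : ∀ s, s ∈ P ↔ ∃ c d : B2, ¬ p2 ∣ d ∧ p2 ∣ c ∧ φ2 d * φ1 s = φ2 c := fun s => Iff.rfl
  have hpn : ∀ n, ¬ p2 ∣ t2 ^ n := fun n h => hpt2 (hp2.dvd_of_dvd_pow h)
  have hPprime : P.IsPrime := by
    refine ⟨?_, ?_⟩
    · intro htop
      have h1 : (1 : B1) ∈ P := by rw [htop]; trivial
      obtain ⟨c, d, hd, hc, h⟩ := (memP 1).1 h1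
      rw [map_one, mul_one] at h
      exact hd (hinj2 h ▸ hc)
    · intro r s hrs
      obtain ⟨c, d, hd, hc, h⟩ := (memP _).1 hrs
      obtain ⟨n, cr, hr⟩ := hm1 r
      obtain ⟨m, cs, hs⟩ := hm1 s
      have key : d * (cr * cs) = c * t2 ^ (n + m) := by
        apply hinj2
        simp only [map_mul, map_pow]
        rw [← h, ← hr, ← hs, map_mul, pow_add]; ring
      have hdvd : p2 ∣ d * (cr * cs) := key ▸ hc.mul_right _
      rcases (hp2.dvd_or_dvd hdvd).resolve_left hd |> hp2.dvd_or_dvd with h1 | h1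
      · exact Or.inl ((memP _).2 ⟨cr, t2 ^ n, hpn n, h1, by rw [map_pow, mul_comm, hr]⟩)
      · exact Or.inr ((memP _).2 ⟨cs, t2 ^ m, hpn m, h1, by rw [map_pow, mul_comm, hs]⟩)
  -- `t1` is not in `P`
  obtain ⟨a0, s0, ha0, hs0, h0⟩ := hut
  have ht1P : t1 ∉ P := by
    rintro ⟨c, d, hd, hc, h⟩
    have : d * a0 = s0 * c := by
      apply hinj2
      rw [map_mul, map_mul, ← h0, ← h]; ring
    exact (hp2.not_dvd_mul hd ha0) (this ▸ hc.mul_left _)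
  have ht1ne : φ1 t1 ≠ 0 := by
    intro h
    rw [h, mul_zero] at h0
    have : a0 = 0 := hinj2 (by rw [← h0, map_zero])
    exact ha0 (this ▸ dvd_zero _)
  -- powers of t1 times `φ2 s`, `p2 ∤ s`, are not in P
  have hnot : ∀ (s : B2) (m : ℕ) (s' : B1), ¬ p2 ∣ s → φ2 s * φ1 t1 ^ m = φ1 s' → s' ∉ P := by
    rintro s m s' hs hs' ⟨c, d, hd, hc, h⟩
    have : d * (s * a0 ^ m) = s0 ^ m * c := by
      apply hinj2
      simp only [map_mul, map_pow]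
      rw [← h0, ← h, ← hs']; ring
    exact (hp2.not_dvd_mul hd (hp2.not_dvd_mul hs (fun h => ha0 (hp2.dvd_of_dvd_pow h))))
      (this ▸ hc.mul_left _)
  -- the element b
  obtain ⟨k, b, hb⟩ := hm2 p2
  have hbP : b ∈ P := by
    refine (memP _).2 ⟨p2 * a0 ^ k, s0 ^ k, fun h => hs0 (hp2.dvd_of_dvd_pow h),
      dvd_mul_right _ _, ?_⟩
    simp only [map_mul, map_pow]
    rw [← hb, ← h0]; ring
  have hb0 : b ≠ 0 := by
    rintro rfl
    rw [map_zero] at hb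
    rcases mul_eq_zero.1 hb with h | h
    · exact hp2.ne_zero (hinj2 (by rw [h, map_zero]))
    · exact pow_ne_zero k ht1ne h
  obtain ⟨f, hfp, hfb⟩ := UniqueFactorizationMonoid.exists_prime_factors b hb0
  have hfP : f.prod ∈ P := by
    obtain ⟨u, hu⟩ := hfb
    have : f.prod = b * ((u⁻¹ : B1ˣ) : B1) := by rw [← hu]; simp
    rw [this]
    exact P.mul_mem_right _ hbP
  obtain ⟨p1, hp1f, hp1P⟩ := (hPprime.multiset_prod_mem_iff_exists_mem f).1 hfP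
  have hp1 : Prime p1 := hfp p1 hp1f
  have hp1b : p1 ∣ b := (Multiset.dvd_prod hp1f).trans hfb.dvd
  have hndvd : ∀ s, s ∉ P → ¬ p1 ∣ s := fun s hs h => hs (P.mem_of_dvd h hp1P)
  -- P is generated by p1
  have hPp1 : ∀ s, s ∈ P → p1 ∣ s := by
    rintro s ⟨c, d, hd, ⟨e, rfl⟩, h⟩
    obtain ⟨m, e', he'⟩ := hm2 e
    obtain ⟨j, d', hd'⟩ := hm2 d
    -- d' s t1^(k+m) = b e' t1^j
    have key : d' * (s * t1 ^ (k + m)) = b * (e' * t1 ^ j) := by
      apply hinj1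
      simp only [map_mul, map_pow]
      rw [← hb, ← he', ← hd', pow_add]
      calc φ2 d * φ1 t1 ^ j * (φ1 s * (φ1 t1 ^ k * φ1 t1 ^ m))
          = (φ2 d * φ1 s) * φ1 t1 ^ j * (φ1 t1 ^ k * φ1 t1 ^ m) := by ring
        _ = _ := by rw [h, map_mul]; ring
    have hd'P : d' ∉ P := hnot d j d' hd hd'
    have hdv : p1 ∣ d' * (s * t1 ^ (k + m)) := key ▸ hp1b.mul_right _
    rcases (hp1.dvd_or_dvd hdv).resolve_left (hndvd _ hd'P) |> hp1.dvd_or_dvd with h1 | h1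
    · exact h1
    · exact absurd (hp1.dvd_of_dvd_pow h1) (hndvd _ ht1P)
  refine ⟨p1, hp1, hndvd _ ht1P, ?_⟩
  intro x
  constructor
  · rintro ⟨a, s, hs, h⟩
    have hsP : s ∉ P := fun h => hs (hPp1 s h)
    obtain ⟨n, cs, hcs⟩ := hm1 s
    obtain ⟨m, ca, hca⟩ := hm1 a
    have hcsn : ¬ p2 ∣ cs := fun hd => hsP ((memP _).2 ⟨cs, t2 ^ n, hpn n, hd, by
      rw [map_pow, mul_comm, hcs]⟩)
    refine ⟨ca * t2 ^ n, cs * t2 ^ m, hp2.not_dvd_mul hcsn (hpn m), ?_⟩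
    simp only [map_mul, map_pow]
    rw [← hcs, ← hca, ← h]; ring
  · rintro ⟨a, s, hs, h⟩
    obtain ⟨n, a', ha'⟩ := hm2 a
    obtain ⟨m, s', hs'⟩ := hm2 s
    have hs'P : s' ∉ P := hnot s m s' hs hs'
    refine ⟨a' * t1 ^ m, s' * t1 ^ n, hp1.not_dvd_mul (hndvd _ hs'P)
      (fun h => hndvd _ ht1P (hp1.dvd_of_dvd_pow h)), ?_⟩
    simp only [map_mul, map_pow]
    rw [← hs', ← ha', ← h]; ring

end Pool.Agent.PI
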