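import Pool.Agent.Lib.MP_43d240_ag.PI.Rnf
import Pool.Agent.Lib.MP_43d240_ag.PI.Loc
import Pool.Agent.Lib.MP_43d240_ag.H22.Chart
import Pool.Agent.Lib.MP_43d240_ag.PI.Same
import Pool.Agent.Lib.MP_43d240_ag.PI.Transfer
import Pool.Agent.Lib.MP_43d240_ag.PI.Scale
import Pool.Agent.Lib.MP_43d240_ag.PI.Cls
import Pool.Agent.Lib.MP_43d240_ag.PI.Deg
import Pool.Agent.Lib.MP_43d240_ag.PI.Charts
import Pool.Agent.Lib.MP_43d240_ag.PI.Rev
import Pool.Agent.Lib.MP_43d240_ag.PI.BForms
import Pool.Agent.Lib.MP_43d240_ag.PI.NonSquares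
import Pool.Agent.Lib.MP_43d240_ag.PI.Table
import Pool.Agent.Lib.MP_43d240_ag.PI.C1
import Pool.Agent.Lib.MP_43d240_ag.PI.C2
import Pool.Agent.Lib.MP_43d240_ag.PI.C3
import Pool.Agent.Lib.MP_43d240_ag.PI.C4
import Pool.Agent.Lib.MP_43d240_ag.PI.Glob
import Pool.Agent.Lib.MP_43d240_ag.PI.Field
import Pool.Agent.Lib.MP_43d240_ag.PI.NL.Nl
import Pool.Agent.Lib.MP_43d240_ag.H56.Par
import Pool.Agent.Lib.MP_43d240_ag.PI.AlgAsm
import Pool.Agent.Lib.MP_43d240_ag.PI.Alg1
import Pool.Agent.Lib.MP_43d240_ag.PI.Alg2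
import Pool.Agent.Lib.MP_43d240_ag.PI.Alg2s
import Pool.Agent.Lib.MP_43d240_ag.PI.Alg3
import Pool.Agent.Lib.MP_43d240_ag.PI.Alg4
import Pool.Agent.Lib.MP_43d240_ag.PI.Alg5
import Pool.Agent.Lib.MP_43d240_ag.PI.Alg6
import Pool.Agent.Lib.MP_43d240_ag.PI.Alg7

/-!
# Project PI: the field theorem

For every algebraically closed field `k` of characteristic zero the tensor product of the three
quaternion algebras `(z, b)`, `(x + z, z - 1)`, `(y, z - 2)` over `k(x, y, z)` is a division algebra.
-/

set_option autoImplicit false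

namespace Pool.Agent.PI

theorem nlThm : NLStatement := NL.nl PiPar.par

theorem chartThm : ChartStatement := H22.chart_of_loc loc

theorem glob : GlobStatement :=
  glob_of (table rnf scale charts (bforms charts) (nonsquares charts) nlThm)
    (c1 chartThm nlThm charts deg_even)
    (c2 chartThm nlThm transfer charts (bforms charts) (nonsquares charts) deg_even)
    (c3 chartThm same transfer charts (rev charts) (bforms charts) (nonsquares charts))
    (c4 chartThm charts (bforms charts) (rev charts) transfer same) cls charts same transfer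

theorem nzd0 : Alg.Nzd0Statement :=
  Alg.nzd0_of Alg.a1 Alg.a2 Alg.a2s Alg.a3 Alg.a4 Alg.a5 Alg.a6 Alg.a7

/-- The field theorem. -/
theorem fieldStatement : FieldStatement := field_of nzd0 glob

/-- A division algebra of degree 8 and period 2 over `k(x, y, z)`. -/
theorem final : FinalStatement := final_of_field fieldStatement

end Pool.Agent.PI
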