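import Pool.Agent.Lib.MP_43d240_ag.PI.Val
import Pool.Agent.Lib.MP_43d240_ag.H99.Step1Def
import Pool.Agent.Lib.MP_43d240_ag.H36.LocalFinal

/-!
# Project PI, chapter LOC: the local lemma from step 1 (helper99) and step 2 (helper36)
-/

set_option autoImplicit false

open Matrix

namespace Pool.Agent.PI.H36

/-- the two special indices first -/
def e6 : Fin 2 ⊕ Fin 4 ≃ Fin 6 := (Equiv.sumComm (Fin 2) (Fin 4)).trans finSumFinEquiv

section
variable {R K : Type} [CommRing R] [IsDomain R] [Field K] {φ : R →+* K}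

theorem sq_rel_of (hφ : FracMap φ) {p : R} (hp : Prime p) {x f : R} (hf : ¬ p ∣ f)
    (h : SqAt φ p (φ f * φ x)) : ∃ s t : R, ¬ p ∣ s ∧ ¬ p ∣ t ∧ p ∣ s ^ 2 * x - t ^ 2 * f := by
  obtain ⟨w, ⟨a, s, ha, hs, hw⟩, h⟩ := h
  have h1 : CongAt φ p (φ (s ^ 2 * (f * x))) (φ (a ^ 2)) := by
    obtain ⟨t, ht, h⟩ := h
    refine ⟨φ s ^ 2 * t, ((intAt_phi hp s).pow hp 2).mul hp ht, ?_⟩
    simp only [map_mul, map_pow]
    rw [← hw]
    linear_combination (φ s ^ 2) * h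
  rw [congAt_phi hφ hp] at h1
  refine ⟨s * f, a, not_dvd_mul hp hs hf, ha, ?_⟩
  have h2 := Dvd.dvd.mul_right h1 f
  convert h2 using 1
  ring

theorem ram_to_R (hφ : FracMap φ) {p : R} (hp : Prime p) {D P PZ : Matrix (Fin 6) (Fin 6) K}
    {G QZ : Matrix (Fin 6) (Fin 6) R} {t : R} (hPG : Pᵀ * D * P = G.map φ) (ht : ¬ p ∣ t)
    (hQd : ¬ p ∣ QZ.det) (hPZ : φ t • PZ = P * QZ.map φ) {u : Fin 4 → K} {v1 v2 : K}
    (hu : ∀ i, UnitAt φ p (u i)) (hv1 : UnitAt φ p v1) (hv2 : UnitAt φ p v2)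
    (hdiag : PZᵀ * D * PZ = diagonal ![u 0, u 1, u 2, u 3, φ p * v1, φ p * v2]) :
    ∃ (Q : Matrix (Fin 2 ⊕ Fin 4) (Fin 2 ⊕ Fin 4) R) (U : Matrix (Fin 4) (Fin 4) R)
      (w1 w2 m : R), ¬ p ∣ m ∧ ¬ p ∣ Q.det ∧ ¬ p ∣ U.det ∧ ¬ p ∣ w1 ∧ ¬ p ∣ w2 ∧
        Qᵀ * G.submatrix e6 e6 * Q = fromBlocks (p • diagonal ![w1, w2]) 0 0 U ∧
        φ w1 = v1 * φ m ^ 2 ∧ φ w2 = v2 * φ m ^ 2 := by
  obtain ⟨a1, s1, ha1, hs1, h1⟩ := hv1
  obtain ⟨a2, s2, ha2, hs2, h2⟩ := hv2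
  have hss := not_dvd_mul hp hs1 hs2
  have hm := not_dvd_mul hp hss ht
  have hw1' : φ (s1 * s2 ^ 2 * t ^ 2 * a1) = v1 * φ (s1 * s2 * t) ^ 2 := by
    simp only [map_mul, map_pow]
    rw [← h1]; ring
  have hw2' : φ (s2 * s1 ^ 2 * t ^ 2 * a2) = v2 * φ (s1 * s2 * t) ^ 2 := by
    simp only [map_mul, map_pow]
    rw [← h2]; ring
  -- the Gram matrix over `K`
  have hK : (((s1 * s2) • QZ)ᵀ * G * ((s1 * s2) • QZ)).map φ
      = (φ (s1 * s2 * t)) ^ 2 • diagonal ![u 0, u 1, u 2, u 3, φ p * v1, φ p * v2] := by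
    have e1 : ((s1 * s2) • QZ).map φ = φ (s1 * s2) • QZ.map φ := by
      ext i j
      simp
    rw [Matrix.map_mul, Matrix.map_mul, Matrix.transpose_map, e1, ← hPG, ← hdiag]
    have e2 : (φ (s1 * s2) • QZ.map φ)ᵀ * (Pᵀ * D * P) * (φ (s1 * s2) • QZ.map φ)
        = (φ (s1 * s2) ^ 2) • ((P * QZ.map φ)ᵀ * D * (P * QZ.map φ)) := by
      rw [transpose_smul, transpose_mul, Matrix.smul_mul, Matrix.smul_mul, Matrix.mul_smul,
        smul_smul, ← pow_two]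
      simp only [Matrix.mul_assoc]
    rw [e2, ← hPZ, transpose_smul, Matrix.smul_mul, Matrix.smul_mul, Matrix.mul_smul, smul_smul,
      smul_smul]
    congr 1
    simp only [map_mul]; ring
  set Q : Matrix (Fin 2 ⊕ Fin 4) (Fin 2 ⊕ Fin 4) R := ((s1 * s2) • QZ).submatrix e6 e6 with hQ
  have hN : Qᵀ * G.submatrix e6 e6 * Q
      = (((s1 * s2) • QZ)ᵀ * G * ((s1 * s2) • QZ)).submatrix e6 e6 := by
    rw [hQ, transpose_submatrix, submatrix_mul_equiv, submatrix_mul_equiv]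
  set N := Qᵀ * G.submatrix e6 e6 * Q with hNdef
  have hNφ : ∀ i j, φ (N i j) = (φ (s1 * s2 * t)) ^ 2 *
      (diagonal ![u 0, u 1, u 2, u 3, φ p * v1, φ p * v2] (e6 i) (e6 j)) := by
    intro i j
    have := congrFun (congrFun hK (e6 i)) (e6 j)
    rw [hN]
    exact this
  refine ⟨Q, N.toBlocks₂₂, s1 * s2 ^ 2 * t ^ 2 * a1, s2 * s1 ^ 2 * t ^ 2 * a2, s1 * s2 * t, hm,
    ?_, ?_, ?_, ?_, ?_, hw1', hw2'⟩
  · rw [hQ, det_submatrix_equiv_self, det_smul]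
    exact not_dvd_mul hp (not_dvd_pow hp hss _) hQd
  · rw [← unitAt_phi hφ hp, RingHom.map_det]
    have h3 : φ.mapMatrix N.toBlocks₂₂ = diagonal (fun i : Fin 4 => φ (s1 * s2 * t) ^ 2 * u i) := by
      ext i j
      show φ (N (Sum.inr i) (Sum.inr j)) = _
      rw [hNφ]
      fin_cases i <;> fin_cases j <;> simp [e6, finSumFinEquiv, diagonal]
    rw [h3, det_diagonal]
    exact unitAt_prod hp _ _ fun i _ => (((unitAt_phi hφ hp).mpr hm).pow hp 2).mul hp (hu i)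
  · exact not_dvd_mul hp (not_dvd_mul hp (not_dvd_mul hp hs1 (not_dvd_pow hp hs2 2))
      (not_dvd_pow hp ht 2)) ha1
  · exact not_dvd_mul hp (not_dvd_mul hp (not_dvd_mul hp hs2 (not_dvd_pow hp hs1 2))
      (not_dvd_pow hp ht 2)) ha2
  · ext i j
    rw [← hφ.inj, hNφ]
    rcases i with i | i <;> rcases j with j | j
    · have k1 : (diagonal ![u 0, u 1, u 2, u 3, φ p * v1, φ p * v2] : Matrix (Fin 6) (Fin 6) K)
          (e6 (Sum.inl 0)) (e6 (Sum.inl 0)) = φ p * v1 := by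
        simp [e6, finSumFinEquiv, diagonal]
      have k2 : (diagonal ![u 0, u 1, u 2, u 3, φ p * v1, φ p * v2] : Matrix (Fin 6) (Fin 6) K)
          (e6 (Sum.inl 1)) (e6 (Sum.inl 1)) = φ p * v2 := by
        simp [e6, finSumFinEquiv, diagonal]
      have k3 : (diagonal ![u 0, u 1, u 2, u 3, φ p * v1, φ p * v2] : Matrix (Fin 6) (Fin 6) K)
          (e6 (Sum.inl 0)) (e6 (Sum.inl 1)) = 0 := by
        simp [e6, finSumFinEquiv, diagonal]
      have k4 : (diagonal ![u 0, u 1, u 2, u 3, φ p * v1, φ p * v2] : Matrix (Fin 6) (Fin 6) K)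
          (e6 (Sum.inl 1)) (e6 (Sum.inl 0)) = 0 := by
        simp [e6, finSumFinEquiv, diagonal]
      rw [fromBlocks_apply₁₁]
      match i, j with
      | 0, 0 =>
        rw [k1]
        show _ = φ (p * _)
        rw [map_mul φ p, diagonal_apply_eq]
        show _ = φ p * φ (s1 * s2 ^ 2 * t ^ 2 * a1)
        rw [hw1']; ring
      | 1, 1 =>
        rw [k2]
        show _ = φ (p * _)
        rw [map_mul φ p, diagonal_apply_eq]
        show _ = φ p * φ (s2 * s1 ^ 2 * t ^ 2 * a2)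
        rw [hw2']; ring
      | 0, 1 =>
        rw [k3]
        show _ = φ (p * _)
        rw [diagonal_apply_ne _ (by decide)]
        simp
      | 1, 0 =>
        rw [k4]
        show _ = φ (p * _)
        rw [diagonal_apply_ne _ (by decide)]
        simp
    · fin_cases i <;> fin_cases j <;> simp [e6, finSumFinEquiv, diagonal]
    · fin_cases i <;> fin_cases j <;> simp [e6, finSumFinEquiv, diagonal]
    · rw [fromBlocks_apply₂₂]
      exact (hNφ _ _).symm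

theorem diag_det (x : Fin 4 → K) (y z : K) :
    (diagonal ![x 0, x 1, x 2, x 3, y, z]).det = x 0 * x 1 * x 2 * x 3 * y * z := by
  rw [det_diagonal, Fin.prod_univ_six]
  rfl

theorem diag_int {p : R} (hp : Prime p) {u : Fin 4 → K} {v1 v2 : K}
    (hu : ∀ i, UnitAt φ p (u i)) (hv1 : UnitAt φ p v1) (hv2 : UnitAt φ p v2) (i j : Fin 6) :
    IntAt φ p ((diagonal ![u 0, u 1, u 2, u 3, φ p * v1, φ p * v2] : Matrix (Fin 6) (Fin 6) K)
      i j) := by
  by_cases hij : i = j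
  · subst hij
    rw [diagonal_apply_eq]
    fin_cases i
    · exact (hu 0).intAt
    · exact (hu 1).intAt
    · exact (hu 2).intAt
    · exact (hu 3).intAt
    · exact (intAt_phi hp p).mul hp hv1.intAt
    · exact (intAt_phi hp p).mul hp hv2.intAt
  · rw [diagonal_apply_ne _ hij]
    exact intAt_zero hp

theorem diag_unit {p : R} (hp : Prime p) {u : Fin 4 → K} {v1 v2 : K}
    (hu : ∀ i, UnitAt φ p (u i)) (hv1 : UnitAt φ p v1) (hv2 : UnitAt φ p v2) :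
    ∃ w : K, UnitAt φ p w ∧
      (diagonal ![u 0, u 1, u 2, u 3, φ p * v1, φ p * v2]).det = φ p ^ 2 * w := by
  refine ⟨u 0 * u 1 * u 2 * u 3 * v1 * v2, ?_, ?_⟩
  · exact (((((hu 0).mul hp (hu 1)).mul hp (hu 2)).mul hp (hu 3)).mul hp hv1).mul hp hv2
  · rw [diag_det]; ring

end

theorem loc_of_step1 (hstep : Pool.Agent.PI.H99.Step1Statement) : LocStatement := by
  intro R K _ _ _ _ _ _ φ hφ h2 hi Z g hZ hg hgZ hm d hd hUni c f v1 v2 hc hRam hcv hfv hfn hgd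
  obtain ⟨i0, hi0⟩ := hi
  obtain ⟨hv1, hv2, PZ, hPZ, u, hu, hdiag⟩ := hRam
  have hZu := hZ.not_isUnit
  have hfu : IsUnit f := by
    rw [← IsLocalRing.residue_ne_zero_iff_isUnit]
    intro h0
    rw [h0] at hfn
    exact hfn IsSquare.zero
  have hfZ : ¬ Z ∣ f := fun h => hZu (isUnit_of_dvd_unit h hfu)
  -- the common final step
  have key : ∀ (j : ℕ) (Pg : Matrix (Fin 6) (Fin 6) K), Pg.det ≠ 0 →
      (∀ i k, IntAt φ g ((Pgᵀ * diagonal d * Pg) i k)) →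
      (∃ w : K, UnitAt φ g w ∧ (Pgᵀ * diagonal d * Pg).det = φ g ^ j * w) →
      (j = 0 ∨ j = 2) →
      (j = 2 → ∃ (h : R) (w1 w2 : K) (uu : Fin 4 → K), UnitAt φ g w1 ∧ UnitAt φ g w2 ∧
        (∀ i, UnitAt φ g (uu i)) ∧
        Pgᵀ * diagonal d * Pg = diagonal ![uu 0, uu 1, uu 2, uu 3, φ g * w1, φ g * w2] ∧
        SqAt φ g (φ h * (w1 * w2)) ∧ ¬ IsSquare (IsLocalRing.residue R (f * h))) →
      ∃ (n : ℕ) (e r : R), IsUnit e ∧ c = g ^ (2 * n) * e + Z * r := by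
    intro j Pg hPg hint hdetg hj hgdat
    obtain ⟨P, G, QZ, Qg, tZ, tg, w, hP, hPG, hw, hGdet, htZ, hQZ, hPQZ, htg, hQg, hPQg⟩ :=
      hstep R K φ hφ Z g hZ hg hgZ hm d hd hUni PZ Pg hPZ hPg
        (fun i k => by rw [hdiag]; exact diag_int hZ hu hv1 hv2 i k) hint
        (by rw [hdiag]; exact diag_unit hZ hu hv1 hv2) j hdetg
    obtain ⟨Q, U, x1, x2, m, hmZ, hQd, hUd, hx1, hx2, hQG, hφ1, hφ2⟩ :=
      ram_to_R hφ hZ hPG htZ hQZ hPQZ hu hv1 hv2 hdiag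
    have hGs : Gᵀ = G := by
      ext i k
      rw [← hφ.inj]
      have h5 : (Pᵀ * diagonal d * P)ᵀ = Pᵀ * diagonal d * P := by
        rw [transpose_mul, transpose_mul, transpose_transpose, diagonal_transpose,
          Matrix.mul_assoc]
      rw [hPG] at h5
      exact congrFun (congrFun h5 i) k
    have hmU : UnitAt φ Z (φ m) := (unitAt_phi hφ hZ).mpr hmZ
    have hf' : SqAt φ Z (φ f * φ (x1 * x2)) := by
      have h5 : φ f * φ (x1 * x2) = φ f * (v1 * v2) * (φ m ^ 2) ^ 2 := by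
        rw [map_mul, hφ1, hφ2]; ring
      rw [h5, sqAt_mul_sq hφ hZ (hmU.pow hZ 2)]
      exact hfv
    obtain ⟨s, t, hs, ht, hst⟩ := sq_rel_of hφ hZ hfZ hf'
    have hc' : SqAt φ Z (φ 1 * φ (c * x1)) := by
      have h5 : φ 1 * φ (c * x1) = φ c * v1 * (φ m) ^ 2 := by
        rw [map_one, one_mul, map_mul, hφ1]; ring
      rw [h5, sqAt_mul_sq hφ hZ hmU]
      exact hcv
    obtain ⟨s0, t0, hs0, ht0, hst0⟩ := sq_rel_of hφ hZ
      (fun h => hZu (isUnit_of_dvd_one h)) hc'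
    rw [mul_one] at hst0
    refine Pool.Agent.MP_43d240_ag.H36.local_step2 hZ hg hgZ hm hi0 (G.submatrix e6 e6)
      (by rw [transpose_submatrix, hGs]) j hj w hw
      (by rw [det_submatrix_equiv_self, hGdet]) Q hQd U hUd x1 x2 hx1 hx2 hQG f s t hs ht hst hfn
      ?_ c s0 t0 hs0 ht0 hst0
    intro hj2
    obtain ⟨h, w1, w2, uu, hw1, hw2, huu, hdg, hsq, hns⟩ := hgdat hj2
    obtain ⟨Q', U', y1, y2, m', hmg, hQd', hUd', hy1, hy2, hQG', hφ1', hφ2'⟩ :=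
      ram_to_R hφ hg hPG htg hQg hPQg huu hw1 hw2 hdg
    have hhu : IsUnit h := by
      have h1 : IsUnit (f * h) := by
        rw [← IsLocalRing.residue_ne_zero_iff_isUnit]
        intro h0
        rw [h0] at hns
        exact hns IsSquare.zero
      exact isUnit_of_mul_isUnit_right h1
    have hhg : ¬ g ∣ h := fun hh => hg.not_isUnit (isUnit_of_dvd_unit hh hhu)
    have hmU' : UnitAt φ g (φ m') := (unitAt_phi hφ hg).mpr hmg
    have hf'' : SqAt φ g (φ h * φ (y1 * y2)) := by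
      have h5 : φ h * φ (y1 * y2) = φ h * (w1 * w2) * (φ m' ^ 2) ^ 2 := by
        rw [map_mul, hφ1', hφ2']; ring
      rw [h5, sqAt_mul_sq hφ hg (hmU'.pow hg 2)]
      exact hsq
    obtain ⟨s', t', hs', ht', hst'⟩ := sq_rel_of hφ hg hhg hf''
    exact ⟨Q', U', y1, y2, h, s', t', hQd', hQG', hs', ht', hst', hns⟩
  rcases hgd with ⟨Pg, hPg, hint, hdet⟩ | ⟨h, w1, w2, ⟨hw1, hw2, Pg, hPg, uu, huu, hdg⟩, hsq, hns⟩
  · exact key 0 Pg hPg hint ⟨_, hdet, by rw [pow_zero, one_mul]⟩ (Or.inl rfl)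
      (fun h => absurd h (by norm_num))
  · exact key 2 Pg hPg (fun i k => by rw [hdg]; exact diag_int hg huu hw1 hw2 i k)
      (by rw [hdg]; exact diag_unit hg huu hw1 hw2) (Or.inr rfl)
      (fun _ => ⟨h, w1, w2, uu, hw1, hw2, huu, hdg, hsq, hns⟩)

end Pool.Agent.PI.H36
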