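import Pool.Agent.Lib.MP_43d240_ag.PI.GlobBase

/-!
# Project PI, module NSQ: the nonsquare facts

Theorem `nonsquares (h : ChartsStatement) : NonSquaresStatement`.
-/

set_option autoImplicit false
set_option linter.unusedVariables false

open scoped Polynomial
open Matrix

namespace Pool.Agent.PI.NSQ

/-- a congruence with a square, cleared of denominators -/
theorem sqAt_elim {B K : Type} [CommRing B] [IsDomain B] [Field K] (φ : B →+* K)
    (hφ : Function.Injective φ) (p f : B) (hp : Prime p) (h : SqAt φ p (φ f)) :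
    ∃ a s : B, ¬ p ∣ s ∧ p ∣ f * s ^ 2 - a ^ 2 := by
  obtain ⟨w, ⟨a, s, ha, hs, hw⟩, t, ⟨a', s', hs', ht⟩, hxt⟩ := h
  refine ⟨a, s, hs, ?_⟩
  have key : s' * (f * s ^ 2 - a ^ 2) = p * (a' * s ^ 2) := by
    apply hφ
    simp only [map_mul, map_sub, map_pow]
    have h1 : φ f = w ^ 2 + φ p * t := by linear_combination hxt
    rw [← hw, ← ht, h1]
    ring
  exact (hp.dvd_or_dvd ⟨_, key⟩).resolve_left hs'

/-- `r` is not a square in the fraction field of a domain with an additive degree, if the degree of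
`r` is odd. -/
theorem odd_ne_sq {R : Type} [CommRing R] [IsDomain R] (deg : R → ℕ)
    (hd : ∀ a b, a ≠ 0 → b ≠ 0 → deg (a * b) = deg a + deg b) (r s a : R) (hr : Odd (deg r))
    (hr0 : r ≠ 0) (hs : s ≠ 0) : r * s ^ 2 ≠ a ^ 2 := by
  intro h
  have ha : a ≠ 0 := by
    rintro rfl
    rw [zero_pow two_ne_zero] at h
    exact (mul_ne_zero hr0 (pow_ne_zero 2 hs)) h
  have h1 := congrArg deg h
  rw [hd _ _ hr0 (pow_ne_zero 2 hs), pow_two, pow_two, hd _ _ hs hs, hd _ _ ha ha] at h1
  obtain ⟨m, hm⟩ := hr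
  omega

theorem odd_field_degree {R : Type} [CommRing R] [IsDomain R] [UniqueFactorizationMonoid R]
    (r : R) (hr : ∀ s a : R, s ≠ 0 → r * s ^ 2 ≠ a ^ 2) (G P Q : R[X]) (hG : Prime G)
    (hodd : Odd G.natDegree) (hQ : ¬ G ∣ Q) : ¬ G ∣ Polynomial.C r * Q ^ 2 - P ^ 2 := by
  classical
  intro hdvd
  obtain ⟨inst⟩ : Nonempty (NormalizedGCDMonoid R) := inferInstance
  have hr0 : r ≠ 0 := by
    rintro rfl
    exact hr 1 0 one_ne_zero (by ring)
  let L := FractionRing R
  have hprim : G.IsPrimitive := hG.irreducible.isPrimitive (by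
    rintro h0
    rw [h0] at hodd
    exact absurd hodd (by decide))
  have hirr : Irreducible (G.map (algebraMap R L)) :=
    (hprim.irreducible_iff_irreducible_map_fraction_map (K := L)).mp hG.irreducible
  have : Fact (Irreducible (G.map (algebraMap R L))) := ⟨hirr⟩
  set G' := G.map (algebraMap R L) with hG'
  let F := AdjoinRoot G'
  have hinj : Function.Injective (algebraMap R L) := IsFractionRing.injective R L
  have hG'0 : G' ≠ 0 := hirr.ne_zero
  have hQ' : AdjoinRoot.mk G' (Q.map (algebraMap R L)) ≠ 0 := by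
    rw [Ne, AdjoinRoot.mk_eq_zero]
    rintro ⟨H, hH⟩
    obtain ⟨c, hcm, hc⟩ := IsLocalization.integerNormalization_spec (nonZeroDivisors R) H
    have hc0 : (c : R) ≠ 0 := nonZeroDivisors.ne_zero hcm
    have h2 : Polynomial.C (c : R) * Q
        = G * IsLocalization.integerNormalization (nonZeroDivisors R) H := by
      apply Polynomial.map_injective (algebraMap R L) hinj
      rw [Polynomial.map_mul, Polynomial.map_mul, hc, hH, Polynomial.map_C, ← hG']
      rw [Algebra.smul_def]
      rw [show algebraMap R L[X] (c : R) = Polynomial.C (algebraMap R L (c : R)) from rfl]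
      ring
    rcases hG.dvd_or_dvd ⟨_, h2⟩ with h3 | h3
    · have h4 : (Polynomial.C (c : R)) ≠ 0 := by
        rwa [Ne, Polynomial.C_eq_zero]
      have h5 := Polynomial.natDegree_le_of_dvd h3 h4
      rw [Polynomial.natDegree_C] at h5
      have h6 : G.natDegree = 0 := by omega
      rw [h6] at hodd
      exact absurd hodd (by decide)
    · exact hQ h3
  let x : F := AdjoinRoot.mk G' (P.map (algebraMap R L)) / AdjoinRoot.mk G' (Q.map (algebraMap R L))
  have hx : x ^ 2 = algebraMap L F (algebraMap R L r) := by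
    have h1 : AdjoinRoot.mk G' ((Polynomial.C r * Q ^ 2 - P ^ 2).map (algebraMap R L)) = 0 := by
      rw [AdjoinRoot.mk_eq_zero]
      exact Polynomial.map_dvd _ hdvd
    simp only [Polynomial.map_sub, Polynomial.map_mul, Polynomial.map_pow, Polynomial.map_C,
      map_sub, map_mul, map_pow, AdjoinRoot.mk_C] at h1
    show (_ / _) ^ 2 = _
    rw [div_pow, div_eq_iff (pow_ne_zero 2 hQ')]
    rw [AdjoinRoot.algebraMap_eq]
    linear_combination -h1
  have hfin : Module.finrank L F = G.natDegree := by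
    have h1 := (AdjoinRoot.powerBasis hG'0).finrank
    rw [AdjoinRoot.powerBasis_dim] at h1
    rw [h1, hG', Polynomial.natDegree_map_eq_of_injective hinj]
  have hN := congrArg (Algebra.norm L) hx
  rw [map_pow, Algebra.norm_algebraMap, hfin] at hN
  obtain ⟨m, hm⟩ := hodd
  obtain ⟨a, s, hs, has⟩ := IsFractionRing.div_surjective (A := R) (Algebra.norm L x)
  have hs0 : s ≠ 0 := nonZeroDivisors.ne_zero hs
  have hs1 : algebraMap R L s ≠ 0 := by
    rw [Ne, FaithfulSMul.algebraMap_eq_zero_iff]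
    exact hs0
  apply hr (r ^ m * s) a (mul_ne_zero (pow_ne_zero _ hr0) hs0)
  apply hinj
  rw [← has, div_pow, div_eq_iff (pow_ne_zero 2 hs1), hm] at hN
  simp only [map_mul, map_pow]
  rw [hN]
  ring

theorem odd_degree (k : Type) [Field k] (γ : MvPolynomial (Fin 2) k) (hγ : Prime γ)
    (hodd : Odd (γ.degreeOf 0)) : NonSq γ (MvPolynomial.X 1 - 1) := by
  intro p q hq hdvd
  let e := MvPolynomial.finSuccEquiv k 1
  have hG : Prime (e γ) := (MulEquiv.prime_iff e.toMulEquiv).mpr hγ
  have hdeg : (e γ).natDegree = γ.degreeOf 0 := MvPolynomial.natDegree_finSuccEquiv γ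
  have hr : ∀ s a : MvPolynomial (Fin 1) k, s ≠ 0 →
      (MvPolynomial.X 0 - 1 : MvPolynomial (Fin 1) k) * s ^ 2 ≠ a ^ 2 := by
    intro s a hs
    have hdeg1 : (MvPolynomial.X 0 - 1 : MvPolynomial (Fin 1) k).totalDegree = 1 := by
      have h1 : (MvPolynomial.X 0 : MvPolynomial (Fin 1) k).totalDegree = 1 :=
        MvPolynomial.totalDegree_X _
      rw [show (MvPolynomial.X 0 - 1 : MvPolynomial (Fin 1) k)
        = MvPolynomial.X 0 + MvPolynomial.C (-1) by
          rw [map_neg, map_one]; ring]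
      rw [MvPolynomial.totalDegree_add_eq_left_of_totalDegree_lt]
      · exact h1
      · rw [h1, MvPolynomial.totalDegree_C]; exact one_pos
    apply odd_ne_sq (R := MvPolynomial (Fin 1) k) MvPolynomial.totalDegree
      (fun a b ha hb => MvPolynomial.totalDegree_mul_of_isDomain ha hb) _ _ _ _ _ hs
    · rw [hdeg1]; exact odd_one
    · intro h0
      rw [h0, MvPolynomial.totalDegree_zero] at hdeg1
      exact zero_ne_one hdeg1
  apply odd_field_degree (MvPolynomial.X 0 - 1 : MvPolynomial (Fin 1) k) hr (e γ) (e p) (e q) hG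
    (by rw [hdeg]; exact hodd)
  · intro h
    exact hq ((map_dvd_iff e).mp h)
  · have h1 : e ((MvPolynomial.X 1 - 1) * q ^ 2 - p ^ 2)
        = Polynomial.C (MvPolynomial.X 0 - 1 : MvPolynomial (Fin 1) k) * e q ^ 2 - e p ^ 2 := by
      have h2 : e (MvPolynomial.X 1) = Polynomial.C (MvPolynomial.X 0) :=
        MvPolynomial.finSuccEquiv_X_succ (n := 1) (j := 0)
      rw [map_sub, map_mul, map_sub, map_pow, map_pow, map_one, h2, map_sub, map_one]
    rw [← h1]
    exact (map_dvd_iff e).mpr hdvd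

/-- `r` is not a square in the fraction field if a prime divides it exactly once. -/
theorem prime_ne_sq {R : Type} [CommRing R] [IsDomain R] [WfDvdMonoid R] (l r' s a : R)
    (hl : Prime l) (hr : ¬ l ∣ r') (hs : s ≠ 0) : l * r' * s ^ 2 ≠ a ^ 2 := by
  intro h
  have hr0 : r' ≠ 0 := by
    rintro rfl
    exact hr (dvd_zero _)
  have ha : a ≠ 0 := by
    rintro rfl
    rw [zero_pow two_ne_zero] at h
    exact (mul_ne_zero (mul_ne_zero hl.ne_zero hr0) (pow_ne_zero 2 hs)) h
  obtain ⟨n, s', hs', rfl⟩ := WfDvdMonoid.max_power_factor hs hl.irreducible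
  obtain ⟨m, a', ha', rfl⟩ := WfDvdMonoid.max_power_factor ha hl.irreducible
  rcases Nat.lt_or_ge n m with hnm | hnm
  · obtain ⟨j, rfl⟩ := Nat.exists_eq_add_of_lt hnm
    have h1 : r' * s' ^ 2 = l * (l ^ (2 * j) * a' ^ 2) := by
      apply mul_left_cancel₀ (pow_ne_zero (2 * n + 1) hl.ne_zero)
      linear_combination h
    rcases hl.dvd_or_dvd ⟨_, h1⟩ with h2 | h2
    · exact hr h2
    · exact hs' (hl.dvd_of_dvd_pow h2)
  · obtain ⟨j, rfl⟩ := Nat.exists_eq_add_of_le hnm
    have h1 : a' ^ 2 = l * (l ^ (2 * j) * r' * s' ^ 2) := by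
      apply mul_left_cancel₀ (pow_ne_zero (2 * m) hl.ne_zero)
      linear_combination -h
    exact ha' (hl.dvd_of_dvd_pow ⟨_, h1⟩)

/-- restriction to `X0 = 0` -/
noncomputable def res0 (k : Type) [Field k] : MvPolynomial (Fin 2) k →+* k[X] :=
  ((MvPolynomial.uniqueAlgEquiv k (Fin 1)).toRingEquiv.toRingHom.comp
    Polynomial.constantCoeff).comp (MvPolynomial.finSuccEquiv k 1).toRingEquiv.toRingHom

theorem res0_apply (k : Type) [Field k] (q : MvPolynomial (Fin 2) k) :
    res0 k q = MvPolynomial.uniqueAlgEquiv k (Fin 1) ((MvPolynomial.finSuccEquiv k 1 q).coeff 0) :=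
  rfl

theorem res0_X0 (k : Type) [Field k] : res0 k (MvPolynomial.X 0) = 0 := by
  rw [res0_apply, MvPolynomial.finSuccEquiv_X_zero, Polynomial.coeff_X_zero, map_zero]

theorem res0_X1 (k : Type) [Field k] : res0 k (MvPolynomial.X 1) = Polynomial.X := by
  have h2 : MvPolynomial.finSuccEquiv k 1 (MvPolynomial.X 1) = Polynomial.C (MvPolynomial.X 0) :=
    MvPolynomial.finSuccEquiv_X_succ (n := 1) (j := 0)
  rw [res0_apply, h2, Polynomial.coeff_C_zero]
  simp [MvPolynomial.uniqueAlgEquiv]

theorem res0_eq_zero (k : Type) [Field k] (q : MvPolynomial (Fin 2) k) :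
    res0 k q = 0 ↔ MvPolynomial.X 0 ∣ q := by
  rw [res0_apply, map_eq_zero_iff _ (MvPolynomial.uniqueAlgEquiv k (Fin 1)).injective,
    ← Polynomial.X_dvd_iff, ← map_dvd_iff (MvPolynomial.finSuccEquiv k 1),
    MvPolynomial.finSuccEquiv_X_zero]

/-- restriction to `X1 = 0` -/
noncomputable def res1 (k : Type) [Field k] : MvPolynomial (Fin 2) k →+* k[X] :=
  (res0 k).comp (MvPolynomial.renameEquiv k (Equiv.swap (0 : Fin 2) 1)).toRingEquiv.toRingHom

theorem res1_apply (k : Type) [Field k] (q : MvPolynomial (Fin 2) k) :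
    res1 k q = res0 k (MvPolynomial.renameEquiv k (Equiv.swap (0 : Fin 2) 1) q) :=
  rfl

theorem res1_X1 (k : Type) [Field k] : res1 k (MvPolynomial.X 1) = 0 := by
  rw [res1_apply, MvPolynomial.renameEquiv_apply, MvPolynomial.rename_X, Equiv.swap_apply_right,
    res0_X0]

theorem res1_eq_zero (k : Type) [Field k] (q : MvPolynomial (Fin 2) k) :
    res1 k q = 0 ↔ MvPolynomial.X 1 ∣ q := by
  have h1 : MvPolynomial.renameEquiv k (Equiv.swap (0 : Fin 2) 1) (MvPolynomial.X 1)
      = MvPolynomial.X 0 := by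
    rw [MvPolynomial.renameEquiv_apply, MvPolynomial.rename_X, Equiv.swap_apply_right]
  rw [res1_apply, res0_eq_zero,
    ← map_dvd_iff (MvPolynomial.renameEquiv k (Equiv.swap (0 : Fin 2) 1)) (a := MvPolynomial.X 1),
    h1]

theorem map_eq_zero_iff_C_dvd {C R : Type} [CommRing C] [CommRing R] (τ : C →+* R) (x : C)
    (h : ∀ q, τ q = 0 ↔ x ∣ q) (f : C[X]) : f.map τ = 0 ↔ Polynomial.C x ∣ f := by
  rw [Polynomial.C_dvd_iff_dvd_coeff, Polynomial.ext_iff]
  refine forall_congr' fun n => ?_
  rw [Polynomial.coeff_map, Polynomial.coeff_zero, h]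

theorem map_eq_zero_iff_X_dvd {C : Type} [CommRing C] (f : C[X]) :
    f.eval 0 = 0 ↔ Polynomial.X ∣ f := by
  rw [Polynomial.X_dvd_iff, Polynomial.coeff_zero_eq_eval_zero]

/-- restriction to a prime -/
theorem nonSq_of_hom {B R : Type} [CommRing B] [CommRing R] (τ : B →+* R) (x f : B)
    (h : ∀ q, τ q = 0 ↔ x ∣ q) (hf : ∀ s a : R, s ≠ 0 → τ f * s ^ 2 ≠ a ^ 2) (a s : B)
    (hs : ¬ x ∣ s) : ¬ x ∣ f * s ^ 2 - a ^ 2 := by
  intro hd
  rw [← h] at hd hs
  rw [map_sub, map_mul, map_pow, map_pow, sub_eq_zero] at hd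
  exact hf _ _ hs hd

theorem not_sqAt {B K R : Type} [CommRing B] [IsDomain B] [Field K] [CommRing R] (φ : B →+* K)
    (hφ : Function.Injective φ) (τ : B →+* R) (x f : B) (hx : Prime x)
    (h : ∀ q, τ q = 0 ↔ x ∣ q) (hf : ∀ s a : R, s ≠ 0 → τ f * s ^ 2 ≠ a ^ 2) :
    ¬ SqAt φ x (φ f) := by
  intro hsq
  obtain ⟨a, s, hs, hd⟩ := sqAt_elim φ hφ x f hx hsq
  exact nonSq_of_hom τ x f h hf a s hs hd

theorem totalDegree_X_add_C {k : Type} [Field k] {σ : Type} (i : σ) (c : k) :
    (MvPolynomial.X i + MvPolynomial.C c : MvPolynomial σ k).totalDegree = 1 := by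
  have h1 : (MvPolynomial.X i : MvPolynomial σ k).totalDegree = 1 :=
    MvPolynomial.totalDegree_X _
  rw [MvPolynomial.totalDegree_add_eq_left_of_totalDegree_lt]
  · exact h1
  · rw [h1, MvPolynomial.totalDegree_C]; exact one_pos

end Pool.Agent.PI.NSQ

namespace Pool.Agent.PI

open NSQ

theorem nonsquares (h : ChartsStatement) : NonSquaresStatement := by
  intro k _ _ _
  obtain ⟨hch1, hf1, hf2, hf3, hf4, -, -, -, -⟩ := h k
  have h10 : (2 : k) - 1 ≠ 0 := by norm_num
  have h12 : (1 : k) - 2 ≠ 0 := by norm_num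
  have key1 : ∀ s a : k[X], s ≠ 0 →
      ((Polynomial.X - Polynomial.C 1) * (Polynomial.X - Polynomial.C 2) : k[X]) * s ^ 2 ≠ a ^ 2 := by
    intro s a hs
    apply prime_ne_sq _ _ _ _ (Polynomial.prime_X_sub_C _) _ hs
    rw [Polynomial.dvd_iff_isRoot]
    simp only [Polynomial.IsRoot, Polynomial.eval_sub, Polynomial.eval_X, Polynomial.eval_C]
    exact h12
  have e1 : (Polynomial.X - 1 : k[X]) = Polynomial.X - Polynomial.C 1 := by simp
  have e2 : (Polynomial.X - 2 : k[X]) = Polynomial.X - Polynomial.C 2 := by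
    rw [show (Polynomial.C 2 : k[X]) = 2 from rfl]
  refine ⟨fun γ hγ ho => odd_degree k γ hγ ho, ?_, ?_, ?_, ?_, ?_, ?_, ?_⟩
  · intro p q hq
    apply nonSq_of_hom (res0 k) _ _ (res0_eq_zero k) _ _ _ hq
    intro s a hs
    simp only [map_mul, map_sub, res0_X1, map_one, map_ofNat]
    rw [e1, e2]
    exact key1 s a hs
  · intro p q hq
    apply nonSq_of_hom (res0 k) _ _ (res0_eq_zero k) _ _ _ hq
    intro s a hs
    simp only [map_sub, res0_X1, map_one]
    rw [e1]
    have := prime_ne_sq (Polynomial.X - Polynomial.C (1 : k)) 1 s a (Polynomial.prime_X_sub_C _)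
      (fun h1 => (Polynomial.prime_X_sub_C (1 : k)).not_isUnit (isUnit_of_dvd_one h1)) hs
    rwa [mul_one] at this
  · intro p q hq
    apply nonSq_of_hom (res0 k) _ _ (res0_eq_zero k) _ _ _ hq
    intro s a hs
    simp only [map_mul, map_sub, res0_X1, map_one, map_ofNat]
    rw [e1, e2]
    have := prime_ne_sq (Polynomial.X - Polynomial.C (2 : k))
      ((Polynomial.X - Polynomial.C (1 : k)) * (Polynomial.X - Polynomial.C (1 : k))) s a
      (Polynomial.prime_X_sub_C _) (by
        rw [Polynomial.dvd_iff_isRoot]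
        simp only [Polynomial.IsRoot, Polynomial.eval_sub, Polynomial.eval_X, Polynomial.eval_C,
          Polynomial.eval_mul]
        exact mul_ne_zero h10 h10) hs
    intro h1
    apply this
    rw [← h1]
    ring
  · -- `x + z = 0`
    have hz : zz k - 1 = ch1 k (Polynomial.X - 1) := by
      rw [hch1, map_sub, map_one]; rfl
    rw [hz]
    have hp : (Polynomial.X + Polynomial.C (MvPolynomial.X 0) : (MvPolynomial (Fin 2) k)[X])
        = Polynomial.X - Polynomial.C (-MvPolynomial.X 0) := by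
      rw [map_neg]; ring
    rw [hp]
    apply not_sqAt (ch1 k) hf1.1 (Polynomial.evalRingHom (-MvPolynomial.X 0)) _ _
      (Polynomial.prime_X_sub_C _)
    · intro q
      rw [Polynomial.dvd_iff_isRoot]
      rfl
    · intro s a hs
      rw [Polynomial.coe_evalRingHom, Polynomial.eval_sub, Polynomial.eval_X, Polynomial.eval_one]
      apply odd_ne_sq MvPolynomial.totalDegree
        (fun a b ha hb => MvPolynomial.totalDegree_mul_of_isDomain ha hb) _ _ _ _ _ hs
      · rw [show (-MvPolynomial.X 0 - 1 : MvPolynomial (Fin 2) k)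
          = -(MvPolynomial.X 0 + MvPolynomial.C 1) by rw [map_one]; ring]
        rw [MvPolynomial.totalDegree_neg, totalDegree_X_add_C]
        exact odd_one
      · intro h0
        have h1 : (-MvPolynomial.X 0 - 1 : MvPolynomial (Fin 2) k)
          = -(MvPolynomial.X 0 + MvPolynomial.C 1) := by rw [map_one]; ring
        rw [h1, neg_eq_zero] at h0
        have h2 := totalDegree_X_add_C (0 : Fin 2) (1 : k)
        rw [h0, MvPolynomial.totalDegree_zero] at h2
        exact zero_ne_one h2
  · -- `y = 0`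
    have hz : zz k - 2 = ch1 k (Polynomial.X - 2) := by
      rw [hch1, map_sub, map_ofNat]; rfl
    rw [hz]
    have hprime : Prime (MvPolynomial.X 1 : MvPolynomial (Fin 2) k) := MvPolynomial.X_prime
    apply not_sqAt (ch1 k) hf1.1 (Polynomial.mapRingHom (res1 k)) _ _
      (Polynomial.prime_C_iff.mpr hprime)
    · intro q
      rw [Polynomial.coe_mapRingHom]
      exact map_eq_zero_iff_C_dvd (res1 k) _ (res1_eq_zero k) q
    · intro s a hs
      rw [Polynomial.coe_mapRingHom, Polynomial.map_sub, Polynomial.map_X, Polynomial.map_ofNat]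
      have e3 : (Polynomial.X - 2 : k[X][X]) = Polynomial.X - Polynomial.C 2 := by
        rw [show (Polynomial.C 2 : k[X][X]) = 2 from rfl]
      rw [e3]
      have := prime_ne_sq (Polynomial.X - Polynomial.C (2 : k[X])) 1 s a
        (Polynomial.prime_X_sub_C _)
        (fun h1 => (Polynomial.prime_X_sub_C (2 : k[X])).not_isUnit (isUnit_of_dvd_one h1)) hs
      rwa [mul_one] at this
  · -- infinity
    have hz : (zz k - 1) * (zz k - 2)
        = ch4 k ((Polynomial.X - Polynomial.C 1) * (Polynomial.X - Polynomial.C 2)) := by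
      simp [ch4, chartHom]
    rw [hz]
    have hprime : Prime (MvPolynomial.X 0 : MvPolynomial (Fin 2) k) := MvPolynomial.X_prime
    apply not_sqAt (ch4 k) hf4.1 (Polynomial.mapRingHom (res0 k)) _ _
      (Polynomial.prime_C_iff.mpr hprime)
    · intro q
      rw [Polynomial.coe_mapRingHom]
      exact map_eq_zero_iff_C_dvd (res0 k) _ (res0_eq_zero k) q
    · intro s a hs
      rw [Polynomial.coe_mapRingHom, Polynomial.map_mul, Polynomial.map_sub, Polynomial.map_X,
        Polynomial.map_C, Polynomial.map_sub, Polynomial.map_X, Polynomial.map_C, map_one,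
        map_ofNat]
      apply prime_ne_sq _ _ _ _ (Polynomial.prime_X_sub_C _) _ hs
      rw [Polynomial.dvd_iff_isRoot]
      simp only [Polynomial.IsRoot, Polynomial.eval_sub, Polynomial.eval_X, Polynomial.eval_C]
      rw [show (1 : k[X]) - 2 = Polynomial.C (1 - 2) by
        rw [map_sub, map_one, map_ofNat], Polynomial.C_eq_zero]
      exact h12
  · -- `z = 0`
    intro hnl hsq
    have hb : bb k = ch1 k (Polynomial.C (bpoly k)) := by
      rw [hch1]; rfl
    rw [hb] at hsq
    obtain ⟨a, s, hs, hd⟩ := sqAt_elim (ch1 k) hf1.1 _ _ Polynomial.prime_X hsq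
    rw [← map_eq_zero_iff_X_dvd] at hs hd
    rw [Polynomial.eval_sub, Polynomial.eval_mul, Polynomial.eval_C, Polynomial.eval_pow,
      Polynomial.eval_pow] at hd
    obtain ⟨v, hv⟩ : ∃ v : Fin 2 → k, MvPolynomial.eval v (Polynomial.eval 0 s) ≠ 0 := by
      by_contra hcon
      push Not at hcon
      apply hs
      apply MvPolynomial.funext
      intro v
      rw [hcon v, map_zero]
    have hirr : Irreducible (MvPolynomial.X 0 + MvPolynomial.C (-v 0) : MvPolynomial (Fin 2) k) := by
      apply MvPolynomial.irreducible_of_totalDegree_eq_one (totalDegree_X_add_C _ _)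
      intro x hx
      have h1 := hx (Finsupp.single 0 1)
      rw [MvPolynomial.coeff_add, MvPolynomial.coeff_C, if_neg, add_zero,
        MvPolynomial.coeff_X, if_pos rfl] at h1
      · exact isUnit_of_dvd_one h1
      · intro h2
        have := congrArg (fun f => f 0) h2
        simp at this
    have hns := hnl k _ hirr (by rw [totalDegree_X_add_C]; exact odd_one)
    apply hns (Polynomial.eval 0 a) (Polynomial.eval 0 s)
    · rintro ⟨t, ht⟩
      apply hv
      rw [ht]
      simp
    · rw [hd]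
      exact dvd_zero _

end Pool.Agent.PI
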