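import Pool.Agent.Lib.MP_43d240_ag.H33.RnfCore
import Pool.Agent.Lib.MP_43d240_ag.H66.Residues

/-!
# Chapter 2 (RNF) of project PI
-/

set_option autoImplicit false

namespace Pool.Agent.PI

theorem resStatement : ResStatement := by
  intro O K _ _ _ _ _ _ h2 hi r V _ _ _ hdim X Y a b hX hY hXY hc p hp m n u v ha hb
  exact Pool.Agent.Lib.MP_43d240_ag.H66.residues h2 hi hdim X Y a b hX hY hXY hc p hp m n u v ha hb

/-- Chapter 2: residues of a relation and normal form of the Albert form at a prime. -/
theorem rnf : RnfStatement := rnf_of_res resStatement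

end Pool.Agent.PI
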