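import Pool.Agent.Lib.MP_43d240_ag.PI.All

/-!
# Project PI: the field theorem over `Frac k[x, y, z]`
-/

set_option autoImplicit false
set_option linter.unusedVariables false

open scoped TensorProduct

namespace Pool.Agent.PI

theorem SplitSyms.map {K L : Type} [Field K] [Field L] (e : K →+* L) {r : ℕ} {a b : Fin r → K}
    (h : SplitSyms a b) : SplitSyms (fun i => e (a i)) (fun i => e (b i)) := by
  obtain ⟨X, Y, h1, h2, h3, h4⟩ := h
  have hs : ∀ (c : K), (c • (1 : Matrix (Fin (2 ^ r)) (Fin (2 ^ r)) K)).map e = e c • 1 := by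
    intro c
    ext i j
    by_cases hij : i = j
    · subst hij; simp
    · simp [hij]
  refine ⟨fun j => (X j).map e, fun j => (Y j).map e, ?_, ?_, ?_, ?_⟩
  · intro j
    rw [← Matrix.map_mul, h1 j, hs]
  · intro j
    rw [← Matrix.map_mul, h2 j, hs]
  · intro j
    rw [← Matrix.map_mul, ← Matrix.map_mul, h3 j]
    ext i l
    simp only [Matrix.map_apply, Matrix.neg_apply, map_neg]
  · intro i j hij
    obtain ⟨h5, h6, h7⟩ := h4 i j hij
    refine ⟨?_, ?_, ?_⟩ <;> rw [← Matrix.map_mul, ← Matrix.map_mul]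
    · rw [h5]
    · rw [h6]
    · rw [h7]

/-- `k[x,y,z] ≃ k[x,y][z]` -/
noncomputable def e3 (k : Type) [Field k] :
    MvPolynomial (Fin 3) k ≃ₐ[k] Polynomial (MvPolynomial (Fin 2) k) :=
  (MvPolynomial.renameEquiv k (finRotate 3)).trans (MvPolynomial.finSuccEquiv k 2)

theorem e3_X0 (k : Type) [Field k] :
    e3 k (MvPolynomial.X 0) = Polynomial.C (MvPolynomial.X 0) := by
  have : (finRotate 3) 0 = Fin.succ 0 := by decide
  simp only [e3, AlgEquiv.trans_apply, MvPolynomial.renameEquiv_apply, MvPolynomial.rename_X, this,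
    MvPolynomial.finSuccEquiv_X_succ]

theorem e3_X1 (k : Type) [Field k] :
    e3 k (MvPolynomial.X 1) = Polynomial.C (MvPolynomial.X 1) := by
  have : (finRotate 3) 1 = Fin.succ 1 := by decide
  simp only [e3, AlgEquiv.trans_apply, MvPolynomial.renameEquiv_apply, MvPolynomial.rename_X, this,
    MvPolynomial.finSuccEquiv_X_succ]

theorem e3_X2 (k : Type) [Field k] : e3 k (MvPolynomial.X 2) = Polynomial.X := by
  have : (finRotate 3) 2 = 0 := by decide
  simp only [e3, AlgEquiv.trans_apply, MvPolynomial.renameEquiv_apply, MvPolynomial.rename_X, this,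
    MvPolynomial.finSuccEquiv_X_zero]

/-- the isomorphism of fraction fields -/
noncomputable def eK (k : Type) [Field k] : FractionRing (MvPolynomial (Fin 3) k) ≃+* KK k :=
  IsFractionRing.ringEquivOfRingEquiv (e3 k).toRingEquiv

theorem eK_algebraMap (k : Type) [Field k] (p : MvPolynomial (Fin 3) k) :
    eK k (algebraMap _ _ p) = algebraMap _ (KK k) (e3 k p) := by
  simp [eK]

/-- the field theorem over any field `K` of characteristic zero that maps to `k(x,y,z)` so that the
elements `x, y, z` go to the variables -/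
theorem nozd_gen (k : Type) [Field k] [IsAlgClosed k] [CharZero k] (K : Type) [Field K]
    [CharZero K] (e : K →+* KK k) (x y z b : K) (hex : e x = xx k) (hey : e y = yy k)
    (hez : e z = zz k) (hb : b = 4 * y ^ 5 * (x - 2 * y) - 4 * y ^ 3 * (x - 2 * y) ^ 3 + y ^ 4
      + 30 * y ^ 2 * (x - 2 * y) ^ 2 - 27 * (x - 2 * y) ^ 4 + 24 * y * (x - 2 * y) + 4) :
    (∀ j, (![z, x + z, y] : Fin 3 → K) j ≠ 0) ∧ (∀ j, (![b, z - 1, z - 2] : Fin 3 → K) j ≠ 0) ∧
    NoZD (Q3 K ![z, x + z, y] ![b, z - 1, z - 2]) := by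
  have hbb : bb k = 4 * yy k ^ 5 * (xx k - 2 * yy k) - 4 * yy k ^ 3 * (xx k - 2 * yy k) ^ 3
      + yy k ^ 4 + 30 * yy k ^ 2 * (xx k - 2 * yy k) ^ 2 - 27 * (xx k - 2 * yy k) ^ 4
      + 24 * yy k * (xx k - 2 * yy k) + 4 := by
    let f : MvPolynomial (Fin 2) k →+* KK k :=
      (algebraMap (Polynomial (MvPolynomial (Fin 2) k)) (KK k)).comp Polynomial.C
    have h0 : bb k = f (bpoly k) := rfl
    have hx0 : f (MvPolynomial.X 0) = xx k := rfl
    have hy0 : f (MvPolynomial.X 1) = yy k := rfl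
    rw [h0]
    unfold bpoly
    simp only [map_add, map_sub, map_mul, map_pow, map_ofNat, hx0, hy0]
  have ha : ∀ j, e ((![z, x + z, y] : Fin 3 → K) j) = aS k j := by
    intro j
    fin_cases j
    · exact hez
    · show e (x + z) = xx k + zz k
      rw [map_add, hex, hez]
    · exact hey
  have hb : ∀ j, e ((![b, z - 1, z - 2] : Fin 3 → K) j) = bS k j := by
    intro j
    fin_cases j
    · show e b = bb k
      rw [hbb, hb]
      simp only [map_add, map_sub, map_mul, map_pow, hex, hey, map_ofNat]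
    · show e (z - 1) = zz k - 1
      rw [map_sub, hez, map_one]
    · show e (z - 2) = zz k - 2
      rw [map_sub, hez, map_ofNat]
  obtain ⟨h1, h2⟩ := slots_ne_zero k (bpoly_ne_zero k)
  have na : ∀ j, (![z, x + z, y] : Fin 3 → K) j ≠ 0 := by
    intro j h
    apply h1 j
    rw [← ha j, h, map_zero]
  have nb : ∀ j, (![b, z - 1, z - 2] : Fin 3 → K) j ≠ 0 := by
    intro j h
    apply h2 j
    rw [← hb j, h, map_zero]
  refine ⟨na, nb, ?_⟩
  refine nzd0 K _ _ na nb ?_
  intro a' b' ha' hb' hs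
  have hs' := hs.map e
  refine glob k (fun j => e (a' j)) (fun j => e (b' j)) ?_ ?_ ?_
  · intro j h
    exact ha' j ((map_eq_zero e).1 h)
  · intro j h
    exact hb' j ((map_eq_zero e).1 h)
  · convert hs' using 1
    · funext i
      refine Fin.addCases (fun j => ?_) (fun j => ?_) i
      · rw [Fin.append_left, Fin.append_left]; exact (ha j).symm
      · rw [Fin.append_right, Fin.append_right]
    · funext i
      refine Fin.addCases (fun j => ?_) (fun j => ?_) i
      · rw [Fin.append_left, Fin.append_left]; exact (hb j).symm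
      · rw [Fin.append_right, Fin.append_right]

theorem division_of_surj' (K D Q : Type) [Field K] [DivisionRing D] [Algebra K D]
    [FiniteDimensional K D] [Ring Q] [Algebra K Q] (eQ : D ≃ₐ[K] Q)
    (hs : Function.Surjective (AlgHom.mulLeftRight K D))
    (e : D ≃ₐ[K] Dᵐᵒᵖ) (hn : Module.finrank K D = 64) :
    ∃ (D : Type) (_ : DivisionRing D) (_ : Algebra K D), Nonempty (D ≃ₐ[K] Q) ∧
      Algebra.IsCentral K D ∧
      Module.finrank K D = 64 ∧ Nonempty (D ⊗[K] D ≃ₐ[K] Matrix (Fin 64) (Fin 64) K) := by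
  have haz : IsAzumaya K D := PIEnd.azumaya_of_surj hs
  refine ⟨D, inferInstance, inferInstance, ⟨eQ⟩, inferInstance, hn, ?_⟩
  let e1 : D ⊗[K] D ≃ₐ[K] D ⊗[K] Dᵐᵒᵖ := Algebra.TensorProduct.congr AlgEquiv.refl e
  let e2 : D ⊗[K] Dᵐᵒᵖ ≃ₐ[K] Module.End K D :=
    AlgEquiv.ofBijective (AlgHom.mulLeftRight K D) haz.bij
  let e3 : Module.End K D ≃ₐ[K] Matrix (Fin 64) (Fin 64) K :=
    algEquivMatrix (Module.finBasisOfFinrankEq K _ hn)
  exact ⟨e1.trans (e2.trans e3)⟩

theorem division_of_nozd (K : Type) [Field K] [CharZero K] (a b : Fin 3 → K) (ha : ∀ j, a j ≠ 0)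
    (hb : ∀ j, b j ≠ 0) (h : NoZD (Q3 K a b)) :
    ∃ (D : Type) (_ : DivisionRing D) (_ : Algebra K D), Nonempty (D ≃ₐ[K] Q3 K a b) ∧
      Algebra.IsCentral K D ∧
      Module.finrank K D = 64 ∧ Nonempty (D ⊗[K] D ≃ₐ[K] Matrix (Fin 64) (Fin 64) K) := by
  have hdom : IsDomain (Q3 K a b) := isDomain_Q3 _ _ _ h
  have hfd : FiniteDimensional K (Q3 K a b) := inferInstance
  let iD : DivisionRing (Q3 K a b) := divisionRingOfFiniteDimensional K (Q3 K a b)
  exact division_of_surj' K (Q3 K a b) (Q3 K a b) AlgEquiv.refl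
    (surj_Q3 K two_ne_zero a b ha hb) (opQ3 K a b) (finrank_Q3 _ _ _)

theorem trdeg_frac (k : Type) [Field k] :
    Algebra.trdeg k (FractionRing (MvPolynomial (Fin 3) k)) = 3 := by
  have h1 : Algebra.trdeg k (MvPolynomial (Fin 3) k) = 3 := by
    rw [MvPolynomial.trdeg_of_isDomain]; simp
  have : Algebra.IsAlgebraic (MvPolynomial (Fin 3) k) (FractionRing (MvPolynomial (Fin 3) k)) :=
    IsLocalization.isAlgebraic _ (nonZeroDivisors (MvPolynomial (Fin 3) k))
  have h4 : Algebra.trdeg (MvPolynomial (Fin 3) k) (FractionRing (MvPolynomial (Fin 3) k)) = 0 :=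
    trdeg_eq_zero
  rw [← trdeg_add_eq k (MvPolynomial (Fin 3) k), h1, h4, add_zero]

end Pool.Agent.PI
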